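import Pool.Agent.StarIB.Def

/-! # Module H: the weight is a mixture of centered boxes; reduction of `RI` -/

open MeasureTheory Set Metric Module
open scoped ENNReal RealInnerProductSpace

namespace StarIB

/-- The one-dimensional identity behind the mixture representation. -/
theorem volume_log_slab {t : ℝ} (ht : 0 < t) (z : ℝ) :
    (volume.restrict (Ioo (0 : ℝ) 1)) {x : ℝ | |z| < Real.sqrt (-Real.log x / t)} =
      ENNReal.ofReal (Real.exp (-(t * z ^ 2))) := by
  have hm : MeasurableSet {x : ℝ | |z| < Real.sqrt (-Real.log x / t)} := by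
    apply measurableSet_lt measurable_const
    exact ((Real.measurable_log.neg).div_const t).sqrt
  rw [Measure.restrict_apply hm]
  have hset : {x : ℝ | |z| < Real.sqrt (-Real.log x / t)} ∩ Ioo (0 : ℝ) 1 =
      Ioo 0 (Real.exp (-(t * z ^ 2))) := by
    ext x
    simp only [mem_inter_iff, mem_setOf_eq, mem_Ioo]
    have key : ∀ x : ℝ, 0 < x →
        (|z| < Real.sqrt (-Real.log x / t) ↔ x < Real.exp (-(t * z ^ 2))) := by
      intro x hx
      rw [Real.lt_sqrt (abs_nonneg z), sq_abs, lt_div_iff₀ ht, ← Real.log_lt_iff_lt_exp hx]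
      constructor
      · intro h; linarith
      · intro h; linarith
    constructor
    · rintro ⟨h1, h2, h3⟩
      exact ⟨h2, (key x h2).1 h1⟩
    · rintro ⟨h1, h2⟩
      refine ⟨(key x h1).2 h2, h1, lt_of_lt_of_le h2 ?_⟩
      rw [← Real.exp_zero]
      apply Real.exp_le_exp.2
      have : 0 ≤ t * z ^ 2 := by positivity
      linarith
  rw [hset, Real.volume_Ioo, sub_zero]

/-- `(1+|y|²)^{-s}` is a mixture of indicator functions of centered boxes. -/
theorem Wt_mix (d : ℕ) (s : ℝ) (hs : 0 < s) :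
    ∃ (Ξ : Type) (_ : MeasurableSpace Ξ) (ν : Measure Ξ) (_ : SFinite ν) (r : Ξ → Fin d → ℝ),
      Measurable r ∧ ∀ y : EuclideanSpace ℝ (Fin d), Wt d s y = ν {ξ | ∀ k, |y k| < r ξ k} := by
  set κ : ℝ → ℝ≥0∞ := fun t => ENNReal.ofReal ((Real.Gamma s)⁻¹ * (t ^ (s - 1) * Real.exp (-t)))
    with hκ
  have hκm : Measurable κ := by
    apply ENNReal.measurable_ofReal.comp
    apply Measurable.const_mul
    exact (measurable_id.pow_const _).mul (Real.measurable_exp.comp measurable_neg)
  let ν₁ : Measure ℝ := (volume.restrict (Ioi 0)).withDensity κ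
  let ν₂ : Measure (Fin d → ℝ) := Measure.pi (fun _ : Fin d => volume.restrict (Ioo (0 : ℝ) 1))
  let r : ℝ × (Fin d → ℝ) → Fin d → ℝ := fun ξ k => Real.sqrt (-Real.log (ξ.2 k) / ξ.1)
  have hr : Measurable r := by
    apply measurable_pi_lambda
    intro k
    apply Measurable.sqrt
    apply Measurable.div _ measurable_fst
    exact (Real.measurable_log.comp ((measurable_pi_apply k).comp measurable_snd)).neg
  refine ⟨ℝ × (Fin d → ℝ), inferInstance, ν₁.prod ν₂, inferInstance, r, hr, ?_⟩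
  intro y
  have hm : MeasurableSet {ξ : ℝ × (Fin d → ℝ) | ∀ k, |y k| < r ξ k} := by
    rw [show {ξ : ℝ × (Fin d → ℝ) | ∀ k, |y k| < r ξ k} = ⋂ k, {ξ | |y k| < r ξ k} by
      ext ξ; simp]
    apply MeasurableSet.iInter
    intro k
    exact measurableSet_lt measurable_const ((measurable_pi_apply k).comp hr)
  rw [Measure.prod_apply hm]
  have hmeas : Measurable (fun t => ν₂ (Prod.mk t ⁻¹' {ξ : ℝ × (Fin d → ℝ) | ∀ k, |y k| < r ξ k})) :=
    measurable_measure_prodMk_left hm
  rw [lintegral_withDensity_eq_lintegral_mul _ hκm hmeas]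
  have hcomp : ∀ t ∈ Ioi (0 : ℝ), (κ * fun t => ν₂ (Prod.mk t ⁻¹'
      {ξ : ℝ × (Fin d → ℝ) | ∀ k, |y k| < r ξ k})) t =
      ENNReal.ofReal ((Real.Gamma s)⁻¹ * (t ^ (s - 1) * Real.exp (-((1 + ‖y‖ ^ 2) * t)))) := by
    intro t ht
    have ht' : 0 < t := ht
    rw [Pi.mul_apply]
    have h1 : Prod.mk t ⁻¹' {ξ : ℝ × (Fin d → ℝ) | ∀ k, |y k| < r ξ k} =
        Set.univ.pi (fun k => {x : ℝ | |y k| < Real.sqrt (-Real.log x / t)}) := by
      ext x
      simp [r, Set.mem_pi]
    rw [h1, Measure.pi_pi]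
    simp_rw [volume_log_slab ht']
    rw [← ENNReal.ofReal_prod_of_nonneg (fun _ _ => (Real.exp_pos _).le), ← Real.exp_sum, hκ]
    show ENNReal.ofReal _ * _ = _
    rw [← ENNReal.ofReal_mul (by
      have := Real.Gamma_pos_of_pos hs
      positivity)]
    congr 1
    rw [mul_assoc, mul_assoc, ← Real.exp_add]
    congr 3
    rw [EuclideanSpace.norm_sq_eq]
    simp only [Real.norm_eq_abs, sq_abs, Finset.sum_neg_distrib, ← Finset.mul_sum]
    ring
  rw [setLIntegral_congr_fun measurableSet_Ioi hcomp]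
  have hy : 0 < 1 + ‖y‖ ^ 2 := by positivity
  have hG := Real.Gamma_pos_of_pos hs
  have hint := Real.integral_rpow_mul_exp_neg_mul_Ioi hs hy
  have hval : 0 < (1 / (1 + ‖y‖ ^ 2)) ^ s * Real.Gamma s := by positivity
  have hI : Integrable (fun t : ℝ => t ^ (s - 1) * Real.exp (-((1 + ‖y‖ ^ 2) * t)))
      (volume.restrict (Ioi 0)) := by
    by_contra h
    have := integral_undef h
    rw [this] at hint
    exact hval.ne hint
  rw [← ofReal_integral_eq_lintegral_ofReal (hI.const_mul _), integral_const_mul, hint]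
  · unfold Wt
    congr 1
    rw [one_div, Real.inv_rpow hy.le, Real.rpow_neg hy.le]
    field_simp
  · filter_upwards [ae_restrict_mem measurableSet_Ioi] with t ht
    have ht' : 0 < t := ht
    show (0 : ℝ) ≤ _
    positivity

end StarIB
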