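import Pool.Agent.StarIB.VF

/-! # Module N1: star bodies, radial functions, continuity and positivity of the spherical
Radon transform -/

open MeasureTheory Set Metric Module
open scoped ENNReal RealInnerProductSpace Pointwise

namespace StarIB

section radial
variable {E : Type*} [NormedAddCommGroup E] [InnerProductSpace ℝ E]

theorem radial_set {L : Set E} (hL : IsStarBody L) {u : E} (hu : u ≠ 0) :
    0 ≤ radial L u ∧ {c : ℝ | 0 ≤ c ∧ c • u ∈ L} = Icc 0 (radial L u) := by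
  set A : Set ℝ := {c : ℝ | 0 ≤ c ∧ c • u ∈ L} with hA
  have hne : A.Nonempty := ⟨0, le_rfl, by simpa using hL.zero_mem⟩
  have hcl : IsClosed A := by
    have h1 : IsClosed {c : ℝ | 0 ≤ c} := isClosed_Ici
    have h2 : IsClosed {c : ℝ | c • u ∈ L} :=
      hL.isCompact.isClosed.preimage (continuous_id.smul continuous_const)
    exact h1.inter h2
  have hbd : BddAbove A := by
    obtain ⟨B, hB⟩ := hL.isCompact.isBounded.exists_norm_le
    refine ⟨B / ‖u‖, ?_⟩
    rintro c ⟨hc0, hc⟩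
    have := hB _ hc
    rw [norm_smul, Real.norm_eq_abs, abs_of_nonneg hc0] at this
    rwa [le_div_iff₀ (norm_pos_iff.2 hu)]
  have hmem : radial L u ∈ A := hcl.csSup_mem hne hbd
  refine ⟨hmem.1, ?_⟩
  ext c
  constructor
  · intro hc
    exact ⟨hc.1, le_csSup hbd hc⟩
  · rintro ⟨h1, h2⟩
    refine ⟨h1, ?_⟩
    rcases hmem.1.eq_or_lt with h0 | h0
    · have : c = 0 := le_antisymm (h2.trans h0.symm.le) h1
      rw [this, zero_smul]; exact hL.zero_mem
    · have := hL.star _ hmem.2 (c / radial L u) (by positivity)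
        (by rw [div_le_one h0]; exact h2)
      rwa [smul_smul, div_mul_cancel₀ _ h0.ne'] at this

theorem mem_iff_radial {L : Set E} (hL : IsStarBody L) {u : E} (hu : u ≠ 0) {c : ℝ} (hc : 0 ≤ c) :
    c • u ∈ L ↔ c ≤ radial L u := by
  have h := (radial_set hL hu).2
  have h1 : c ∈ {c : ℝ | 0 ≤ c ∧ c • u ∈ L} ↔ c ∈ Icc 0 (radial L u) := by rw [h]
  simp only [mem_ofPred_eq, mem_Icc, hc, true_and] at h1
  exact h1

theorem radial_smul_set {L : Set E} {r : ℝ} (hr : 0 < r) (u : E) :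
    radial (r • L) u = r * radial L u := by
  unfold radial
  have : {c : ℝ | 0 ≤ c ∧ c • u ∈ r • L} = r • {c : ℝ | 0 ≤ c ∧ c • u ∈ L} := by
    ext c
    rw [mem_smul_set_iff_inv_smul_mem₀ hr.ne']
    simp only [mem_ofPred_eq, smul_eq_mul]
    rw [mem_smul_set_iff_inv_smul_mem₀ hr.ne', smul_smul]
    constructor
    · rintro ⟨h1, h2⟩; exact ⟨by positivity, h2⟩
    · rintro ⟨h1, h2⟩
      refine ⟨?_, h2⟩
      by_contra hcon
      push Not at hcon
      have := mul_neg_of_pos_of_neg (inv_pos.2 hr) hcon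
      linarith
  rw [this, Real.sSup_smul_of_nonneg hr.le, smul_eq_mul]

theorem radial_starSet {f : E → ℝ} (hf : ∀ u, ‖u‖ = 1 → 0 ≤ f u) {u : E} (hu : ‖u‖ = 1) :
    radial {x | ∃ u : E, ‖u‖ = 1 ∧ ∃ c : ℝ, 0 ≤ c ∧ c ≤ f u ∧ x = c • u} u = f u := by
  unfold radial
  have : {c : ℝ | 0 ≤ c ∧ c • u ∈ {x : E | ∃ u : E, ‖u‖ = 1 ∧ ∃ c : ℝ, 0 ≤ c ∧ c ≤ f u ∧ x = c • u}} =
      Icc 0 (f u) := by
    ext c
    simp only [mem_ofPred_eq, mem_Icc]
    constructor
    · rintro ⟨hc, u', hu', c', hc', hcf, he⟩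
      refine ⟨hc, ?_⟩
      have hn : c = c' := by
        have := congrArg norm he
        rwa [norm_smul, norm_smul, hu, hu', Real.norm_eq_abs, Real.norm_eq_abs,
          abs_of_nonneg hc, abs_of_nonneg hc', mul_one, mul_one] at this
      rcases hc.eq_or_lt with h0 | h0
      · rw [← h0]; exact hf u hu
      · subst hn
        have : u = u' := smul_right_injective E h0.ne' he
        rw [this]; exact hcf
    · rintro ⟨h1, h2⟩
      exact ⟨h1, u, hu, c, h1, h2, rfl⟩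
  rw [this, csSup_Icc (hf u hu)]

end radial

section sph
variable {E : Type*} [NormedAddCommGroup E] [InnerProductSpace ℝ E] [FiniteDimensional ℝ E]
  [MeasurableSpace E] [BorelSpace E]

omit [FiniteDimensional ℝ E] [MeasurableSpace E] [BorelSpace E] in
theorem sph_norm {u : E} (v : sphere (0 : (ℝ ∙ u)ᗮ) 1) : ‖((v : (ℝ ∙ u)ᗮ) : E)‖ = 1 := by
  have := v.2
  rw [mem_sphere_zero_iff_norm] at this
  exact this

theorem sphInt_congr {f g : E → ℝ} (h : ∀ x, ‖x‖ = 1 → f x = g x) (u : E) :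
    sphInt f u = sphInt g u := by
  unfold sphInt
  congr 1
  ext v
  exact h _ (sph_norm v)

theorem sphInt_nonneg {f : E → ℝ} (h : ∀ x, ‖x‖ = 1 → 0 ≤ f x) (u : E) : 0 ≤ sphInt f u := by
  unfold sphInt
  apply integral_nonneg
  intro v
  exact h _ (sph_norm v)

theorem interRadial_nonneg (i : ℝ) {L : Set E} (hL : ∀ x, ‖x‖ = 1 → 0 ≤ radial L x)
    (hE : 1 ≤ finrank ℝ E) (u : E) : 0 ≤ interRadial i L u := by
  unfold interRadial
  have h1 : (1 : ℝ) ≤ finrank ℝ E := by exact_mod_cast hE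
  apply mul_nonneg (inv_nonneg.2 (by linarith))
  apply sphInt_nonneg
  intro x hx
  exact Real.rpow_nonneg (hL x hx) i

theorem radial_interBody (i : ℝ) {L : Set E} (hL : ∀ x, ‖x‖ = 1 → 0 ≤ radial L x)
    (hE : 1 ≤ finrank ℝ E) {u : E} (hu : ‖u‖ = 1) :
    radial (interBody i L) u = interRadial i L u :=
  radial_starSet (fun u _ => interRadial_nonneg i hL hE u) hu

omit [FiniteDimensional ℝ E] [MeasurableSpace E] [BorelSpace E] in
theorem exists_rot {x y : E} (hx : ‖x‖ = 1) (hy : ‖y‖ = 1) (hxy : ‖x - y‖ ≤ 1) :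
    ∃ g : E ≃ₗᵢ[ℝ] E, g x = y ∧ ∀ z, ‖g z - z‖ ≤ 8 * ‖x - y‖ * ‖z‖ := by
  have hne : x + y ≠ 0 := by
    intro h
    have h1 : y = -x := by rw [eq_neg_iff_add_eq_zero, add_comm]; exact h
    rw [h1, sub_neg_eq_add, ← two_smul ℝ, norm_smul, hx] at hxy
    norm_num at hxy
  have hn1 : 1 ≤ ‖x + y‖ := by
    have h1 : ‖(2 : ℝ) • x‖ ≤ ‖x + y‖ + ‖x - y‖ := by
      have : (2 : ℝ) • x = (x + y) + (x - y) := by rw [two_smul]; abel
      rw [this]; exact norm_add_le _ _
    rw [norm_smul, hx] at h1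
    norm_num at h1
    linarith
  set b : E := ‖x + y‖⁻¹ • (x + y) with hb
  have hbn : ‖b‖ = 1 := by
    rw [hb, norm_smul, norm_inv, norm_norm, inv_mul_cancel₀ (norm_ne_zero_iff.2 hne)]
  -- reflections
  let ρ : E → (E ≃ₗᵢ[ℝ] E) := fun a => (ℝ ∙ a)ᗮ.reflection
  have hρ : ∀ a z : E, ‖a‖ = 1 → ρ a z = z - (2 * ⟪a, z⟫) • a := by
    intro a z ha
    show (ℝ ∙ a)ᗮ.reflection z = _
    rw [Submodule.reflection_orthogonal_apply, Submodule.reflection_singleton_apply, ha]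
    simp only [RCLike.ofReal_real_eq_id, id]
    norm_num
    rw [two_nsmul, mul_smul, two_smul]
  have hρρ : ∀ a z : E, ρ a (ρ a z) = z := fun a z => Submodule.reflection_reflection _ _
  refine ⟨(ρ x).trans (ρ b), ?_, ?_⟩
  · show ρ b (ρ x x) = y
    rw [hρ x x hx, hρ b _ hbn, real_inner_self_eq_norm_sq, hx, hb]
    have e1 : x - (2 * (1 : ℝ) ^ 2) • x = -x := by
      norm_num; rw [two_smul]; abel
    rw [e1, inner_neg_right, real_inner_smul_left, smul_smul, inner_add_left,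
      real_inner_self_eq_norm_sq, hx]
    have e2 : ‖x + y‖ ^ 2 = 2 * (1 + ⟪y, x⟫) := by
      rw [norm_add_sq_real, hx, hy, real_inner_comm]; ring
    have e3 : (1 : ℝ) ^ 2 + ⟪y, x⟫ = ‖x + y‖ ^ 2 / 2 := by rw [e2]; ring
    rw [e3]
    have hn : ‖x + y‖ ≠ 0 := norm_ne_zero_iff.2 hne
    have e4 : 2 * -(‖x + y‖⁻¹ * (‖x + y‖ ^ 2 / 2)) * ‖x + y‖⁻¹ = -1 := by field_simp
    rw [e4]
    module
  · intro z
    have hxb : ‖x - b‖ ≤ 2 * ‖x - y‖ := by
      have h1 : x - b = ‖x + y‖⁻¹ • ((‖x + y‖ - 2) • x + (x - y)) := by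
        rw [hb]
        have hn : ‖x + y‖ ≠ 0 := norm_ne_zero_iff.2 hne
        have hx1 : x = (‖x + y‖⁻¹ * ‖x + y‖) • x := by rw [inv_mul_cancel₀ hn, one_smul]
        generalize ‖x + y‖ = s at hx1
        calc x - s⁻¹ • (x + y) = (s⁻¹ * s) • x - s⁻¹ • (x + y) := by rw [← hx1]
          _ = _ := by module
      rw [h1, norm_smul, norm_inv, norm_norm]
      have h2 : ‖x + y‖⁻¹ ≤ 1 := inv_le_one_of_one_le₀ hn1
      have h3 : |‖x + y‖ - 2| ≤ ‖x - y‖ := by
        have a1 : ‖x + y‖ ≤ 2 := by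
          have := norm_add_le x y; rw [hx, hy] at this; linarith
        have a2 : 2 ≤ ‖x + y‖ + ‖x - y‖ := by
          have h1 : ‖(2 : ℝ) • x‖ ≤ ‖x + y‖ + ‖x - y‖ := by
            have : (2 : ℝ) • x = (x + y) + (x - y) := by rw [two_smul]; abel
            rw [this]; exact norm_add_le _ _
          rw [norm_smul, hx] at h1
          norm_num at h1
          linarith
        rw [abs_le]; constructor <;> linarith [norm_nonneg (x - y)]
      calc ‖x + y‖⁻¹ * ‖(‖x + y‖ - 2) • x + (x - y)‖ ≤ 1 * (‖(‖x + y‖ - 2) • x‖ + ‖x - y‖) := by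
            gcongr
            exact norm_add_le _ _
        _ ≤ 2 * ‖x - y‖ := by
            rw [norm_smul, hx, Real.norm_eq_abs]; linarith
    show ‖ρ b (ρ x z) - z‖ ≤ _
    have h1 : ρ b (ρ x z) - z = ρ b (ρ x z - ρ b z) := by
      rw [map_sub, hρρ]
    rw [h1, LinearIsometryEquiv.norm_map, hρ x z hx, hρ b z hbn]
    have h2 : z - (2 * ⟪x, z⟫) • x - (z - (2 * ⟪b, z⟫) • b) =
        (2 : ℝ) • (⟪b, z⟫ • (b - x) + (⟪b - x, z⟫) • x) := by
      rw [inner_sub_left]; module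
    rw [h2, norm_smul]
    have h3 : ‖(⟪b, z⟫ : ℝ) • (b - x) + (⟪b - x, z⟫ : ℝ) • x‖ ≤ 4 * ‖x - y‖ * ‖z‖ := by
      refine (norm_add_le _ _).trans ?_
      rw [norm_smul, norm_smul, hx, mul_one]
      have a1 : ‖(⟪b, z⟫ : ℝ)‖ ≤ ‖z‖ := by
        have := norm_inner_le_norm (𝕜 := ℝ) b z
        rwa [hbn, one_mul] at this
      have a2 : ‖(⟪b - x, z⟫ : ℝ)‖ ≤ ‖b - x‖ * ‖z‖ := norm_inner_le_norm (𝕜 := ℝ) _ _
      have a3 : ‖b - x‖ ≤ 2 * ‖x - y‖ := by rw [norm_sub_rev]; exact hxb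
      have a4 := norm_nonneg z
      have a5 := norm_nonneg (b - x)
      have a6 : ‖(⟪b, z⟫ : ℝ)‖ * ‖b - x‖ ≤ ‖z‖ * (2 * ‖x - y‖) := by gcongr
      have a7 : ‖b - x‖ * ‖z‖ ≤ 2 * ‖x - y‖ * ‖z‖ := by gcongr
      linarith
    rw [Real.norm_eq_abs, abs_of_pos (by norm_num : (0 : ℝ) < 2)]
    linarith

omit [FiniteDimensional ℝ E] [MeasurableSpace E] [BorelSpace E] in
theorem sph_continuous {f : E → ℝ} (hf : ContinuousOn f {x : E | x ≠ 0}) (u : E) :
    Continuous (fun v : sphere (0 : (ℝ ∙ u)ᗮ) 1 => f ((v : (ℝ ∙ u)ᗮ) : E)) := by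
  apply hf.comp_continuous
  · exact continuous_subtype_val.comp continuous_subtype_val
  · intro v
    have := sph_norm v
    intro h0
    rw [h0, norm_zero] at this
    exact zero_ne_one this

theorem sph_integrable {f : E → ℝ} (hf : ContinuousOn f {x : E | x ≠ 0}) (u : E) :
    Integrable (fun v : sphere (0 : (ℝ ∙ u)ᗮ) 1 => f ((v : (ℝ ∙ u)ᗮ) : E))
      ((volume : Measure (ℝ ∙ u)ᗮ).toSphere) :=
  (sph_continuous hf u).integrable_of_hasCompactSupport (HasCompactSupport.of_compactSpace _)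

theorem sphInt_pos {f : E → ℝ} (hf : ContinuousOn f {x : E | x ≠ 0})
    (h0 : ∀ x, ‖x‖ = 1 → 0 ≤ f x) {u y : E} (hy : ‖y‖ = 1) (huy : ⟪u, y⟫ = 0) (hpos : 0 < f y) :
    0 < sphInt f u := by
  unfold sphInt
  have hmem : y ∈ (ℝ ∙ u)ᗮ := Submodule.mem_orthogonal_singleton_iff_inner_right.2 huy
  have hsph : (⟨y, hmem⟩ : (ℝ ∙ u)ᗮ) ∈ sphere (0 : (ℝ ∙ u)ᗮ) 1 := by
    rw [mem_sphere_zero_iff_norm]; exact hy
  apply (sph_continuous hf u).integral_pos_of_hasCompactSupport_nonneg_nonzero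
    (HasCompactSupport.of_compactSpace _) (x := ⟨⟨y, hmem⟩, hsph⟩)
  · intro v; exact h0 _ (sph_norm v)
  · exact hpos.ne'

theorem continuousOn_sphInt {f : E → ℝ} (hf : ContinuousOn f {x : E | x ≠ 0}) :
    ContinuousOn (sphInt f) {x : E | x ≠ 0} := by
  -- continuity on the unit sphere
  have hS : ContinuousOn (sphInt f) (sphere (0 : E) 1) := by
    rw [Metric.continuousOn_iff]
    intro x hx ε hε
    rw [mem_sphere_zero_iff_norm] at hx
    have hfS : ContinuousOn f (sphere (0 : E) 1) := hf.mono (by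
      intro z hz h0
      rw [h0, mem_sphere_zero_iff_norm, norm_zero] at hz
      exact zero_ne_one hz)
    have hunif := (isCompact_sphere (0 : E) 1).uniformContinuousOn_of_continuous hfS
    rw [Metric.uniformContinuousOn_iff] at hunif
    set m := ((volume : Measure (ℝ ∙ x)ᗮ).toSphere).real univ with hm
    have hm0 : 0 ≤ m := measureReal_nonneg
    obtain ⟨δ, hδ, hδ'⟩ := hunif (ε / (m + 1)) (by positivity)
    refine ⟨min 1 (δ / 8), by positivity, ?_⟩
    intro y hy hyx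
    rw [mem_sphere_zero_iff_norm] at hy
    rw [dist_eq_norm, norm_sub_rev] at hyx
    obtain ⟨g, hg, hg'⟩ := exists_rot hx hy (hyx.le.trans (min_le_left _ _))
    have e1 : sphInt f y = sphInt (fun z => f (g z)) x := by rw [← hg, sphInt_map]
    have hfg : ContinuousOn (fun z => f (g z)) {x : E | x ≠ 0} :=
      hf.comp g.continuous.continuousOn (fun z hz => by simpa using hz)
    rw [dist_eq_norm, e1]
    have e2 : sphInt (fun z => f (g z)) x - sphInt f x =
        ∫ v : sphere (0 : (ℝ ∙ x)ᗮ) 1, (f (g ((v : (ℝ ∙ x)ᗮ) : E)) - f ((v : (ℝ ∙ x)ᗮ) : E))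
          ∂((volume : Measure (ℝ ∙ x)ᗮ).toSphere) := by
      unfold sphInt
      rw [integral_sub (sph_integrable hfg x) (sph_integrable hf x)]
    rw [e2]
    have e3 := norm_integral_le_of_norm_le_const (μ := (volume : Measure (ℝ ∙ x)ᗮ).toSphere)
      (f := fun v : sphere (0 : (ℝ ∙ x)ᗮ) 1 =>
        (f (g ((v : (ℝ ∙ x)ᗮ) : E)) - f ((v : (ℝ ∙ x)ᗮ) : E))) (C := ε / (m + 1))
      (by
        apply ae_of_all
        intro v
        have hv := sph_norm v
        have := hδ' (g ((v : (ℝ ∙ x)ᗮ) : E)) (by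
            rw [mem_sphere_zero_iff_norm, LinearIsometryEquiv.norm_map, hv])
          ((v : (ℝ ∙ x)ᗮ) : E) (by rw [mem_sphere_zero_iff_norm, hv]) (by
            rw [dist_eq_norm]
            refine lt_of_le_of_lt (hg' _) ?_
            rw [hv, mul_one]
            have := hyx.trans_le (min_le_right _ _)
            linarith)
        rw [dist_eq_norm] at this
        exact this.le)
    refine lt_of_le_of_lt e3 ?_
    rw [← hm, div_mul_eq_mul_div, div_lt_iff₀ (by positivity)]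
    nlinarith
  -- normalisation
  have hN : ContinuousOn (fun x : E => ‖x‖⁻¹ • x) {x : E | x ≠ 0} := by
    apply ContinuousOn.smul _ continuousOn_id
    apply ContinuousOn.inv₀ continuous_norm.continuousOn
    intro x hx; exact norm_ne_zero_iff.2 hx
  have hcomp := hS.comp hN (by
    intro x hx
    rw [mem_sphere_zero_iff_norm, norm_smul, norm_inv, norm_norm,
      inv_mul_cancel₀ (norm_ne_zero_iff.2 hx)])
  refine hcomp.congr ?_
  intro x hx
  simp only [Function.comp]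
  rw [sphInt_smul _ _ _ (inv_ne_zero (norm_ne_zero_iff.2 hx))]

/-- the solution pair attached to a star body -/
theorem sol_of_starBody (hE : 3 ≤ finrank ℝ E) (i r : ℝ) (hi : 0 < i) (hr : 0 < r) (L : Set E)
    (hL : IsStarBody L) (h : interBody i (interBody i L) = r • L)
    (hne : ∃ x : E, ‖x‖ = 1 ∧ radial L x ≠ 0) :
    Sol i (r * ((finrank ℝ E : ℝ) - 1))⁻¹ ((finrank ℝ E : ℝ) - 1)⁻¹
      (fun x => radial L (‖x‖⁻¹ • x)) (interRadial i L) := by
  have hn1 : (3 : ℝ) ≤ finrank ℝ E := by exact_mod_cast hE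
  have hn0 : 0 < (finrank ℝ E : ℝ) - 1 := by linarith
  have hrad0 : ∀ x : E, ‖x‖ = 1 → 0 ≤ radial L x := fun x hx =>
    (radial_set hL (by intro h0; rw [h0, norm_zero] at hx; exact zero_ne_one hx)).1
  set u : E → ℝ := fun x => radial L (‖x‖⁻¹ • x) with hu
  set v : E → ℝ := interRadial i L with hv
  have hNn : ∀ x : E, x ≠ 0 → ‖‖x‖⁻¹ • x‖ = 1 := fun x hx => by
    rw [norm_smul, norm_inv, norm_norm, inv_mul_cancel₀ (norm_ne_zero_iff.2 hx)]
  have hu1 : ∀ x : E, ‖x‖ = 1 → u x = radial L x := by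
    intro x hx; simp only [hu, hx, inv_one, one_smul]
  have hcu : ContinuousOn u {x : E | x ≠ 0} := by
    have hN : ContinuousOn (fun x : E => ‖x‖⁻¹ • x) {x : E | x ≠ 0} := by
      apply ContinuousOn.smul _ continuousOn_id
      apply ContinuousOn.inv₀ continuous_norm.continuousOn
      intro x hx; exact norm_ne_zero_iff.2 hx
    exact hL.cont.comp hN (by
      intro x hx
      rw [mem_sphere_zero_iff_norm]; exact hNn x hx)
  have heqv : ∀ x, v x = ((finrank ℝ E : ℝ) - 1)⁻¹ * sphInt (fun y => u y ^ i) x := by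
    intro x
    simp only [hv, interRadial]
    congr 1
    apply sphInt_congr
    intro y hy
    rw [hu1 y hy]
  have hcui : ContinuousOn (fun y => u y ^ i) {x : E | x ≠ 0} :=
    hcu.rpow_const (fun x _ => Or.inr hi.le)
  have hcv : ContinuousOn v {x : E | x ≠ 0} := by
    have : v = fun x => ((finrank ℝ E : ℝ) - 1)⁻¹ * sphInt (fun y => u y ^ i) x := funext heqv
    rw [this]
    exact (continuousOn_sphInt hcui).const_smul (((finrank ℝ E : ℝ) - 1)⁻¹)
  have hcvi : ContinuousOn (fun y => v y ^ i) {x : E | x ≠ 0} :=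
    hcv.rpow_const (fun x _ => Or.inr hi.le)
  have hv0 : ∀ x, 0 ≤ v x := fun x => interRadial_nonneg i hrad0 (by omega) x
  have hIrad : ∀ x : E, ‖x‖ = 1 → radial (interBody i L) x = v x := fun x hx =>
    radial_interBody i hrad0 (by omega) hx
  have hequ1 : ∀ x, ‖x‖ = 1 → u x = (r * ((finrank ℝ E : ℝ) - 1))⁻¹ * sphInt (fun y => v y ^ i) x := by
    intro x hx
    have h1 : radial (interBody i (interBody i L)) x = interRadial i (interBody i L) x := by
      apply radial_interBody i _ (by omega) hx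
      intro y hy
      rw [hIrad y hy]; exact hv0 y
    rw [h, radial_smul_set hr] at h1
    have h2 : interRadial i (interBody i L) x =
        ((finrank ℝ E : ℝ) - 1)⁻¹ * sphInt (fun y => v y ^ i) x := by
      unfold interRadial
      congr 1
      apply sphInt_congr
      intro y hy
      rw [hIrad y hy]
    rw [hu1 x hx]
    rw [h2] at h1
    rw [mul_inv, mul_assoc, ← h1]
    field_simp
  have homu : ∀ x : E, x ≠ 0 → ∀ s : ℝ, 0 < s → u (s • x) = u x := by
    intro x hx s hs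
    simp only [hu]
    congr 1
    rw [norm_smul, Real.norm_eq_abs, abs_of_pos hs, smul_smul]
    congr 1
    field_simp
  have homv : ∀ x : E, ∀ s : ℝ, s ≠ 0 → v (s • x) = v x := by
    intro x s hs
    rw [heqv, heqv, sphInt_smul _ _ _ hs]
  have hequ : ∀ x, x ≠ 0 → u x = (r * ((finrank ℝ E : ℝ) - 1))⁻¹ * sphInt (fun y => v y ^ i) x := by
    intro x hx
    have h1 := hequ1 (‖x‖⁻¹ • x) (hNn x hx)
    rw [homu x hx _ (inv_pos.2 (norm_pos_iff.2 hx)),
      sphInt_smul _ _ _ (inv_ne_zero (norm_ne_zero_iff.2 hx))] at h1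
    exact h1
  -- positivity
  obtain ⟨x₀, hx₀, hx₀'⟩ := hne
  have hu0 : ∀ x, x ≠ 0 → 0 ≤ u x := fun x hx => hrad0 _ (hNn x hx)
  have hupos : 0 < u x₀ := by
    rw [hu1 x₀ hx₀]; exact lt_of_le_of_ne (hrad0 x₀ hx₀) (Ne.symm hx₀')
  have hne0 : ∀ x : E, ‖x‖ = 1 → x ≠ 0 := by
    intro x hx h0; rw [h0, norm_zero] at hx; exact zero_ne_one hx
  have hvpos1 : ∀ y : E, ⟪y, x₀⟫ = 0 → 0 < v y := by
    intro y hy
    rw [heqv]
    apply mul_pos (inv_pos.2 hn0)
    apply sphInt_pos hcui (fun x hx => Real.rpow_nonneg (hu0 x (hne0 x hx)) i) hx₀ hy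
    exact Real.rpow_pos_of_pos hupos i
  have huposall : ∀ x, x ≠ 0 → 0 < u x := by
    intro x hx
    -- a unit vector orthogonal to x and x₀
    obtain ⟨y, hy, hyx, hyx₀⟩ : ∃ y : E, ‖y‖ = 1 ∧ ⟪x, y⟫ = 0 ∧ ⟪y, x₀⟫ = 0 := by
      have hlt : finrank ℝ (Submodule.span ℝ ({x, x₀} : Set E)) < finrank ℝ E := by
        have : finrank ℝ (Submodule.span ℝ ({x, x₀} : Set E)) ≤ 2 := by
          classical
          have h1 := finrank_span_finset_le_card (R := ℝ) ({x, x₀} : Finset E)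
          have h2 : (({x, x₀} : Finset E) : Set E) = {x, x₀} := by simp
          rw [h2] at h1
          exact h1.trans Finset.card_le_two
        omega
      have hne : Submodule.span ℝ ({x, x₀} : Set E) ≠ ⊤ := by
        intro h0
        rw [h0, finrank_top] at hlt
        exact lt_irrefl _ hlt
      have hne2 : (Submodule.span ℝ ({x, x₀} : Set E))ᗮ ≠ ⊥ := by
        intro h0
        apply hne
        rwa [Submodule.orthogonal_eq_bot_iff] at h0
      obtain ⟨w, hw, hw0⟩ := Submodule.exists_mem_ne_zero_of_ne_bot hne2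
      have hwx : ⟪x, w⟫ = 0 := hw x (Submodule.subset_span (by simp))
      have hwx₀ : ⟪x₀, w⟫ = 0 := hw x₀ (Submodule.subset_span (by simp))
      refine ⟨‖w‖⁻¹ • w, hNn w hw0, ?_, ?_⟩
      · rw [real_inner_smul_right, hwx, mul_zero]
      · rw [real_inner_smul_left, real_inner_comm, hwx₀, mul_zero]
    rw [hequ x hx]
    apply mul_pos (by positivity)
    apply sphInt_pos hcvi (fun x _ => Real.rpow_nonneg (hv0 x) i) hy hyx
    exact Real.rpow_pos_of_pos (hvpos1 y hyx₀) i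
  have hvposall : ∀ x, x ≠ 0 → 0 < v x := by
    intro x hx
    obtain ⟨y, hy, hyx⟩ : ∃ y : E, ‖y‖ = 1 ∧ ⟪x, y⟫ = 0 := by
      have hne2 : (ℝ ∙ x)ᗮ ≠ ⊥ := by
        intro h0
        rw [Submodule.orthogonal_eq_bot_iff] at h0
        have h1 : finrank ℝ (ℝ ∙ x) = finrank ℝ E := by rw [h0, finrank_top]
        rw [finrank_span_singleton hx] at h1
        omega
      obtain ⟨w, hw, hw0⟩ := Submodule.exists_mem_ne_zero_of_ne_bot hne2
      have hwx : ⟪x, w⟫ = 0 := hw x (Submodule.mem_span_singleton_self x)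
      exact ⟨‖w‖⁻¹ • w, hNn w hw0, by rw [real_inner_smul_right, hwx, mul_zero]⟩
    rw [heqv]
    apply mul_pos (inv_pos.2 hn0)
    apply sphInt_pos hcui (fun x hx => Real.rpow_nonneg (hu0 x (hne0 x hx)) i) hy hyx
    exact Real.rpow_pos_of_pos (huposall y (hne0 y hy)) i
  exact ⟨homu, fun x _ s hs => homv x s hs.ne', hcu, hcv, huposall, hvposall, hequ,
    fun x _ => heqv x⟩

end sph

end StarIB
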