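import Mathlib

/-!
# MP_f3a9fd_gt: star bodies homothetic to their iterated intersection body of order i

Definitions (radial functions, star bodies, intersection bodies of order `i`) and the interfaces
(`Sol`, `RI`, `IsReg`) used by the modules of the proof.
-/

open MeasureTheory Set Metric Module
open scoped ENNReal RealInnerProductSpace

namespace StarIB

/-! ## Star bodies and intersection bodies of order `i` -/

section General

variable {E : Type*} [NormedAddCommGroup E] [InnerProductSpace ℝ E]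

/-- The radial function `ρ_L(u) = max {c ≥ 0 : c u ∈ L}` of a set `L`. -/
noncomputable def radial (L : Set E) (u : E) : ℝ := sSup {c : ℝ | 0 ≤ c ∧ c • u ∈ L}

/-- A star body: a compact set, star-shaped with respect to the origin `o` (so `o ∈ L`), whose
radial function is continuous on the unit sphere. -/
structure IsStarBody (L : Set E) : Prop where
  isCompact : IsCompact L
  zero_mem : (0 : E) ∈ L
  star : ∀ x ∈ L, ∀ t : ℝ, 0 ≤ t → t ≤ 1 → t • x ∈ L
  cont : ContinuousOn (radial L) (sphere (0 : E) 1)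

variable [FiniteDimensional ℝ E] [MeasurableSpace E] [BorelSpace E]

/-- `∫_{S ∩ u^⊥} f(v) dv`, integral over the great subsphere `S ∩ u^⊥` with respect to
`(n-2)`-dimensional spherical Lebesgue measure (`n = dim E`, `u ≠ 0`). -/
noncomputable def sphInt (f : E → ℝ) (u : E) : ℝ :=
  ∫ v : sphere (0 : (ℝ ∙ u)ᗮ) 1, f ((v : (ℝ ∙ u)ᗮ) : E) ∂((volume : Measure (ℝ ∙ u)ᗮ).toSphere)

/-- the same integral for `[0,∞]`-valued functions -/
noncomputable def lsph (f : E → ℝ≥0∞) (u : E) : ℝ≥0∞ :=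
  ∫⁻ v : sphere (0 : (ℝ ∙ u)ᗮ) 1, f ((v : (ℝ ∙ u)ᗮ) : E) ∂((volume : Measure (ℝ ∙ u)ᗮ).toSphere)

/-- The radial function `(1/(n-1)) ∫_{S ∩ u^⊥} ρ_L(v)^i dv` of the intersection body `I_i L`. -/
noncomputable def interRadial (i : ℝ) (L : Set E) (u : E) : ℝ :=
  ((finrank ℝ E : ℝ) - 1)⁻¹ * sphInt (fun v => (radial L v) ^ i) u

/-- The intersection body `I_i L` of order `i` of `L`. -/
def interBody (i : ℝ) (L : Set E) : Set E :=
  {x | ∃ u : E, ‖u‖ = 1 ∧ ∃ c : ℝ, 0 ≤ c ∧ c ≤ interRadial i L u ∧ x = c • u}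

/-- A pair of positive functions on `E \ {0}`, homogeneous of degree `0`, continuous, which solves
`u = c₁ R(v^i)`, `v = c₂ R(u^i)`, `R` the (unnormalised) spherical Radon transform. -/
structure Sol (i c₁ c₂ : ℝ) (u v : E → ℝ) : Prop where
  hom_u : ∀ x : E, x ≠ 0 → ∀ s : ℝ, 0 < s → u (s • x) = u x
  hom_v : ∀ x : E, x ≠ 0 → ∀ s : ℝ, 0 < s → v (s • x) = v x
  cont_u : ContinuousOn u {x : E | x ≠ 0}
  cont_v : ContinuousOn v {x : E | x ≠ 0}
  pos_u : ∀ x : E, x ≠ 0 → 0 < u x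
  pos_v : ∀ x : E, x ≠ 0 → 0 < v x
  eq_u : ∀ x : E, x ≠ 0 → u x = c₁ * sphInt (fun y => (v y) ^ i) x
  eq_v : ∀ x : E, x ≠ 0 → v x = c₂ * sphInt (fun y => (u y) ^ i) x

end General

/-! ## The rearrangement inequality -/

/-- the weight `(1+|y|²)^{-s}` -/
noncomputable def Wt (d : ℕ) (s : ℝ) (y : EuclideanSpace ℝ (Fin d)) : ℝ≥0∞ :=
  ENNReal.ofReal ((1 + ‖y‖ ^ 2) ^ (-s))

/-- The rearrangement inequality in `ℝ^d` with exponent `p`: for every finite measure space of
slabs `{y : |⟨a,y⟩ - λ c| < h}`, the weighted `p`-th moment of the measure of the set of slabs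
containing `y` does not decrease when `λ` goes from `1` to a smaller value. -/
def RI (d : ℕ) (p : ℝ) : Prop :=
  ∀ s : ℝ, 0 < s → ∀ (Ω : Type) [MeasurableSpace Ω] (μ : Measure Ω) [IsFiniteMeasure μ]
    (a : Ω → EuclideanSpace ℝ (Fin d)) (c h : Ω → ℝ),
    Measurable a → Measurable c → Measurable h →
    ∀ lam : ℝ, 0 ≤ lam → lam ≤ 1 →
      ∫⁻ y, (μ {ω | |⟪a ω, y⟫ - c ω| < h ω}) ^ p * Wt d s y ≤
      ∫⁻ y, (μ {ω | |⟪a ω, y⟫ - lam * c ω| < h ω}) ^ p * Wt d s y

/-- Families `λ ↦ R λ` of subsets of `ℝ^m` which are intersections of finitely many moving slabs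
`{y : |α·y - λ γ| < h}`. -/
def IsReg (m : ℕ) (R : ℝ → Set (Fin m → ℝ)) : Prop :=
  ∃ (ι : Type) (_ : Fintype ι) (α : ι → Fin m → ℝ) (γ h : ι → ℝ),
    ∀ lam, R lam = {y | ∀ j, |∑ k, α j k * y k - lam * γ j| < h j}

end StarIB
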