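import Pool.Agent.StarIB.Kernel

/-! # Module E: solutions are Hölder continuous with exponent `3/4` -/

open MeasureTheory Set Metric Module
open scoped ENNReal RealInnerProductSpace

namespace StarIB

variable {E : Type*} [NormedAddCommGroup E] [InnerProductSpace ℝ E]

/-! ### Rotations -/

private theorem hol_refl_unit (a : E) (ha : ‖a‖ = 1) (y : E) :
    (ℝ ∙ a).reflection y = (2 * ⟪a, y⟫) • a - y := by
  rw [Submodule.reflection_singleton_apply, ha]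
  simp [two_smul, two_mul, add_smul]

private theorem hol_rot (x x' : E) (hx : ‖x‖ = 1) (hx' : ‖x'‖ = 1) (hne : x + x' ≠ 0) :
    ∃ g : E ≃ₗᵢ[ℝ] E, g x = x' ∧ ∀ y : E, ‖y‖ = 1 → ‖g y - y‖ ≤ 4 * ‖x - x'‖ := by
  set s : ℝ := ‖x + x'‖ with hs
  have hs0 : 0 < s := norm_pos_iff.mpr hne
  set b : E := s⁻¹ • (x + x') with hb
  have hb1 : ‖b‖ = 1 := by
    rw [hb, norm_smul, norm_inv, Real.norm_eq_abs, abs_of_pos hs0, ← hs]
    field_simp
  have hss : s ^ 2 = 2 + 2 * ⟪x, x'⟫ := by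
    rw [hs, norm_add_sq_real, hx, hx']
    ring
  have hbx : ⟪b, x⟫ = s / 2 := by
    have h1 : ⟪x + x', x⟫ = 1 + ⟪x, x'⟫ := by
      rw [inner_add_left, real_inner_self_eq_norm_sq, hx, real_inner_comm]
      ring
    rw [hb, real_inner_smul_left, h1]
    field_simp
    linarith
  have hgx : (ℝ ∙ b).reflection x = x' := by
    rw [hol_refl_unit b hb1, hbx, hb, smul_smul]
    have : 2 * (s / 2) * s⁻¹ = 1 := by field_simp
    rw [this, one_smul]
    abel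
  have hax : (ℝ ∙ x).reflection x = x := by
    rw [hol_refl_unit x hx, real_inner_self_eq_norm_sq, hx]
    simp [two_smul]
  refine ⟨((ℝ ∙ x).reflection).trans ((ℝ ∙ b).reflection), ?_, ?_⟩
  · rw [LinearIsometryEquiv.trans_apply, hax, hgx]
  · intro y hy
    rw [LinearIsometryEquiv.trans_apply]
    have h2 : ‖(ℝ ∙ b).reflection ((ℝ ∙ x).reflection y) - y‖ =
        ‖(ℝ ∙ x).reflection y - (ℝ ∙ b).reflection y‖ := by
      have h7 : (ℝ ∙ b).reflection ((ℝ ∙ x).reflection y) - y =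
          (ℝ ∙ b).reflection ((ℝ ∙ x).reflection y - (ℝ ∙ b).reflection y) := by
        rw [map_sub, Submodule.reflection_reflection]
      rw [h7, LinearIsometryEquiv.norm_map]
    rw [h2, hol_refl_unit x hx, hol_refl_unit b hb1]
    have h3 : (2 * ⟪x, y⟫) • x - y - ((2 * ⟪b, y⟫) • b - y) =
        (2 * ⟪x - b, y⟫) • x + (2 * ⟪b, y⟫) • (x - b) := by
      rw [inner_sub_left, smul_sub]
      have : (2 * (⟪x, y⟫ - ⟪b, y⟫)) • x = (2 * ⟪x, y⟫) • x - (2 * ⟪b, y⟫) • x := by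
        rw [mul_sub, sub_smul]
      rw [this]
      abel
    rw [h3]
    have h4 : ‖x - b‖ ≤ ‖x - x'‖ := by
      have e1 : ‖x - b‖ ^ 2 = 2 - s := by
        rw [norm_sub_sq_real, hx, hb1, real_inner_comm, hbx]
        ring
      have e2 : ‖x - x'‖ ^ 2 = 4 - s ^ 2 := by
        rw [norm_sub_sq_real, hx, hx', hss]
        ring
      have e3 : s ≤ 2 := by
        have := norm_nonneg (x - b)
        nlinarith
      have e4 : ‖x - b‖ ^ 2 ≤ ‖x - x'‖ ^ 2 := by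
        rw [e1, e2]
        nlinarith
      exact (sq_le_sq₀ (norm_nonneg _) (norm_nonneg _)).mp e4
    have h5 : |⟪x - b, y⟫| ≤ ‖x - b‖ := by
      have := abs_real_inner_le_norm (x - b) y
      rwa [hy, mul_one] at this
    have h6 : |⟪b, y⟫| ≤ 1 := by
      have := abs_real_inner_le_norm b y
      rwa [hy, hb1, mul_one] at this
    calc ‖(2 * ⟪x - b, y⟫) • x + (2 * ⟪b, y⟫) • (x - b)‖
        ≤ ‖(2 * ⟪x - b, y⟫) • x‖ + ‖(2 * ⟪b, y⟫) • (x - b)‖ := norm_add_le _ _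
      _ = 2 * |⟪x - b, y⟫| + 2 * |⟪b, y⟫| * ‖x - b‖ := by
          rw [norm_smul, norm_smul, hx, Real.norm_eq_abs, Real.norm_eq_abs, abs_mul, abs_mul]
          simp
      _ ≤ 2 * ‖x - b‖ + 2 * 1 * ‖x - b‖ := by
          have := norm_nonneg (x - b)
          gcongr
      _ = 4 * ‖x - b‖ := by ring
      _ ≤ 4 * ‖x - x'‖ := by linarith

set_option linter.unusedSectionVars false

variable [FiniteDimensional ℝ E] [MeasurableSpace E] [BorelSpace E]

/-! ### Elementary facts on `Rk` -/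

private theorem hol_kk_zero : kk 0 = 0 := by
  unfold kk
  rw [Set.indicator_of_notMem]
  simp

private theorem hol_kk_meas : Measurable kk :=
  ENNReal.measurable_ofReal.indicator measurableSet_Icc

private theorem hol_Rk_mono {f h : E → ℝ≥0∞} (hfh : ∀ x, x ≠ 0 → f x ≤ h x) (w : E) :
    Rk f w ≤ Rk h w := by
  unfold Rk
  refine lintegral_mono (fun x => ?_)
  by_cases hx : (x : E) = 0
  · simp only [hx, norm_zero, hol_kk_zero, mul_zero, le_refl]
  · exact mul_le_mul_left (hfh _ hx) _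

private theorem hol_Rk_congr {f h : E → ℝ≥0∞} (hfh : ∀ x, x ≠ 0 → f x = h x) (w : E) :
    Rk f w = Rk h w :=
  le_antisymm (hol_Rk_mono (fun x hx => (hfh x hx).le) w)
    (hol_Rk_mono (fun x hx => (hfh x hx).ge) w)

private theorem hol_Rk_const_mul (c : ℝ) (f : E → ℝ≥0∞) (w : E) :
    Rk (fun x => ENNReal.ofReal c * f x) w = ENNReal.ofReal c * Rk f w := by
  unfold Rk
  rw [← lintegral_const_mul' _ _ ENNReal.ofReal_ne_top]
  simp only [mul_assoc]

private theorem hol_Rk_add (f h : E → ℝ≥0∞) (hf : Measurable f) (w : E) :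
    Rk (fun x => f x + h x) w = Rk f w + Rk h w := by
  unfold Rk
  rw [← lintegral_add_left]
  · simp only [add_mul]
  · have h1 : Measurable (fun x : ↥(ℝ ∙ w)ᗮ => (x : E)) := measurable_subtype_coe
    exact (hf.comp h1).mul (hol_kk_meas.comp h1.norm)

private theorem hol_Rk_aux (f : E → ℝ≥0∞) (U V : Submodule ℝ E) (h : U = V) :
    ∫⁻ x : ↥Uᗮ, f x * kk ‖(x : E)‖ = ∫⁻ x : ↥Vᗮ, f x * kk ‖(x : E)‖ := by
  subst h
  rfl

private theorem hol_Rk_smul (f : E → ℝ≥0∞) (w : E) (t : ℝ) (ht : t ≠ 0) :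
    Rk f (t • w) = Rk f w :=
  hol_Rk_aux f _ _ (Submodule.span_singleton_smul_eq (IsUnit.mk0 t ht) w)

/-! ### Solutions -/

private theorem hol_symm {i c₁ c₂ : ℝ} {u v : E → ℝ} (h : Sol i c₁ c₂ u v) :
    Sol i c₂ c₁ v u :=
  ⟨h.hom_v, h.hom_u, h.cont_v, h.cont_u, h.pos_v, h.pos_u, h.eq_v, h.eq_u⟩

private theorem hol_meas (f : E → ℝ) (hf : ContinuousOn f {x : E | x ≠ 0}) : Measurable f := by
  have h : ({x : E | x ≠ 0} : Set E) = {(0 : E)}ᶜ := by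
    ext x
    simp
  rw [h] at hf
  exact measurable_of_continuousOn_compl_singleton 0 hf

private theorem hol_comp (f : E → ℝ) (hf : ContinuousOn f {x : E | x ≠ 0}) (g : E ≃ₗᵢ[ℝ] E) :
    ContinuousOn (fun x => f (g x)) {x : E | x ≠ 0} := by
  refine hf.comp g.continuous.continuousOn ?_
  intro x hx
  simp only [mem_ofPred_eq] at hx ⊢
  exact fun h => hx ((map_eq_zero_iff g g.injective).mp h)

private theorem hol_bounds (hE : 1 ≤ finrank ℝ E) (u : E → ℝ)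
    (hom : ∀ x : E, x ≠ 0 → ∀ s : ℝ, 0 < s → u (s • x) = u x)
    (cont : ContinuousOn u {x : E | x ≠ 0}) (pos : ∀ x : E, x ≠ 0 → 0 < u x) :
    ∃ m M : ℝ, 0 < m ∧ ∀ x : E, x ≠ 0 → m ≤ u x ∧ u x ≤ M := by
  have : Nontrivial E := Module.nontrivial_of_finrank_pos (R := ℝ) (by omega)
  have hc : ContinuousOn u (sphere (0 : E) 1) := by
    refine cont.mono ?_
    intro x hx
    exact ne_zero_of_mem_unit_sphere (⟨x, hx⟩ : sphere (0 : E) 1)
  have hne : (sphere (0 : E) 1).Nonempty := NormedSpace.sphere_nonempty.mpr zero_le_one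
  obtain ⟨a, ha, hamin⟩ := (isCompact_sphere (0 : E) 1).exists_isMinOn hne hc
  obtain ⟨b, hb, hbmax⟩ := (isCompact_sphere (0 : E) 1).exists_isMaxOn hne hc
  refine ⟨u a, u b, pos a (ne_zero_of_mem_unit_sphere (⟨a, ha⟩ : sphere (0 : E) 1)), ?_⟩
  intro x hx
  have h1 : ‖x‖⁻¹ • x ∈ sphere (0 : E) 1 := by
    rw [mem_sphere_zero_iff_norm, norm_smul, norm_inv, norm_norm]
    field_simp [norm_ne_zero_iff.mpr hx]
  have h2 : u (‖x‖⁻¹ • x) = u x := hom x hx _ (inv_pos.mpr (norm_pos_iff.mpr hx))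
  rw [← h2]
  exact ⟨hamin h1, hbmax h1⟩

private theorem hol_pow (i m M : ℝ) (hm : 0 < m) :
    ∃ K : ℝ, 0 < K ∧ ∀ s t : ℝ, m ≤ s → s ≤ M → m ≤ t → t ≤ M → |s ^ i - t ^ i| ≤ K * |s - t| := by
  have hc : ContinuousOn (fun t : ℝ => i * t ^ (i - 1)) (Icc m M) := by
    refine continuousOn_const.mul (ContinuousOn.rpow_const continuousOn_id ?_)
    intro x hx
    left
    have := hx.1
    linarith
  obtain ⟨K, hK⟩ := isCompact_Icc.exists_bound_of_continuousOn hc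
  refine ⟨|K| + 1, by positivity, ?_⟩
  intro s t hs hs' ht ht'
  have h := (convex_Icc m M).norm_image_sub_le_of_norm_hasDerivWithin_le
    (f := fun t : ℝ => t ^ i) (f' := fun t : ℝ => i * t ^ (i - 1)) (C := |K| + 1)
    (fun x hx => by
      have hx0 : x ≠ 0 := by
        have := hx.1
        linarith
      exact (Real.hasDerivAt_rpow_const (Or.inl hx0)).hasDerivWithinAt)
    (fun x hx => (hK x hx).trans (by linarith [le_abs_self K])) ⟨ht, ht'⟩ ⟨hs, hs'⟩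
  simpa only [Real.norm_eq_abs] using h

private theorem hol_ann_ne {x : E} (hx : x ∈ {x : E | 1 ≤ ‖x‖ ∧ ‖x‖ ≤ 2}) : x ≠ 0 := by
  rintro rfl
  have := hx.1
  rw [norm_zero] at this
  linarith

private theorem hol_ann_compact : IsCompact {x : E | 1 ≤ ‖x‖ ∧ ‖x‖ ≤ 2} := by
  have h1 : IsClosed {x : E | 1 ≤ ‖x‖ ∧ ‖x‖ ≤ 2} :=
    (isClosed_le continuous_const continuous_norm).inter (isClosed_le continuous_norm continuous_const)
  refine (isCompact_closedBall (0 : E) 2).of_isClosed_subset h1 ?_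
  intro x hx
  rw [mem_closedBall_zero_iff]
  exact hx.2

private theorem hol_int {f : E → ℝ} (hf : ContinuousOn f {x : E | x ≠ 0}) :
    IntegrableOn f {x : E | 1 ≤ ‖x‖ ∧ ‖x‖ ≤ 2} :=
  (hf.mono fun _ hx => hol_ann_ne hx).integrableOn_compact hol_ann_compact

/-- `Rk` of `v ^ i` -/
private theorem hol_Rk_pow (hE : 2 ≤ finrank ℝ E) (i c₁ c₂ : ℝ) (hc₁ : 0 < c₁)
    (u v : E → ℝ) (h : Sol i c₁ c₂ u v) :
    ∃ ρ : ℝ, 0 < ρ ∧ ∀ x : E, x ≠ 0 →
      Rk (fun y => ENNReal.ofReal (v y ^ i)) x = ENNReal.ofReal (ρ * u x) := by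
  obtain ⟨κ, hκ, hR⟩ := Rk_eq (E := E) hE
  refine ⟨κ / c₁, by positivity, ?_⟩
  intro x hx
  have hcont : ContinuousOn (fun y => v y ^ i) {x : E | x ≠ 0} :=
    ContinuousOn.rpow_const h.cont_v (fun y hy => Or.inl (h.pos_v y hy).ne')
  have hmeas : Measurable (fun y : E => ENNReal.ofReal (v y ^ i)) :=
    (hol_meas _ hcont).ennreal_ofReal
  rw [hR _ hmeas ?_ x hx, lsph_ofReal _ _ hcont ?_, ← ENNReal.ofReal_mul hκ.le, h.eq_u x hx]
  · congr 1
    field_simp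
  · intro y hy
    exact Real.rpow_nonneg (h.pos_v y hy).le _
  · intro y hy s hs
    rw [h.hom_v y hy s hs]

private theorem hol_Rk_lt_top (hE : 2 ≤ finrank ℝ E) (f : E → ℝ≥0∞) (M : ℝ)
    (hf : ∀ x, x ≠ 0 → f x ≤ ENNReal.ofReal M) (w : E) (hw : w ≠ 0) : Rk f w < ∞ := by
  obtain ⟨κ, hκ, hR⟩ := Rk_eq (E := E) hE
  have h1 : Rk f w ≤ Rk (fun x => ENNReal.ofReal M * (fun _ : E => (1 : ℝ≥0∞)) x) w :=
    hol_Rk_mono (fun x hx => by simpa using hf x hx) w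
  rw [hol_Rk_const_mul, hR _ measurable_const (fun _ _ _ _ => rfl) w hw] at h1
  refine lt_of_le_of_lt h1 ?_
  exact ENNReal.mul_lt_top ENNReal.ofReal_lt_top
    (ENNReal.mul_lt_top ENNReal.ofReal_lt_top (lsph_one_lt_top w))

private theorem hol_unit (x : E) (hx : x ≠ 0) : ‖‖x‖⁻¹ • x‖ = 1 := by
  rw [norm_smul, norm_inv, norm_norm]
  field_simp [norm_ne_zero_iff.mpr hx]

private theorem hol_s (hE : 3 ≤ finrank ℝ E) (i c₁ c₂ : ℝ) (hc₁ : 0 < c₁)
    (u v : E → ℝ) (h : Sol i c₁ c₂ u v) :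
    ∃ (s : E → ℝ) (C : ℝ), 0 < C ∧ ContinuousOn s {x : E | x ≠ 0} ∧ (∀ x, 0 ≤ s x) ∧
      (∀ x : E, x ≠ 0 → Rk (fun y => ENNReal.ofReal (u y)) x = ENNReal.ofReal (s x)) ∧
      (∀ x : E, ∀ t : ℝ, 0 < t → s (t • x) = s x) ∧
      ∀ x y : E, ‖x‖ = 1 → ‖y‖ = 1 → |s x - s y| ≤ C * ‖x - y‖ ^ (3 / 4 : ℝ) := by
  obtain ⟨ρ, hρ, hRk⟩ := hol_Rk_pow (by omega) i c₁ c₂ hc₁ u v h
  obtain ⟨mu, Mu, hmu, hbu⟩ := hol_bounds (by omega) u h.hom_u h.cont_u h.pos_u
  obtain ⟨mv, Mv, hmv, hbv⟩ := hol_bounds (by omega) v h.hom_v h.cont_v h.pos_v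
  obtain ⟨Ck, hCk, hH⟩ := Rk_Rk_holder (E := E) hE
  have hcont : ContinuousOn (fun y => v y ^ i) {x : E | x ≠ 0} :=
    ContinuousOn.rpow_const h.cont_v (fun y hy => Or.inl (h.pos_v y hy).ne')
  obtain ⟨mi, Mi, hmi, hbi⟩ := hol_bounds (by omega) (fun y => v y ^ i)
    (fun x hx s hs => by simp only [h.hom_v x hx s hs]) hcont
    (fun x hx => Real.rpow_pos_of_pos (h.pos_v x hx) _)
  set U : E → ℝ≥0∞ := fun y => ENNReal.ofReal (u y) with hU
  set F : E → ℝ≥0∞ := fun y => ENNReal.ofReal (v y ^ i) with hF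
  set F' : E → ℝ≥0∞ := fun y => min (F y) (ENNReal.ofReal Mi) with hF'
  have hFm : Measurable F := (hol_meas _ hcont).ennreal_ofReal
  have hF'm : Measurable F' := hFm.min measurable_const
  have hFF : Rk F' = Rk F := by
    funext w
    refine hol_Rk_congr (fun x hx => ?_) w
    exact min_eq_left (ENNReal.ofReal_le_ofReal (hbi x hx).2)
  have hRR : ∀ x, Rk (Rk F') x = ENNReal.ofReal ρ * Rk U x := by
    intro x
    rw [hFF, ← hol_Rk_const_mul]
    refine hol_Rk_congr (fun y hy => ?_) x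
    rw [hRk y hy, ENNReal.ofReal_mul hρ.le]
  have hfin : ∀ x : E, x ≠ 0 → Rk U x = ENNReal.ofReal (Rk U x).toReal := by
    intro x hx
    rw [ENNReal.ofReal_toReal]
    exact (hol_Rk_lt_top (by omega) U Mu
      (fun y hy => ENNReal.ofReal_le_ofReal (hbu y hy).2) x hx).ne
  have hone : ∀ x y : E, ‖x‖ = 1 → ‖y‖ = 1 →
      (Rk U x).toReal ≤ (Rk U y).toReal + (Ck * Mi / ρ + 1) * ‖x - y‖ ^ (3 / 4 : ℝ) := by
    intro x y hx hy
    have hx0 : x ≠ 0 := by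
      rintro rfl
      simp at hx
    have hy0 : y ≠ 0 := by
      rintro rfl
      simp at hy
    have h1 := hH Mi F' hF'm (fun z => min_le_right _ _) x y hx hy
    have hMi : 0 ≤ Mi := by
      have := hbi x hx0
      linarith
    have hpw : 0 ≤ ‖x - y‖ ^ (3 / 4 : ℝ) := by positivity
    rw [hRR, hRR, hfin x hx0, hfin y hy0, ← ENNReal.ofReal_mul hρ.le, ← ENNReal.ofReal_mul hρ.le,
      ← ENNReal.ofReal_add (by positivity) (by positivity),
      ENNReal.ofReal_le_ofReal_iff (by positivity)] at h1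
    have h2 : ρ * (Rk U x).toReal ≤ ρ * ((Rk U y).toReal +
        (Ck * Mi / ρ + 1) * ‖x - y‖ ^ (3 / 4 : ℝ)) := by
      have e : ρ * ((Rk U y).toReal + (Ck * Mi / ρ + 1) * ‖x - y‖ ^ (3 / 4 : ℝ)) =
          ρ * (Rk U y).toReal + Ck * Mi * ‖x - y‖ ^ (3 / 4 : ℝ) + ρ * ‖x - y‖ ^ (3 / 4 : ℝ) := by
        field_simp
        ring
      rw [e]
      have : 0 ≤ ρ * ‖x - y‖ ^ (3 / 4 : ℝ) := by positivity
      linarith
    exact le_of_mul_le_mul_left h2 hρ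
  have hMi0 : 0 < Ck * Mi / ρ + 1 := by
    have : Nontrivial E := Module.nontrivial_of_finrank_pos (R := ℝ) (by omega)
    obtain ⟨x, hx⟩ := exists_ne (0 : E)
    have := hbi x hx
    have : 0 ≤ Mi := by linarith
    positivity
  have hhom : ∀ x : E, ∀ t : ℝ, 0 < t → (Rk U (t • x)).toReal = (Rk U x).toReal := by
    intro x t ht
    rw [hol_Rk_smul U x t ht.ne']
  have hhold : ∀ x y : E, ‖x‖ = 1 → ‖y‖ = 1 →
      |(Rk U x).toReal - (Rk U y).toReal| ≤ (Ck * Mi / ρ + 1) * ‖x - y‖ ^ (3 / 4 : ℝ) := by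
    intro x y hx hy
    have h1 := hone x y hx hy
    have h2 := hone y x hy hx
    rw [norm_sub_rev] at h2
    rw [abs_le]
    constructor <;> linarith
  refine ⟨fun x => (Rk U x).toReal, Ck * Mi / ρ + 1, hMi0, ?_, fun x => ENNReal.toReal_nonneg,
    hfin, hhom, hhold⟩
  intro x₀ hx₀
  have hx₀' : x₀ ≠ 0 := hx₀
  apply ContinuousAt.continuousWithinAt
  rw [ContinuousAt, tendsto_iff_norm_sub_tendsto_zero]
  have hev : ∀ᶠ x in nhds x₀, x ≠ 0 := isOpen_ne.mem_nhds hx₀'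
  have hg : Filter.Tendsto (fun x : E => (Ck * Mi / ρ + 1) *
      ‖‖x‖⁻¹ • x - ‖x₀‖⁻¹ • x₀‖ ^ (3 / 4 : ℝ)) (nhds x₀) (nhds 0) := by
    have hc : ContinuousAt (fun x : E => (Ck * Mi / ρ + 1) *
        ‖‖x‖⁻¹ • x - ‖x₀‖⁻¹ • x₀‖ ^ (3 / 4 : ℝ)) x₀ := by
      refine continuousAt_const.mul ?_
      refine ContinuousAt.rpow_const ?_ (Or.inr (by norm_num))
      refine ContinuousAt.norm ?_
      refine ContinuousAt.sub ?_ continuousAt_const
      exact (continuous_norm.continuousAt.inv₀ (norm_ne_zero_iff.mpr hx₀')).smul continuousAt_id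
    have := hc.tendsto
    simpa [Real.zero_rpow] using this
  refine squeeze_zero' (Filter.Eventually.of_forall fun x => norm_nonneg _) ?_ hg
  filter_upwards [hev] with x hx
  have h1 := hhold (‖x‖⁻¹ • x) (‖x₀‖⁻¹ • x₀) (hol_unit x hx) (hol_unit x₀ hx₀')
  rw [hhom x _ (inv_pos.mpr (norm_pos_iff.mpr hx)),
    hhom x₀ _ (inv_pos.mpr (norm_pos_iff.mpr hx₀'))] at h1
  exact h1

/-- Cauchy-Schwarz on the annulus -/
private theorem hol_cs :
    ∃ V : ℝ, 0 < V ∧ ∀ f : E → ℝ, ContinuousOn f {x : E | x ≠ 0} →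
      ∫ x in {x : E | 1 ≤ ‖x‖ ∧ ‖x‖ ≤ 2}, |f x| ≤
        V * √(∫ x in {x : E | 1 ≤ ‖x‖ ∧ ‖x‖ ≤ 2}, f x ^ 2) := by
  set A : Set E := {x : E | 1 ≤ ‖x‖ ∧ ‖x‖ ≤ 2} with hA
  set W : ℝ := (volume A).toReal + 1 with hW
  have hW1 : 0 < W := by
    have : 0 ≤ (volume A).toReal := ENNReal.toReal_nonneg
    linarith
  refine ⟨√W, Real.sqrt_pos.mpr hW1, ?_⟩
  intro f hf
  set J : ℝ := ∫ x in A, |f x| with hJ
  have hJ0 : 0 ≤ J := integral_nonneg fun x => abs_nonneg _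
  have hfin : volume A < ∞ := hol_ann_compact.measure_lt_top
  have hfi : IsFiniteMeasure (volume.restrict A) := ⟨by simpa using hfin⟩
  have h1 : 0 ≤ ∫ x in A, (|f x| - J / W) ^ 2 := integral_nonneg fun x => sq_nonneg _
  have i1 : Integrable (fun x => f x ^ 2) (volume.restrict A) := hol_int (hf.pow 2)
  have i2 : Integrable (fun x => |f x|) (volume.restrict A) := hol_int hf.abs
  have h2 : ∫ x in A, (|f x| - J / W) ^ 2 =
      (∫ x in A, f x ^ 2) - 2 * (J / W) * J + (J / W) ^ 2 * (volume A).toReal := by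
    have e : (fun x => (|f x| - J / W) ^ 2) =
        fun x => f x ^ 2 - 2 * (J / W) * |f x| + (J / W) ^ 2 := by
      funext x
      rw [sub_sq, sq_abs]
      ring
    have i3 : Integrable (fun x => f x ^ 2 - 2 * (J / W) * |f x|) (volume.restrict A) :=
      i1.sub (i2.const_mul _)
    rw [e, integral_add i3 (integrable_const _),
      integral_sub i1 (i2.const_mul _), integral_const_mul, integral_const]
    simp only [smul_eq_mul, Measure.real, Measure.restrict_apply_univ, ← hJ]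
    ring
  have h3 : J ^ 2 ≤ W * ∫ x in A, f x ^ 2 := by
    rw [h2] at h1
    have e1 : (J / W) ^ 2 * (volume A).toReal ≤ (J / W) ^ 2 * W := by
      apply mul_le_mul_of_nonneg_left _ (sq_nonneg _)
      linarith
    have e2 : (J / W) ^ 2 * W = J ^ 2 / W := by
      field_simp
    have e3 : 2 * (J / W) * J = 2 * (J ^ 2 / W) := by ring
    have e4 : J ^ 2 / W ≤ ∫ x in A, f x ^ 2 := by
      rw [e2] at e1
      rw [e3] at h1
      linarith
    rw [div_le_iff₀ hW1] at e4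
    linarith
  rw [← Real.sqrt_mul hW1.le]
  exact Real.le_sqrt_of_sq_le h3

private theorem hol_meas_ann : MeasurableSet {x : E | 1 ≤ ‖x‖ ∧ ‖x‖ ≤ 2} :=
  hol_ann_compact.measurableSet

private theorem hol_lint (f : E → ℝ) (hf : ContinuousOn f {x : E | x ≠ 0})
    (hp : ∀ x, x ≠ 0 → 0 ≤ f x) (F : E → ℝ≥0∞)
    (hF : ∀ x, x ≠ 0 → F x = ENNReal.ofReal (f x)) :
    ∫⁻ x in {x : E | 1 ≤ ‖x‖ ∧ ‖x‖ ≤ 2}, F x =
      ENNReal.ofReal (∫ x in {x : E | 1 ≤ ‖x‖ ∧ ‖x‖ ≤ 2}, f x) := by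
  rw [setLIntegral_congr_fun hol_meas_ann (fun x hx => hF x (hol_ann_ne hx)),
    ofReal_integral_eq_lintegral_ofReal (hol_int hf)]
  exact ae_restrict_of_forall_mem hol_meas_ann (fun x hx => hp x (hol_ann_ne hx))

private theorem hol_ne {x : E} (hx : x ≠ 0) (g : E ≃ₗᵢ[ℝ] E) : g x ≠ 0 :=
  fun h => hx ((map_eq_zero_iff g g.injective).mp h)

private theorem hol_key (hE : 3 ≤ finrank ℝ E) (i c₁ c₂ : ℝ)
    (u v s : E → ℝ) (h : Sol i c₁ c₂ u v) (ρ : ℝ) (hρ : 0 < ρ)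
    (hRk : ∀ x : E, x ≠ 0 →
      Rk (fun y => ENNReal.ofReal (v y ^ i)) x = ENNReal.ofReal (ρ * u x))
    (hsc : ContinuousOn s {x : E | x ≠ 0}) (hs0 : ∀ x, 0 ≤ s x)
    (hs : ∀ x : E, x ≠ 0 → Rk (fun y => ENNReal.ofReal (u y)) x = ENNReal.ofReal (s x))
    (a b : E ≃ₗᵢ[ℝ] E) :
    ∫ x in {x : E | 1 ≤ ‖x‖ ∧ ‖x‖ ≤ 2}, v (a x) ^ i * s (b x) =
      ρ * ∫ x in {x : E | 1 ≤ ‖x‖ ∧ ‖x‖ ≤ 2}, u (b x) * u (a x) := by
  have hcont : ContinuousOn (fun y => v y ^ i) {x : E | x ≠ 0} :=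
    ContinuousOn.rpow_const h.cont_v (fun y hy => Or.inl (h.pos_v y hy).ne')
  have hF : Measurable (fun x : E => ENNReal.ofReal (v (a x) ^ i)) :=
    (hol_meas _ (hol_comp _ hcont a)).ennreal_ofReal
  have hU : Measurable (fun x : E => ENNReal.ofReal (u (b x))) :=
    (hol_meas _ (hol_comp _ h.cont_u b)).ennreal_ofReal
  have hsym := Rk_symm (E := E) (by omega) _ _ hF hU
  have hF0 : ∀ x : E, x ≠ 0 → 0 ≤ v (a x) ^ i := fun x hx =>
    Real.rpow_nonneg (h.pos_v _ (hol_ne hx a)).le _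
  have hU0 : ∀ x : E, x ≠ 0 → 0 ≤ u (b x) := fun x hx => (h.pos_u _ (hol_ne hx b)).le
  rw [hol_lint (fun x => v (a x) ^ i * s (b x)) ((hol_comp _ hcont a).mul (hol_comp _ hsc b))
      (fun x hx => mul_nonneg (hF0 x hx) (hs0 _)),
    hol_lint (fun x => u (b x) * (ρ * u (a x)))
      ((hol_comp _ h.cont_u b).mul (continuousOn_const.mul (hol_comp _ h.cont_u a)))
      (fun x hx => mul_nonneg (hU0 x hx) (mul_nonneg hρ.le (h.pos_u _ (hol_ne hx a)).le))] at hsym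
  · have h1 : 0 ≤ ∫ x in {x : E | 1 ≤ ‖x‖ ∧ ‖x‖ ≤ 2}, v (a x) ^ i * s (b x) :=
      setIntegral_nonneg hol_meas_ann
        (fun x hx => mul_nonneg (hF0 x (hol_ann_ne hx)) (hs0 _))
    have h2 : 0 ≤ ∫ x in {x : E | 1 ≤ ‖x‖ ∧ ‖x‖ ≤ 2}, u (b x) * (ρ * u (a x)) :=
      setIntegral_nonneg hol_meas_ann
        (fun x hx => mul_nonneg (hU0 x (hol_ann_ne hx))
          (mul_nonneg hρ.le (h.pos_u _ (hol_ne (hol_ann_ne hx) a)).le))
    rw [(ENNReal.ofReal_eq_ofReal_iff h1 h2).mp hsym, ← integral_const_mul]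
    congr 1
    funext x
    ring
  · intro x hx
    rw [ENNReal.ofReal_mul (hU0 x hx)]
    congr 1
    rw [← hRk _ (hol_ne hx a), Rk_map]
  · intro x hx
    rw [ENNReal.ofReal_mul (hF0 x hx)]
    congr 1
    rw [← hs _ (hol_ne hx b), Rk_map]

private theorem hol_A2 (hE : 3 ≤ finrank ℝ E) (i c₁ c₂ : ℝ) (hc₁ : 0 < c₁)
    (u v : E → ℝ) (h : Sol i c₁ c₂ u v) :
    ∃ C : ℝ, 0 < C ∧ ∀ (g : E ≃ₗᵢ[ℝ] E) (τ : ℝ), 0 ≤ τ → (∀ y : E, ‖y‖ = 1 → ‖g y - y‖ ≤ τ) →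
      ∫ x in {x : E | 1 ≤ ‖x‖ ∧ ‖x‖ ≤ 2}, (u (g x) - u x) ^ 2 ≤
        C * τ ^ (3 / 4 : ℝ) *
          √(∫ x in {x : E | 1 ≤ ‖x‖ ∧ ‖x‖ ≤ 2}, (v (g x) - v x) ^ 2) := by
  obtain ⟨ρ, hρ, hRk⟩ := hol_Rk_pow (by omega) i c₁ c₂ hc₁ u v h
  obtain ⟨s, Cs, hCs, hsc, hs0, hs, hshom, hshol⟩ := hol_s hE i c₁ c₂ hc₁ u v h
  obtain ⟨mv, Mv, hmv, hbv⟩ := hol_bounds (by omega) v h.hom_v h.cont_v h.pos_v
  obtain ⟨K, hK, hKp⟩ := hol_pow i mv Mv hmv
  obtain ⟨V, hV, hcs⟩ := hol_cs (E := E)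
  refine ⟨K * Cs * V / ρ, by positivity, ?_⟩
  intro g τ hτ hg
  set A : Set E := {x : E | 1 ≤ ‖x‖ ∧ ‖x‖ ≤ 2} with hA
  have hcont : ContinuousOn (fun y => v y ^ i) {x : E | x ≠ 0} :=
    ContinuousOn.rpow_const h.cont_v (fun y hy => Or.inl (h.pos_v y hy).ne')
  have hkey := hol_key hE i c₁ c₂ u v s h ρ hρ hRk hsc hs0 hs
  have k1 := hkey g g
  have k2 := hkey g (LinearIsometryEquiv.refl ℝ E)
  have k3 := hkey (LinearIsometryEquiv.refl ℝ E) g
  have k4 := hkey (LinearIsometryEquiv.refl ℝ E) (LinearIsometryEquiv.refl ℝ E)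
  simp only [LinearIsometryEquiv.coe_refl, id_eq] at k2 k3 k4
  have cg := hol_comp _ hcont g
  have sg := hol_comp _ hsc g
  have ug := hol_comp _ h.cont_u g
  have j1 : Integrable (fun x => v (g x) ^ i * s (g x)) (volume.restrict A) := hol_int (cg.mul sg)
  have j2 : Integrable (fun x => v (g x) ^ i * s x) (volume.restrict A) := hol_int (cg.mul hsc)
  have j3 : Integrable (fun x => v x ^ i * s (g x)) (volume.restrict A) := hol_int (hcont.mul sg)
  have j4 : Integrable (fun x => v x ^ i * s x) (volume.restrict A) := hol_int (hcont.mul hsc)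
  have l1 : Integrable (fun x => u (g x) * u (g x)) (volume.restrict A) := hol_int (ug.mul ug)
  have l2 : Integrable (fun x => u x * u (g x)) (volume.restrict A) :=
    hol_int (h.cont_u.mul ug)
  have l3 : Integrable (fun x => u (g x) * u x) (volume.restrict A) :=
    hol_int (ug.mul h.cont_u)
  have l4 : Integrable (fun x => u x * u x) (volume.restrict A) :=
    hol_int (h.cont_u.mul h.cont_u)
  have hid : ∫ x in A, (v (g x) ^ i - v x ^ i) * (s (g x) - s x) =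
      ρ * ∫ x in A, (u (g x) - u x) ^ 2 := by
    have e1 : (fun x => (v (g x) ^ i - v x ^ i) * (s (g x) - s x)) =
        fun x => (v (g x) ^ i * s (g x) - v (g x) ^ i * s x) -
          (v x ^ i * s (g x) - v x ^ i * s x) := by
      funext x
      ring
    have e2 : (fun x => (u (g x) - u x) ^ 2) =
        fun x => (u (g x) * u (g x) - u x * u (g x)) - (u (g x) * u x - u x * u x) := by
      funext x
      ring
    rw [e1, e2, integral_sub (f := fun x => v (g x) ^ i * s (g x) - v (g x) ^ i * s x)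
      (g := fun x => v x ^ i * s (g x) - v x ^ i * s x) (j1.sub j2) (j3.sub j4),
      integral_sub j1 j2, integral_sub j3 j4,
      integral_sub (f := fun x => u (g x) * u (g x) - u x * u (g x))
      (g := fun x => u (g x) * u x - u x * u x) (l1.sub l2) (l3.sub l4),
      integral_sub l1 l2, integral_sub l3 l4, k1, k2, k3, k4]
    ring
  have hτp : 0 ≤ τ ^ (3 / 4 : ℝ) := by positivity
  have hpt : ∀ x ∈ A, (v (g x) ^ i - v x ^ i) * (s (g x) - s x) ≤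
      (K * Cs * τ ^ (3 / 4 : ℝ)) * |v (g x) - v x| := by
    intro x hx
    have hx0 := hol_ann_ne hx
    have b1 := hbv x hx0
    have b2 := hbv _ (hol_ne hx0 g)
    have p1 := hKp (v (g x)) (v x) b2.1 b2.2 b1.1 b1.2
    have p2 : |s (g x) - s x| ≤ Cs * τ ^ (3 / 4 : ℝ) := by
      have hpos : 0 < ‖x‖⁻¹ := inv_pos.mpr (norm_pos_iff.mpr hx0)
      have q1 : s x = s (‖x‖⁻¹ • x) := (hshom x _ hpos).symm
      have q2 : s (g x) = s (g (‖x‖⁻¹ • x)) := by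
        rw [map_smul, hshom _ _ hpos]
      have hn := hol_unit x hx0
      rw [q1, q2]
      refine (hshol _ _ (by rw [LinearIsometryEquiv.norm_map, hn]) hn).trans ?_
      refine mul_le_mul_of_nonneg_left ?_ hCs.le
      exact Real.rpow_le_rpow (norm_nonneg _) (hg _ hn) (by norm_num)
    calc (v (g x) ^ i - v x ^ i) * (s (g x) - s x)
        ≤ |(v (g x) ^ i - v x ^ i) * (s (g x) - s x)| := le_abs_self _
      _ = |v (g x) ^ i - v x ^ i| * |s (g x) - s x| := abs_mul _ _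
      _ ≤ (K * |v (g x) - v x|) * (Cs * τ ^ (3 / 4 : ℝ)) :=
          mul_le_mul p1 p2 (abs_nonneg _) (by positivity)
      _ = _ := by ring
  have vg := hol_comp _ h.cont_v g
  have m1 : ContinuousOn (fun x => v (g x) - v x) {x : E | x ≠ 0} := vg.sub h.cont_v
  have m2 : Integrable (fun x => (K * Cs * τ ^ (3 / 4 : ℝ)) * |v (g x) - v x|)
      (volume.restrict A) := hol_int (continuousOn_const.mul m1.abs)
  have m3 : Integrable (fun x => (v (g x) ^ i - v x ^ i) * (s (g x) - s x))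
      (volume.restrict A) := hol_int ((cg.sub hcont).mul (sg.sub hsc))
  have hfin := setIntegral_mono_on m3 m2 hol_meas_ann hpt
  rw [hid, integral_const_mul] at hfin
  have hc2 := hcs _ m1
  have hfin2 : ρ * ∫ x in A, (u (g x) - u x) ^ 2 ≤ (K * Cs * τ ^ (3 / 4 : ℝ)) *
      (V * √(∫ x in A, (v (g x) - v x) ^ 2)) :=
    hfin.trans (mul_le_mul_of_nonneg_left hc2 (by positivity))
  have e3 : K * Cs * V / ρ * τ ^ (3 / 4 : ℝ) * √(∫ x in A, (v (g x) - v x) ^ 2) =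
      ((K * Cs * τ ^ (3 / 4 : ℝ)) * (V * √(∫ x in A, (v (g x) - v x) ^ 2))) / ρ := by
    field_simp
  rw [e3, le_div_iff₀ hρ]
  linarith

/-- the difference of the solutions is controlled by `Rk` of the other difference -/
private theorem hol_diff (hE : 3 ≤ finrank ℝ E) (i c₁ c₂ : ℝ) (hc₁ : 0 < c₁)
    (u v : E → ℝ) (h : Sol i c₁ c₂ u v) :
    ∃ C : ℝ, 0 < C ∧ ∀ (g : E ≃ₗᵢ[ℝ] E) (x : E), x ≠ 0 →
      ENNReal.ofReal |u (g x) - u x| ≤
        ENNReal.ofReal C * Rk (fun y => ENNReal.ofReal |v (g y) - v y|) x := by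
  obtain ⟨ρ, hρ, hRk⟩ := hol_Rk_pow (by omega) i c₁ c₂ hc₁ u v h
  obtain ⟨mv, Mv, hmv, hbv⟩ := hol_bounds (by omega) v h.hom_v h.cont_v h.pos_v
  obtain ⟨K, hK, hKp⟩ := hol_pow i mv Mv hmv
  refine ⟨K / ρ, by positivity, ?_⟩
  intro g x hx
  have hcont : ContinuousOn (fun y => v y ^ i) {x : E | x ≠ 0} :=
    ContinuousOn.rpow_const h.cont_v (fun y hy => Or.inl (h.pos_v y hy).ne')
  set F : E → ℝ≥0∞ := fun y => ENNReal.ofReal (v y ^ i) with hF
  set G : E → ℝ≥0∞ := fun y => ENNReal.ofReal (v (g y) ^ i) with hG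
  set Z : E → ℝ≥0∞ := fun y => ENNReal.ofReal |v (g y) - v y| with hZ
  have hFm : Measurable F := (hol_meas _ hcont).ennreal_ofReal
  have hGm : Measurable G := (hol_meas _ (hol_comp _ hcont g)).ennreal_ofReal
  have hRF : Rk F x = ENNReal.ofReal (ρ * u x) := hRk x hx
  have hRG : Rk G x = ENNReal.ofReal (ρ * u (g x)) := by
    rw [← hRk _ (hol_ne hx g), Rk_map]
  have hZt : Rk Z x < ∞ := by
    refine hol_Rk_lt_top (by omega) Z (2 * Mv) ?_ x hx
    intro y hy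
    refine ENNReal.ofReal_le_ofReal ?_
    have b1 := hbv y hy
    have b2 := hbv _ (hol_ne hy g)
    rw [abs_le]
    constructor <;> linarith
  obtain ⟨z, hz0, hz⟩ : ∃ z : ℝ, 0 ≤ z ∧ Rk Z x = ENNReal.ofReal z :=
    ⟨(Rk Z x).toReal, ENNReal.toReal_nonneg, (ENNReal.ofReal_toReal hZt.ne).symm⟩
  have hGF : Rk G x ≤ Rk F x + ENNReal.ofReal K * Rk Z x := by
    rw [← hol_Rk_const_mul, ← hol_Rk_add _ _ hFm]
    refine hol_Rk_mono (fun y hy => ?_) x
    simp only [hF, hG, hZ]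
    rw [← ENNReal.ofReal_mul hK.le, ← ENNReal.ofReal_add
      (Real.rpow_nonneg (h.pos_v y hy).le _) (by positivity)]
    refine ENNReal.ofReal_le_ofReal ?_
    have b1 := hbv y hy
    have b2 := hbv _ (hol_ne hy g)
    have := hKp _ _ b2.1 b2.2 b1.1 b1.2
    linarith [le_abs_self (v (g y) ^ i - v y ^ i)]
  have hFG : Rk F x ≤ Rk G x + ENNReal.ofReal K * Rk Z x := by
    rw [← hol_Rk_const_mul, ← hol_Rk_add _ _ hGm]
    refine hol_Rk_mono (fun y hy => ?_) x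
    simp only [hF, hG, hZ]
    rw [← ENNReal.ofReal_mul hK.le, ← ENNReal.ofReal_add
      (Real.rpow_nonneg (h.pos_v _ (hol_ne hy g)).le _) (by positivity)]
    refine ENNReal.ofReal_le_ofReal ?_
    have b1 := hbv y hy
    have b2 := hbv _ (hol_ne hy g)
    have := hKp _ _ b2.1 b2.2 b1.1 b1.2
    linarith [neg_abs_le (v (g y) ^ i - v y ^ i)]
  have hu := h.pos_u x hx
  have hug := h.pos_u _ (hol_ne hx g)
  rw [hRF, hRG, hz, ← ENNReal.ofReal_mul hK.le,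
    ← ENNReal.ofReal_add (by positivity) (by positivity),
    ENNReal.ofReal_le_ofReal_iff (by positivity)] at hGF hFG
  rw [hz, ← ENNReal.ofReal_mul (by positivity)]
  refine ENNReal.ofReal_le_ofReal ?_
  have e : K / ρ * z = (K * z) / ρ := by ring
  rw [e, le_div_iff₀ hρ]
  rcases abs_cases (u (g x) - u x) with hc | hc
  · rw [hc.1]
    nlinarith
  · rw [hc.1]
    nlinarith

private theorem hol_A3 (hE : 3 ≤ finrank ℝ E) (i c₁ c₂ : ℝ) (hc₁ : 0 < c₁) (hc₂ : 0 < c₂)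
    (u v : E → ℝ) (h : Sol i c₁ c₂ u v) :
    ∃ C : ℝ, 0 < C ∧ ∀ (g : E ≃ₗᵢ[ℝ] E) (x : E), ‖x‖ = 1 →
      |u (g x) - u x| ≤ C * √(∫ x in {x : E | 1 ≤ ‖x‖ ∧ ‖x‖ ≤ 2}, (u (g x) - u x) ^ 2) := by
  obtain ⟨C1, hC1, h1⟩ := hol_diff hE i c₁ c₂ hc₁ u v h
  obtain ⟨C2, hC2, h2⟩ := hol_diff hE i c₂ c₁ hc₂ v u (hol_symm h)
  obtain ⟨C3, hC3, h3⟩ := Rk_Rk_L3 (E := E) hE
  set C4 : ℝ := C1 * C2 * C3 with hC4
  have hC4p : 0 < C4 := by positivity
  refine ⟨C4 ^ 3 + 1, by positivity, ?_⟩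
  intro g
  set A : Set E := {x : E | 1 ≤ ‖x‖ ∧ ‖x‖ ≤ 2} with hA
  set D2 : ℝ := ∫ x in A, (u (g x) - u x) ^ 2 with hD2
  have hD20 : 0 ≤ D2 := integral_nonneg fun x => sq_nonneg _
  have : Nontrivial E := Module.nontrivial_of_finrank_pos (R := ℝ) (by omega)
  have hwc : ContinuousOn (fun x => |u (g x) - u x|) {x : E | x ≠ 0} :=
    ((hol_comp _ h.cont_u g).sub h.cont_u).abs
  have hc : ContinuousOn (fun x => |u (g x) - u x|) (sphere (0 : E) 1) := by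
    refine hwc.mono ?_
    intro x hx
    exact ne_zero_of_mem_unit_sphere (⟨x, hx⟩ : sphere (0 : E) 1)
  have hne : (sphere (0 : E) 1).Nonempty := NormedSpace.sphere_nonempty.mpr zero_le_one
  obtain ⟨x₀, hx₀, hmax⟩ := (isCompact_sphere (0 : E) 1).exists_isMaxOn hne hc
  have hx₀1 : ‖x₀‖ = 1 := mem_sphere_zero_iff_norm.mp hx₀
  have hx₀0 : x₀ ≠ 0 := by
    rintro rfl
    simp at hx₀1
  set N : ℝ := |u (g x₀) - u x₀| with hN
  have hN0 : 0 ≤ N := abs_nonneg _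
  have hNmax : ∀ x : E, x ≠ 0 → |u (g x) - u x| ≤ N := by
    intro x hx
    have hpos : 0 < ‖x‖⁻¹ := inv_pos.mpr (norm_pos_iff.mpr hx)
    have q1 : u x = u (‖x‖⁻¹ • x) := (h.hom_u x hx _ hpos).symm
    have q2 : u (g x) = u (g (‖x‖⁻¹ • x)) := by
      rw [map_smul, h.hom_u _ (hol_ne hx g) _ hpos]
    rw [q1, q2]
    exact hmax (mem_sphere_zero_iff_norm.mpr (hol_unit x hx))
  have hmain : N ≤ C4 * (N * D2) ^ (1 / 3 : ℝ) := by
    set W : E → ℝ≥0∞ := fun y => ENNReal.ofReal |u (g y) - u y| with hW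
    set Z : E → ℝ≥0∞ := fun y => ENNReal.ofReal |v (g y) - v y| with hZ
    have hWm : Measurable W := (hol_meas _ hwc).ennreal_ofReal
    have a1 : ENNReal.ofReal N ≤ ENNReal.ofReal C1 * Rk Z x₀ := h1 g x₀ hx₀0
    have a2 : Rk Z x₀ ≤ ENNReal.ofReal C2 * Rk (Rk W) x₀ := by
      rw [← hol_Rk_const_mul]
      exact hol_Rk_mono (fun y hy => h2 g y hy) x₀
    have a3 := h3 W hWm x₀ hx₀1
    have a4 : ∫⁻ z in A, (W z) ^ 3 ≤ ENNReal.ofReal (N * D2) := by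
      have e1 : ∫⁻ z in A, (W z) ^ 3 ≤ ∫⁻ z in A, ENNReal.ofReal (N * (u (g z) - u z) ^ 2) := by
        refine setLIntegral_mono' hol_meas_ann (fun z hz => ?_)
        simp only [hW]
        rw [← ENNReal.ofReal_pow (abs_nonneg _)]
        refine ENNReal.ofReal_le_ofReal ?_
        have := hNmax z (hol_ann_ne hz)
        rw [pow_succ, sq_abs, mul_comm]
        exact mul_le_mul_of_nonneg_right this (sq_nonneg _)
      refine e1.trans ?_
      rw [hol_lint (fun z => N * (u (g z) - u z) ^ 2)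
        (continuousOn_const.mul (((hol_comp _ h.cont_u g).sub h.cont_u).pow 2))
        (fun x _ => mul_nonneg hN0 (sq_nonneg _)) _ (fun x _ => rfl), integral_const_mul]
    have a5 : ENNReal.ofReal N ≤ ENNReal.ofReal (C4 * (N * D2) ^ (1 / 3 : ℝ)) := by
      have e2 : (∫⁻ z in A, (W z) ^ 3) ^ (1 / 3 : ℝ) ≤
          ENNReal.ofReal ((N * D2) ^ (1 / 3 : ℝ)) := by
        rw [← ENNReal.ofReal_rpow_of_nonneg (mul_nonneg hN0 hD20) (by norm_num)]
        exact ENNReal.rpow_le_rpow a4 (by norm_num)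
      calc ENNReal.ofReal N ≤ ENNReal.ofReal C1 * (ENNReal.ofReal C2 *
            (ENNReal.ofReal C3 * ENNReal.ofReal ((N * D2) ^ (1 / 3 : ℝ)))) := by
            refine a1.trans (mul_le_mul_right (a2.trans (mul_le_mul_right (a3.trans
              (mul_le_mul_right e2 _)) _)) _)
        _ = ENNReal.ofReal (C4 * (N * D2) ^ (1 / 3 : ℝ)) := by
            rw [← ENNReal.ofReal_mul hC3.le, ← ENNReal.ofReal_mul hC2.le,
              ← ENNReal.ofReal_mul hC1.le, hC4]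
            congr 1
            ring
    rwa [ENNReal.ofReal_le_ofReal_iff (by positivity)] at a5
  have hN2 : N ≤ (C4 ^ 3 + 1) * √D2 := by
    by_cases hNz : N = 0
    · rw [hNz]
      positivity
    have hNp : 0 < N := lt_of_le_of_ne hN0 (Ne.symm hNz)
    have b1 : N ^ 3 ≤ C4 ^ 3 * (N * D2) := by
      have := pow_le_pow_left₀ hN0 hmain 3
      rw [mul_pow] at this
      have e : ((N * D2) ^ (1 / 3 : ℝ)) ^ 3 = N * D2 := by
        rw [← Real.rpow_natCast, ← Real.rpow_mul (mul_nonneg hN0 hD20)]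
        norm_num
      rwa [e] at this
    have b2 : N ^ 2 ≤ C4 ^ 3 * D2 := by
      have e : N * N ^ 2 ≤ N * (C4 ^ 3 * D2) := by
        calc N * N ^ 2 = N ^ 3 := by ring
          _ ≤ C4 ^ 3 * (N * D2) := b1
          _ = _ := by ring
      exact le_of_mul_le_mul_left e hNp
    have b3 : N ^ 2 ≤ ((C4 ^ 3 + 1) * √D2) ^ 2 := by
      rw [mul_pow, Real.sq_sqrt hD20]
      refine b2.trans (mul_le_mul_of_nonneg_right ?_ hD20)
      have : 0 < C4 ^ 3 := by positivity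
      nlinarith
    exact (sq_le_sq₀ hN0 (by positivity)).mp b3
  intro x hx
  have hx0 : x ≠ 0 := by
    rintro rfl
    simp at hx
  exact (hNmax x hx0).trans hN2

theorem holder (hE : 3 ≤ finrank ℝ E) (i c₁ c₂ : ℝ) (hi : 0 < i) (hc₁ : 0 < c₁) (hc₂ : 0 < c₂)
    (u v : E → ℝ) (h : Sol i c₁ c₂ u v) :
    ∃ C : ℝ, 0 < C ∧ ∀ x y : E, ‖x‖ = 1 → ‖y‖ = 1 → |u x - u y| ≤ C * ‖x - y‖ ^ (3 / 4 : ℝ) := by
  obtain ⟨C1, hC1, h1⟩ := hol_A2 hE i c₁ c₂ hc₁ u v h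
  obtain ⟨C2, hC2, h2⟩ := hol_A2 hE i c₂ c₁ hc₂ v u (hol_symm h)
  obtain ⟨C3, hC3, h3⟩ := hol_A3 hE i c₁ c₂ hc₁ hc₂ u v h
  have hev : ∀ x : E, x ≠ 0 → u (-x) = u x := by
    intro x hx
    rw [h.eq_u x hx, h.eq_u (-x) (neg_ne_zero.mpr hx)]
    congr 1
    have := sphInt_smul (fun y => v y ^ i) x (-1) (by norm_num)
    rwa [neg_one_smul] at this
  set C4 : ℝ := C1 ^ 2 * C2 + 1 with hC4
  have hC4p : 1 ≤ C4 := by
    have : 0 < C1 ^ 2 * C2 := by positivity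
    linarith
  refine ⟨C3 * C4 * 4 ^ (3 / 4 : ℝ), by positivity, ?_⟩
  intro x y hx hy
  by_cases hxy : x + y = 0
  · have e : y = -x := by
      rw [eq_neg_iff_add_eq_zero, add_comm]
      exact hxy
    have hx0 : x ≠ 0 := by
      rintro rfl
      simp at hx
    rw [e, hev x hx0, sub_self, abs_zero]
    positivity
  obtain ⟨g, hg, hgb⟩ := hol_rot x y hx hy hxy
  set τ : ℝ := 4 * ‖x - y‖ with hτ
  have hτ0 : 0 ≤ τ := by positivity
  set A : Set E := {x : E | 1 ≤ ‖x‖ ∧ ‖x‖ ≤ 2} with hA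
  set Du : ℝ := √(∫ x in A, (u (g x) - u x) ^ 2) with hDu
  set Dv : ℝ := √(∫ x in A, (v (g x) - v x) ^ 2) with hDv
  have hDu0 : 0 ≤ Du := Real.sqrt_nonneg _
  have hDv0 : 0 ≤ Dv := Real.sqrt_nonneg _
  have a1 := h1 g τ hτ0 hgb
  have a2 := h2 g τ hτ0 hgb
  have s1 : Du ^ 2 = ∫ x in A, (u (g x) - u x) ^ 2 :=
    Real.sq_sqrt (integral_nonneg fun x => sq_nonneg _)
  have s2 : Dv ^ 2 = ∫ x in A, (v (g x) - v x) ^ 2 :=
    Real.sq_sqrt (integral_nonneg fun x => sq_nonneg _)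
  rw [← s1] at a1
  rw [← s2] at a2
  set T : ℝ := τ ^ (3 / 4 : ℝ) with hT
  have hT0 : 0 ≤ T := by positivity
  have hfin : Du ≤ C4 * T := by
    by_cases hz : Du = 0
    · rw [hz]
      positivity
    have hDup : 0 < Du := lt_of_le_of_ne hDu0 (Ne.symm hz)
    have b1 : Du ^ 4 ≤ C1 ^ 2 * T ^ 2 * Dv ^ 2 := by
      have := pow_le_pow_left₀ (sq_nonneg Du) a1 2
      calc Du ^ 4 = (Du ^ 2) ^ 2 := by ring
        _ ≤ (C1 * T * Dv) ^ 2 := this
        _ = _ := by ring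
    have b2 : Du ^ 4 ≤ C1 ^ 2 * T ^ 2 * (C2 * T * Du) :=
      b1.trans (mul_le_mul_of_nonneg_left a2 (by positivity))
    have b3 : Du ^ 3 ≤ C1 ^ 2 * C2 * T ^ 3 := by
      have e : Du * Du ^ 3 ≤ Du * (C1 ^ 2 * C2 * T ^ 3) := by
        calc Du * Du ^ 3 = Du ^ 4 := by ring
          _ ≤ C1 ^ 2 * T ^ 2 * (C2 * T * Du) := b2
          _ = _ := by ring
      exact le_of_mul_le_mul_left e hDup
    have b4 : Du ^ 3 ≤ (C4 * T) ^ 3 := by
      refine b3.trans ?_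
      rw [mul_pow]
      refine mul_le_mul_of_nonneg_right ?_ (by positivity)
      have e1 : C4 ≤ C4 ^ 3 := by
        have : C4 * 1 ≤ C4 * C4 ^ 2 := by
          apply mul_le_mul_of_nonneg_left _ (by linarith)
          nlinarith
        calc C4 = C4 * 1 := by ring
          _ ≤ C4 * C4 ^ 2 := this
          _ = C4 ^ 3 := by ring
      linarith
    exact (pow_le_pow_iff_left₀ hDu0 (by positivity) (by norm_num)).mp b4
  have a3 := h3 g x hx
  rw [hg, abs_sub_comm] at a3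
  refine a3.trans ?_
  have e : T = 4 ^ (3 / 4 : ℝ) * ‖x - y‖ ^ (3 / 4 : ℝ) := by
    rw [hT, hτ, Real.mul_rpow (by norm_num) (norm_nonneg _)]
  calc C3 * Du ≤ C3 * (C4 * T) := mul_le_mul_of_nonneg_left hfin hC3.le
    _ = _ := by
      rw [e]
      ring

end StarIB
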