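import Pool.Agent.StarIB.Def

/-! # Interface between the geometric part (module F2) and the mesh argument (modules L, M) -/

open MeasureTheory Set Metric Module
open scoped ENNReal RealInnerProductSpace

namespace StarIB

/-- `∫_{ℝ^d} φ(z, ⟨z,y⟩) dz` : integral of `φ` over the hyperplane with parameter `y` -/
noncomputable def sec {d : ℕ} (φ : EuclideanSpace ℝ (Fin d) × ℝ → ℝ≥0∞)
    (y : EuclideanSpace ℝ (Fin d)) : ℝ≥0∞ := ∫⁻ z, φ (z, ⟪z, y⟫)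

/-- `∫∫ φ(z,t) dt dz` -/
noncomputable def tot {d : ℕ} (φ : EuclideanSpace ℝ (Fin d) × ℝ → ℝ≥0∞) : ℝ≥0∞ :=
  ∫⁻ z, ∫⁻ t, φ (z, t)

/-- Everything the mesh argument needs to know about `K`. -/
structure MeshHyp (d : ℕ) (p κ : ℝ) (K : Set (EuclideanSpace ℝ (Fin d) × ℝ))
    (U : EuclideanSpace ℝ (Fin d) × ℝ → ℝ) (Sh : ℝ → Set (EuclideanSpace ℝ (Fin d) × ℝ))
    (R η₀ C C' : ℝ) : Prop where
  hd : 2 ≤ d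
  hp : 2 < p
  hpd : p < d + 1
  hκ : 0 < κ
  hR : 0 < R
  hη₀ : 0 < η₀
  hC : 0 < C
  hC' : 0 < C'
  K_open : IsOpen K
  K_bdd : ∀ x ∈ K, ‖x.1‖ < R ∧ |x.2| < R
  U_meas : Measurable U
  U_nonneg : ∀ x, 0 ≤ U x
  U_int : ∫⁻ z in ball (0 : EuclideanSpace ℝ (Fin d)) R, ∫⁻ t in Icc (-R) R,
    ENNReal.ofReal (U (z, t)) < ∞
  U_K : ∀ x : EuclideanSpace ℝ (Fin d) × ℝ, x ≠ 0 → (x ∈ K ↔ (‖x.1‖ ^ 2 + x.2 ^ 2) ^ κ < U x)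
  sec_K : ∀ y, sec (K.indicator 1) y ≤ ENNReal.ofReal (C * (1 + ‖y‖ ^ 2) ^ (-(1 : ℝ) / 2))
  energy : ∀ φ : EuclideanSpace ℝ (Fin d) × ℝ → ℝ≥0∞, Measurable φ →
    ∫⁻ y, (sec (K.indicator 1) y) ^ (p - 1) * Wt d ((d + 1 - p) / 2) y * sec φ y =
      ENNReal.ofReal C' * tot (fun x => φ x * ENNReal.ofReal (U x))
  Sh_meas : ∀ η, 0 < η → η < η₀ → MeasurableSet (Sh η)
  Sh_straddle : ∀ η, 0 < η → η < η₀ → ∀ (z : EuclideanSpace ℝ (Fin d)) (t t' : ℝ),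
    |t - t'| ≤ 2 * η → (z, t) ∈ K → (z, t') ∉ K → (z, t) ∈ Sh η ∧ (z, t') ∈ Sh η
  Sh_sec : ∀ η, 0 < η → η < η₀ → ∀ y, sec ((Sh η).indicator 1) y ≤
    ENNReal.ofReal (C * η ^ (3 / 4 : ℝ) * (1 + ‖y‖ ^ 2) ^ (-(1 : ℝ) / 2))
  Sh_vol : ∀ η, 0 < η → η < η₀ → tot ((Sh η).indicator 1) ≤
    ENNReal.ofReal (C * η ^ (3 / 4 : ℝ))
  Sh_Q : ∀ η, 0 < η → η < η₀ → ∀ x ∈ Sh η,
    |U x - (‖x.1‖ ^ 2 + x.2 ^ 2) ^ κ| ≤ C * η ^ (3 / 4 : ℝ)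
  radon_bound : ∀ η, 0 < η → η < η₀ → ∀ φ : EuclideanSpace ℝ (Fin d) × ℝ → ℝ≥0∞,
    Measurable φ → (∀ x, x ∉ Sh η → φ x = 0) →
    ∫⁻ y : EuclideanSpace ℝ (Fin d), ENNReal.ofReal ((1 + ‖y‖ ^ 2) ^ (-(d : ℝ) / 2)) * sec φ y ≤
      ENNReal.ofReal C * tot φ

/-- the star body `K` with `ρ_K^d = u^i` as a subset of `ℝ^d × ℝ` -/
def KK (d : ℕ) (i : ℝ) (u : WithLp 2 (EuclideanSpace ℝ (Fin d) × ℝ) → ℝ) :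
    Set (EuclideanSpace ℝ (Fin d) × ℝ) :=
  {x | x = 0 ∨ ‖WithLp.toLp 2 x‖ ^ ((d : ℝ) / i) < u (WithLp.toLp 2 x)}

/-- the function `U(x) = u(x)/|x|` on `ℝ^d × ℝ` -/
noncomputable def UU (d : ℕ) (u : WithLp 2 (EuclideanSpace ℝ (Fin d) × ℝ) → ℝ)
    (x : EuclideanSpace ℝ (Fin d) × ℝ) : ℝ :=
  u (WithLp.toLp 2 x) / ‖WithLp.toLp 2 x‖

end StarIB
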