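import Pool.Agent.StarIB.Star
import Pool.Agent.StarIB.MeshDef

/-! # Module F2: a Hölder continuous solution satisfies the hypotheses of the mesh argument -/

open MeasureTheory Set Metric Module
open scoped ENNReal RealInnerProductSpace

namespace StarIB

namespace Ident

/-! ## one-dimensional integrals -/

theorem int_lt (n : ℕ) (hn : 1 ≤ n) (b : ℝ) (hb : 0 ≤ b) :
    ∫⁻ r in Ioi (0 : ℝ), ENNReal.ofReal (r ^ (n - 1)) * (Iio b).indicator 1 r =
      ENNReal.ofReal (b ^ n / n) := by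
  have h1 : ∀ r : ℝ, ENNReal.ofReal (r ^ (n - 1)) * (Iio b).indicator (1 : ℝ → ℝ≥0∞) r =
      (Iio b).indicator (fun r => ENNReal.ofReal (r ^ (n - 1))) r := by
    intro r
    by_cases hr : r ∈ Iio b
    · simp [hr]
    · simp [hr]
  simp_rw [h1]
  rw [setLIntegral_indicator measurableSet_Iio]
  have h2 : Iio b ∩ Ioi (0 : ℝ) = Ioo 0 b := by
    ext x; simp only [mem_inter_iff, mem_Iio, mem_Ioi, mem_Ioo]; tauto
  rw [h2, restrict_Ioo_eq_restrict_Ioc]
  rw [← ofReal_integral_eq_lintegral_ofReal]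
  · rw [← intervalIntegral.integral_of_le hb, integral_pow]
    congr 1
    rw [Nat.sub_add_cancel hn, zero_pow (by omega), sub_zero]
    congr 1
    rw [Nat.cast_sub hn]; push_cast; ring
  · exact (continuous_pow (n - 1)).integrableOn_Ioc
  · filter_upwards [self_mem_ae_restrict (measurableSet_Ioc)] with r hr
    exact pow_nonneg hr.1.le _

theorem rpow_lower (σ r₁ r r' : ℝ) (hσ : 1 ≤ σ) (hr₁ : 0 < r₁) (h1 : r₁ ≤ r) (h2 : r ≤ r') :
    (r' - r) * r₁ ^ (σ - 1) ≤ r' ^ σ - r ^ σ := by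
  have hr : 0 < r := by linarith
  have hr' : 0 < r' := by linarith
  have e1 : r ^ σ = r * r ^ (σ - 1) := by
    rw [Real.rpow_sub_one hr.ne']; field_simp
  have e2 : r' ^ σ = r' * r' ^ (σ - 1) := by
    rw [Real.rpow_sub_one hr'.ne']; field_simp
  have e3 : r₁ ^ (σ - 1) ≤ r ^ (σ - 1) := Real.rpow_le_rpow hr₁.le h1 (by linarith)
  have e4 : r ^ (σ - 1) ≤ r' ^ (σ - 1) := Real.rpow_le_rpow hr.le h2 (by linarith)
  rw [e1, e2]
  nlinarith [mul_le_mul_of_nonneg_left e3 (by linarith : (0:ℝ) ≤ r' - r),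
    mul_le_mul_of_nonneg_left e4 hr'.le]

theorem rpow_upper (σ R r r' : ℝ) (hσ : 1 ≤ σ) (h0 : 0 < r) (h1 : r ≤ r') (h2 : r' ≤ R) :
    r' ^ σ - r ^ σ ≤ σ * R ^ (σ - 1) * (r' - r) := by
  have hr' : 0 < r' := by linarith
  have hB := one_add_mul_self_le_rpow_one_add (s := r / r' - 1)
    (by have : 0 < r / r' := by positivity
        linarith) (p := σ) hσ
  have e0 : (1 + (r / r' - 1)) = r / r' := by ring
  rw [e0, Real.div_rpow h0.le hr'.le] at hB
  have hp : 0 < r' ^ σ := Real.rpow_pos_of_pos hr' _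
  have e2 : r' ^ σ = r' * r' ^ (σ - 1) := by
    rw [Real.rpow_sub_one hr'.ne']; field_simp
  have h3 : r' ^ σ * (1 + σ * (r / r' - 1)) ≤ r ^ σ := by
    have := mul_le_mul_of_nonneg_left hB hp.le
    rwa [mul_div_cancel₀ _ hp.ne'] at this
  have h4 : r' ^ σ * (1 + σ * (r / r' - 1)) = r' ^ σ - σ * r' ^ (σ - 1) * (r' - r) := by
    rw [e2]; field_simp; ring
  have h5 : r' ^ (σ - 1) ≤ R ^ (σ - 1) := Real.rpow_le_rpow hr'.le h2 (by linarith)
  have h6 : σ * r' ^ (σ - 1) * (r' - r) ≤ σ * R ^ (σ - 1) * (r' - r) := by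
    apply mul_le_mul_of_nonneg_right _ (by linarith)
    exact mul_le_mul_of_nonneg_left h5 (by linarith)
  linarith

theorem int_shell (n : ℕ) (σ r₁ R b δ : ℝ) (hσ : 1 ≤ σ) (hr₁ : 0 < r₁)
    (hδ : 0 ≤ δ) :
    ∫⁻ r in Ioi (0 : ℝ), ENNReal.ofReal (r ^ n) *
      ({r : ℝ | r₁ ≤ r ∧ r ≤ R ∧ |r ^ σ - b| ≤ δ}).indicator 1 r ≤
      ENNReal.ofReal (R ^ n * (2 * δ / r₁ ^ (σ - 1))) := by
  by_cases hR : r₁ ≤ R
  swap
  · have : {r : ℝ | r₁ ≤ r ∧ r ≤ R ∧ |r ^ σ - b| ≤ δ} = ∅ := by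
      ext r; simp only [mem_setOf_eq, mem_empty_iff_false, iff_false]
      rintro ⟨h1, h2, -⟩; linarith
    simp [this]
  set S := {r : ℝ | r₁ ≤ r ∧ r ≤ R ∧ |r ^ σ - b| ≤ δ} with hS
  have hR0 : 0 < R := by linarith
  have hmS : MeasurableSet S := by
    have h1 : MeasurableSet {r : ℝ | r₁ ≤ r} := measurableSet_Ici
    have h2 : MeasurableSet {r : ℝ | r ≤ R} := measurableSet_Iic
    have h3 : MeasurableSet {r : ℝ | |r ^ σ - b| ≤ δ} := by
      apply measurableSet_le _ measurable_const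
      exact ((measurable_id.pow_const σ).sub_const b).abs
    exact h1.inter (h2.inter h3)
  have hvol : volume S ≤ ENNReal.ofReal (2 * δ / r₁ ^ (σ - 1)) := by
    refine (Real.volume_le_diam S).trans ?_
    apply Metric.ediam_le
    intro x hx y hy
    rw [edist_dist]
    apply ENNReal.ofReal_le_ofReal
    have key : ∀ x ∈ S, ∀ y ∈ S, x ≤ y → y - x ≤ 2 * δ / r₁ ^ (σ - 1) := by
      intro x hx y hy hxy
      have h := rpow_lower σ r₁ x y hσ hr₁ hx.1 hxy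
      have hp : 0 < r₁ ^ (σ - 1) := Real.rpow_pos_of_pos hr₁ _
      rw [le_div_iff₀ hp]
      have h1 := abs_le.1 hx.2.2
      have h2 := abs_le.1 hy.2.2
      linarith
    rw [Real.dist_eq]
    rcases le_total x y with hxy | hxy
    · rw [abs_sub_comm, abs_of_nonneg (by linarith)]; exact key x hx y hy hxy
    · rw [abs_of_nonneg (by linarith)]; exact key y hy x hx hxy
  calc ∫⁻ r in Ioi (0 : ℝ), ENNReal.ofReal (r ^ n) * S.indicator 1 r
      ≤ ∫⁻ r, S.indicator (fun _ => ENNReal.ofReal (R ^ n)) r := by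
        refine (setLIntegral_le_lintegral _ _).trans (lintegral_mono ?_)
        intro r
        by_cases hr : r ∈ S
        · simp only [hr, indicator_of_mem, Pi.one_apply, mul_one]
          exact ENNReal.ofReal_le_ofReal (pow_le_pow_left₀ (by linarith [hr.1]) hr.2.1 _)
        · simp [hr]
    _ = ENNReal.ofReal (R ^ n) * volume S := by
        rw [lintegral_indicator hmS, setLIntegral_const]
    _ ≤ ENNReal.ofReal (R ^ n) * ENNReal.ofReal (2 * δ / r₁ ^ (σ - 1)) := by gcongr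
    _ = ENNReal.ofReal (R ^ n * (2 * δ / r₁ ^ (σ - 1))) := by
        rw [ENNReal.ofReal_mul (by positivity)]

/-! ## polar coordinates in hyperplanes -/

section Polar

variable {E : Type*} [NormedAddCommGroup E] [InnerProductSpace ℝ E] [FiniteDimensional ℝ E]
  [MeasurableSpace E] [BorelSpace E]

theorem orth_polar_gen (n : ℕ) (hE : finrank ℝ E = n + 1) (hn : 1 ≤ n) (w : E) (hw : w ≠ 0)
    (f : E → ℝ≥0∞) (hf : Measurable f) :
    ∫⁻ x : (ℝ ∙ w)ᗮ, f x = ∫⁻ θ : sphere (0 : (ℝ ∙ w)ᗮ) 1,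
      (∫⁻ r in Ioi (0 : ℝ), ENNReal.ofReal (r ^ (n - 1)) * f (r • ((θ : (ℝ ∙ w)ᗮ) : E)))
        ∂((volume : Measure (ℝ ∙ w)ᗮ).toSphere) := by
  have : Fact (finrank ℝ E = n + 1) := ⟨hE⟩
  have hfr : finrank ℝ (ℝ ∙ w)ᗮ = n := Submodule.finrank_orthogonal_span_singleton hw
  have : Nontrivial (ℝ ∙ w)ᗮ := by
    apply Module.nontrivial_of_finrank_pos (R := ℝ)
    omega
  have h := lintegral_polar (E := (ℝ ∙ w)ᗮ) (fun x => f x) (hf.comp measurable_subtype_coe)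
  rw [h, hfr]
  rfl

/-- the section of `{x : ‖x‖^σ < u x}` in polar coordinates -/
theorem radial_K (n : ℕ) (hn : 1 ≤ n) (σ : ℝ) (hσ : 0 < σ) (u : E → ℝ)
    (hom : ∀ x : E, x ≠ 0 → ∀ s : ℝ, 0 < s → u (s • x) = u x)
    (pos : ∀ x : E, x ≠ 0 → 0 < u x) (x : E) (hx : ‖x‖ = 1) :
    ∫⁻ r in Ioi (0 : ℝ), ENNReal.ofReal (r ^ (n - 1)) *
      ({y : E | y = 0 ∨ ‖y‖ ^ σ < u y}).indicator 1 (r • x) =
      ENNReal.ofReal ((u x) ^ ((n : ℝ) / σ) / n) := by
  have hx0 : x ≠ 0 := by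
    intro h; rw [h, norm_zero] at hx; norm_num at hx
  have hux := pos x hx0
  have h1 : ∫⁻ r in Ioi (0 : ℝ), ENNReal.ofReal (r ^ (n - 1)) *
      ({y : E | y = 0 ∨ ‖y‖ ^ σ < u y}).indicator 1 (r • x) =
      ∫⁻ r in Ioi (0 : ℝ), ENNReal.ofReal (r ^ (n - 1)) *
        (Iio ((u x) ^ (σ⁻¹))).indicator 1 r := by
    apply setLIntegral_congr_fun measurableSet_Ioi
    intro r hr
    have hr' : (0 : ℝ) < r := hr
    have hrx : r • x ≠ 0 := smul_ne_zero hr'.ne' hx0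
    have hiff : (r • x ∈ {y : E | y = 0 ∨ ‖y‖ ^ σ < u y}) ↔ r ∈ Iio ((u x) ^ (σ⁻¹)) := by
      rw [mem_ofPred_eq, or_iff_right hrx, hom x hx0 r hr', norm_smul, hx, mul_one,
        Real.norm_of_nonneg hr'.le, mem_Iio, Real.lt_rpow_inv_iff_of_pos hr'.le hux.le hσ]
    dsimp only
    by_cases h : r ∈ Iio ((u x) ^ (σ⁻¹))
    · rw [indicator_of_mem h, indicator_of_mem (hiff.2 h)]; rfl
    · rw [indicator_of_notMem h, indicator_of_notMem (fun h' => h (hiff.1 h'))]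
  rw [h1, int_lt n hn _ (Real.rpow_nonneg hux.le _)]
  congr 2
  rw [← Real.rpow_natCast, ← Real.rpow_mul hux.le]
  congr 1
  field_simp

end Polar

section Facts

variable {E : Type*} [NormedAddCommGroup E] [InnerProductSpace ℝ E] [FiniteDimensional ℝ E]

/-- bounds for a positive continuous function homogeneous of degree `0` -/
theorem exists_bounds [Nontrivial E] (u : E → ℝ)
    (hom : ∀ x : E, x ≠ 0 → ∀ s : ℝ, 0 < s → u (s • x) = u x)
    (cont : ContinuousOn u {x : E | x ≠ 0}) (pos : ∀ x : E, x ≠ 0 → 0 < u x) :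
    ∃ m M : ℝ, 0 < m ∧ m ≤ M ∧ ∀ x : E, x ≠ 0 → m ≤ u x ∧ u x ≤ M := by
  have hc : IsCompact (sphere (0 : E) 1) := isCompact_sphere 0 1
  have hne : (sphere (0 : E) 1).Nonempty := NormedSpace.sphere_nonempty.2 zero_le_one
  have hcont : ContinuousOn u (sphere (0 : E) 1) := by
    apply cont.mono
    intro x hx h
    rw [mem_sphere_zero_iff_norm, h, norm_zero] at hx
    norm_num at hx
  obtain ⟨a, ha, hamin⟩ := hc.exists_isMinOn hne hcont
  obtain ⟨b, hb, hbmax⟩ := hc.exists_isMaxOn hne hcont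
  have ha0 : a ≠ 0 := by
    intro h
    rw [mem_sphere_zero_iff_norm, h, norm_zero] at ha
    norm_num at ha
  refine ⟨u a, u b, pos a ha0, hamin hb, ?_⟩
  intro x hx
  have hxn : 0 < ‖x‖ := norm_pos_iff.2 hx
  have h1 : u x = u (‖x‖⁻¹ • x) := (hom x hx _ (by positivity)).symm
  have h2 : ‖x‖⁻¹ • x ∈ sphere (0 : E) 1 := by
    rw [mem_sphere_zero_iff_norm, norm_smul, norm_inv, norm_norm, inv_mul_cancel₀ hxn.ne']
  rw [h1]
  exact ⟨hamin h2, hbmax h2⟩

/-- Hölder continuity away from the origin -/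
theorem holder_ext (u : E → ℝ)
    (hom : ∀ x : E, x ≠ 0 → ∀ s : ℝ, 0 < s → u (s • x) = u x) (C : ℝ) (hC : 0 < C)
    (hold : ∀ x y : E, ‖x‖ = 1 → ‖y‖ = 1 → |u x - u y| ≤ C * ‖x - y‖ ^ (3 / 4 : ℝ))
    (r₁ : ℝ) (hr₁ : 0 < r₁) (x y : E) (hx : r₁ ≤ ‖x‖) (hy : y ≠ 0) :
    |u x - u y| ≤ C * (2 * ‖x - y‖ / r₁) ^ (3 / 4 : ℝ) := by
  have hxn : 0 < ‖x‖ := by linarith
  have hx0 : x ≠ 0 := norm_pos_iff.1 hxn
  have hyn : 0 < ‖y‖ := norm_pos_iff.2 hy
  have h1 : u x = u (‖x‖⁻¹ • x) := (hom x hx0 _ (by positivity)).symm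
  have h2 : u y = u (‖y‖⁻¹ • y) := (hom y hy _ (by positivity)).symm
  have n1 : ‖‖x‖⁻¹ • x‖ = 1 := by
    rw [norm_smul, norm_inv, norm_norm, inv_mul_cancel₀ hxn.ne']
  have n2 : ‖‖y‖⁻¹ • y‖ = 1 := by
    rw [norm_smul, norm_inv, norm_norm, inv_mul_cancel₀ hyn.ne']
  rw [h1, h2]
  refine (hold _ _ n1 n2).trans ?_
  apply mul_le_mul_of_nonneg_left _ hC.le
  apply Real.rpow_le_rpow (norm_nonneg _) _ (by norm_num)
  have e : ‖x‖⁻¹ • x - ‖y‖⁻¹ • y = ‖x‖⁻¹ • (x - y) + (‖x‖⁻¹ * (‖y‖ - ‖x‖)) • (‖y‖⁻¹ • y) := by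
    rw [smul_sub, smul_smul, mul_sub, inv_mul_cancel₀ hxn.ne', sub_mul, mul_assoc,
      mul_inv_cancel₀ hyn.ne', sub_smul]
    simp
  rw [e]
  refine (norm_add_le _ _).trans ?_
  rw [norm_smul, norm_smul, n2, mul_one, norm_mul, norm_inv, norm_norm, Real.norm_eq_abs]
  have h3 : |‖y‖ - ‖x‖| ≤ ‖x - y‖ := by
    rw [abs_sub_comm]; exact abs_norm_sub_norm_le x y
  have h4 : ‖x‖⁻¹ ≤ r₁⁻¹ := inv_anti₀ hr₁ hx
  calc ‖x‖⁻¹ * ‖x - y‖ + ‖x‖⁻¹ * |‖y‖ - ‖x‖| ≤ r₁⁻¹ * ‖x - y‖ + r₁⁻¹ * ‖x - y‖ := by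
        gcongr
    _ = 2 * ‖x - y‖ / r₁ := by field_simp; ring

/-- the set `{x = 0 ∨ ‖x‖^σ < u x}` is open -/
theorem isOpen_K [Nontrivial E] (σ : ℝ) (hσ : 0 < σ) (u : E → ℝ)
    (hom : ∀ x : E, x ≠ 0 → ∀ s : ℝ, 0 < s → u (s • x) = u x)
    (cont : ContinuousOn u {x : E | x ≠ 0}) (pos : ∀ x : E, x ≠ 0 → 0 < u x) :
    IsOpen {y : E | y = 0 ∨ ‖y‖ ^ σ < u y} := by
  obtain ⟨m, M, hm, hmM, hb⟩ := exists_bounds u hom cont pos
  rw [isOpen_iff_mem_nhds]
  intro x hx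
  by_cases hx0 : x = 0
  · subst hx0
    have h1 : ball (0 : E) (m ^ σ⁻¹) ∈ nhds (0 : E) := ball_mem_nhds _ (Real.rpow_pos_of_pos hm _)
    filter_upwards [h1] with y hy
    by_cases hy0 : y = 0
    · exact Or.inl hy0
    · right
      rw [mem_ball_zero_iff, Real.lt_rpow_inv_iff_of_pos (norm_nonneg _) hm.le hσ] at hy
      exact hy.trans_le (hb y hy0).1
  · have hx' : ‖x‖ ^ σ < u x := by
      rcases hx with h | h
      · exact absurd h hx0
      · exact h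
    have hU : {x : E | x ≠ 0} ∈ nhds x := isOpen_ne.mem_nhds hx0
    have hc1 : ContinuousAt u x := cont.continuousAt hU
    have hc2 : ContinuousAt (fun y : E => ‖y‖ ^ σ) x :=
      (continuous_norm.continuousAt).rpow_const (Or.inr hσ.le)
    filter_upwards [hc2.eventually_lt hc1 hx'] with y hy
    exact Or.inr hy

end Facts

section Chart

variable {d : ℕ}

theorem finrank_EE (d : ℕ) :
    finrank ℝ (WithLp 2 (EuclideanSpace ℝ (Fin d) × ℝ)) = d + 1 := by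
  rw [(WithLp.linearEquiv 2 ℝ (EuclideanSpace ℝ (Fin d) × ℝ)).finrank_eq]
  simp

theorem norm_toLp_sq (x : EuclideanSpace ℝ (Fin d) × ℝ) :
    ‖(WithLp.toLp 2 x : WithLp 2 (EuclideanSpace ℝ (Fin d) × ℝ))‖ ^ 2 = ‖x.1‖ ^ 2 + x.2 ^ 2 := by
  rw [WithLp.prod_norm_sq_eq_of_L2]
  simp

theorem norm_toLp (x : EuclideanSpace ℝ (Fin d) × ℝ) :
    ‖(WithLp.toLp 2 x : WithLp 2 (EuclideanSpace ℝ (Fin d) × ℝ))‖ = √(‖x.1‖ ^ 2 + x.2 ^ 2) := by
  rw [← norm_toLp_sq, Real.sqrt_sq (norm_nonneg _)]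

theorem toLp_ne (y : EuclideanSpace ℝ (Fin d)) :
    (WithLp.toLp 2 (y, (-1 : ℝ)) : WithLp 2 (EuclideanSpace ℝ (Fin d) × ℝ)) ≠ 0 := by
  intro h
  have h1 := norm_toLp_sq (y, (-1 : ℝ))
  rw [h, norm_zero] at h1
  have := sq_nonneg ‖y‖
  norm_num at h1
  linarith

theorem toLp_eq_zero_iff (x : EuclideanSpace ℝ (Fin d) × ℝ) :
    (WithLp.toLp 2 x : WithLp 2 (EuclideanSpace ℝ (Fin d) × ℝ)) = 0 ↔ x = 0 := by
  constructor
  · intro h
    have := congrArg WithLp.ofLp h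
    simpa using this
  · rintro rfl; rfl

theorem sec_eq (φ : EuclideanSpace ℝ (Fin d) × ℝ → ℝ≥0∞) (hφ : Measurable φ)
    (y : EuclideanSpace ℝ (Fin d)) :
    sec φ y = ENNReal.ofReal ((1 + ‖y‖ ^ 2) ^ (-(1 : ℝ) / 2)) *
      ∫⁻ x : (ℝ ∙ (WithLp.toLp 2 (y, (-1 : ℝ)) : WithLp 2 (EuclideanSpace ℝ (Fin d) × ℝ)))ᗮ,
        φ (WithLp.ofLp (x : WithLp 2 (EuclideanSpace ℝ (Fin d) × ℝ))) := by
  have h := lintegral_orth_prod y (-1 : ℝ) (by norm_num)
    (fun x : WithLp 2 (EuclideanSpace ℝ (Fin d) × ℝ) => φ (WithLp.ofLp x))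
    (hφ.comp (WithLp.measurable_ofLp ..))
  rw [h, ← mul_assoc, ← ENNReal.ofReal_mul (by positivity)]
  have hp : (0 : ℝ) < 1 + ‖y‖ ^ 2 := by positivity
  have e1 : (1 + ‖y‖ ^ 2) ^ (-(1 : ℝ) / 2) * (√(‖y‖ ^ 2 + (-1) ^ 2) / |(-1 : ℝ)|) = 1 := by
    have e2 : ‖y‖ ^ 2 + (-1 : ℝ) ^ 2 = 1 + ‖y‖ ^ 2 := by ring
    rw [e2, Real.sqrt_eq_rpow, abs_neg, abs_one, div_one, ← Real.rpow_add hp]
    norm_num
  rw [e1, ENNReal.ofReal_one, one_mul]
  unfold sec
  congr 1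
  ext z
  have e3 : -⟪y, z⟫ / (-1 : ℝ) = ⟪z, y⟫ := by
    rw [real_inner_comm]; ring
  rw [e3]

theorem sec_polar (hd : 1 ≤ d) (φ : EuclideanSpace ℝ (Fin d) × ℝ → ℝ≥0∞) (hφ : Measurable φ)
    (y : EuclideanSpace ℝ (Fin d)) :
    sec φ y = ENNReal.ofReal ((1 + ‖y‖ ^ 2) ^ (-(1 : ℝ) / 2)) *
      lsph (fun x => ∫⁻ r in Ioi (0 : ℝ), ENNReal.ofReal (r ^ (d - 1)) *
        φ (WithLp.ofLp (r • x))) (WithLp.toLp 2 (y, (-1 : ℝ))) := by
  rw [sec_eq φ hφ y]
  congr 1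
  rw [orth_polar_gen d (finrank_EE d) hd _ (toLp_ne y)
    (fun x : WithLp 2 (EuclideanSpace ℝ (Fin d) × ℝ) => φ (WithLp.ofLp x))
    (hφ.comp (WithLp.measurable_ofLp ..))]
  rfl

theorem tot_eq (φ : EuclideanSpace ℝ (Fin d) × ℝ → ℝ≥0∞) (hφ : Measurable φ) :
    tot φ = ∫⁻ x : WithLp 2 (EuclideanSpace ℝ (Fin d) × ℝ), φ (WithLp.ofLp x) := by
  rw [lintegral_prodLp (fun x : WithLp 2 (EuclideanSpace ℝ (Fin d) × ℝ) => φ (WithLp.ofLp x))
    (hφ.comp (WithLp.measurable_ofLp ..))]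
  rfl

theorem sec_le (hd : 1 ≤ d) (φ : EuclideanSpace ℝ (Fin d) × ℝ → ℝ≥0∞) (hφ : Measurable φ)
    (y : EuclideanSpace ℝ (Fin d)) (B : ℝ≥0∞)
    (hB : ∀ x : WithLp 2 (EuclideanSpace ℝ (Fin d) × ℝ), ‖x‖ = 1 →
      ∫⁻ r in Ioi (0 : ℝ), ENNReal.ofReal (r ^ (d - 1)) * φ (WithLp.ofLp (r • x)) ≤ B) :
    sec φ y ≤ ENNReal.ofReal ((1 + ‖y‖ ^ 2) ^ (-(1 : ℝ) / 2)) *
      (B * lsph (fun _ : WithLp 2 (EuclideanSpace ℝ (Fin d) × ℝ) => 1)
        (WithLp.toLp 2 (y, (-1 : ℝ)))) := by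
  rw [sec_polar hd φ hφ y]
  gcongr
  unfold lsph
  rw [← lintegral_const_mul _ measurable_const]
  apply lintegral_mono
  intro θ
  dsimp only
  rw [mul_one]
  apply hB
  have := θ.2
  rw [mem_sphere_zero_iff_norm] at this
  exact this

theorem tot_le (φ : EuclideanSpace ℝ (Fin d) × ℝ → ℝ≥0∞) (hφ : Measurable φ) (B : ℝ≥0∞)
    (hB : ∀ x : WithLp 2 (EuclideanSpace ℝ (Fin d) × ℝ), ‖x‖ = 1 →
      ∫⁻ r in Ioi (0 : ℝ), ENNReal.ofReal (r ^ d) * φ (WithLp.ofLp (r • x)) ≤ B) :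
    tot φ ≤ B * (volume : Measure (WithLp 2 (EuclideanSpace ℝ (Fin d) × ℝ))).toSphere univ := by
  have : Nontrivial (WithLp 2 (EuclideanSpace ℝ (Fin d) × ℝ)) := by
    apply Module.nontrivial_of_finrank_pos (R := ℝ)
    rw [finrank_EE]; omega
  rw [tot_eq φ hφ, lintegral_polar
    (fun x : WithLp 2 (EuclideanSpace ℝ (Fin d) × ℝ) => φ (WithLp.ofLp x))
    (hφ.comp (WithLp.measurable_ofLp ..)), finrank_EE,
    Nat.add_sub_cancel, ← lintegral_const]
  apply lintegral_mono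
  intro θ
  dsimp only
  apply hB
  have := θ.2
  rw [mem_sphere_zero_iff_norm] at this
  exact this

theorem sec_K_eq (hd : 2 ≤ d) (i c₁ c₂ : ℝ) (hi : 0 < i) (hc₂ : 0 < c₂)
    (u v : WithLp 2 (EuclideanSpace ℝ (Fin d) × ℝ) → ℝ) (h : Sol i c₁ c₂ u v)
    (hK : MeasurableSet (KK d i u)) (y : EuclideanSpace ℝ (Fin d)) :
    sec ((KK d i u).indicator 1) y = ENNReal.ofReal ((1 + ‖y‖ ^ 2) ^ (-(1 : ℝ) / 2) *
      (v (WithLp.toLp 2 (y, (-1 : ℝ))) / (c₂ * d))) := by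
  have hd0 : (0 : ℝ) < d := by
    have : 0 < d := by omega
    exact_mod_cast this
  rw [sec_polar (by omega) _ (measurable_one.indicator hK) y, ENNReal.ofReal_mul (by positivity)]
  congr 1
  have h1 : lsph (fun x : WithLp 2 (EuclideanSpace ℝ (Fin d) × ℝ) =>
      ∫⁻ r in Ioi (0 : ℝ), ENNReal.ofReal (r ^ (d - 1)) *
        (KK d i u).indicator 1 (WithLp.ofLp (r • x))) (WithLp.toLp 2 (y, (-1 : ℝ))) =
      lsph (fun x => ENNReal.ofReal ((u x) ^ i / d)) (WithLp.toLp 2 (y, (-1 : ℝ))) := by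
    unfold lsph
    apply lintegral_congr
    intro θ
    dsimp only
    have hθ : ‖((θ : (ℝ ∙ (WithLp.toLp 2 (y, (-1 : ℝ)) :
      WithLp 2 (EuclideanSpace ℝ (Fin d) × ℝ)))ᗮ) :
        WithLp 2 (EuclideanSpace ℝ (Fin d) × ℝ))‖ = 1 := by
      have := θ.2
      rw [mem_sphere_zero_iff_norm] at this
      exact this
    have h2 := radial_K d (by omega) ((d : ℝ) / i) (by positivity) u h.hom_u h.pos_u _ hθ
    have e1 : (d : ℝ) / ((d : ℝ) / i) = i := by field_simp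
    rw [e1] at h2
    rw [← h2]
    apply lintegral_congr
    intro r
    congr 1
    by_cases hm : WithLp.ofLp (r • ((θ : (ℝ ∙ (WithLp.toLp 2 (y, (-1 : ℝ)) :
      WithLp 2 (EuclideanSpace ℝ (Fin d) × ℝ)))ᗮ) :
        WithLp 2 (EuclideanSpace ℝ (Fin d) × ℝ))) ∈ KK d i u
    · rw [indicator_of_mem hm, indicator_of_mem]
      · rfl
      · rcases hm with hm | hm
        · left
          have := congrArg (WithLp.toLp 2) hm
          simpa using this
        · right; exact hm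
    · rw [indicator_of_notMem hm, indicator_of_notMem]
      intro hm'
      apply hm
      rcases hm' with hm' | hm'
      · left
        rw [hm']; rfl
      · right; exact hm'
  rw [h1, lsph_ofReal]
  · congr 1
    rw [h.eq_v _ (toLp_ne y)]
    unfold sphInt
    rw [integral_div]
    field_simp
  · apply ContinuousOn.div_const
    exact h.cont_u.rpow_const (fun x hx => Or.inl (h.pos_u x hx).ne')
  · intro x hx
    have := h.pos_u x hx
    positivity

end Chart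

end Ident

open Ident in
theorem meshHyp_of_sol (d : ℕ) (hd : 2 ≤ d) (i c₁ c₂ : ℝ) (hi : 1 < i) (hid : i < d)
    (hc₁ : 0 < c₁) (hc₂ : 0 < c₂) (u v : WithLp 2 (EuclideanSpace ℝ (Fin d) × ℝ) → ℝ)
    (hum : Measurable u) (hvm : Measurable v)
    (h : Sol i c₁ c₂ u v)
    (hold : ∃ C : ℝ, 0 < C ∧ ∀ x y : WithLp 2 (EuclideanSpace ℝ (Fin d) × ℝ),
      ‖x‖ = 1 → ‖y‖ = 1 → |u x - u y| ≤ C * ‖x - y‖ ^ (3 / 4 : ℝ)) :
    ∃ (Sh : ℝ → Set (EuclideanSpace ℝ (Fin d) × ℝ)) (R η₀ C C' : ℝ),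
      MeshHyp d (i + 1) (((d : ℝ) / i - 1) / 2) (KK d i u) (UU d u) Sh R η₀ C C' := by
  have hnt : Nontrivial (WithLp 2 (EuclideanSpace ℝ (Fin d) × ℝ)) := by
    apply Module.nontrivial_of_finrank_pos (R := ℝ)
    rw [finrank_EE]; omega
  have hi0 : 0 < i := by linarith
  have hd0 : (0 : ℝ) < d := by linarith
  obtain ⟨Ch, hCh, hold⟩ := hold
  obtain ⟨m, M, hm, hmM, hb⟩ := exists_bounds u h.hom_u h.cont_u h.pos_u
  obtain ⟨mv, Mv, hmv, hmMv, hbv⟩ := exists_bounds v h.hom_v h.cont_v h.pos_v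
  obtain ⟨cS, hcS, hS⟩ := lsph_one_const (E := WithLp 2 (EuclideanSpace ℝ (Fin d) × ℝ))
    (by rw [finrank_EE]; omega)
  set σ : ℝ := (d : ℝ) / i with hσdef
  have hσ : 1 < σ := by rw [hσdef, one_lt_div hi0]; exact hid
  have hσ0 : 0 < σ := by linarith
  have hM : 0 < M := by linarith
  set R : ℝ := M ^ σ⁻¹ + 1 with hRdef
  set r₀ : ℝ := m ^ σ⁻¹ with hr₀def
  have hMp : 0 < M ^ σ⁻¹ := Real.rpow_pos_of_pos hM _
  have hr₀ : 0 < r₀ := Real.rpow_pos_of_pos hm _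
  have hR : 0 < R := by linarith
  set r₁ : ℝ := r₀ / 2 with hr₁def
  have hr₁ : 0 < r₁ := by positivity
  set η₀ : ℝ := min (1 / 2) (r₀ / 4) with hη₀def
  have hη₀ : 0 < η₀ := by positivity
  set C₁ : ℝ := 2 * σ * R ^ (σ - 1) + Ch * (4 / r₁) ^ (3 / 4 : ℝ) with hC₁def
  have hRp : 0 < R ^ (σ - 1) := Real.rpow_pos_of_pos hR _
  have hr₁p : 0 < r₁ ^ (σ - 1) := Real.rpow_pos_of_pos hr₁ _
  have hC₁ : 0 < C₁ := by positivity
  set cT : ℝ := ((volume : Measure (WithLp 2 (EuclideanSpace ℝ (Fin d) × ℝ))).toSphere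
    univ).toReal with hcTdef
  have hcT : 0 ≤ cT := ENNReal.toReal_nonneg
  have hcT' : (volume : Measure (WithLp 2 (EuclideanSpace ℝ (Fin d) × ℝ))).toSphere univ =
      ENNReal.ofReal cT := by
    rw [hcTdef, ENNReal.ofReal_toReal (measure_ne_top _ _)]
  have hKopen : IsOpen (KK d i u) := by
    have h1 := (isOpen_K σ hσ0 u h.hom_u h.cont_u h.pos_u).preimage
      (WithLp.prod_continuous_toLp 2 (EuclideanSpace ℝ (Fin d)) ℝ)
    convert h1 using 1
    ext x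
    simp only [KK, mem_ofPred_eq, mem_preimage, toLp_eq_zero_iff]
    rfl
  have hKm : MeasurableSet (KK d i u) := hKopen.measurableSet
  have htl : Measurable (fun x : EuclideanSpace ℝ (Fin d) × ℝ =>
      (WithLp.toLp 2 x : WithLp 2 (EuclideanSpace ℝ (Fin d) × ℝ))) :=
    WithLp.measurable_toLp ..
  have hum' : Measurable (fun x : EuclideanSpace ℝ (Fin d) × ℝ => u (WithLp.toLp 2 x)) :=
    hum.comp htl
  have hnm' : Measurable (fun x : EuclideanSpace ℝ (Fin d) × ℝ =>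
      ‖(WithLp.toLp 2 x : WithLp 2 (EuclideanSpace ℝ (Fin d) × ℝ))‖) := htl.norm
  set Sh : ℝ → Set (EuclideanSpace ℝ (Fin d) × ℝ) := fun η =>
    {x | r₁ ≤ ‖(WithLp.toLp 2 x : WithLp 2 (EuclideanSpace ℝ (Fin d) × ℝ))‖ ∧
      ‖(WithLp.toLp 2 x : WithLp 2 (EuclideanSpace ℝ (Fin d) × ℝ))‖ ≤ R ∧
      |‖(WithLp.toLp 2 x : WithLp 2 (EuclideanSpace ℝ (Fin d) × ℝ))‖ ^ σ -
        u (WithLp.toLp 2 x)| ≤ C₁ * η ^ (3 / 4 : ℝ)} with hShdef
  have hShm : ∀ η, MeasurableSet (Sh η) := by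
    intro η
    have h1 : MeasurableSet {x : EuclideanSpace ℝ (Fin d) × ℝ |
      r₁ ≤ ‖(WithLp.toLp 2 x : WithLp 2 (EuclideanSpace ℝ (Fin d) × ℝ))‖} :=
      measurableSet_le measurable_const hnm'
    have h2 : MeasurableSet {x : EuclideanSpace ℝ (Fin d) × ℝ |
      ‖(WithLp.toLp 2 x : WithLp 2 (EuclideanSpace ℝ (Fin d) × ℝ))‖ ≤ R} :=
      measurableSet_le hnm' measurable_const
    have h3 : MeasurableSet {x : EuclideanSpace ℝ (Fin d) × ℝ |
      |‖(WithLp.toLp 2 x : WithLp 2 (EuclideanSpace ℝ (Fin d) × ℝ))‖ ^ σ -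
        u (WithLp.toLp 2 x)| ≤ C₁ * η ^ (3 / 4 : ℝ)} :=
      measurableSet_le ((hnm'.pow_const σ).sub hum').abs measurable_const
    exact h1.inter (h2.inter h3)
  -- radial sections of the shells
  have hShr : ∀ η, 0 < η → ∀ n : ℕ, ∀ x : WithLp 2 (EuclideanSpace ℝ (Fin d) × ℝ), ‖x‖ = 1 →
      ∫⁻ r in Ioi (0 : ℝ), ENNReal.ofReal (r ^ n) *
        (Sh η).indicator 1 (WithLp.ofLp (r • x)) ≤
      ENNReal.ofReal (R ^ n * (2 * (C₁ * η ^ (3 / 4 : ℝ)) / r₁ ^ (σ - 1))) := by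
    intro η hη n x hx
    have hx0 : x ≠ 0 := by
      intro h; rw [h, norm_zero] at hx; norm_num at hx
    refine le_trans (le_of_eq ?_) (int_shell n σ r₁ R (u x) (C₁ * η ^ (3 / 4 : ℝ)) hσ.le hr₁
      (by positivity))
    apply setLIntegral_congr_fun measurableSet_Ioi
    intro r hr
    have hr' : (0 : ℝ) < r := hr
    dsimp only
    have hiff : WithLp.ofLp (r • x) ∈ Sh η ↔
        r ∈ {r : ℝ | r₁ ≤ r ∧ r ≤ R ∧ |r ^ σ - u x| ≤ C₁ * η ^ (3 / 4 : ℝ)} := by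
      have e1 : (WithLp.toLp 2 (WithLp.ofLp (r • x)) :
        WithLp 2 (EuclideanSpace ℝ (Fin d) × ℝ)) = r • x := rfl
      simp only [hShdef, mem_ofPred_eq, e1]
      rw [norm_smul, hx, mul_one, Real.norm_of_nonneg hr'.le, h.hom_u x hx0 r hr']
    by_cases hm : WithLp.ofLp (r • x) ∈ Sh η
    · rw [indicator_of_mem hm, indicator_of_mem (hiff.1 hm)]; rfl
    · rw [indicator_of_notMem hm, indicator_of_notMem (fun h' => hm (hiff.2 h'))]
  have hpow : ∀ x : EuclideanSpace ℝ (Fin d) × ℝ, x ≠ 0 →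
      (‖x.1‖ ^ 2 + x.2 ^ 2) ^ ((σ - 1) / 2) =
        ‖(WithLp.toLp 2 x : WithLp 2 (EuclideanSpace ℝ (Fin d) × ℝ))‖ ^ σ /
          ‖(WithLp.toLp 2 x : WithLp 2 (EuclideanSpace ℝ (Fin d) × ℝ))‖ := by
    intro x hx
    have hx' : (WithLp.toLp 2 x : WithLp 2 (EuclideanSpace ℝ (Fin d) × ℝ)) ≠ 0 :=
      fun h' => hx ((toLp_eq_zero_iff x).1 h')
    have hN : 0 < ‖(WithLp.toLp 2 x : WithLp 2 (EuclideanSpace ℝ (Fin d) × ℝ))‖ :=
      norm_pos_iff.2 hx'
    rw [← norm_toLp_sq, ← Real.rpow_sub_one hN.ne', ← Real.rpow_natCast, ← Real.rpow_mul hN.le]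
    congr 1
    push_cast
    ring
  set Ca : ℝ := Mv / (c₂ * d) with hCa
  set Cb : ℝ := R ^ (d - 1) * (2 * C₁ / r₁ ^ (σ - 1)) * cS with hCb
  set Cc : ℝ := R ^ d * (2 * C₁ / r₁ ^ (σ - 1)) * cT with hCc
  set Cd : ℝ := C₁ / r₁ with hCd
  set Ce : ℝ := 2⁻¹ * r₁⁻¹ * cS with hCe
  have hMv : 0 < Mv := by linarith
  have pCa : 0 < Ca := by positivity
  have pCb : 0 < Cb := by positivity
  have pCc : 0 ≤ Cc := by positivity
  have pCd : 0 < Cd := by positivity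
  have pCe : 0 < Ce := by positivity
  refine ⟨Sh, R, η₀, Ca + Cb + Cc + Cd + Ce, 2⁻¹ * (c₁⁻¹ * ((c₂ * d) ^ i)⁻¹), ?_⟩
  constructor
  · exact hd
  · linarith
  · linarith
  · linarith
  · exact hR
  · exact hη₀
  · positivity
  · positivity
  · exact hKopen
  · -- boundedness
    intro x hx
    have hx' : ‖(WithLp.toLp 2 x : WithLp 2 (EuclideanSpace ℝ (Fin d) × ℝ))‖ < R := by
      rcases hx with hx | hx
      · rw [hx]
        have : (WithLp.toLp 2 (0 : EuclideanSpace ℝ (Fin d) × ℝ) :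
          WithLp 2 (EuclideanSpace ℝ (Fin d) × ℝ)) = 0 := rfl
        rw [this, norm_zero]; exact hR
      · by_cases hx0 : x = 0
        · rw [hx0]
          have : (WithLp.toLp 2 (0 : EuclideanSpace ℝ (Fin d) × ℝ) :
            WithLp 2 (EuclideanSpace ℝ (Fin d) × ℝ)) = 0 := rfl
          rw [this, norm_zero]; exact hR
        · have h1 := hx.trans_le (hb _ (fun h' => hx0 ((toLp_eq_zero_iff x).1 h'))).2
          have h2 : ‖(WithLp.toLp 2 x : WithLp 2 (EuclideanSpace ℝ (Fin d) × ℝ))‖ < M ^ σ⁻¹ := by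
            rw [Real.lt_rpow_inv_iff_of_pos (norm_nonneg _) hM.le hσ0]
            exact h1
          linarith
    have h1 := norm_toLp_sq x
    have h2 := norm_nonneg (WithLp.toLp 2 x : WithLp 2 (EuclideanSpace ℝ (Fin d) × ℝ))
    constructor
    · apply lt_of_le_of_lt _ hx'
      apply le_of_sq_le_sq _ h2
      rw [h1]; nlinarith [sq_nonneg x.2]
    · apply lt_of_le_of_lt _ hx'
      apply le_of_sq_le_sq _ h2
      rw [h1, sq_abs]; nlinarith [sq_nonneg ‖x.1‖]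
  · -- U measurable
    exact hum'.div hnm'
  · -- U nonneg
    intro x
    by_cases hx0 : (WithLp.toLp 2 x : WithLp 2 (EuclideanSpace ℝ (Fin d) × ℝ)) = 0
    · unfold UU; rw [hx0, norm_zero, div_zero]
    · exact div_nonneg (h.pos_u _ hx0).le (norm_nonneg _)
  · -- U integrable
    set φ : EuclideanSpace ℝ (Fin d) × ℝ → ℝ≥0∞ :=
      ({x : EuclideanSpace ℝ (Fin d) × ℝ |
        ‖(WithLp.toLp 2 x : WithLp 2 (EuclideanSpace ℝ (Fin d) × ℝ))‖ ≤ 2 * R}).indicator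
        (fun x => ENNReal.ofReal (UU d u x)) with hφdef
    have hφ : Measurable φ := by
      apply Measurable.indicator
      · exact (hum'.div hnm').ennreal_ofReal
      · exact measurableSet_le hnm' measurable_const
    have h1 : ∫⁻ z in ball (0 : EuclideanSpace ℝ (Fin d)) R, ∫⁻ t in Icc (-R) R,
        ENNReal.ofReal (UU d u (z, t)) ≤ tot φ := by
      unfold tot
      refine le_trans ?_ (setLIntegral_le_lintegral (ball (0 : EuclideanSpace ℝ (Fin d)) R) _)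
      apply setLIntegral_mono' measurableSet_ball
      intro z hz
      refine le_trans ?_ (setLIntegral_le_lintegral (Icc (-R) R) _)
      apply setLIntegral_mono' measurableSet_Icc
      intro t ht
      rw [hφdef, indicator_of_mem]
      rw [mem_ofPred_eq]
      apply le_of_sq_le_sq _ (by positivity)
      rw [norm_toLp_sq]
      rw [mem_ball_zero_iff] at hz
      have h2 : ‖z‖ ^ 2 ≤ R ^ 2 := pow_le_pow_left₀ (norm_nonneg _) hz.le 2
      have h3 : t ^ 2 ≤ R ^ 2 := by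
        rw [← sq_abs]; exact pow_le_pow_left₀ (abs_nonneg _) (abs_le.2 ht) 2
      dsimp only
      nlinarith
    refine lt_of_le_of_lt (h1.trans (tot_le φ hφ
      (ENNReal.ofReal ((2 * R) ^ (d - 1) * M) * ENNReal.ofReal (2 * R)) ?_)) ?_
    · intro x hx
      have hx0 : x ≠ 0 := by
        intro h; rw [h, norm_zero] at hx; norm_num at hx
      calc ∫⁻ r in Ioi (0 : ℝ), ENNReal.ofReal (r ^ d) * φ (WithLp.ofLp (r • x))
          ≤ ∫⁻ r in Ioi (0 : ℝ), (Ioc (0 : ℝ) (2 * R)).indicator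
              (fun _ => ENNReal.ofReal ((2 * R) ^ (d - 1) * M)) r := by
            apply setLIntegral_mono' measurableSet_Ioi
            intro r hr
            have hr' : (0 : ℝ) < r := hr
            have e1 : (WithLp.toLp 2 (WithLp.ofLp (r • x)) :
              WithLp 2 (EuclideanSpace ℝ (Fin d) × ℝ)) = r • x := rfl
            have e2 : ‖r • x‖ = r := by
              rw [norm_smul, hx, mul_one, Real.norm_of_nonneg hr'.le]
            by_cases hrR : r ≤ 2 * R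
            · rw [indicator_of_mem (show r ∈ Ioc (0 : ℝ) (2 * R) from ⟨hr', hrR⟩), hφdef,
                indicator_of_mem, ← ENNReal.ofReal_mul (by positivity)]
              · apply ENNReal.ofReal_le_ofReal
                unfold UU
                rw [e1, e2, h.hom_u x hx0 r hr']
                have e3 : r ^ d = r ^ (d - 1) * r := by
                  rw [← pow_succ]; congr 1; omega
                have e4 : r ^ d * (u x / r) = r ^ (d - 1) * u x := by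
                  rw [e3]; field_simp
                rw [e4]
                apply mul_le_mul (pow_le_pow_left₀ hr'.le hrR _) (hb x hx0).2
                  (h.pos_u x hx0).le (by positivity)
              · rw [mem_ofPred_eq, e1, e2]; exact hrR
            · rw [hφdef, indicator_of_notMem, mul_zero]
              · exact bot_le
              · rw [mem_ofPred_eq, e1, e2]; exact hrR
        _ ≤ ∫⁻ r, (Ioc (0 : ℝ) (2 * R)).indicator
              (fun _ => ENNReal.ofReal ((2 * R) ^ (d - 1) * M)) r := setLIntegral_le_lintegral _ _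
        _ = ENNReal.ofReal ((2 * R) ^ (d - 1) * M) * ENNReal.ofReal (2 * R) := by
            rw [lintegral_indicator measurableSet_Ioc, setLIntegral_const, Real.volume_Ioc, sub_zero]
    · rw [hcT']
      exact ENNReal.mul_lt_top (ENNReal.mul_lt_top ENNReal.ofReal_lt_top ENNReal.ofReal_lt_top)
        ENNReal.ofReal_lt_top
  · -- U_K
    intro x hx
    have hx' : (WithLp.toLp 2 x : WithLp 2 (EuclideanSpace ℝ (Fin d) × ℝ)) ≠ 0 :=
      fun h' => hx ((toLp_eq_zero_iff x).1 h')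
    have hN : 0 < ‖(WithLp.toLp 2 x : WithLp 2 (EuclideanSpace ℝ (Fin d) × ℝ))‖ :=
      norm_pos_iff.2 hx'
    rw [hpow x hx]
    unfold UU
    rw [div_lt_div_iff_of_pos_right hN]
    constructor
    · rintro (h1 | h1)
      · exact absurd h1 hx
      · exact h1
    · intro h1; right; exact h1
  · -- sec_K
    intro y
    rw [sec_K_eq hd i c₁ c₂ hi0 hc₂ u v h hKm y]
    apply ENNReal.ofReal_le_ofReal
    rw [mul_comm]
    apply mul_le_mul_of_nonneg_right _ (by positivity)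
    have h1 : v (WithLp.toLp 2 (y, (-1 : ℝ))) / (c₂ * d) ≤ Ca := by
      rw [hCa]
      exact div_le_div_of_nonneg_right (hbv _ (toLp_ne y)).2 (by positivity)
    linarith
  · -- energy
    intro φ hφ
    have hveven : ∀ x, x ≠ 0 → ∀ s : ℝ, s ≠ 0 → v (s • x) = v x := by
      intro x hx s hs
      rw [h.eq_v x hx, h.eq_v (s • x) (smul_ne_zero hs hx), sphInt_smul _ _ _ hs]
    have hst := star_identity (F := EuclideanSpace ℝ (Fin d))
      (by rw [finrank_euclideanSpace_fin]; omega)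
      (fun x => ENNReal.ofReal ((v x) ^ i)) (hvm.pow_const i).ennreal_ofReal
      (by
        intro x hx s hs
        show ENNReal.ofReal (v (s • x) ^ i) = ENNReal.ofReal (v x ^ i)
        rw [hveven x hx s hs]) φ hφ
    rw [finrank_euclideanSpace_fin] at hst
    have hlhs : ∀ y : EuclideanSpace ℝ (Fin d),
        (sec ((KK d i u).indicator 1) y) ^ (i + 1 - 1) * Wt d ((d + 1 - (i + 1)) / 2) y *
          sec φ y = ENNReal.ofReal (((c₂ * d) ^ i)⁻¹) *
          (ENNReal.ofReal ((1 + ‖y‖ ^ 2) ^ (-(d : ℝ) / 2)) *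
            ENNReal.ofReal ((v (WithLp.toLp 2 (y, -1))) ^ i) * ∫⁻ z, φ (z, ⟪z, y⟫)) := by
      intro y
      have hv0 := (h.pos_v _ (toLp_ne y)).le
      have hp : (0 : ℝ) < 1 + ‖y‖ ^ 2 := by positivity
      rw [sec_K_eq hd i c₁ c₂ hi0 hc₂ u v h hKm y]
      unfold Wt sec
      rw [ENNReal.ofReal_rpow_of_nonneg (by positivity) (by linarith),
        ← ENNReal.ofReal_mul (by positivity), ← mul_assoc, ← ENNReal.ofReal_mul (by positivity),
        ← ENNReal.ofReal_mul (by positivity)]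
      congr 2
      rw [add_sub_cancel_right, Real.mul_rpow (by positivity) (by positivity),
        Real.div_rpow hv0 (by positivity), ← Real.rpow_mul hp.le]
      have e1 : (1 + ‖y‖ ^ 2) ^ (-(d : ℝ) / 2) =
          (1 + ‖y‖ ^ 2) ^ (-(1 : ℝ) / 2 * i) * (1 + ‖y‖ ^ 2) ^ (-(((d : ℝ) + 1 - (i + 1)) / 2)) := by
        rw [← Real.rpow_add hp]; congr 1; ring
      rw [e1]
      field_simp
    simp_rw [hlhs]
    rw [lintegral_const_mul' _ _ ENNReal.ofReal_ne_top]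
    rw [hst]
    have hrhs : ∀ (z : EuclideanSpace ℝ (Fin d)) (t : ℝ),
        φ (z, t) * (ENNReal.ofReal ((√(‖z‖ ^ 2 + t ^ 2))⁻¹) *
          lsph (fun x => ENNReal.ofReal ((v x) ^ i)) (WithLp.toLp 2 (z, t))) =
        ENNReal.ofReal c₁⁻¹ * (φ (z, t) * ENNReal.ofReal (UU d u (z, t))) := by
      intro z t
      have hN := norm_toLp (z, t)
      dsimp only at hN
      rw [← hN]
      unfold UU
      by_cases hx : (WithLp.toLp 2 (z, t) : WithLp 2 (EuclideanSpace ℝ (Fin d) × ℝ)) = 0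
      · rw [hx, norm_zero]; simp
      · rw [lsph_ofReal]
        · rw [h.eq_u _ hx, ← ENNReal.ofReal_mul (by positivity), mul_left_comm,
            ← ENNReal.ofReal_mul (by positivity)]
          congr 2
          field_simp
        · exact h.cont_v.rpow_const (fun x hx => Or.inl (h.pos_v x hx).ne')
        · intro x hx
          have := h.pos_v x hx
          positivity
    simp_rw [hrhs]
    unfold tot
    simp_rw [lintegral_const_mul' _ _ (ENNReal.ofReal_ne_top (r := c₁⁻¹))]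
    have e2 : (2 : ℝ≥0∞)⁻¹ = ENNReal.ofReal 2⁻¹ := by
      rw [ENNReal.ofReal_inv_of_pos (by norm_num)]; simp
    rw [e2, ← mul_assoc, ← mul_assoc, ← ENNReal.ofReal_mul (by positivity),
      ← ENNReal.ofReal_mul (by positivity)]
    congr 2
    ring
  · intro η _ _; exact hShm η
  · -- straddle
    intro η hη hη' z t t' htt hx hx'
    set X : WithLp 2 (EuclideanSpace ℝ (Fin d) × ℝ) := WithLp.toLp 2 (z, t) with hX
    set X' : WithLp 2 (EuclideanSpace ℝ (Fin d) × ℝ) := WithLp.toLp 2 (z, t') with hX'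
    have hη1 : η < 1 / 2 := hη'.trans_le (min_le_left _ _)
    have hη2 : η < r₀ / 4 := hη'.trans_le (min_le_right _ _)
    have hdist : ‖X - X'‖ ≤ 2 * η := by
      have e1 : X - X' = WithLp.toLp 2 ((0 : EuclideanSpace ℝ (Fin d)), t - t') := by
        rw [hX, hX', ← WithLp.toLp_sub]; simp
      have e2 := norm_toLp_sq ((0 : EuclideanSpace ℝ (Fin d)), t - t')
      rw [← e1] at e2
      apply le_of_sq_le_sq _ (by positivity)
      rw [e2, norm_zero]
      have : (t - t') ^ 2 ≤ (2 * η) ^ 2 := by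
        rw [← sq_abs]; exact pow_le_pow_left₀ (abs_nonneg _) htt 2
      linarith
    have hx'' : ¬ ((z, t') = (0 : EuclideanSpace ℝ (Fin d) × ℝ)) ∧ u X' ≤ ‖X'‖ ^ σ := by
      constructor
      · intro h'; exact hx' (Or.inl h')
      · by_contra h'; exact hx' (Or.inr (not_le.1 h'))
    have hX'0 : X' ≠ 0 := fun h' => hx''.1 ((toLp_eq_zero_iff (z, t')).1 h')
    have hX'n : r₀ ≤ ‖X'‖ := by
      rw [hr₀def, Real.rpow_inv_le_iff_of_pos hm.le (norm_nonneg _) hσ0]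
      exact (hb X' hX'0).1.trans hx''.2
    have htri : ‖X'‖ ≤ ‖X‖ + ‖X - X'‖ := by
      have := norm_sub_norm_le X' X
      rw [norm_sub_rev] at this
      linarith
    have htri2 : ‖X‖ ≤ ‖X'‖ + ‖X - X'‖ := by
      have := norm_sub_norm_le X X'
      linarith
    have hXn : r₁ ≤ ‖X‖ := by rw [hr₁def]; linarith
    have hXpos : 0 < ‖X‖ := by linarith
    have hX0 : X ≠ 0 := norm_pos_iff.1 hXpos
    have hxK : ‖X‖ ^ σ < u X := by
      rcases hx with hx | hx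
      · exact absurd ((toLp_eq_zero_iff (z, t)).2 hx) hX0
      · exact hx
    have hXM : ‖X‖ < M ^ σ⁻¹ := by
      rw [Real.lt_rpow_inv_iff_of_pos (norm_nonneg _) hM.le hσ0]
      exact hxK.trans_le (hb X hX0).2
    have hXR : ‖X‖ ≤ R := by linarith
    have hX'R : ‖X'‖ ≤ R := by linarith
    have hηp : η ≤ η ^ (3 / 4 : ℝ) := by
      have := Real.rpow_le_rpow_of_exponent_ge hη (by linarith) (show (3 / 4 : ℝ) ≤ 1 by norm_num)
      rwa [Real.rpow_one] at this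
    have hpow1 : |‖X‖ ^ σ - ‖X'‖ ^ σ| ≤ 2 * σ * R ^ (σ - 1) * η ^ (3 / 4 : ℝ) := by
      have key : ∀ a b : ℝ, 0 < a → a ≤ b → b ≤ R → b - a ≤ 2 * η →
          b ^ σ - a ^ σ ≤ 2 * σ * R ^ (σ - 1) * η ^ (3 / 4 : ℝ) := by
        intro a b ha hab hbR hba
        refine (rpow_upper σ R a b hσ.le ha hab hbR).trans ?_
        have h1 : σ * R ^ (σ - 1) * (b - a) ≤ σ * R ^ (σ - 1) * (2 * η ^ (3 / 4 : ℝ)) := by
          apply mul_le_mul_of_nonneg_left _ (by positivity)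
          linarith
        linarith
      rcases le_total ‖X‖ ‖X'‖ with hle | hle
      · have h1 := key ‖X‖ ‖X'‖ hXpos hle hX'R (by linarith)
        have h2 : ‖X‖ ^ σ ≤ ‖X'‖ ^ σ := Real.rpow_le_rpow hXpos.le hle hσ0.le
        rw [abs_sub_comm, abs_of_nonneg (by linarith)]
        exact h1
      · have h1 := key ‖X'‖ ‖X‖ (by linarith) hle hXR (by linarith)
        have h2 : ‖X'‖ ^ σ ≤ ‖X‖ ^ σ := Real.rpow_le_rpow (norm_nonneg _) hle hσ0.le
        rw [abs_of_nonneg (by linarith)]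
        exact h1
    have hu1 : |u X - u X'| ≤ Ch * (4 / r₁) ^ (3 / 4 : ℝ) * η ^ (3 / 4 : ℝ) := by
      refine (holder_ext u h.hom_u Ch hCh hold r₁ hr₁ X X' hXn hX'0).trans ?_
      rw [mul_assoc, ← Real.mul_rpow (by positivity) hη.le]
      apply mul_le_mul_of_nonneg_left _ hCh.le
      apply Real.rpow_le_rpow (by positivity) _ (by norm_num)
      rw [div_mul_eq_mul_div]
      apply div_le_div_of_nonneg_right _ hr₁.le
      linarith
    have hsum : 2 * σ * R ^ (σ - 1) * η ^ (3 / 4 : ℝ) +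
        Ch * (4 / r₁) ^ (3 / 4 : ℝ) * η ^ (3 / 4 : ℝ) = C₁ * η ^ (3 / 4 : ℝ) := by
      rw [hC₁def]; ring
    have h1 := abs_le.1 hpow1
    have h2 := abs_le.1 hu1
    refine ⟨⟨hXn, hXR, ?_⟩, ⟨by linarith, hX'R, ?_⟩⟩
    · rw [abs_le]; constructor <;> linarith [hx''.2]
    · rw [abs_le]; constructor <;> linarith [hx''.2]
  · -- Sh_sec
    intro η hη _ y
    refine (sec_le (by omega) _ (measurable_one.indicator (hShm η)) y _
      (hShr η hη (d - 1))).trans ?_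
    rw [hS _ (toLp_ne y), ← ENNReal.ofReal_mul (by positivity), ← ENNReal.ofReal_mul (by positivity)]
    apply ENNReal.ofReal_le_ofReal
    have e1 : (1 + ‖y‖ ^ 2) ^ (-(1 : ℝ) / 2) *
        (R ^ (d - 1) * (2 * (C₁ * η ^ (3 / 4 : ℝ)) / r₁ ^ (σ - 1)) * cS) =
        Cb * η ^ (3 / 4 : ℝ) * (1 + ‖y‖ ^ 2) ^ (-(1 : ℝ) / 2) := by
      rw [hCb]; ring
    rw [e1]
    apply mul_le_mul_of_nonneg_right _ (by positivity)
    apply mul_le_mul_of_nonneg_right _ (by positivity)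
    linarith
  · -- Sh_vol
    intro η hη _
    refine (tot_le _ (measurable_one.indicator (hShm η)) _ (hShr η hη d)).trans ?_
    rw [hcT', ← ENNReal.ofReal_mul (by positivity)]
    apply ENNReal.ofReal_le_ofReal
    have e1 : R ^ d * (2 * (C₁ * η ^ (3 / 4 : ℝ)) / r₁ ^ (σ - 1)) * cT =
        Cc * η ^ (3 / 4 : ℝ) := by
      rw [hCc]; ring
    rw [e1]
    apply mul_le_mul_of_nonneg_right _ (by positivity)
    linarith
  · -- Sh_Q
    intro η hη _ x hx
    have hN : 0 < ‖(WithLp.toLp 2 x : WithLp 2 (EuclideanSpace ℝ (Fin d) × ℝ))‖ :=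
      lt_of_lt_of_le hr₁ hx.1
    have hx0 : x ≠ 0 := by
      intro h'
      rw [h'] at hN
      have : (WithLp.toLp 2 (0 : EuclideanSpace ℝ (Fin d) × ℝ) :
        WithLp 2 (EuclideanSpace ℝ (Fin d) × ℝ)) = 0 := rfl
      rw [this, norm_zero] at hN
      exact lt_irrefl _ hN
    rw [hpow x hx0]
    unfold UU
    rw [← sub_div, abs_div, abs_of_pos hN, abs_sub_comm]
    have h1 : |‖(WithLp.toLp 2 x : WithLp 2 (EuclideanSpace ℝ (Fin d) × ℝ))‖ ^ σ -
        u (WithLp.toLp 2 x)| / ‖(WithLp.toLp 2 x : WithLp 2 (EuclideanSpace ℝ (Fin d) × ℝ))‖ ≤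
        (C₁ * η ^ (3 / 4 : ℝ)) / r₁ := by
      apply div_le_div₀ (by positivity) hx.2.2 hr₁ hx.1
    refine h1.trans ?_
    have e1 : (C₁ * η ^ (3 / 4 : ℝ)) / r₁ = Cd * η ^ (3 / 4 : ℝ) := by rw [hCd]; ring
    rw [e1]
    apply mul_le_mul_of_nonneg_right _ (by positivity)
    linarith
  · -- radon_bound
    intro η hη _ φ hφ hsupp
    have hst := star_identity (F := EuclideanSpace ℝ (Fin d))
      (by rw [finrank_euclideanSpace_fin]; omega)
      (fun _ => 1) measurable_const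
      (by intro x hx s hs; rfl) φ hφ
    rw [finrank_euclideanSpace_fin] at hst
    simp only [mul_one] at hst
    have e0 : ∫⁻ y : EuclideanSpace ℝ (Fin d),
        ENNReal.ofReal ((1 + ‖y‖ ^ 2) ^ (-(d : ℝ) / 2)) * sec φ y =
        ∫⁻ y : EuclideanSpace ℝ (Fin d), ENNReal.ofReal ((1 + ‖y‖ ^ 2) ^ (-(d : ℝ) / 2)) *
          ∫⁻ z, φ (z, ⟪z, y⟫) := rfl
    rw [e0, hst]
    have h1 : ∀ (z : EuclideanSpace ℝ (Fin d)) (t : ℝ),
        φ (z, t) * (ENNReal.ofReal ((√(‖z‖ ^ 2 + t ^ 2))⁻¹) *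
          lsph (fun _ => 1) (WithLp.toLp 2 (z, t))) ≤
        ENNReal.ofReal (r₁⁻¹ * cS) * φ (z, t) := by
      intro z t
      by_cases hx : (z, t) ∈ Sh η
      · have hN := norm_toLp (z, t)
        dsimp only at hN
        rw [← hN]
        have hN0 : 0 < ‖(WithLp.toLp 2 (z, t) : WithLp 2 (EuclideanSpace ℝ (Fin d) × ℝ))‖ :=
          lt_of_lt_of_le hr₁ hx.1
        rw [hS _ (norm_pos_iff.1 hN0), ← ENNReal.ofReal_mul (by positivity), mul_comm]
        gcongr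
        exact hx.1
      · rw [hsupp _ hx]; simp
    calc 2⁻¹ * ∫⁻ z : EuclideanSpace ℝ (Fin d), ∫⁻ t : ℝ,
          φ (z, t) * (ENNReal.ofReal ((√(‖z‖ ^ 2 + t ^ 2))⁻¹) *
          lsph (fun _ => 1) (WithLp.toLp 2 (z, t)))
        ≤ 2⁻¹ * ∫⁻ z : EuclideanSpace ℝ (Fin d), ∫⁻ t : ℝ,
          ENNReal.ofReal (r₁⁻¹ * cS) * φ (z, t) := by
          exact mul_le_mul' le_rfl (lintegral_mono fun z => lintegral_mono fun t => h1 z t)
      _ = ENNReal.ofReal Ce * tot φ := by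
          simp_rw [lintegral_const_mul' _ _ (ENNReal.ofReal_ne_top (r := r₁⁻¹ * cS))]
          have e2 : (2 : ℝ≥0∞)⁻¹ = ENNReal.ofReal 2⁻¹ := by
            rw [ENNReal.ofReal_inv_of_pos (by norm_num)]; simp
          rw [e2, ← mul_assoc, ← ENNReal.ofReal_mul (by positivity), hCe]
          unfold tot
          congr 2
          ring
      _ ≤ ENNReal.ofReal (Ca + Cb + Cc + Cd + Ce) * tot φ := by
          gcongr
          linarith

end StarIB
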