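import Pool.Agent.StarIB.MeshC

/-! # Module M3: the mesh argument -/

open MeasureTheory Set Metric Module Filter Topology
open scoped ENNReal RealInnerProductSpace

namespace StarIB

variable {d : ℕ}

section facts
variable {p κ : ℝ} {K : Set (EuclideanSpace ℝ (Fin d) × ℝ)}
  {U : EuclideanSpace ℝ (Fin d) × ℝ → ℝ} {Sh : ℝ → Set (EuclideanSpace ℝ (Fin d) × ℝ)}
  {R η₀ C C' : ℝ} (h : MeshHyp d p κ K U Sh R η₀ C C') {η : ℝ} (hη : 0 < η) (hη' : η < η₀)
  {M : ℕ} (hM : R ≤ M * η) {lam : ℝ} (hl : 1 - η / (8 * R) ≤ lam) (hl1 : lam ≤ 1)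

include h hη hη' hM hl hl1

theorem Fl_le (x : EuclideanSpace ℝ (Fin d) × ℝ) :
    Fl K η M lam x ≤ K.indicator 1 x + (Sh η).indicator 1 x := by
  by_cases hx : MovP K η lam x
  · rw [Fl_of_PP h hη hM hl hl1 hx]
    by_cases hK : x ∈ K
    · rw [indicator_of_mem hK]; simp
    · rw [indicator_of_mem (shell_a h hη hη' hl hl1 hx hK)]; simp
  · rw [Fl_of_not_PP hx]; exact bot_le

theorem ind_le (x : EuclideanSpace ℝ (Fin d) × ℝ) :
    K.indicator (1 : EuclideanSpace ℝ (Fin d) × ℝ → ℝ≥0∞) x ≤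
      Fl K η M lam x + (Sh η).indicator 1 x := by
  by_cases hK : x ∈ K
  · rw [indicator_of_mem hK]
    by_cases hx : MovP K η lam x
    · rw [Fl_of_PP h hη hM hl hl1 hx]; simp
    · rw [indicator_of_mem (shell_b h hη hη' hl hl1 hx hK)]; simp
  · rw [indicator_of_notMem hK]; exact bot_le

theorem Fl_le_one_add (x : EuclideanSpace ℝ (Fin d) × ℝ) :
    Fl K η M lam x ≤ Fl K η M 1 x + (DD K η lam).indicator 1 x := by
  have hR := h.hR
  have h1l : 1 - η / (8 * R) ≤ 1 := by have : 0 < η / (8 * R) := by positivity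
                                       linarith
  by_cases hx : MovP K η lam x
  · rw [Fl_of_PP h hη hM hl hl1 hx]
    by_cases hK : MovP K η 1 x
    · rw [Fl_of_PP h hη hM h1l le_rfl hK]; simp
    · rw [indicator_of_mem (by exact Or.inr ⟨hx, hK⟩)]; simp
  · rw [Fl_of_not_PP hx]; exact bot_le

theorem Fl_one_le_add (x : EuclideanSpace ℝ (Fin d) × ℝ) :
    Fl K η M 1 x ≤ Fl K η M lam x + (DD K η lam).indicator 1 x := by
  have hR := h.hR
  have h1l : 1 - η / (8 * R) ≤ 1 := by have : 0 < η / (8 * R) := by positivity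
                                       linarith
  by_cases hK : MovP K η 1 x
  · rw [Fl_of_PP h hη hM h1l le_rfl hK]
    by_cases hx : MovP K η lam x
    · rw [Fl_of_PP h hη hM hl hl1 hx]; simp
    · rw [indicator_of_mem (by exact Or.inl ⟨hK, hx⟩)]; simp
  · rw [Fl_of_not_PP hK]; exact bot_le

theorem Sh_nonneg_bound (x : EuclideanSpace ℝ (Fin d) × ℝ) :
    Fl K η M lam x * ENNReal.ofReal (U x) +
      Fl K η M 1 x * ENNReal.ofReal ((‖x.1‖ ^ 2 + x.2 ^ 2) ^ κ) ≤
    Fl K η M 1 x * ENNReal.ofReal (U x) +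
      Fl K η M lam x * ENNReal.ofReal ((‖x.1‖ ^ 2 + x.2 ^ 2) ^ κ) +
      ENNReal.ofReal (C * η ^ (3 / 4 : ℝ)) * (DD K η lam).indicator 1 x := by
  have hR := h.hR
  have hC := h.hC
  have h1l : 1 - η / (8 * R) ≤ 1 := by have : 0 < η / (8 * R) := by positivity
                                       linarith
  have hU := h.U_nonneg x
  have hps : 0 ≤ (‖x.1‖ ^ 2 + x.2 ^ 2) ^ κ := by positivity
  have hCη : 0 ≤ C * η ^ (3 / 4 : ℝ) := by positivity
  by_cases h1 : MovP K η 1 x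
  · by_cases h2 : MovP K η lam x
    · rw [Fl_of_PP h hη hM h1l le_rfl h1, Fl_of_PP h hη hM hl hl1 h2]
      exact le_self_add
    · have hD : x ∈ DD K η lam := Or.inl ⟨h1, h2⟩
      have hQ := h.Sh_Q η hη hη' x (DD_subset_Sh h hη hη' hl hl1 hD)
      rw [Fl_of_PP h hη hM h1l le_rfl h1, Fl_of_not_PP h2, indicator_of_mem hD]
      simp only [zero_mul, one_mul, zero_add, add_zero, Pi.one_apply, mul_one]
      rw [← ENNReal.ofReal_add hU hCη]
      apply ENNReal.ofReal_le_ofReal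
      rw [abs_le] at hQ; linarith
  · by_cases h2 : MovP K η lam x
    · have hD : x ∈ DD K η lam := Or.inr ⟨h2, h1⟩
      have hQ := h.Sh_Q η hη hη' x (DD_subset_Sh h hη hη' hl hl1 hD)
      rw [Fl_of_PP h hη hM hl hl1 h2, Fl_of_not_PP h1, indicator_of_mem hD]
      simp only [zero_mul, one_mul, zero_add, add_zero, Pi.one_apply, mul_one]
      rw [← ENNReal.ofReal_add hps hCη]
      apply ENNReal.ofReal_le_ofReal
      rw [abs_le] at hQ; linarith
    · rw [Fl_of_not_PP h1, Fl_of_not_PP h2]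
      simp only [zero_mul, add_zero, zero_add]
      exact bot_le

/-- Step B -/
theorem stepB :
    tot (fun x => Fl K η M lam x * ENNReal.ofReal (U x)) +
      tot (fun x => Fl K η M 1 x * ENNReal.ofReal ((‖x.1‖ ^ 2 + x.2 ^ 2) ^ κ)) ≤
    tot (fun x => Fl K η M 1 x * ENNReal.ofReal (U x)) +
      tot (fun x => Fl K η M lam x * ENNReal.ofReal ((‖x.1‖ ^ 2 + x.2 ^ 2) ^ κ)) +
      ENNReal.ofReal (C * η ^ (3 / 4 : ℝ)) * tot ((DD K η lam).indicator 1) := by
  have hFl := measurable_Fl (M := M) h.K_open η lam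
  have hF1 := measurable_Fl (M := M) h.K_open η 1
  have hU : Measurable (fun x => ENNReal.ofReal (U x)) := h.U_meas.ennreal_ofReal
  have hps : Measurable (fun x : EuclideanSpace ℝ (Fin d) × ℝ =>
      ENNReal.ofReal ((‖x.1‖ ^ 2 + x.2 ^ 2) ^ κ)) := by fun_prop
  have hD : Measurable ((DD K η lam).indicator (1 : EuclideanSpace ℝ (Fin d) × ℝ → ℝ≥0∞)) :=
    measurable_one.indicator (measurableSet_DD h.K_open η lam)
  have m1 : Measurable (fun x => Fl K η M lam x * ENNReal.ofReal (U x)) := hFl.mul hU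
  have m2 : Measurable (fun x => Fl K η M 1 x * ENNReal.ofReal (U x)) := hF1.mul hU
  have m3 : Measurable (fun x => Fl K η M lam x *
    ENNReal.ofReal ((‖x.1‖ ^ 2 + x.2 ^ 2) ^ κ)) := hFl.mul hps
  have m4 : Measurable (fun x => Fl K η M 1 x * ENNReal.ofReal (U x) + Fl K η M lam x *
    ENNReal.ofReal ((‖x.1‖ ^ 2 + x.2 ^ 2) ^ κ)) := m2.add m3
  rw [← tot_add m1, ← tot_add m2, ← tot_const_mul hD, ← tot_add m4]
  exact tot_mono (Sh_nonneg_bound h hη hη' hM hl hl1)

end facts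

theorem pwE {p β C e : ℝ} (hp : 2 < p) (hβ : 0 ≤ β) (hC : 0 < C) (he0 : 0 ≤ e) (he1 : e ≤ 1)
    {G Gl G1 S T : ℝ≥0∞} (hG : G ≤ ENNReal.ofReal (C * β)) (hS : S ≤ ENNReal.ofReal (C * e * β))
    (h1 : Gl ≤ G + S) (h2 : G ≤ Gl + S) (h3 : Gl ≤ G1 + T) (h4 : G1 ≤ Gl + T) (hT : T ≠ ∞) :
    Gl ^ p + ENNReal.ofReal p * G ^ (p - 1) * G1 ≤
      G1 ^ p + ENNReal.ofReal p * G ^ (p - 1) * Gl +
        ENNReal.ofReal (p * (p - 1) * (2 * C * β) ^ (p - 2) * (C * e * β)) * T := by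
  have hGt : G ≠ ∞ := ne_top_of_le_ne_top ENNReal.ofReal_ne_top hG
  have hSt : S ≠ ∞ := ne_top_of_le_ne_top ENNReal.ofReal_ne_top hS
  have hGlt : Gl ≠ ∞ := ne_top_of_le_ne_top (ENNReal.add_ne_top.2 ⟨hGt, hSt⟩) h1
  have hG1t : G1 ≠ ∞ := ne_top_of_le_ne_top (ENNReal.add_ne_top.2 ⟨hGlt, hT⟩) h4
  lift G to NNReal using hGt
  lift S to NNReal using hSt
  lift Gl to NNReal using hGlt
  lift G1 to NNReal using hG1t
  lift T to NNReal using hT
  have g0 : (G : ℝ) ≤ C * β := by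
    have := ENNReal.toReal_mono ENNReal.ofReal_ne_top hG
    rwa [ENNReal.toReal_ofReal (by positivity)] at this
  have s0 : (S : ℝ) ≤ C * e * β := by
    have := ENNReal.toReal_mono ENNReal.ofReal_ne_top hS
    rwa [ENNReal.toReal_ofReal (by positivity)] at this
  have h1' : (Gl : ℝ) ≤ G + S := by exact_mod_cast h1
  have h2' : (G : ℝ) ≤ Gl + S := by exact_mod_cast h2
  have h3' : (Gl : ℝ) ≤ G1 + T := by exact_mod_cast h3
  have h4' : (G1 : ℝ) ≤ Gl + T := by exact_mod_cast h4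
  have hCβ : 0 ≤ C * β := by positivity
  have heB : C * e * β ≤ C * β := by nlinarith
  have key := pw (p := p) (a := (Gl : ℝ)) (b := (G1 : ℝ)) (g := (G : ℝ)) (B := 2 * C * β)
    (s := C * e * β) (t := (T : ℝ)) hp Gl.coe_nonneg G1.coe_nonneg G.coe_nonneg (by nlinarith) (by nlinarith)
    (by rw [abs_le]; constructor <;> linarith) (by rw [abs_le]; constructor <;> linarith)
  have e1 : ∀ x : NNReal, (x : ℝ≥0∞) = ENNReal.ofReal (x : ℝ) := fun x => by simp
  rw [e1 G, e1 Gl, e1 G1, e1 T, ENNReal.ofReal_rpow_of_nonneg Gl.coe_nonneg (by linarith),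
    ENNReal.ofReal_rpow_of_nonneg G.coe_nonneg (by linarith), ENNReal.ofReal_rpow_of_nonneg G1.coe_nonneg (by linarith)]
  have hp0 : 0 ≤ p := by linarith
  have hp1 : 0 ≤ p - 1 := by linarith
  have q1 : 0 ≤ (G : ℝ) ^ (p - 1) := Real.rpow_nonneg G.coe_nonneg _
  have q2 : 0 ≤ (Gl : ℝ) ^ p := Real.rpow_nonneg Gl.coe_nonneg _
  have q3 : 0 ≤ (G1 : ℝ) ^ p := Real.rpow_nonneg G1.coe_nonneg _
  have q4 : 0 ≤ p * (p - 1) * (2 * C * β) ^ (p - 2) * (C * e * β) := by positivity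
  have q5 : 0 ≤ (G : ℝ) := G.coe_nonneg
  have q6 : 0 ≤ (G1 : ℝ) := G1.coe_nonneg
  have q7 : 0 ≤ (Gl : ℝ) := Gl.coe_nonneg
  have q8 : 0 ≤ (T : ℝ) := T.coe_nonneg
  rw [← ENNReal.ofReal_mul hp0, ← ENNReal.ofReal_mul (by positivity),
    ← ENNReal.ofReal_mul (by positivity), ← ENNReal.ofReal_mul q4,
    ← ENNReal.ofReal_add q2 (by positivity), ← ENNReal.ofReal_add q3 (by positivity),
    ← ENNReal.ofReal_add (by positivity) (by positivity)]
  apply ENNReal.ofReal_le_ofReal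
  linarith

theorem measurable_Wt (d : ℕ) (s : ℝ) : Measurable (Wt d s) := by
  unfold Wt; fun_prop

section facts
variable {p κ : ℝ} {K : Set (EuclideanSpace ℝ (Fin d) × ℝ)}
  {U : EuclideanSpace ℝ (Fin d) × ℝ → ℝ} {Sh : ℝ → Set (EuclideanSpace ℝ (Fin d) × ℝ)}
  {R η₀ C C' : ℝ} (h : MeshHyp d p κ K U Sh R η₀ C C') {η : ℝ} (hη : 0 < η) (hη' : η < η₀)
  {M : ℕ} (hM : R ≤ M * η) {lam : ℝ} (hl : 1 - η / (8 * R) ≤ lam) (hl1 : lam ≤ 1)

include h hη hη' hM hl hl1 in
theorem sec_Fl_le (hη1 : η ≤ 1) (y : EuclideanSpace ℝ (Fin d)) :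
    sec (Fl K η M lam) y ≤ ENNReal.ofReal (2 * C * (1 + ‖y‖ ^ 2) ^ (-(1 : ℝ) / 2)) := by
  have hC := h.hC
  have he1 : η ^ (3 / 4 : ℝ) ≤ 1 := Real.rpow_le_one hη.le hη1 (by norm_num)
  have he0 : 0 ≤ η ^ (3 / 4 : ℝ) := by positivity
  have hβ : 0 ≤ (1 + ‖y‖ ^ 2) ^ (-(1 : ℝ) / 2) := by positivity
  have hK : Measurable (K.indicator (1 : EuclideanSpace ℝ (Fin d) × ℝ → ℝ≥0∞)) :=
    measurable_one.indicator h.K_open.measurableSet
  calc sec (Fl K η M lam) y ≤ sec (fun x => K.indicator 1 x + (Sh η).indicator 1 x) y :=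
        sec_mono (Fl_le h hη hη' hM hl hl1) y
    _ = sec (K.indicator 1) y + sec ((Sh η).indicator 1) y := sec_add hK y
    _ ≤ ENNReal.ofReal (C * (1 + ‖y‖ ^ 2) ^ (-(1 : ℝ) / 2)) +
        ENNReal.ofReal (C * η ^ (3 / 4 : ℝ) * (1 + ‖y‖ ^ 2) ^ (-(1 : ℝ) / 2)) :=
        add_le_add (h.sec_K y) (h.Sh_sec η hη hη' y)
    _ ≤ _ := by
        rw [← ENNReal.ofReal_add (by positivity) (by positivity)]
        apply ENNReal.ofReal_le_ofReal
        have : C * η ^ (3 / 4 : ℝ) * (1 + ‖y‖ ^ 2) ^ (-(1 : ℝ) / 2) ≤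
            C * 1 * (1 + ‖y‖ ^ 2) ^ (-(1 : ℝ) / 2) := by gcongr
        linarith

include h hη hη' hM hl hl1 in
/-- Step A -/
theorem stepA (hRI : RI d p) (hη1 : η ≤ 1) (h0 : 0 ≤ lam) :
    ENNReal.ofReal (p * C') * tot (fun x => Fl K η M 1 x * ENNReal.ofReal (U x)) ≤
      ENNReal.ofReal (p * C') * tot (fun x => Fl K η M lam x * ENNReal.ofReal (U x)) +
      ENNReal.ofReal (p * (p - 1) * (2 * C) ^ (p - 2) * C * η ^ (3 / 4 : ℝ) * C) *
        tot ((DD K η lam).indicator 1) := by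
  have hp := h.hp
  have hpd := h.hpd
  have hC := h.hC
  have hC' := h.hC'
  have hR := h.hR
  have h1l : 1 - η / (8 * R) ≤ 1 := by have : 0 < η / (8 * R) := by positivity
                                       linarith
  have he1 : η ^ (3 / 4 : ℝ) ≤ 1 := Real.rpow_le_one hη.le hη1 (by norm_num)
  have he0 : 0 ≤ η ^ (3 / 4 : ℝ) := by positivity
  set s : ℝ := (d + 1 - p) / 2 with hs
  have hs0 : 0 < s := by rw [hs]; linarith
  have hFl := measurable_Fl (M := M) h.K_open η lam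
  have hF1 := measurable_Fl (M := M) h.K_open η 1
  have hD : Measurable ((DD K η lam).indicator (1 : EuclideanSpace ℝ (Fin d) × ℝ → ℝ≥0∞)) :=
    measurable_one.indicator (measurableSet_DD h.K_open η lam)
  have hK : Measurable (K.indicator (1 : EuclideanSpace ℝ (Fin d) × ℝ → ℝ≥0∞)) :=
    measurable_one.indicator h.K_open.measurableSet
  have hSh : Measurable ((Sh η).indicator (1 : EuclideanSpace ℝ (Fin d) × ℝ → ℝ≥0∞)) :=
    measurable_one.indicator (h.Sh_meas η hη hη')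
  have mG := measurable_sec hK
  have mGl := measurable_sec hFl
  have mG1 := measurable_sec hF1
  have mT := measurable_sec hD
  have mW := measurable_Wt d s
  have hRI' := RI_app (M := M) h hη hRI s hs0 h0 hl1
  -- pointwise inequality
  have hpt : ∀ y, (sec (Fl K η M lam) y) ^ p * Wt d s y +
      ENNReal.ofReal p * ((sec (K.indicator 1) y) ^ (p - 1) * Wt d s y * sec (Fl K η M 1) y) ≤
      (sec (Fl K η M 1) y) ^ p * Wt d s y +
      ENNReal.ofReal p * ((sec (K.indicator 1) y) ^ (p - 1) * Wt d s y * sec (Fl K η M lam) y) +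
      ENNReal.ofReal (p * (p - 1) * (2 * C) ^ (p - 2) * C * η ^ (3 / 4 : ℝ)) *
        (ENNReal.ofReal ((1 + ‖y‖ ^ 2) ^ (-(d : ℝ) / 2)) * sec ((DD K η lam).indicator 1) y) := by
    intro y
    set β : ℝ := (1 + ‖y‖ ^ 2) ^ (-(1 : ℝ) / 2) with hβdef
    have hβ : 0 ≤ β := by positivity
    have hTS : sec ((DD K η lam).indicator 1) y ≤ sec ((Sh η).indicator 1) y := by
      apply sec_mono
      intro x
      exact indicator_le_indicator_of_subset (DD_subset_Sh h hη hη' hl hl1) (fun _ => zero_le_one) x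
    have hS := h.Sh_sec η hη hη' y
    have key := pwE (p := p) (β := β) (C := C) (e := η ^ (3 / 4 : ℝ)) hp hβ hC he0 he1
      (G := sec (K.indicator 1) y) (Gl := sec (Fl K η M lam) y) (G1 := sec (Fl K η M 1) y)
      (S := sec ((Sh η).indicator 1) y) (T := sec ((DD K η lam).indicator 1) y)
      (h.sec_K y) hS
      ((sec_mono (Fl_le h hη hη' hM hl hl1) y).trans_eq (sec_add hK y))
      ((sec_mono (ind_le h hη hη' hM hl hl1) y).trans_eq (sec_add hFl y))
      ((sec_mono (Fl_le_one_add h hη hη' hM hl hl1) y).trans_eq (sec_add hF1 y))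
      ((sec_mono (Fl_one_le_add h hη hη' hM hl hl1) y).trans_eq (sec_add hFl y))
      (ne_top_of_le_ne_top ENNReal.ofReal_ne_top (hTS.trans hS))
    have key2 := mul_le_mul_left key (Wt d s y)
    have ew : ENNReal.ofReal (p * (p - 1) * (2 * C * β) ^ (p - 2) * (C * η ^ (3 / 4 : ℝ) * β)) *
        Wt d s y = ENNReal.ofReal (p * (p - 1) * (2 * C) ^ (p - 2) * C * η ^ (3 / 4 : ℝ)) *
        ENNReal.ofReal ((1 + ‖y‖ ^ 2) ^ (-(d : ℝ) / 2)) := by
      unfold Wt
      have hp1 : 0 ≤ p - 1 := by linarith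
      rw [← ENNReal.ofReal_mul (by positivity), ← ENNReal.ofReal_mul (by positivity)]
      congr 1
      have hb : (0 : ℝ) < 1 + ‖y‖ ^ 2 := by positivity
      have e1 : (2 * C * β) ^ (p - 2) = (2 * C) ^ (p - 2) * β ^ (p - 2) :=
        Real.mul_rpow (by positivity) hβ
      have e2 : β ^ (p - 2) * β * (1 + ‖y‖ ^ 2) ^ (-s) = (1 + ‖y‖ ^ 2) ^ (-(d : ℝ) / 2) := by
        rw [hβdef, ← Real.rpow_mul hb.le, ← Real.rpow_add hb, ← Real.rpow_add hb]
        congr 1
        rw [hs]; ring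
      rw [e1, ← e2]
      ring
    calc _ = (sec (Fl K η M lam) y ^ p +
          ENNReal.ofReal p * sec (K.indicator 1) y ^ (p - 1) * sec (Fl K η M 1) y) * Wt d s y := by
          ring
      _ ≤ _ := key2
      _ = _ := by
          rw [add_mul, mul_right_comm (ENNReal.ofReal (p * (p - 1) * (2 * C * β) ^ (p - 2) * _)), ew]
          ring
  have hint := lintegral_mono (μ := volume) hpt
  -- finiteness of the left hand energy
  have hfin : ∫⁻ y, (sec (Fl K η M lam) y) ^ p * Wt d s y ≠ ∞ := by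
    have hle : ∀ y, (sec (Fl K η M lam) y) ^ p * Wt d s y ≤
        ENNReal.ofReal ((2 * C) ^ p * (1 + ‖y‖ ^ 2) ^ (-((d : ℝ) + 1) / 2)) := by
      intro y
      have hb : (0 : ℝ) < 1 + ‖y‖ ^ 2 := by positivity
      calc (sec (Fl K η M lam) y) ^ p * Wt d s y ≤
          (ENNReal.ofReal (2 * C * (1 + ‖y‖ ^ 2) ^ (-(1 : ℝ) / 2))) ^ p * Wt d s y := by
            gcongr
            exact sec_Fl_le h hη hη' hM hl hl1 hη1 y
        _ = _ := by
            unfold Wt
            rw [ENNReal.ofReal_rpow_of_nonneg (by positivity) (by linarith),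
              ← ENNReal.ofReal_mul (by positivity)]
            congr 1
            rw [Real.mul_rpow (by positivity) (by positivity), ← Real.rpow_mul hb.le, mul_assoc,
              ← Real.rpow_add hb]
            congr 2
            rw [hs]; ring
    have hi : Integrable (fun y : EuclideanSpace ℝ (Fin d) =>
        (2 * C) ^ p * (1 + ‖y‖ ^ 2) ^ (-((d : ℝ) + 1) / 2)) := by
      apply Integrable.const_mul
      apply integrable_rpow_neg_one_add_norm_sq
      rw [finrank_euclideanSpace, Fintype.card_fin]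
      linarith
    exact ne_top_of_le_ne_top hi.lintegral_lt_top.ne (lintegral_mono hle)
  have m1 : Measurable (fun y => (sec (Fl K η M lam) y) ^ p * Wt d s y) := by fun_prop
  have m2 : Measurable (fun y => (sec (K.indicator 1) y) ^ (p - 1) * Wt d s y *
      sec (Fl K η M 1) y) := by fun_prop
  have m3 : Measurable (fun y => (sec (Fl K η M 1) y) ^ p * Wt d s y) := by fun_prop
  have m4 : Measurable (fun y => (sec (K.indicator 1) y) ^ (p - 1) * Wt d s y *
      sec (Fl K η M lam) y) := by fun_prop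
  have m5 : Measurable (fun y : EuclideanSpace ℝ (Fin d) =>
      ENNReal.ofReal ((1 + ‖y‖ ^ 2) ^ (-(d : ℝ) / 2)) * sec ((DD K η lam).indicator 1) y) := by
    fun_prop
  have m6 : Measurable (fun y => (sec (Fl K η M 1) y) ^ p * Wt d s y + ENNReal.ofReal p *
      ((sec (K.indicator 1) y) ^ (p - 1) * Wt d s y * sec (Fl K η M lam) y)) :=
    m3.add (m4.const_mul _)
  rw [lintegral_add_left m1, lintegral_const_mul _ m2, lintegral_add_left m6,
    lintegral_add_left m3, lintegral_const_mul _ m4, lintegral_const_mul _ m5,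
    h.energy _ hF1, h.energy _ hFl] at hint
  have hrad := h.radon_bound η hη hη' ((DD K η lam).indicator 1) hD (by
    intro x hx
    exact indicator_of_notMem (fun hc => hx (DD_subset_Sh h hη hη' hl hl1 hc)) _)
  have hfinal : (∫⁻ y, (sec (Fl K η M lam) y) ^ p * Wt d s y) +
      ENNReal.ofReal (p * C') * tot (fun x => Fl K η M 1 x * ENNReal.ofReal (U x)) ≤
      (∫⁻ y, (sec (Fl K η M lam) y) ^ p * Wt d s y) +
      (ENNReal.ofReal (p * C') * tot (fun x => Fl K η M lam x * ENNReal.ofReal (U x)) +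
      ENNReal.ofReal (p * (p - 1) * (2 * C) ^ (p - 2) * C * η ^ (3 / 4 : ℝ) * C) *
        tot ((DD K η lam).indicator 1)) := by
    have hp0 : 0 ≤ p := by linarith
    have hp1 : 0 ≤ p - 1 := by linarith
    rw [ENNReal.ofReal_mul hp0, ENNReal.ofReal_mul (q := C) (by positivity), mul_assoc, mul_assoc,
      mul_assoc (ENNReal.ofReal _) (ENNReal.ofReal C) _, ← add_assoc]
    refine hint.trans ?_
    gcongr
  exact (ENNReal.add_le_add_iff_left hfin).1 hfinal

include h hη hη' hM hl hl1 in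
theorem tot_Fl_le' (h0 : 0 ≤ lam) (V : EuclideanSpace ℝ (Fin d) × ℝ → ℝ≥0∞) :
    tot (fun x => Fl K η M lam x * V x) ≤
      ∫⁻ z in ball (0 : EuclideanSpace ℝ (Fin d)) R, ∫⁻ t in Icc (-R) R, V (z, t) := by
  unfold tot
  rw [← lintegral_indicator measurableSet_ball]
  apply lintegral_mono
  intro z
  by_cases hz : z ∈ ball (0 : EuclideanSpace ℝ (Fin d)) R
  · rw [indicator_of_mem hz, ← lintegral_indicator measurableSet_Icc]
    apply lintegral_mono
    intro t
    simp only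
    by_cases hx : MovP K η lam (z, t)
    · have ht : t ∈ Icc (-R) R := by
        obtain ⟨q, hq, hqt⟩ := hx
        simp only at hq hqt
        obtain ⟨-, b1, b2⟩ := run_bound hη h.K_bdd hq
        have e1 := left_end η q
        have e2 := right_end η q
        rw [abs_lt] at b1 b2 hqt
        rcases le_total 0 (cen η q) with hc | hc
        · have hlc : lam * cen η q ≤ cen η q := by nlinarith
          have hlc0 : 0 ≤ lam * cen η q := by positivity
          constructor <;> linarith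
        · have hlc : cen η q ≤ lam * cen η q := by nlinarith
          have hlc0 : lam * cen η q ≤ 0 := by nlinarith
          constructor <;> linarith
      rw [indicator_of_mem ht, Fl_of_PP h hη hM hl hl1 hx, one_mul]
    · rw [Fl_of_not_PP hx, zero_mul]; exact bot_le
  · rw [indicator_of_notMem hz]
    rw [nonpos_iff_eq_zero]
    have : ∀ t, Fl K η M lam (z, t) * V (z, t) = 0 := by
      intro t
      have hx : ¬ MovP K η lam (z, t) := by
        rintro ⟨q, hq, -⟩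
        apply hz
        rw [mem_ball_zero_iff]
        exact (run_bound hη h.K_bdd hq).1
      rw [Fl_of_not_PP hx, zero_mul]
    simp [this]

end facts

theorem mesh_false (d : ℕ) (p κ : ℝ) (K : Set (EuclideanSpace ℝ (Fin d) × ℝ))
    (U : EuclideanSpace ℝ (Fin d) × ℝ → ℝ) (Sh : ℝ → Set (EuclideanSpace ℝ (Fin d) × ℝ))
    (R η₀ C C' : ℝ) (h : MeshHyp d p κ K U Sh R η₀ C C') (hRI : RI d p)
    (z₀ : EuclideanSpace ℝ (Fin d)) (t₀ δ₀ : ℝ) (hδ₀ : 0 < δ₀) (hδt : δ₀ ≤ t₀)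
    (hbox : ∀ z ∈ ball z₀ δ₀, ∀ t ∈ Ioo (t₀ - δ₀) (t₀ + δ₀), (z, t) ∈ K ∧ (z, -t) ∉ K) :
    False := by
  have hp := h.hp
  have hC := h.hC
  have hC' := h.hC'
  have hR := h.hR
  have hκ := h.hκ
  obtain ⟨k, hk0, hk⟩ := ps_gap hκ hR hδ₀ hδt
  set V : ℝ := (volume (ball z₀ δ₀)).toReal with hV
  have hV0 : 0 < V := ENNReal.toReal_pos (measure_ball_pos volume z₀ hδ₀).ne' measure_ball_lt_top.ne
  set c₁ : ℝ := p * (p - 1) * (2 * C) ^ (p - 2) * C * C with hc₁
  have hc₁0 : 0 ≤ c₁ := by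
    have : 0 ≤ p - 1 := by linarith
    have : 0 ≤ p := by linarith
    positivity
  set c₂ : ℝ := c₁ * C + p * C' * C * C with hc₂
  set A₀ : ℝ := p * C' * (k * ((1 / (8 * R)) * (δ₀ / 2))) * V with hA₀
  have hA₀0 : 0 < A₀ := by positivity
  -- main inequality for every small η
  have main : ∀ η, 0 < η → η < η₀ → η ≤ δ₀ / 4 → η ≤ 1 → η ≤ 8 * R →
      A₀ ≤ c₂ * η ^ (1 / 2 : ℝ) := by
    intro η hη hη' hηδ hη1 hηR
    obtain ⟨M, hM⟩ : ∃ M : ℕ, R ≤ M * η := by
      obtain ⟨M, hM⟩ := exists_nat_ge (R / η)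
      exact ⟨M, by rwa [div_le_iff₀ hη] at hM⟩
    set lam : ℝ := 1 - η / (8 * R) with hlam
    have hl0 : 0 ≤ lam := by
      have : η / (8 * R) ≤ 1 := by rw [div_le_one (by positivity)]; exact hηR
      linarith
    have hl1 : lam ≤ 1 := by
      have : 0 ≤ η / (8 * R) := by positivity
      linarith
    have hl : 1 - η / (8 * R) ≤ lam := le_rfl
    have hA := stepA h hη hη' hM hl hl1 hRI hη1 hl0
    have hB := stepB h hη hη' hM hl hl1
    have hG := gain h hη hM hl hl1 hδ₀ hδt hηδ hk0 hl0 hk hbox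
    have hD := tot_DD h hη hη' hM hl hl1
    set El := tot (fun x => Fl K η M lam x * ENNReal.ofReal (U x)) with hEl
    set E1 := tot (fun x => Fl K η M 1 x * ENNReal.ofReal (U x)) with hE1
    set Pl := tot (fun x => Fl K η M lam x * ENNReal.ofReal ((‖x.1‖ ^ 2 + x.2 ^ 2) ^ κ)) with hPl
    set P1 := tot (fun x => Fl K η M 1 x * ENNReal.ofReal ((‖x.1‖ ^ 2 + x.2 ^ 2) ^ κ)) with hP1
    set T := tot ((DD K η lam).indicator 1) with hT
    have hElfin : El ≠ ∞ := by
      refine ne_top_of_le_ne_top ?_ (tot_Fl_le' h hη hη' hM hl hl1 hl0 (fun x => ENNReal.ofReal (U x)))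
      exact h.U_int.ne
    have hPlfin : Pl ≠ ∞ := by
      refine ne_top_of_le_ne_top ?_ (tot_Fl_le' h hη hη' hM hl hl1 hl0
        (fun x => ENNReal.ofReal ((‖x.1‖ ^ 2 + x.2 ^ 2) ^ κ)))
      have hle : ∫⁻ z in ball (0 : EuclideanSpace ℝ (Fin d)) R, ∫⁻ t in Icc (-R) R,
          ENNReal.ofReal ((‖z‖ ^ 2 + t ^ 2) ^ κ) ≤
          ∫⁻ z in ball (0 : EuclideanSpace ℝ (Fin d)) R, ∫⁻ t in Icc (-R) R,
          ENNReal.ofReal ((R ^ 2 + R ^ 2) ^ κ) := by
        apply setLIntegral_mono measurable_const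
        intro z hz
        apply setLIntegral_mono measurable_const
        intro t ht
        apply ENNReal.ofReal_le_ofReal
        apply Real.rpow_le_rpow (by positivity) _ hκ.le
        rw [mem_ball_zero_iff] at hz
        have h1 : ‖z‖ ^ 2 ≤ R ^ 2 := by
          have := norm_nonneg z
          nlinarith
        have h2 : t ^ 2 ≤ R ^ 2 := by nlinarith [ht.1, ht.2]
        linarith
      refine ne_top_of_le_ne_top ?_ hle
      rw [setLIntegral_const, setLIntegral_const]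
      apply ENNReal.mul_ne_top (ENNReal.mul_ne_top ENNReal.ofReal_ne_top _) measure_ball_lt_top.ne
      exact measure_Icc_lt_top.ne
    set P := ENNReal.ofReal (p * C') with hP
    set g := ENNReal.ofReal (k * ((1 - lam) * (δ₀ / 2))) * volume (ball z₀ δ₀) with hg
    have hchain : P * (El + Pl) + P * g ≤ P * (El + Pl) +
        (ENNReal.ofReal (p * (p - 1) * (2 * C) ^ (p - 2) * C * η ^ (3 / 4 : ℝ) * C) * T +
          P * (ENNReal.ofReal (C * η ^ (3 / 4 : ℝ)) * T)) := by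
      calc P * (El + Pl) + P * g = P * (El + (Pl + g)) := by ring
        _ ≤ P * (El + P1) := by gcongr
        _ ≤ P * (E1 + Pl + ENNReal.ofReal (C * η ^ (3 / 4 : ℝ)) * T) := by gcongr
        _ = P * E1 + (P * Pl + P * (ENNReal.ofReal (C * η ^ (3 / 4 : ℝ)) * T)) := by ring
        _ ≤ (P * El + ENNReal.ofReal (p * (p - 1) * (2 * C) ^ (p - 2) * C * η ^ (3 / 4 : ℝ) * C) * T)
            + (P * Pl + P * (ENNReal.ofReal (C * η ^ (3 / 4 : ℝ)) * T)) := by gcongr
        _ = _ := by ring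
    have hfin : P * (El + Pl) ≠ ∞ :=
      ENNReal.mul_ne_top ENNReal.ofReal_ne_top (ENNReal.add_ne_top.2 ⟨hElfin, hPlfin⟩)
    have hcan := (ENNReal.add_le_add_iff_left hfin).1 hchain
    have he : 0 ≤ η ^ (3 / 4 : ℝ) := by positivity
    have hp1 : 0 ≤ p - 1 := by linarith
    have hp0 : 0 ≤ p := by linarith
    have hb : ENNReal.ofReal (p * (p - 1) * (2 * C) ^ (p - 2) * C * η ^ (3 / 4 : ℝ) * C) * T +
          P * (ENNReal.ofReal (C * η ^ (3 / 4 : ℝ)) * T) ≤
        ENNReal.ofReal (c₂ * (η ^ (3 / 4 : ℝ) * η ^ (3 / 4 : ℝ))) := by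
      calc _ ≤ ENNReal.ofReal (p * (p - 1) * (2 * C) ^ (p - 2) * C * η ^ (3 / 4 : ℝ) * C) *
            ENNReal.ofReal (C * η ^ (3 / 4 : ℝ)) +
          P * (ENNReal.ofReal (C * η ^ (3 / 4 : ℝ)) * ENNReal.ofReal (C * η ^ (3 / 4 : ℝ))) := by
            gcongr
        _ = _ := by
            rw [hP, ← ENNReal.ofReal_mul (by positivity), ← ENNReal.ofReal_mul (by positivity),
              ← ENNReal.ofReal_mul (by positivity), ← ENNReal.ofReal_add (by positivity) (by positivity)]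
            congr 1
            rw [hc₂, hc₁]; ring
    have hfinal := hcan.trans hb
    rw [hg, hP, ← ENNReal.ofReal_toReal (measure_ball_lt_top (μ := volume) (x := z₀) (r := δ₀)).ne,
      ← hV, ← ENNReal.ofReal_mul (by
        have : 0 ≤ 1 - lam := by linarith
        positivity), ← ENNReal.ofReal_mul (by positivity)] at hfinal
    have hc₂0 : 0 ≤ c₂ := by positivity
    rw [ENNReal.ofReal_le_ofReal_iff (by positivity)] at hfinal
    have e1 : η ^ (3 / 4 : ℝ) * η ^ (3 / 4 : ℝ) = η * η ^ (1 / 2 : ℝ) := by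
      rw [← Real.rpow_add hη, ← Real.rpow_one_add' hη.le (by norm_num)]
      norm_num
    rw [e1] at hfinal
    have e2 : 1 - lam = η * (1 / (8 * R)) := by rw [hlam]; field_simp; ring
    rw [e2] at hfinal
    have e3 : p * C' * (k * (η * (1 / (8 * R)) * (δ₀ / 2)) * V) = η * A₀ := by rw [hA₀]; ring
    rw [e3, show c₂ * (η * η ^ (1 / 2 : ℝ)) = η * (c₂ * η ^ (1 / 2 : ℝ)) by ring] at hfinal
    exact le_of_mul_le_mul_left hfinal hη
  -- let η → 0
  have hlim : Tendsto (fun η : ℝ => c₂ * η ^ (1 / 2 : ℝ)) (𝓝[>] 0) (𝓝 0) := by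
    have h1 : Tendsto (fun η : ℝ => c₂ * η ^ (1 / 2 : ℝ)) (𝓝 0) (𝓝 (c₂ * 0 ^ (1 / 2 : ℝ))) := by
      apply Tendsto.const_mul
      exact (Real.continuousAt_rpow_const 0 (1 / 2) (Or.inr (by norm_num))).tendsto
    rw [Real.zero_rpow (by norm_num), mul_zero] at h1
    exact h1.mono_left nhdsWithin_le_nhds
  have hev : ∀ᶠ η : ℝ in 𝓝[>] 0, c₂ * η ^ (1 / 2 : ℝ) < A₀ := hlim.eventually (gt_mem_nhds hA₀0)
  have hpos : ∀ᶠ η : ℝ in 𝓝[>] 0, 0 < η := eventually_mem_nhdsWithin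
  have hs1 : ∀ a : ℝ, 0 < a → ∀ᶠ η : ℝ in 𝓝[>] 0, η < a := fun a ha =>
    (gt_mem_nhds ha).filter_mono nhdsWithin_le_nhds
  obtain ⟨η, h1, h2, h3, h4, h5, h6⟩ := (hev.and (hpos.and ((hs1 η₀ h.hη₀).and
    ((hs1 (δ₀ / 4) (by positivity)).and ((hs1 1 one_pos).and (hs1 (8 * R) (by positivity))))))).exists
  exact absurd (main η h2 h3 h4.le h5.le h6.le) (not_le.2 h1)

end StarIB
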