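import Pool.Agent.StarIB.RegFam
import Pool.Agent.StarIB.WtMix

/-! # Module H2: the rearrangement inequality for integer exponents -/

open MeasureTheory Set Metric Module
open scoped ENNReal RealInnerProductSpace

namespace StarIB

/-- For fixed slabs and a fixed box, the volume of the intersection is nonincreasing. -/
theorem volume_slabs_anti {d m : ℕ} (a : Fin m → EuclideanSpace ℝ (Fin d)) (c h : Fin m → ℝ)
    (r : Fin d → ℝ) {lam lam' : ℝ} (h0 : 0 ≤ lam) (hl : lam ≤ lam') :
    volume {y : EuclideanSpace ℝ (Fin d) | (∀ j, |⟪a j, y⟫ - lam' * c j| < h j) ∧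
      ∀ k, |y k| < r k} ≤
    volume {y : EuclideanSpace ℝ (Fin d) | (∀ j, |⟪a j, y⟫ - lam * c j| < h j) ∧
      ∀ k, |y k| < r k} := by
  have hreg : IsReg d (fun lam => (⋂ j : Fin m, {y | |∑ k, (a j) k * y k - lam * c j| < h j}) ∩
      {y | ∀ k, |y k| < r k}) :=
    (IsReg.iInter (fun j => IsReg.single d (fun k => (a j) k) (c j) (h j))).inter (IsReg.box d r)
  have key : ∀ lam : ℝ, volume {y : EuclideanSpace ℝ (Fin d) |
      (∀ j, |⟪a j, y⟫ - lam * c j| < h j) ∧ ∀ k, |y k| < r k} =
      volume ((⋂ j : Fin m, {y : Fin d → ℝ | |∑ k, (a j) k * y k - lam * c j| < h j}) ∩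
        {y | ∀ k, |y k| < r k}) := by
    intro lam
    have hmeas : MeasurableSet ((⋂ j : Fin m, {y : Fin d → ℝ |
        |∑ k, (a j) k * y k - lam * c j| < h j}) ∩ {y | ∀ k, |y k| < r k}) :=
      (hreg.isOpen lam).measurableSet
    rw [← (PiLp.volume_preserving_ofLp (Fin d)).measure_preimage hmeas.nullMeasurableSet]
    congr 1
    ext y
    simp only [mem_setOf_eq, mem_preimage, mem_inter_iff, mem_iInter]
    have hin : ∀ j, ⟪a j, y⟫ = ∑ k, (a j) k * y k := by
      intro j
      rw [PiLp.inner_apply]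
      apply Finset.sum_congr rfl
      intro k _
      simp [mul_comm]
    simp_rw [hin]
  rw [key, key]
  exact hreg.volume_anti h0 hl

theorem RI_nat (d m : ℕ) : RI d (m : ℝ) := by
  intro s hs Ω _ μ _ a c h ha hc hh lam h0 h1
  obtain ⟨Ξ, _, ν, _, r, hr, hW⟩ := Wt_mix d s hs
  -- the measure of the product
  have key : ∀ lam : ℝ, ∫⁻ y, (μ {ω | |⟪a ω, y⟫ - lam * c ω| < h ω}) ^ (m : ℝ) * Wt d s y =
      ∫⁻ q : (Fin m → Ω) × Ξ, volume {y : EuclideanSpace ℝ (Fin d) |
        (∀ j, |⟪a (q.1 j), y⟫ - lam * c (q.1 j)| < h (q.1 j)) ∧ ∀ k, |y k| < r q.2 k}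
        ∂((Measure.pi (fun _ : Fin m => μ)).prod ν) := by
    intro lam
    -- the set in the product space
    have hms : MeasurableSet {p : EuclideanSpace ℝ (Fin d) × ((Fin m → Ω) × Ξ) |
        (∀ j, |⟪a (p.2.1 j), p.1⟫ - lam * c (p.2.1 j)| < h (p.2.1 j)) ∧
          ∀ k, |p.1 k| < r p.2.2 k} := by
      have hA : MeasurableSet {p : EuclideanSpace ℝ (Fin d) × ((Fin m → Ω) × Ξ) |
            ∀ j, |⟪a (p.2.1 j), p.1⟫ - lam * c (p.2.1 j)| < h (p.2.1 j)} := by
        rw [show {p : EuclideanSpace ℝ (Fin d) × ((Fin m → Ω) × Ξ) |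
            ∀ j, |⟪a (p.2.1 j), p.1⟫ - lam * c (p.2.1 j)| < h (p.2.1 j)} =
            ⋂ j, {p | |⟪a (p.2.1 j), p.1⟫ - lam * c (p.2.1 j)| < h (p.2.1 j)} by ext; simp]
        apply MeasurableSet.iInter
        intro j
        have hj : Measurable (fun p : EuclideanSpace ℝ (Fin d) × ((Fin m → Ω) × Ξ) => p.2.1 j) :=
          (measurable_pi_apply j).comp (measurable_fst.comp measurable_snd)
        apply measurableSet_lt
        · apply Measurable.abs
          apply Measurable.sub
          · exact (ha.comp hj).inner measurable_fst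
          · exact (hc.comp hj).const_mul lam
        · exact hh.comp hj
      have hB : MeasurableSet {p : EuclideanSpace ℝ (Fin d) × ((Fin m → Ω) × Ξ) |
            ∀ k, |p.1 k| < r p.2.2 k} := by
        rw [show {p : EuclideanSpace ℝ (Fin d) × ((Fin m → Ω) × Ξ) |
            ∀ k, |p.1 k| < r p.2.2 k} = ⋂ k, {p | |p.1 k| < r p.2.2 k} by ext; simp]
        apply MeasurableSet.iInter
        intro k
        apply measurableSet_lt
        · apply Measurable.abs
          exact (EuclideanSpace.proj (𝕜 := ℝ) k).measurable.comp measurable_fst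
        · exact (measurable_pi_apply k).comp (hr.comp (measurable_snd.comp measurable_snd))
      exact hA.inter hB
    have hswap := Measure.prod_apply (μ := (volume : Measure (EuclideanSpace ℝ (Fin d))))
      (ν := (Measure.pi (fun _ : Fin m => μ)).prod ν) hms
    have hswap' := Measure.prod_apply_symm (μ := (volume : Measure (EuclideanSpace ℝ (Fin d))))
      (ν := (Measure.pi (fun _ : Fin m => μ)).prod ν) hms
    rw [hswap] at hswap'
    refine Eq.trans ?_ hswap'
    apply lintegral_congr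
    intro y
    have hset : (Prod.mk y ⁻¹' {p : EuclideanSpace ℝ (Fin d) × ((Fin m → Ω) × Ξ) |
        (∀ j, |⟪a (p.2.1 j), p.1⟫ - lam * c (p.2.1 j)| < h (p.2.1 j)) ∧
          ∀ k, |p.1 k| < r p.2.2 k}) =
        (Set.univ.pi (fun _ : Fin m => {ω | |⟪a ω, y⟫ - lam * c ω| < h ω})) ×ˢ
          {ξ | ∀ k, |y k| < r ξ k} := by
      ext q
      simp [Set.mem_pi]
    rw [hset, Measure.prod_prod, Measure.pi_pi, Finset.prod_const, Finset.card_univ,
      Fintype.card_fin, hW y, ENNReal.rpow_natCast]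
  have k1 := key 1
  simp only [one_mul] at k1
  rw [k1, key lam]
  apply lintegral_mono
  intro q
  have := volume_slabs_anti (fun j => a (q.1 j)) (fun j => c (q.1 j)) (fun j => h (q.1 j))
    (r q.2) h0 h1
  simpa only [one_mul] using this

end StarIB
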