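import Pool.Agent.StarIB.R3
import Pool.Agent.StarIB.WtMix

/-! # Module K: the rearrangement inequality in the plane for exponents `2 < p < 3` -/

open MeasureTheory Set Metric Module
open scoped ENNReal RealInnerProductSpace

namespace StarIB

/-- `ψ_k(θ) = C(k,2) θ² - k θ + 1 - (1-θ)^k = E C(N-1,2)^+`, `N ~ Bin(k,θ)` -/
noncomputable def psi (k : ℕ) (θ : ℝ) : ℝ := (k.choose 2 : ℝ) * θ ^ 2 - k * θ + 1 - (1 - θ) ^ k

open Classical in
theorem psi_int {Ω : Type*} [MeasurableSpace Ω] (ν : Measure Ω) [IsProbabilityMeasure ν]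
    (A : Set Ω) (hA : MeasurableSet A) (k : ℕ) :
    0 ≤ psi k (ν A).toReal ∧
    ∫⁻ ω : Fin k → Ω, (((Finset.univ.filter (fun j => ω j ∈ A)).card - 1).choose 2 : ℝ≥0∞)
      ∂(Measure.pi fun _ => ν) = ENNReal.ofReal (psi k (ν A).toReal) := by
  set μ : Measure (Fin k → Ω) := Measure.pi fun _ => ν with hμ
  have : IsProbabilityMeasure μ := by rw [hμ]; infer_instance
  set θ : ℝ := (ν A).toReal with hθ
  have hνA : ν A = ENNReal.ofReal θ := by rw [hθ, ENNReal.ofReal_toReal (measure_ne_top ν A)]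
  have hθ0 : 0 ≤ θ := ENNReal.toReal_nonneg
  have hθ1 : θ ≤ 1 := by
    rw [hθ]
    exact ENNReal.toReal_le_of_le_ofReal (by norm_num) (by simpa using prob_le_one)
  set N : (Fin k → Ω) → ℕ := fun ω => (Finset.univ.filter (fun j => ω j ∈ A)).card with hN
  have hAj : ∀ j : Fin k, MeasurableSet {ω : Fin k → Ω | ω j ∈ A} := fun j =>
    (measurable_pi_apply j) hA
  -- measurability of functions of `N`
  have hmeas : ∀ f : ℕ → ℝ≥0∞, Measurable (fun ω => f (N ω)) := fun f =>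
    meas_of_sets (fun j : Fin k => {ω : Fin k → Ω | ω j ∈ A}) hAj
      (fun B => f ((Finset.univ.filter (fun j => j ∈ B)).card))
  -- ∫ N
  have h1 : ∫⁻ ω, (N ω : ℝ≥0∞) ∂μ = ENNReal.ofReal (k * θ) := by
    have e1 : ∀ ω, (N ω : ℝ≥0∞) =
        ∑ j : Fin k, {ω : Fin k → Ω | ω j ∈ A}.indicator (fun _ => (1 : ℝ≥0∞)) ω := by
      intro ω
      show ((Finset.univ.filter (fun j => ω j ∈ A)).card : ℝ≥0∞) = _
      rw [Finset.card_filter]
      push_cast
      apply Finset.sum_congr rfl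
      intro j _
      rw [indicator_apply]
      rfl
    simp_rw [e1]
    rw [lintegral_finsetSum _ (fun j _ => measurable_const.indicator (hAj j))]
    have e2 : ∀ j : Fin k, ∫⁻ ω, {ω : Fin k → Ω | ω j ∈ A}.indicator (fun _ => (1 : ℝ≥0∞)) ω ∂μ =
        ENNReal.ofReal θ := by
      intro j
      rw [lintegral_indicator (hAj j)]
      simp only [lintegral_const, Measure.restrict_apply MeasurableSet.univ, univ_inter, one_mul]
      have e3 : {ω : Fin k → Ω | ω j ∈ A} = univ.pi (fun l => if l = j then A else univ) := by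
        ext ω
        simp only [mem_ofPred_eq, mem_pi, mem_univ, true_implies]
        constructor
        · intro h l
          split_ifs with hl
          · rw [hl]; exact h
          · trivial
        · intro h
          simpa using h j
      rw [e3, hμ, Measure.pi_pi]
      rw [Finset.prod_eq_single j]
      · simp [hνA]
      · intro l _ hl
        simp [hl]
      · simp
    simp_rw [e2]
    rw [Finset.sum_const, Finset.card_univ, Fintype.card_fin, nsmul_eq_mul,
      ENNReal.ofReal_mul (by positivity), ENNReal.ofReal_natCast]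
  -- ∫ C(N,2)
  have h2 : ∫⁻ ω, ((N ω).choose 2 : ℝ≥0∞) ∂μ = ENNReal.ofReal ((k.choose 2 : ℝ) * θ ^ 2) := by
    have e1 : ∀ ω, ((N ω).choose 2 : ℝ≥0∞) =
        ∑ p : PP k, {ω : Fin k → Ω | ω p.1.1 ∈ A ∧ ω p.1.2 ∈ A}.indicator
          (fun _ => (1 : ℝ≥0∞)) ω := by
      intro ω
      have := card_pairs (k := k) {j | ω j ∈ A}
      simp only [mem_ofPred_eq] at this
      show (((Finset.univ.filter (fun j => ω j ∈ A)).card.choose 2 : ℕ) : ℝ≥0∞) = _
      rw [← this, Finset.card_filter]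
      push_cast
      apply Finset.sum_congr rfl
      intro p _
      rw [indicator_apply]
      rfl
    have hm2 : ∀ p : PP k, MeasurableSet {ω : Fin k → Ω | ω p.1.1 ∈ A ∧ ω p.1.2 ∈ A} :=
      fun p => (hAj p.1.1).inter (hAj p.1.2)
    simp_rw [e1]
    rw [lintegral_finsetSum _ (fun p _ => measurable_const.indicator (hm2 p))]
    have e2 : ∀ p : PP k, ∫⁻ ω, {ω : Fin k → Ω | ω p.1.1 ∈ A ∧ ω p.1.2 ∈ A}.indicator
        (fun _ => (1 : ℝ≥0∞)) ω ∂μ = ENNReal.ofReal (θ ^ 2) := by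
      intro p
      have hp := p.2
      rw [lintegral_indicator (hm2 p)]
      simp only [lintegral_const, Measure.restrict_apply MeasurableSet.univ, univ_inter, one_mul]
      have e3 : {ω : Fin k → Ω | ω p.1.1 ∈ A ∧ ω p.1.2 ∈ A} =
          univ.pi (fun l => if l = p.1.1 ∨ l = p.1.2 then A else univ) := by
        ext ω
        simp only [mem_ofPred_eq, mem_pi, mem_univ, true_implies]
        constructor
        · rintro ⟨ha, hb⟩ l
          split_ifs with hl
          · rcases hl with hl | hl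
            · rw [hl]; exact ha
            · rw [hl]; exact hb
          · trivial
        · intro h
          exact ⟨by simpa using h p.1.1, by simpa using h p.1.2⟩
      rw [e3, hμ, Measure.pi_pi]
      have e4 : ∀ l : Fin k, ν (if l = p.1.1 ∨ l = p.1.2 then A else univ) =
          (if l = p.1.1 then ENNReal.ofReal θ else 1) * (if l = p.1.2 then ENNReal.ofReal θ else 1) := by
        intro l
        by_cases ha : l = p.1.1
        · have hb : l ≠ p.1.2 := by rw [ha]; exact ne_of_lt hp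
          simp [ha, hνA, ne_of_lt hp]
        · by_cases hb : l = p.1.2
          · simp [hb, hνA, (ne_of_lt hp).symm]
          · simp [ha, hb]
      simp_rw [e4]
      rw [Finset.prod_mul_distrib, Finset.prod_ite_eq' , Finset.prod_ite_eq']
      simp only [Finset.mem_univ, if_true]
      rw [← ENNReal.ofReal_mul hθ0, sq]
    simp_rw [e2]
    have hcard : Fintype.card (PP k) = k.choose 2 := by
      have := card_pairs (k := k) univ
      simpa [Fintype.card_subtype] using this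
    rw [Finset.sum_const, Finset.card_univ, hcard, nsmul_eq_mul,
      ENNReal.ofReal_mul (by positivity), ENNReal.ofReal_natCast]
  -- ∫ 1_{N=0}
  have h3 : ∫⁻ ω, (if N ω = 0 then (1 : ℝ≥0∞) else 0) ∂μ = ENNReal.ofReal ((1 - θ) ^ k) := by
    have e0 : MeasurableSet {ω : Fin k → Ω | ∀ j, ω j ∈ Aᶜ} := by
      have : {ω : Fin k → Ω | ∀ j, ω j ∈ Aᶜ} = univ.pi (fun _ => Aᶜ) := by
        ext ω; simp [mem_pi]
      rw [this]
      exact MeasurableSet.univ_pi (fun _ => hA.compl)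
    have e1 : ∀ ω, (if N ω = 0 then (1 : ℝ≥0∞) else 0) =
        {ω : Fin k → Ω | ∀ j, ω j ∈ Aᶜ}.indicator (fun _ => (1 : ℝ≥0∞)) ω := by
      intro ω
      rw [indicator_apply]
      congr 1
      apply propext
      show (Finset.univ.filter (fun j => ω j ∈ A)).card = 0 ↔ _
      rw [Finset.card_eq_zero, Finset.filter_eq_empty_iff]
      simp
    simp_rw [e1]
    rw [lintegral_indicator e0]
    simp only [lintegral_const, Measure.restrict_apply MeasurableSet.univ, univ_inter, one_mul]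
    have e3 : {ω : Fin k → Ω | ∀ j, ω j ∈ Aᶜ} = univ.pi (fun _ => Aᶜ) := by
      ext ω; simp [mem_pi]
    rw [e3, hμ, Measure.pi_pi, Finset.prod_const, Finset.card_univ, Fintype.card_fin,
      measure_compl hA (measure_ne_top ν A), measure_univ, hνA]
    rw [ENNReal.ofReal_pow (by linarith), ENNReal.ofReal_sub _ hθ0, ENNReal.ofReal_one]
  -- combine
  have h4 : (∫⁻ ω, (((N ω) - 1).choose 2 : ℝ≥0∞) ∂μ) + (∫⁻ ω, (N ω : ℝ≥0∞) ∂μ) +
      (∫⁻ ω, (if N ω = 0 then (1 : ℝ≥0∞) else 0) ∂μ) =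
      (∫⁻ ω, ((N ω).choose 2 : ℝ≥0∞) ∂μ) + 1 := by
    rw [← lintegral_add_left (hmeas (fun n => ((n - 1).choose 2 : ℝ≥0∞))),
      ← lintegral_add_right _ (hmeas (fun n => if n = 0 then 1 else 0))]
    have e1 : (1 : ℝ≥0∞) = ∫⁻ _ : Fin k → Ω, 1 ∂μ := by simp
    conv_rhs => rw [e1]
    rw [← lintegral_add_left (hmeas (fun n => (n.choose 2 : ℝ≥0∞)))]
    apply lintegral_congr
    intro ω
    by_cases h0 : N ω = 0
    · simp [h0]
    · rw [if_neg h0]
      have e2 := choose_aux (N ω)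
      have e3 : (N ω - 1).choose 2 + N ω = (N ω).choose 2 + 1 := by omega
      have e4 : ((((N ω) - 1).choose 2 : ℕ) : ℝ≥0∞) + (N ω : ℝ≥0∞) =
          ((N ω).choose 2 : ℝ≥0∞) + 1 := by exact_mod_cast e3
      rw [e4, add_zero]
  rw [h1, h2, h3] at h4
  have hfin : ∫⁻ ω, (((N ω) - 1).choose 2 : ℝ≥0∞) ∂μ ≠ ∞ := by
    intro hcon
    rw [hcon, top_add, top_add] at h4
    exact (ENNReal.add_ne_top.mpr ⟨ENNReal.ofReal_ne_top, ENNReal.one_ne_top⟩) h4.symm
  have hpow : 0 ≤ (1 - θ) ^ k := pow_nonneg (by linarith) k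
  have h5 := congrArg ENNReal.toReal h4
  rw [ENNReal.toReal_add (ENNReal.add_ne_top.mpr ⟨hfin, ENNReal.ofReal_ne_top⟩)
      ENNReal.ofReal_ne_top, ENNReal.toReal_add hfin ENNReal.ofReal_ne_top,
    ENNReal.toReal_add ENNReal.ofReal_ne_top ENNReal.one_ne_top, ENNReal.toReal_ofReal (by positivity),
    ENNReal.toReal_ofReal hpow, ENNReal.toReal_ofReal (by positivity), ENNReal.toReal_one] at h5
  have h6 : (∫⁻ ω, (((N ω) - 1).choose 2 : ℝ≥0∞) ∂μ).toReal = psi k θ := by
    rw [psi]; linarith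
  refine ⟨?_, ?_⟩
  · rw [← h6]; exact ENNReal.toReal_nonneg
  · rw [← h6, ENNReal.ofReal_toReal hfin]

theorem psi_hasSum (θ τ : ℝ) (hθ0 : 0 ≤ θ) (hθ1 : θ ≤ 1) (hτ : 0 < τ) :
    HasSum (fun k : ℕ => τ ^ k / (1 + τ) ^ (k + 1) * psi k θ) ((θ * τ) ^ 3 / (1 + θ * τ)) := by
  obtain ⟨r, hr⟩ : ∃ r, r = τ / (1 + τ) := ⟨_, rfl⟩
  have h1τ : 0 < 1 + τ := by linarith
  have hr0 : 0 ≤ r := by rw [hr]; positivity
  have hr1 : r < 1 := by rw [hr, div_lt_one h1τ]; linarith
  have hrn : ‖r‖ < 1 := by rwa [Real.norm_eq_abs, abs_of_nonneg hr0]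
  have s1 : HasSum (fun k : ℕ => (k.choose 2 : ℝ) * r ^ k) (r ^ 2 * (1 / (1 - r) ^ 3)) := by
    have e1 := (hasSum_choose_mul_geometric_of_norm_lt_one (𝕜 := ℝ) 2 hrn).mul_left (r ^ 2)
    rw [← hasSum_nat_add_iff' 2]
    have e2 : ∑ i ∈ Finset.range 2, ((i.choose 2 : ℕ) : ℝ) * r ^ i = 0 := by
      simp [Finset.sum_range_succ]
    rw [e2, sub_zero]
    have e3 : (fun n : ℕ => ((n + 2).choose 2 : ℝ) * r ^ (n + 2)) =
        fun n : ℕ => r ^ 2 * (((n + 2).choose 2 : ℝ) * r ^ n) := by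
      funext n
      ring
    rw [e3]
    exact e1
  have s2 : HasSum (fun k : ℕ => (k : ℝ) * r ^ k) (r / (1 - r) ^ 2) :=
    hasSum_coe_mul_geometric_of_norm_lt_one hrn
  have s3 : HasSum (fun k : ℕ => r ^ k) (1 - r)⁻¹ := hasSum_geometric_of_lt_one hr0 hr1
  have s4 : HasSum (fun k : ℕ => ((1 - θ) * r) ^ k) (1 - (1 - θ) * r)⁻¹ := by
    apply hasSum_geometric_of_lt_one
    · exact mul_nonneg (by linarith) hr0
    · nlinarith
  have s5 := ((((s1.mul_left (θ ^ 2)).sub (s2.mul_left θ)).add s3).sub s4).mul_left (1 - r)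
  have hval : (1 - r) * (θ ^ 2 * (r ^ 2 * (1 / (1 - r) ^ 3)) - θ * (r / (1 - r) ^ 2) +
      (1 - r)⁻¹ - (1 - (1 - θ) * r)⁻¹) = (θ * τ) ^ 3 / (1 + θ * τ) := by
    have e1 : 1 - r = 1 / (1 + τ) := by rw [hr]; field_simp; ring
    have e2 : 1 - (1 - θ) * r = (1 + θ * τ) / (1 + τ) := by rw [hr]; field_simp; ring
    have h3 : 0 < 1 + θ * τ := by positivity
    have h3' := h3.ne'
    have h4' := h1τ.ne'
    rw [e1, e2, hr]
    rw [one_div_pow, one_div_pow, inv_div, inv_div]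
    field_simp
    ring
  rw [hval] at s5
  have e4 : (fun k : ℕ => τ ^ k / (1 + τ) ^ (k + 1) * psi k θ) = fun k : ℕ => (1 - r) *
      (θ ^ 2 * ((k.choose 2 : ℝ) * r ^ k) - θ * (k * r ^ k) + r ^ k - ((1 - θ) * r) ^ k) := by
    funext k
    have e1 : 1 - r = 1 / (1 + τ) := by rw [hr]; field_simp; ring
    rw [e1, psi, mul_pow, hr, div_pow, pow_succ]
    field_simp
  rw [e4]
  exact s5

/-- integrand of the constant `c_p` -/
noncomputable def Fp (p x : ℝ) : ℝ := x ^ 3 / (1 + x) * x ^ (-1 - p)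

/-- the constant `c_p = ∫_0^∞ x^{2-p}/(1+x) dx` -/
noncomputable def cp (p : ℝ) : ℝ≥0∞ := ∫⁻ x in Ioi (0:ℝ), ENNReal.ofReal (Fp p x)

theorem Fp_meas (p : ℝ) : Measurable (Fp p) := by
  unfold Fp
  fun_prop

theorem cp_ne_zero (p : ℝ) : cp p ≠ 0 := by
  rw [cp]
  intro h0
  rw [lintegral_eq_zero_iff (Fp_meas p).ennreal_ofReal] at h0
  have h1 : ∀ᵐ x ∂(volume.restrict (Ioi (0:ℝ))), False := by
    filter_upwards [h0, ae_restrict_mem measurableSet_Ioi] with x hx hx0
    have hx0' : 0 < x := hx0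
    have hpos : 0 < Fp p x := by
      unfold Fp
      have := Real.rpow_pos_of_pos hx0' (-1 - p)
      positivity
    have : ENNReal.ofReal (Fp p x) = 0 := hx
    rw [ENNReal.ofReal_eq_zero] at this
    linarith
  rw [Filter.eventually_false_iff_eq_bot, ae_eq_bot] at h1
  have h2 : (volume.restrict (Ioi (0:ℝ))) univ = 0 := by rw [h1]; simp
  rw [Measure.restrict_apply_univ, Real.volume_Ioi] at h2
  exact ENNReal.top_ne_zero h2

theorem cp_ne_top (p : ℝ) (h2 : 2 < p) (h3 : p < 3) : cp p ≠ ∞ := by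
  rw [cp, ← Ioc_union_Ioi_eq_Ioi (zero_le_one' ℝ)]
  apply ne_top_of_le_ne_top _ (lintegral_union_le _ _ _)
  rw [ENNReal.add_ne_top]
  constructor
  · have hI : IntegrableOn (fun x : ℝ => x ^ (2 - p)) (Ioc 0 1) := by
      have := intervalIntegral.intervalIntegrable_rpow' (a := 0) (b := 1) (r := 2 - p) (by linarith)
      rwa [intervalIntegrable_iff_integrableOn_Ioc_of_le (zero_le_one' ℝ)] at this
    apply ne_top_of_le_ne_top hI.lintegral_lt_top.ne
    apply setLIntegral_mono' measurableSet_Ioc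
    intro x hx
    apply ENNReal.ofReal_le_ofReal
    unfold Fp
    have h4 : x ^ (2 - p) = x ^ 3 * x ^ (-1 - p) := by
      rw [← Real.rpow_natCast, ← Real.rpow_add hx.1]
      congr 1
      push_cast
      ring
    rw [h4]
    apply mul_le_mul_of_nonneg_right _ (Real.rpow_nonneg hx.1.le _)
    have := hx.1
    apply div_le_self (by positivity)
    linarith
  · have hI : IntegrableOn (fun x : ℝ => x ^ (1 - p)) (Ioi 1) :=
      integrableOn_Ioi_rpow_of_lt (by linarith) one_pos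
    apply ne_top_of_le_ne_top hI.lintegral_lt_top.ne
    apply setLIntegral_mono' measurableSet_Ioi
    intro x hx
    have hx0 : 0 < x := lt_trans one_pos hx
    apply ENNReal.ofReal_le_ofReal
    unfold Fp
    have h4 : x ^ (1 - p) = x ^ 2 * x ^ (-1 - p) := by
      rw [← Real.rpow_natCast, ← Real.rpow_add hx0]
      congr 1
      push_cast
      ring
    rw [h4]
    apply mul_le_mul_of_nonneg_right _ (Real.rpow_nonneg hx0.le _)
    rw [div_le_iff₀ (by linarith)]
    nlinarith [pow_pos hx0 2]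

theorem lintegral_scale (f : ℝ → ℝ≥0∞) (hf : Measurable f) (θ : ℝ) (hθ : 0 < θ) :
    ∫⁻ τ in Ioi (0:ℝ), f (θ * τ) = ENNReal.ofReal θ⁻¹ * ∫⁻ x in Ioi (0:ℝ), f x := by
  rw [← lintegral_indicator measurableSet_Ioi, ← lintegral_indicator measurableSet_Ioi]
  have h1 : ∀ τ : ℝ, (Ioi (0:ℝ)).indicator (fun τ => f (θ * τ)) τ =
      (Ioi (0:ℝ)).indicator f (θ * τ) := by
    intro τ
    simp only [indicator_apply, mem_Ioi]
    simp [hθ]
  simp_rw [h1]
  have h2 := Real.map_volume_mul_left (a := θ) hθ.ne'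
  have h3 : ∫⁻ x, (Ioi (0:ℝ)).indicator f x ∂(Measure.map (θ * ·) volume) =
      ∫⁻ τ, (Ioi (0:ℝ)).indicator f (θ * τ) :=
    lintegral_map (hf.indicator measurableSet_Ioi) (measurable_const_mul θ)
  rw [← h3, h2, lintegral_smul_measure, abs_of_pos (inv_pos.mpr hθ)]
  rfl

theorem int_tau (p θ : ℝ) (hp : 0 < p) (hθ : 0 ≤ θ) :
    ∫⁻ τ in Ioi (0:ℝ), ENNReal.ofReal ((θ * τ) ^ 3 / (1 + θ * τ) * τ ^ (-1 - p)) =
      ENNReal.ofReal θ ^ p * cp p := by
  rcases hθ.eq_or_lt with h0 | h0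
  · rw [← h0]
    simp [hp]
  · have h1 : ∀ τ ∈ Ioi (0:ℝ), ENNReal.ofReal ((θ * τ) ^ 3 / (1 + θ * τ) * τ ^ (-1 - p)) =
        ENNReal.ofReal (θ ^ (1 + p)) * ENNReal.ofReal (Fp p (θ * τ)) := by
      intro τ hτ
      have hτ' : 0 < τ := hτ
      rw [← ENNReal.ofReal_mul (Real.rpow_nonneg hθ _)]
      congr 1
      unfold Fp
      rw [Real.mul_rpow hθ hτ'.le]
      have : θ ^ (1 + p) * θ ^ (-1 - p) = 1 := by
        rw [← Real.rpow_add h0]
        norm_num
      calc (θ * τ) ^ 3 / (1 + θ * τ) * τ ^ (-1 - p) =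
          (θ ^ (1 + p) * θ ^ (-1 - p)) * ((θ * τ) ^ 3 / (1 + θ * τ) * τ ^ (-1 - p)) := by
            rw [this, one_mul]
        _ = _ := by ring
    rw [setLIntegral_congr_fun measurableSet_Ioi h1]
    rw [lintegral_const_mul _ (by
      apply ENNReal.measurable_ofReal.comp
      exact (Fp_meas p).comp (measurable_const_mul θ))]
    rw [lintegral_scale (fun x => ENNReal.ofReal (Fp p x))
      (ENNReal.measurable_ofReal.comp (Fp_meas p)) θ h0, ← cp, ← mul_assoc,
      ← ENNReal.ofReal_mul (Real.rpow_nonneg hθ _), ENNReal.ofReal_rpow_of_pos h0]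
    congr 2
    rw [Real.rpow_add h0, Real.rpow_one]
    field_simp

section Assembly

variable {Ω : Type} [MeasurableSpace Ω] (a : Ω → EuclideanSpace ℝ (Fin 2)) (c h : Ω → ℝ)

/-- set of the slabs containing `y` -/
def SS (lam : ℝ) (y : EuclideanSpace ℝ (Fin 2)) : Set Ω := {ω | |⟪a ω, y⟫ - lam * c ω| < h ω}

/-- centered box -/
def Bx (r : Fin 2 → ℝ) : Set (EuclideanSpace ℝ (Fin 2)) := {y | ∀ k, |y k| < r k}

theorem Bx_meas (r : Fin 2 → ℝ) : MeasurableSet (Bx r) := by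
  have : Bx r = ⋂ k, {y : EuclideanSpace ℝ (Fin 2) | |y k| < r k} := by
    ext y; simp [Bx]
  rw [this]
  exact MeasurableSet.iInter fun k => measurableSet_lt (by fun_prop) measurable_const

theorem SS_joint (ha : Measurable a) (hc : Measurable c) (hh : Measurable h) (lam : ℝ) :
    MeasurableSet {q : EuclideanSpace ℝ (Fin 2) × Ω | q.2 ∈ SS a c h lam q.1} := by
  show MeasurableSet {q : EuclideanSpace ℝ (Fin 2) × Ω | |⟪a q.2, q.1⟫ - lam * c q.2| < h q.2}
  apply measurableSet_lt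
  · have : Measurable (fun q : EuclideanSpace ℝ (Fin 2) × Ω => (⟪a q.2, q.1⟫ : ℝ)) :=
      (ha.comp measurable_snd).inner measurable_fst
    exact (this.sub ((hc.comp measurable_snd).const_mul lam)).abs
  · exact hh.comp measurable_snd

open Classical in
/-- the moment `C(N-1,2)` for `k` independent slabs -/
noncomputable def LL (ν : Measure Ω) (k : ℕ) (lam : ℝ) (y : EuclideanSpace ℝ (Fin 2)) : ℝ≥0∞ :=
  ∫⁻ ω : Fin k → Ω, (((Finset.univ.filter (fun j => ω j ∈ SS a c h lam y)).card - 1).choose 2 : ℝ≥0∞)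
      ∂(Measure.pi fun _ => ν)

open Classical in
theorem joint_meas (ha : Measurable a) (hc : Measurable c) (hh : Measurable h) (k : ℕ) (lam : ℝ) :
    Measurable (fun q : EuclideanSpace ℝ (Fin 2) × (Fin k → Ω) =>
      (((Finset.univ.filter (fun j => q.2 j ∈ SS a c h lam q.1)).card - 1).choose 2 : ℝ≥0∞)) := by
  apply meas_of_sets (fun j : Fin k => {q : EuclideanSpace ℝ (Fin 2) × (Fin k → Ω) |
    q.2 j ∈ SS a c h lam q.1}) ?_
    (fun B => ((((Finset.univ.filter (fun j => j ∈ B)).card - 1).choose 2 : ℕ) : ℝ≥0∞))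
  intro j
  have h1 : Measurable (fun q : EuclideanSpace ℝ (Fin 2) × (Fin k → Ω) => (q.1, q.2 j)) :=
    measurable_fst.prodMk ((measurable_pi_apply j).comp measurable_snd)
  exact h1 (SS_joint a c h ha hc hh lam)

theorem LL_meas (ν : Measure Ω) [IsProbabilityMeasure ν] (ha : Measurable a) (hc : Measurable c)
    (hh : Measurable h) (k : ℕ) (lam : ℝ) : Measurable (LL a c h ν k lam) :=
  (joint_meas a c h ha hc hh k lam).lintegral_prod_right'

theorem LL_anti (ν : Measure Ω) [IsProbabilityMeasure ν] (ha : Measurable a) (hc : Measurable c)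
    (hh : Measurable h) (k : ℕ) (r : Fin 2 → ℝ) (lam : ℝ) (h0 : 0 ≤ lam) (h1 : lam ≤ 1) :
    ∫⁻ y in Bx r, LL a c h ν k 1 y ≤ ∫⁻ y in Bx r, LL a c h ν k lam y := by
  classical
  have hswap : ∀ lam, ∫⁻ y in Bx r, LL a c h ν k lam y =
      ∫⁻ ω : Fin k → Ω, (∫⁻ y in Bx r,
        (((Finset.univ.filter (fun j => ω j ∈ SS a c h lam y)).card - 1).choose 2 : ℝ≥0∞))
        ∂(Measure.pi fun _ => ν) := by
    intro lam
    unfold LL
    exact lintegral_lintegral_swap (joint_meas a c h ha hc hh k lam).aemeasurable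
  rw [hswap, hswap]
  apply lintegral_mono
  intro ω
  have hconv : ∀ lam, ∫⁻ y in Bx r,
      (((Finset.univ.filter (fun j => ω j ∈ SS a c h lam y)).card - 1).choose 2 : ℝ≥0∞) =
      ∫⁻ y in {y : Fin 2 → ℝ | ∀ l, |y l| < r l},
        ((cnt (fun j l => a (ω j) l) (fun j => c (ω j)) (fun j => h (ω j)) lam y - 1).choose 2 :
          ℝ≥0∞) := by
    intro lam
    have hmp := EuclideanSpace.volume_preserving_symm_measurableEquiv_toLp (Fin 2)
    rw [← hmp.setLIntegral_comp_preimage_emb (MeasurableEquiv.measurableEmbedding _)]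
    have e1 : ((MeasurableEquiv.toLp 2 (Fin 2 → ℝ)).symm ⁻¹' {y : Fin 2 → ℝ | ∀ l, |y l| < r l}) =
        Bx r := rfl
    rw [e1]
    apply lintegral_congr
    intro y
    congr 3
    rw [cnt, Nat.card_eq_card_toFinset]
    congr 1
    ext j
    simp only [mem_toFinset, mem_ofPred_eq, Finset.mem_filter, Finset.mem_univ, true_and, SS]
    rw [PiLp.inner_apply]
    simp only [RCLike.inner_apply, conj_trivial, Fin.sum_univ_two]
    have e2 : ∀ l, (MeasurableEquiv.toLp 2 (Fin 2 → ℝ)).symm y l = y l := fun l => rfl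
    rw [e2, e2, mul_comm (y.ofLp 0), mul_comm (y.ofLp 1)]
  show ∫⁻ y in Bx r,
      (((Finset.univ.filter (fun j => ω j ∈ SS a c h 1 y)).card - 1).choose 2 : ℝ≥0∞) ≤
      ∫⁻ y in Bx r,
      (((Finset.univ.filter (fun j => ω j ∈ SS a c h lam y)).card - 1).choose 2 : ℝ≥0∞)
  rw [hconv, hconv]
  exact slab_ineq _ _ _ _ h0 h1

/-- weights of the mixture -/
noncomputable def WW (p : ℝ) (k : ℕ) (τ : ℝ) : ℝ≥0∞ :=
  ENNReal.ofReal (τ ^ k / (1 + τ) ^ (k + 1) * τ ^ (-1 - p))

theorem WW_meas (p : ℝ) (k : ℕ) : Measurable (WW p k) := by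
  unfold WW
  fun_prop

theorem pointwise (ν : Measure Ω) [IsProbabilityMeasure ν] (p : ℝ) (hp : 0 < p)
    (hSm : ∀ lam y, MeasurableSet (SS a c h lam y)) (lam : ℝ) (y : EuclideanSpace ℝ (Fin 2)) :
    (ν (SS a c h lam y)) ^ p * cp p =
      ∫⁻ τ in Ioi (0 : ℝ), ∑' k, WW p k τ * LL a c h ν k lam y := by
  classical
  set θ := (ν (SS a c h lam y)).toReal with hθ
  have hθ0 : 0 ≤ θ := ENNReal.toReal_nonneg
  have hθ1 : θ ≤ 1 := by
    rw [hθ]
    exact ENNReal.toReal_le_of_le_ofReal (by norm_num) (by simpa using prob_le_one)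
  have hνA : ν (SS a c h lam y) = ENNReal.ofReal θ := by
    rw [hθ, ENNReal.ofReal_toReal (measure_ne_top ν _)]
  rw [hνA, ← int_tau p θ hp hθ0]
  apply setLIntegral_congr_fun measurableSet_Ioi
  intro τ hτ
  have hτ' : 0 < τ := hτ
  have hs := psi_hasSum θ τ hθ0 hθ1 hτ'
  have hpsi : ∀ k, 0 ≤ psi k θ := fun k => (psi_int ν _ (hSm lam y) k).1
  have hL : ∀ k, LL a c h ν k lam y = ENNReal.ofReal (psi k θ) := fun k =>
    (psi_int ν _ (hSm lam y) k).2
  have hnn : ∀ k : ℕ, 0 ≤ τ ^ k / (1 + τ) ^ (k + 1) * psi k θ := fun k =>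
    mul_nonneg (by positivity) (hpsi k)
  have h1τ : 0 ≤ τ ^ (-1 - p) := Real.rpow_nonneg hτ'.le _
  show ENNReal.ofReal ((θ * τ) ^ 3 / (1 + θ * τ) * τ ^ (-1 - p)) = _
  rw [← hs.tsum_eq, mul_comm, ENNReal.ofReal_mul h1τ,
    ENNReal.ofReal_tsum_of_nonneg hnn hs.summable, ← ENNReal.tsum_mul_left]
  apply tsum_congr
  intro k
  rw [hL, WW, ← ENNReal.ofReal_mul h1τ, ← ENNReal.ofReal_mul (mul_nonneg (by positivity) h1τ)]
  congr 1
  ring

theorem box_ineq (ν : Measure Ω) [IsProbabilityMeasure ν] (ha : Measurable a) (hc : Measurable c)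
    (hh : Measurable h) (p : ℝ) (h2 : 2 < p) (h3 : p < 3) (r : Fin 2 → ℝ) (lam : ℝ)
    (h0 : 0 ≤ lam) (h1 : lam ≤ 1) :
    ∫⁻ y in Bx r, (ν (SS a c h 1 y)) ^ p ≤ ∫⁻ y in Bx r, (ν (SS a c h lam y)) ^ p := by
  have hSm : ∀ lam y, MeasurableSet (SS a c h lam y) := fun lam y =>
    measurable_prodMk_left (SS_joint a c h ha hc hh lam)
  have hνm : ∀ lam, Measurable (fun y => ν (SS a c h lam y)) := fun lam =>
    measurable_measure_prodMk_left (SS_joint a c h ha hc hh lam)
  have key : ∀ lam, (∫⁻ y in Bx r, (ν (SS a c h lam y)) ^ p) * cp p =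
      ∫⁻ τ in Ioi (0 : ℝ), ∑' k, WW p k τ * ∫⁻ y in Bx r, LL a c h ν k lam y := by
    intro lam
    rw [← lintegral_mul_const _ ((hνm lam).pow_const p)]
    simp_rw [pointwise a c h ν p (by linarith) hSm lam]
    rw [lintegral_lintegral_swap]
    · apply lintegral_congr
      intro τ
      rw [lintegral_tsum (fun k => ((LL_meas a c h ν ha hc hh k lam).const_mul _).aemeasurable)]
      apply tsum_congr
      intro k
      rw [lintegral_const_mul _ (LL_meas a c h ν ha hc hh k lam)]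
    · apply Measurable.aemeasurable
      apply Measurable.tsum
      intro k
      exact ((WW_meas p k).comp measurable_snd).mul
        ((LL_meas a c h ν ha hc hh k lam).comp measurable_fst)
  have hle : (∫⁻ y in Bx r, (ν (SS a c h 1 y)) ^ p) * cp p ≤
      (∫⁻ y in Bx r, (ν (SS a c h lam y)) ^ p) * cp p := by
    rw [key, key]
    apply lintegral_mono
    intro τ
    apply ENNReal.tsum_le_tsum
    intro k
    exact mul_le_mul' le_rfl (LL_anti a c h ν ha hc hh k r lam h0 h1)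
  exact (ENNReal.mul_le_mul_iff_left (cp_ne_zero p) (cp_ne_top p h2 h3)).mp hle

end Assembly

theorem RI_two (p : ℝ) (h2 : 2 < p) (h3 : p < 3) : RI 2 p := by
  intro s hs Ω _ μ _ a c h ha hc hh lam h0 h1
  obtain ⟨Ξ, _, νΞ, _, r, hr, hW⟩ := Wt_mix 2 s hs
  -- mixture of boxes
  have hB : MeasurableSet {q : EuclideanSpace ℝ (Fin 2) × Ξ | ∀ k, |q.1 k| < r q.2 k} := by
    have : {q : EuclideanSpace ℝ (Fin 2) × Ξ | ∀ k, |q.1 k| < r q.2 k} =
        ⋂ k, {q : EuclideanSpace ℝ (Fin 2) × Ξ | |q.1 k| < r q.2 k} := by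
      ext q; simp
    rw [this]
    refine MeasurableSet.iInter fun k => measurableSet_lt (by fun_prop) ?_
    exact (measurable_pi_apply k).comp (hr.comp measurable_snd)
  have hmix : ∀ f : EuclideanSpace ℝ (Fin 2) → ℝ≥0∞, Measurable f →
      ∫⁻ y, f y * Wt 2 s y = ∫⁻ ξ, (∫⁻ y in Bx (r ξ), f y) ∂νΞ := by
    intro f hf
    have e1 : ∀ y, f y * Wt 2 s y = ∫⁻ ξ, {q : EuclideanSpace ℝ (Fin 2) × Ξ |
        ∀ k, |q.1 k| < r q.2 k}.indicator (fun q => f q.1) (y, ξ) ∂νΞ := by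
      intro y
      have e2 : ∀ ξ, {q : EuclideanSpace ℝ (Fin 2) × Ξ | ∀ k, |q.1 k| < r q.2 k}.indicator
          (fun q => f q.1) (y, ξ) = {ξ | ∀ k, |y k| < r ξ k}.indicator (fun _ => f y) ξ := by
        intro ξ
        simp only [indicator_apply, mem_ofPred_eq]
      simp_rw [e2]
      have e5 : MeasurableSet {ξ | ∀ k, |y k| < r ξ k} := measurable_prodMk_left hB
      rw [lintegral_indicator e5, lintegral_const, Measure.restrict_apply_univ, hW]
    simp_rw [e1]
    rw [lintegral_lintegral_swap]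
    · apply lintegral_congr
      intro ξ
      rw [← lintegral_indicator (Bx_meas _)]
      apply lintegral_congr
      intro y
      simp only [indicator_apply, mem_ofPred_eq, Bx]
    · exact ((hf.comp measurable_fst).indicator hB).aemeasurable
  have hSS : ∀ lam, Measurable (fun y => μ (SS a c h lam y)) := fun lam =>
    measurable_measure_prodMk_left (SS_joint a c h ha hc hh lam)
  have e0 : ∀ y, μ {ω | |⟪a ω, y⟫ - c ω| < h ω} = μ (SS a c h 1 y) := by
    intro y; simp [SS]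
  have e00 : ∀ y, μ {ω | |⟪a ω, y⟫ - lam * c ω| < h ω} = μ (SS a c h lam y) := fun y => rfl
  simp_rw [e0, e00]
  rw [hmix _ ((hSS 1).pow_const p), hmix _ ((hSS lam).pow_const p)]
  apply lintegral_mono
  intro ξ
  show ∫⁻ y in Bx (r ξ), μ (SS a c h 1 y) ^ p ≤ ∫⁻ y in Bx (r ξ), μ (SS a c h lam y) ^ p
  by_cases hμ : μ = 0
  · rw [hμ]
    simp [show (0 : ℝ) < p by linarith]
  · set m := μ univ with hm
    have hm0 : m ≠ 0 := by rw [hm]; simpa using hμ
    have hmt : m ≠ ∞ := measure_ne_top μ univ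
    set ν : Measure Ω := m⁻¹ • μ with hν
    have hprob : IsProbabilityMeasure ν := by
      constructor
      rw [hν, Measure.smul_apply, ← hm, smul_eq_mul, ENNReal.inv_mul_cancel hm0 hmt]
    have e3 : ∀ A : Set Ω, μ A = m * ν A := by
      intro A
      rw [hν, Measure.smul_apply, smul_eq_mul, ← mul_assoc, ENNReal.mul_inv_cancel hm0 hmt,
        one_mul]
    have hνS : ∀ lam, Measurable (fun y => ν (SS a c h lam y)) := fun lam =>
      measurable_measure_prodMk_left (SS_joint a c h ha hc hh lam)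
    simp_rw [e3, ENNReal.mul_rpow_of_nonneg _ _ (show (0 : ℝ) ≤ p by linarith)]
    rw [lintegral_const_mul _ ((hνS 1).pow_const p), lintegral_const_mul _ ((hνS lam).pow_const p)]
    exact mul_le_mul' le_rfl (box_ineq a c h ν ha hc hh p h2 h3 (r ξ) lam h0 h1)

end StarIB
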