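import Pool.Agent.StarIB.Bodies
import Pool.Agent.StarIB.Holder
import Pool.Agent.StarIB.Ident
import Pool.Agent.StarIB.Mesh
import Pool.Agent.StarIB.RINat
import Pool.Agent.StarIB.RITwo

/-! # Module N2: assembly -/

open MeasureTheory Set Metric Module Filter Topology
open scoped ENNReal RealInnerProductSpace Pointwise

namespace StarIB

section symm
variable {d : ℕ}

theorem Sol.even_u {E : Type*} [NormedAddCommGroup E] [InnerProductSpace ℝ E]
    [FiniteDimensional ℝ E] [MeasurableSpace E] [BorelSpace E] {i c₁ c₂ : ℝ} {u v : E → ℝ}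
    (h : Sol i c₁ c₂ u v) (x : E) (hx : x ≠ 0) : u (-x) = u x := by
  rw [h.eq_u x hx, h.eq_u (-x) (neg_ne_zero.2 hx), ← neg_one_smul ℝ x,
    sphInt_smul _ _ _ (by norm_num)]

/-- a solution is symmetric with respect to the last coordinate -/
theorem symm_H_lt (hd : 2 ≤ d) {i c₁ c₂ : ℝ} (hi : 1 < i) (hid : i < d)
    (hc₁ : 0 < c₁) (hc₂ : 0 < c₂) {u v : WithLp 2 (EuclideanSpace ℝ (Fin d) × ℝ) → ℝ}
    (h : Sol i c₁ c₂ u v) (hRI : RI d (i + 1)) (z : EuclideanSpace ℝ (Fin d)) (t : ℝ)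
    (ht : 0 < t) (hlt : u (WithLp.toLp 2 (z, -t)) < u (WithLp.toLp 2 (z, t))) : False := by
  have hum : Measurable u := by
    apply measurable_of_continuousOn_compl_singleton 0
    exact h.cont_u.mono (by intro x hx; exact hx)
  have hvm : Measurable v := by
    apply measurable_of_continuousOn_compl_singleton 0
    exact h.cont_v.mono (by intro x hx; exact hx)
  have hfr : 3 ≤ finrank ℝ (WithLp 2 (EuclideanSpace ℝ (Fin d) × ℝ)) := by
    have h1 : finrank ℝ (WithLp 2 (EuclideanSpace ℝ (Fin d) × ℝ)) = d + 1 := by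
      rw [(WithLp.linearEquiv 2 ℝ (EuclideanSpace ℝ (Fin d) × ℝ)).finrank_eq, finrank_prod,
        finrank_euclideanSpace, Fintype.card_fin, finrank_self]
    rw [h1]; omega
  have hold := holder hfr i c₁ c₂ (by linarith) hc₁ hc₂ u v h
  obtain ⟨Sh, R, η₀, C, C', hM⟩ := meshHyp_of_sol d hd i c₁ c₂ hi hid hc₁ hc₂ u v hum hvm h hold
  have hd0 : (0 : ℝ) < d := by linarith
  have hi0 : 0 < i := by linarith
  set σ : ℝ := (d : ℝ) / i with hσ
  have hσ0 : 0 < σ := by positivity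
  have hx0 : (WithLp.toLp 2 (z, t) : WithLp 2 (EuclideanSpace ℝ (Fin d) × ℝ)) ≠ 0 := by
    intro h0
    have := congrArg (fun x : WithLp 2 (EuclideanSpace ℝ (Fin d) × ℝ) => x.ofLp.2) h0
    simp at this
    linarith
  have hx0' : (WithLp.toLp 2 (z, -t) : WithLp 2 (EuclideanSpace ℝ (Fin d) × ℝ)) ≠ 0 := by
    intro h0
    have := congrArg (fun x : WithLp 2 (EuclideanSpace ℝ (Fin d) × ℝ) => x.ofLp.2) h0
    simp at this
    linarith
  have hnorm : ‖(WithLp.toLp 2 (z, -t) : WithLp 2 (EuclideanSpace ℝ (Fin d) × ℝ))‖ =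
      ‖(WithLp.toLp 2 (z, t) : WithLp 2 (EuclideanSpace ℝ (Fin d) × ℝ))‖ := by
    rw [WithLp.prod_norm_eq_of_L2, WithLp.prod_norm_eq_of_L2]
    simp
  set X := (WithLp.toLp 2 (z, t) : WithLp 2 (EuclideanSpace ℝ (Fin d) × ℝ)) with hX
  set X' := (WithLp.toLp 2 (z, -t) : WithLp 2 (EuclideanSpace ℝ (Fin d) × ℝ)) with hX'
  have hXn : 0 < ‖X‖ := norm_pos_iff.2 hx0
  -- the scaling
  set m : ℝ := (u X + u X') / 2 with hm
  have hm0 : 0 < m := by have := h.pos_u X hx0; have := h.pos_u X' hx0'; positivity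
  have hm1 : m < u X := by rw [hm]; linarith
  have hm2 : u X' < m := by rw [hm]; linarith
  set s : ℝ := m ^ (1 / σ) / ‖X‖ with hs
  have hs0 : 0 < s := by positivity
  have hsX : ‖s • X‖ ^ σ = m := by
    rw [norm_smul, Real.norm_eq_abs, abs_of_pos hs0, hs, div_mul_cancel₀ _ hXn.ne',
      ← Real.rpow_mul hm0.le]
    rw [one_div, inv_mul_cancel₀ hσ0.ne', Real.rpow_one]
  have hsX' : ‖s • X'‖ ^ σ = m := by
    rw [← hsX, norm_smul, norm_smul, hnorm]
  have hsz : s • X = WithLp.toLp 2 (s • z, s * t) := by rw [hX]; rfl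
  have hsz' : s • X' = WithLp.toLp 2 (s • z, -(s * t)) := by
    rw [hX', ← WithLp.toLp_smul]; simp
  -- continuity of the two conditions
  have hcont : ∀ x : WithLp 2 (EuclideanSpace ℝ (Fin d) × ℝ), x ≠ 0 →
      ContinuousAt (fun x => u x - ‖x‖ ^ σ) x := by
    intro x hx
    apply ContinuousAt.sub
    · exact h.cont_u.continuousAt (isOpen_ne.mem_nhds hx)
    · exact (continuous_norm.rpow_const (fun _ => Or.inr hσ0.le)).continuousAt
  have hmap : Continuous (fun q : EuclideanSpace ℝ (Fin d) × ℝ =>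
      (WithLp.toLp 2 (q.1, q.2) : WithLp 2 (EuclideanSpace ℝ (Fin d) × ℝ))) := by fun_prop
  have hmap' : Continuous (fun q : EuclideanSpace ℝ (Fin d) × ℝ =>
      (WithLp.toLp 2 (q.1, -q.2) : WithLp 2 (EuclideanSpace ℝ (Fin d) × ℝ))) := by fun_prop
  have c1 : ContinuousAt (fun q : EuclideanSpace ℝ (Fin d) × ℝ =>
      u (WithLp.toLp 2 (q.1, q.2)) - ‖(WithLp.toLp 2 (q.1, q.2) : WithLp 2 _)‖ ^ σ)
      (s • z, s * t) := by
    apply ContinuousAt.comp (g := fun x => u x - ‖x‖ ^ σ) _ hmap.continuousAt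
    apply hcont
    rw [← hsz]
    exact smul_ne_zero hs0.ne' hx0
  have c2 : ContinuousAt (fun q : EuclideanSpace ℝ (Fin d) × ℝ =>
      u (WithLp.toLp 2 (q.1, -q.2)) - ‖(WithLp.toLp 2 (q.1, -q.2) : WithLp 2 _)‖ ^ σ)
      (s • z, s * t) := by
    apply ContinuousAt.comp (g := fun x => u x - ‖x‖ ^ σ) _ hmap'.continuousAt
    apply hcont
    simp only
    rw [← hsz']
    exact smul_ne_zero hs0.ne' hx0'
  have v1 : 0 < u (WithLp.toLp 2 (s • z, s * t)) -
      ‖(WithLp.toLp 2 (s • z, s * t) : WithLp 2 (EuclideanSpace ℝ (Fin d) × ℝ))‖ ^ σ := by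
    rw [← hsz, hsX, h.hom_u X hx0 s hs0]; linarith
  have v2 : u (WithLp.toLp 2 (s • z, -(s * t))) -
      ‖(WithLp.toLp 2 (s • z, -(s * t)) : WithLp 2 (EuclideanSpace ℝ (Fin d) × ℝ))‖ ^ σ < 0 := by
    rw [← hsz', hsX', h.hom_u X' hx0' s hs0]; linarith
  have ev1 := c1.eventually (lt_mem_nhds v1)
  have ev2 := c2.eventually (gt_mem_nhds v2)
  obtain ⟨δ, hδ, hδ'⟩ := Metric.eventually_nhds_iff.1 (ev1.and ev2)
  have hst : 0 < s * t := by positivity
  refine mesh_false d (i + 1) _ _ _ Sh R η₀ C C' hM hRI (s • z) (s * t) (min δ (s * t))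
    (by positivity) (min_le_right _ _) ?_
  intro z' hz' t' ht'
  rw [mem_ball] at hz'
  have hdist : dist ((z', t') : EuclideanSpace ℝ (Fin d) × ℝ) (s • z, s * t) < δ := by
    rw [Prod.dist_eq, max_lt_iff]
    refine ⟨hz'.trans_le (min_le_left _ _), ?_⟩
    simp only
    rw [Real.dist_eq, abs_lt]
    have := min_le_left δ (s * t)
    constructor <;> linarith [ht'.1, ht'.2]
  obtain ⟨g1, g2⟩ := hδ' hdist
  simp only at g1 g2
  constructor
  · right
    rw [← hσ]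
    linarith
  · rintro (h0 | h0)
    · have : -t' = 0 := congrArg Prod.snd h0
      have := ht'.1
      have := min_le_right δ (s * t)
      linarith
    · rw [← hσ] at h0
      linarith

theorem symm_H (hd : 2 ≤ d) {i c₁ c₂ : ℝ} (hi : 1 < i) (hid : i < d)
    (hc₁ : 0 < c₁) (hc₂ : 0 < c₂) {u v : WithLp 2 (EuclideanSpace ℝ (Fin d) × ℝ) → ℝ}
    (h : Sol i c₁ c₂ u v) (hRI : RI d (i + 1)) (z : EuclideanSpace ℝ (Fin d)) (t : ℝ) :
    u (WithLp.toLp 2 (z, -t)) = u (WithLp.toLp 2 (z, t)) := by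
  -- first for t > 0
  have key : ∀ (z : EuclideanSpace ℝ (Fin d)) (t : ℝ), 0 < t →
      u (WithLp.toLp 2 (z, -t)) = u (WithLp.toLp 2 (z, t)) := by
    intro z t ht
    have hne : ∀ (z : EuclideanSpace ℝ (Fin d)) (t : ℝ), t ≠ 0 →
        (WithLp.toLp 2 (z, t) : WithLp 2 (EuclideanSpace ℝ (Fin d) × ℝ)) ≠ 0 := by
      intro z t ht h0
      have := congrArg (fun x : WithLp 2 (EuclideanSpace ℝ (Fin d) × ℝ) => x.ofLp.2) h0
      simp at this
      exact ht this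
    have hneg : ∀ (z : EuclideanSpace ℝ (Fin d)) (t : ℝ), t ≠ 0 →
        u (WithLp.toLp 2 (-z, -t)) = u (WithLp.toLp 2 (z, t)) := by
      intro z t ht
      rw [← h.even_u _ (hne z t ht)]
      congr 1
    rcases lt_trichotomy (u (WithLp.toLp 2 (z, -t))) (u (WithLp.toLp 2 (z, t))) with g | g | g
    · exact (symm_H_lt hd hi hid hc₁ hc₂ h hRI z t ht g).elim
    · exact g
    · exfalso
      apply symm_H_lt hd hi hid hc₁ hc₂ h hRI (-z) t ht
      have e1 := hneg z t ht.ne'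
      have e2 := hneg z (-t) (neg_ne_zero.2 ht.ne')
      rw [neg_neg] at e2
      rw [e1, e2]
      exact g
  rcases lt_trichotomy t 0 with ht | ht | ht
  · have := key z (-t) (by linarith)
    rw [neg_neg] at this
    exact this.symm
  · rw [ht, neg_zero]
  · exact key z t ht

end symm

section E
variable {E : Type*} [NormedAddCommGroup E] [InnerProductSpace ℝ E] [FiniteDimensional ℝ E]
  [MeasurableSpace E] [BorelSpace E]
variable {E' : Type*} [NormedAddCommGroup E'] [InnerProductSpace ℝ E'] [FiniteDimensional ℝ E']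
  [MeasurableSpace E'] [BorelSpace E']

theorem Sol.transfer {i c₁ c₂ : ℝ} {u v : E → ℝ} (h : Sol i c₁ c₂ u v) (Φ : E' ≃ₗᵢ[ℝ] E) :
    Sol i c₁ c₂ (fun x => u (Φ x)) (fun x => v (Φ x)) := by
  have hne : ∀ x : E', x ≠ 0 → Φ x ≠ 0 := fun x hx => by simpa using hx
  refine ⟨?_, ?_, ?_, ?_, ?_, ?_, ?_, ?_⟩
  · intro x hx s hs
    rw [map_smul]; exact h.hom_u _ (hne x hx) s hs
  · intro x hx s hs
    rw [map_smul]; exact h.hom_v _ (hne x hx) s hs
  · exact h.cont_u.comp Φ.continuous.continuousOn (fun x hx => hne x hx)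
  · exact h.cont_v.comp Φ.continuous.continuousOn (fun x hx => hne x hx)
  · intro x hx; exact h.pos_u _ (hne x hx)
  · intro x hx; exact h.pos_v _ (hne x hx)
  · intro x hx
    rw [h.eq_u _ (hne x hx), sphInt_map]
  · intro x hx
    rw [h.eq_v _ (hne x hx), sphInt_map]

/-- a solution is constant -/
theorem sol_const {d : ℕ} (hE : finrank ℝ E = d + 1) (hd : 2 ≤ d) {i c₁ c₂ : ℝ} (hi : 1 < i)
    (hid : i < d) (hc₁ : 0 < c₁) (hc₂ : 0 < c₂) {u v : E → ℝ} (h : Sol i c₁ c₂ u v)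
    (hRI : RI d (i + 1)) (a b : E) (ha : ‖a‖ = 1) (hb : ‖b‖ = 1) : u a = u b := by
  by_cases hab : a = b
  · rw [hab]
  have hn : 0 < ‖a - b‖ := norm_pos_iff.2 (sub_ne_zero.2 hab)
  set e : E := ‖a - b‖⁻¹ • (a - b) with he
  have hen : ‖e‖ = 1 := by rw [he, norm_smul, norm_inv, norm_norm, inv_mul_cancel₀ hn.ne']
  obtain ⟨Φ, hΦ⟩ := exists_isometry d hE e hen
  have h' := h.transfer Φ.symm
  have hs := symm_H hd hi hid hc₁ hc₂ h' hRI (Φ a).ofLp.1 (Φ a).ofLp.2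
  -- Φ a - Φ b = |a-b| (0,1)
  have h1 : Φ a - Φ b = ‖a - b‖ • WithLp.toLp 2 ((0 : EuclideanSpace ℝ (Fin d)), (1 : ℝ)) := by
    rw [← hΦ, ← map_smul, he, smul_smul, mul_inv_cancel₀ hn.ne', one_smul, map_sub]
  have h2 : (Φ a).ofLp.1 = (Φ b).ofLp.1 := by
    have := congrArg (fun x : WithLp 2 (EuclideanSpace ℝ (Fin d) × ℝ) => x.ofLp.1) h1
    simp at this
    exact sub_eq_zero.1 this
  have h3 : (Φ a).ofLp.2 - (Φ b).ofLp.2 = ‖a - b‖ := by
    have := congrArg (fun x : WithLp 2 (EuclideanSpace ℝ (Fin d) × ℝ) => x.ofLp.2) h1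
    simpa using this
  have h4 : (Φ a).ofLp.2 ^ 2 = (Φ b).ofLp.2 ^ 2 := by
    have e1 : ‖Φ a‖ ^ 2 = ‖Φ b‖ ^ 2 := by
      rw [LinearIsometryEquiv.norm_map, LinearIsometryEquiv.norm_map, ha, hb]
    rw [WithLp.prod_norm_sq_eq_of_L2, WithLp.prod_norm_sq_eq_of_L2] at e1
    have e2 : ‖(Φ a).ofLp.1‖ ^ 2 = ‖(Φ b).ofLp.1‖ ^ 2 := by rw [h2]
    simp only [Real.norm_eq_abs, sq_abs] at e1
    have e3 : ‖(Φ a).fst‖ ^ 2 = ‖(Φ b).fst‖ ^ 2 := e2
    have e4 : (Φ a).snd ^ 2 = (Φ b).snd ^ 2 := by linarith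
    exact e4
  have h5 : (Φ b).ofLp.2 = -(Φ a).ofLp.2 := by
    rcases sq_eq_sq_iff_eq_or_eq_neg.1 h4 with g | g
    · rw [g, sub_self] at h3; linarith
    · rw [g]; ring
  have ea : WithLp.toLp 2 ((Φ a).ofLp.1, (Φ a).ofLp.2) = Φ a := rfl
  have eb : WithLp.toLp 2 ((Φ a).ofLp.1, -(Φ a).ofLp.2) = Φ b := by
    rw [← h5, h2]
  rw [ea, eb] at hs
  simpa using hs.symm

end E

end StarIB
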