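import Pool.Agent.StarIB.Final

/-! # Module N3: the theorem for star bodies -/

open MeasureTheory Set Metric Module Filter Topology
open scoped ENNReal RealInnerProductSpace Pointwise

namespace StarIB

variable {E : Type*} [NormedAddCommGroup E] [InnerProductSpace ℝ E] [FiniteDimensional ℝ E]
  [MeasurableSpace E] [BorelSpace E]

omit [FiniteDimensional ℝ E] [MeasurableSpace E] [BorelSpace E] in
theorem ne_zero_of_unit {x : E} (hx : ‖x‖ = 1) : x ≠ 0 := by
  intro h0; rw [h0, norm_zero] at hx; exact zero_ne_one hx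

omit [FiniteDimensional ℝ E] [MeasurableSpace E] [BorelSpace E] in
theorem norm_unit {x : E} (hx : x ≠ 0) : ‖‖x‖⁻¹ • x‖ = 1 := by
  rw [norm_smul, norm_inv, norm_norm, inv_mul_cancel₀ (norm_ne_zero_iff.2 hx)]

omit [FiniteDimensional ℝ E] [MeasurableSpace E] [BorelSpace E] in
theorem eq_ball_of_radial_const {L : Set E} (hL : IsStarBody L) {a : ℝ} (ha : 0 ≤ a)
    (h : ∀ x : E, ‖x‖ = 1 → radial L x = a) : L = closedBall 0 a := by
  ext y
  rw [mem_closedBall_zero_iff]
  by_cases hy : y = 0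
  · rw [hy]; simp [hL.zero_mem, ha]
  · have hn : 0 < ‖y‖ := norm_pos_iff.2 hy
    have h1 : y = ‖y‖ • (‖y‖⁻¹ • y) := by
      rw [smul_smul, mul_inv_cancel₀ hn.ne', one_smul]
    have h2 := mem_iff_radial hL (ne_zero_of_unit (norm_unit hy)) (c := ‖y‖) hn.le
    rw [← h1, h _ (norm_unit hy)] at h2
    exact h2

omit [FiniteDimensional ℝ E] [MeasurableSpace E] [BorelSpace E] in
theorem radial_ball {a : ℝ} (ha : 0 ≤ a) {u : E} (hu : ‖u‖ = 1) : radial (closedBall 0 a) u = a := by
  unfold radial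
  have : {c : ℝ | 0 ≤ c ∧ c • u ∈ closedBall (0 : E) a} = Icc 0 a := by
    ext c
    simp only [mem_ofPred_eq, mem_closedBall_zero_iff, norm_smul, hu, mul_one, mem_Icc,
      Real.norm_eq_abs]
    constructor
    · rintro ⟨h1, h2⟩; rw [abs_of_nonneg h1] at h2; exact ⟨h1, h2⟩
    · rintro ⟨h1, h2⟩; rw [abs_of_nonneg h1]; exact ⟨h1, h2⟩
  rw [this, csSup_Icc ha]

theorem exists_mass (hE : 2 ≤ finrank ℝ E) :
    ∃ c : ℝ, 0 < c ∧ ∀ w : E, w ≠ 0 → sphInt (fun _ : E => (1 : ℝ)) w = c := by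
  obtain ⟨c, hc, h⟩ := lsph_one_const (E := E) hE
  refine ⟨c, hc, fun w hw => ?_⟩
  have h1 := lsph_ofReal (fun _ : E => (1 : ℝ)) w continuousOn_const (fun _ _ => zero_le_one)
  simp only [ENNReal.ofReal_one] at h1
  rw [h w hw] at h1
  have h2 : 0 ≤ sphInt (fun _ : E => (1 : ℝ)) w := sphInt_nonneg (fun _ _ => zero_le_one) w
  exact ((ENNReal.ofReal_eq_ofReal_iff hc.le h2).1 h1).symm

theorem exists_const (hE : 2 ≤ finrank ℝ E) (i : ℝ) :
    ∃ k : ℝ, 0 < k ∧ ∀ a : ℝ, 0 ≤ a → interBody i (closedBall (0 : E) a) = closedBall 0 (k * a ^ i) := by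
  obtain ⟨c, hc, h⟩ := exists_mass (E := E) hE
  have hn : (2 : ℝ) ≤ finrank ℝ E := by exact_mod_cast hE
  have hn0 : 0 < (finrank ℝ E : ℝ) - 1 := by linarith
  have hnt : Nontrivial E := Module.nontrivial_of_finrank_pos (R := ℝ) (by omega)
  refine ⟨((finrank ℝ E : ℝ) - 1)⁻¹ * c, by positivity, fun a ha => ?_⟩
  have hr : ∀ u : E, ‖u‖ = 1 → interRadial i (closedBall (0 : E) a) u =
      ((finrank ℝ E : ℝ) - 1)⁻¹ * c * a ^ i := by
    intro u hu
    unfold interRadial
    have e1 : sphInt (fun v => radial (closedBall (0 : E) a) v ^ i) u =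
        sphInt (fun _ => a ^ i * 1) u := by
      apply sphInt_congr
      intro x hx
      rw [radial_ball ha hx, mul_one]
    have e2 : sphInt (fun _ : E => a ^ i * 1) u = a ^ i * sphInt (fun _ : E => (1 : ℝ)) u := by
      unfold sphInt
      rw [integral_const_mul]
    rw [e1, e2, h u (ne_zero_of_unit hu)]
    ring
  ext x
  rw [mem_closedBall_zero_iff]
  constructor
  · rintro ⟨u, hu, c', hc', hle, rfl⟩
    rw [hr u hu] at hle
    rw [norm_smul, hu, mul_one, Real.norm_eq_abs, abs_of_nonneg hc']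
    exact hle
  · intro hx
    by_cases hx0 : x = 0
    · obtain ⟨u, hu⟩ := exists_norm_eq E (zero_le_one)
      refine ⟨u, hu, 0, le_rfl, ?_, by rw [hx0, zero_smul]⟩
      rw [hr u hu]; positivity
    · refine ⟨‖x‖⁻¹ • x, norm_unit hx0, ‖x‖, norm_nonneg _, ?_, ?_⟩
      · rw [hr _ (norm_unit hx0)]; exact hx
      · rw [smul_smul, mul_inv_cancel₀ (norm_ne_zero_iff.2 hx0), one_smul]

theorem interBody_neg (i : ℝ) (L : Set E) {x : E} (hx : x ∈ interBody i L) :
    -x ∈ interBody i L := by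
  obtain ⟨u, hu, c, hc, hle, rfl⟩ := hx
  refine ⟨-u, by rw [norm_neg, hu], c, hc, ?_, by rw [smul_neg]⟩
  unfold interRadial at *
  rwa [← neg_one_smul ℝ u, sphInt_smul _ _ _ (by norm_num)]

theorem translation_zero (i : ℝ) {L : Set E} (hL : IsStarBody L) (hsym : ∀ y ∈ L, -y ∈ L)
    {x : E} {r : ℝ} (hr : 0 < r)
    (h : interBody i (interBody i L) = (fun y => x + r • y) '' L) : x = 0 := by
  have hstep : ∀ y ∈ L, y + (2 / r) • x ∈ L := by
    intro y hy
    have h1 : x + r • y ∈ interBody i (interBody i L) := by rw [h]; exact ⟨y, hy, rfl⟩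
    have h2 := interBody_neg i _ h1
    rw [h] at h2
    obtain ⟨y', hy', he⟩ := h2
    simp only at he
    have h3 : y' = -(y + (2 / r) • x) := by
      have h4 : r • y' = -(x + r • y) - x := by rw [← he]; abel
      have h5 : y' = r⁻¹ • (r • y') := by rw [smul_smul, inv_mul_cancel₀ hr.ne', one_smul]
      rw [h5, h4]
      have h6 : (2 / r) • x = r⁻¹ • (x + x) := by
        rw [← two_smul ℝ x, smul_smul]; congr 1; field_simp
      rw [h6]
      have h7 : y = r⁻¹ • (r • y) := by rw [smul_smul, inv_mul_cancel₀ hr.ne', one_smul]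
      nth_rewrite 2 [h7]
      rw [← smul_add, ← smul_neg]
      congr 1
      abel
    have h8 := hsym y' hy'
    rw [h3, neg_neg] at h8
    exact h8
  have hall : ∀ k : ℕ, (k : ℝ) • ((2 / r) • x) ∈ L := by
    intro k
    induction k with
    | zero => simpa using hL.zero_mem
    | succ k ih =>
      have := hstep _ ih
      push_cast
      rw [add_smul, one_smul]
      exact this
  obtain ⟨B, hB⟩ := hL.isCompact.isBounded.exists_norm_le
  by_contra hx
  have hpos : 0 < ‖(2 / r) • x‖ := norm_pos_iff.2 (smul_ne_zero (by positivity) hx)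
  obtain ⟨k, hk⟩ := exists_nat_gt (B / ‖(2 / r) • x‖)
  have h1 := hB _ (hall k)
  rw [norm_smul, Real.norm_eq_abs, abs_of_nonneg (Nat.cast_nonneg k)] at h1
  rw [div_lt_iff₀ hpos] at hk
  linarith

theorem main_E {d : ℕ} (hE : finrank ℝ E = d + 1) (hd : 2 ≤ d) {i : ℝ} (hi : 1 < i) (hid : i < d)
    (hRI : RI d (i + 1)) (L : Set E) (hL : IsStarBody L) :
    (∃ (x : E) (r : ℝ), 0 < r ∧ (x = 0 ∨ ∀ y ∈ L, -y ∈ L) ∧
      interBody i (interBody i L) = (fun y => x + r • y) '' L) ↔
    ∃ a : ℝ, 0 ≤ a ∧ L = closedBall (0 : E) a := by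
  have hn : 3 ≤ finrank ℝ E := by omega
  have hn' : (3 : ℝ) ≤ finrank ℝ E := by exact_mod_cast hn
  have hnt : Nontrivial E := Module.nontrivial_of_finrank_pos (R := ℝ) (by omega)
  constructor
  · rintro ⟨x, r, hr, hx, h⟩
    have hx0 : x = 0 := by
      rcases hx with hx | hx
      · exact hx
      · exact translation_zero i hL hx hr h
    have h' : interBody i (interBody i L) = r • L := by
      rw [h, hx0]
      simp only [zero_add]
      rfl
    have hrad0 : ∀ x : E, ‖x‖ = 1 → 0 ≤ radial L x := fun x hx =>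
      (radial_set hL (ne_zero_of_unit hx)).1
    by_cases hne : ∃ x : E, ‖x‖ = 1 ∧ radial L x ≠ 0
    · have hsol := sol_of_starBody hn i r (by linarith) hr L hL h' hne
      obtain ⟨e, he⟩ := exists_norm_eq E (zero_le_one)
      refine ⟨radial L e, hrad0 e he, ?_⟩
      apply eq_ball_of_radial_const hL (hrad0 e he)
      intro y hy
      have hc₁ : 0 < (r * ((finrank ℝ E : ℝ) - 1))⁻¹ := by
        have : 0 < (finrank ℝ E : ℝ) - 1 := by linarith
        positivity
      have hc₂ : 0 < ((finrank ℝ E : ℝ) - 1)⁻¹ := by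
        have : 0 < (finrank ℝ E : ℝ) - 1 := by linarith
        positivity
      have := sol_const hE hd hi hid hc₁ hc₂ hsol hRI y e hy he
      simp only [hy, he, inv_one, one_smul] at this
      exact this
    · push Not at hne
      exact ⟨0, le_rfl, eq_ball_of_radial_const hL le_rfl hne⟩
  · rintro ⟨a, ha, rfl⟩
    obtain ⟨k, hk, hk'⟩ := exists_const (E := E) (by omega) i
    have h2 : interBody i (interBody i (closedBall (0 : E) a)) =
        closedBall 0 (k * (k * a ^ i) ^ i) := by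
      rw [hk' a ha, hk' _ (by positivity)]
    rcases ha.eq_or_lt with h0 | h0
    · refine ⟨0, 1, one_pos, Or.inl rfl, ?_⟩
      rw [h2, ← h0, Real.zero_rpow (by linarith), mul_zero, Real.zero_rpow (by linarith), mul_zero]
      simp
    · refine ⟨0, k * (k * a ^ i) ^ i / a, by positivity, Or.inl rfl, ?_⟩
      rw [h2]
      have h3 : (fun y : E => (0 : E) + (k * (k * a ^ i) ^ i / a) • y) '' closedBall (0 : E) a =
          (k * (k * a ^ i) ^ i / a) • closedBall (0 : E) a := by
        simp only [zero_add]; rfl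
      rw [h3, smul_closedBall _ _ ha, smul_zero, Real.norm_eq_abs, abs_of_pos (by positivity),
        div_mul_cancel₀ _ h0.ne']

end StarIB
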