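import Pool.Agent.StarIB.Def

/-! # Module I: the interval integration lemma -/

open MeasureTheory Set Metric Module
open scoped ENNReal

namespace StarIB

/-- functions supported in `A` -/
def suppIn {e : Type} (A : Set e) : Submodule ℝ (e → ℝ) where
  carrier := {z | ∀ j, z j ≠ 0 → j ∈ A}
  add_mem' := by
    intro a b ha hb j hj
    by_contra hA
    apply hj
    have h1 : a j = 0 := by by_contra h; exact hA (ha j h)
    have h2 : b j = 0 := by by_contra h; exact hA (hb j h)
    simp [h1, h2]
  zero_mem' := by intro j hj; simp at hj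
  smul_mem' := by
    intro c a ha j hj
    apply ha
    intro h0
    apply hj
    simp [h0]

/-- `j` is the last index of the support of `z` -/
def IsLead {e : Type} [LinearOrder e] (z : e → ℝ) (j : e) : Prop :=
  z j ≠ 0 ∧ ∀ k, z k ≠ 0 → k ≤ j

theorem exists_isLead {e : Type} [Fintype e] [LinearOrder e] (z : e → ℝ) (hz : z ≠ 0) :
    ∃ j, IsLead z j := by
  classical
  have hne : (Finset.univ.filter (fun k => z k ≠ 0)).Nonempty := by
    by_contra hcon
    rw [Finset.not_nonempty_iff_eq_empty, Finset.filter_eq_empty_iff] at hcon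
    apply hz
    ext k
    have := hcon (Finset.mem_univ k)
    simpa using this
  refine ⟨(Finset.univ.filter (fun k => z k ≠ 0)).max' hne, ?_, ?_⟩
  · have := Finset.max'_mem _ hne
    simpa using this
  · intro k hk
    exact Finset.le_max' _ _ (by simpa using hk)

open Classical in
/-- A set of vectors closed under elimination of the leading terms spans a space whose dimension
is the number of leading positions. -/
theorem finrank_span_lead {e : Type} [Fintype e] [LinearOrder e] (G : Set (e → ℝ))
    (hG : ∀ z ∈ G, ∀ z' ∈ G, ∀ j, IsLead z j → IsLead z' j → z - (z j / z' j) • z' ∈ G) :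
    finrank ℝ (Submodule.span ℝ G) =
      (Finset.univ.filter (fun j => ∃ z ∈ G, IsLead z j)).card := by
  have hb : ∀ j : {j : e // ∃ z ∈ G, IsLead z j}, ∃ z ∈ G, IsLead z j.1 := fun j => j.2
  choose b hbG hbl using hb
  have hli : LinearIndependent ℝ b := by
    rw [Fintype.linearIndependent_iff]
    intro c hc
    by_contra hcon
    push Not at hcon
    have hne : (Finset.univ.filter (fun k => c k ≠ 0)).Nonempty := by
      obtain ⟨i, hi⟩ := hcon
      exact ⟨i, by simpa using hi⟩
    set m := (Finset.univ.filter (fun k => c k ≠ 0)).max' hne with hm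
    have hm1 : c m ≠ 0 := by
      have := Finset.max'_mem _ hne
      rw [← hm] at this
      simpa using this
    have hm2 : ∀ k, c k ≠ 0 → k ≤ m := by
      intro k hk
      exact Finset.le_max' _ _ (by simpa using hk)
    have h1 := congrFun hc m.1
    rw [Finset.sum_apply] at h1
    rw [Finset.sum_eq_single m] at h1
    · simp only [Pi.smul_apply, smul_eq_mul, Pi.zero_apply, mul_eq_zero] at h1
      rcases h1 with h1 | h1
      · exact hm1 h1
      · exact (hbl m).1 h1
    · intro k _ hkm
      by_cases hk : c k = 0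
      · simp [hk]
      · have hlt : k < m := lt_of_le_of_ne (hm2 k hk) hkm
        have : b k m.1 = 0 := by
          by_contra h0
          have := (hbl k).2 m.1 h0
          exact absurd (Subtype.coe_lt_coe.mpr hlt) (not_lt.mpr this)
        simp [this]
    · intro h
      exact absurd (Finset.mem_univ m) h
  have hspan : Submodule.span ℝ G = Submodule.span ℝ (Set.range b) := by
    apply le_antisymm
    · rw [Submodule.span_le]
      have key : ∀ j : e, ∀ z ∈ G, IsLead z j → z ∈ Submodule.span ℝ (Set.range b) := by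
        intro j
        induction j using WellFoundedLT.induction with
        | ind j ih =>
        intro z hz hzj
        have hj : ∃ z ∈ G, IsLead z j := ⟨z, hz, hzj⟩
        have h1 := hG z hz (b ⟨j, hj⟩) (hbG ⟨j, hj⟩) j hzj (hbl ⟨j, hj⟩)
        set z' := z - (z j / (b ⟨j, hj⟩) j) • b ⟨j, hj⟩ with hz'
        have hzz : z = z' + (z j / (b ⟨j, hj⟩) j) • b ⟨j, hj⟩ := by rw [hz']; abel
        have hbm : b ⟨j, hj⟩ ∈ Submodule.span ℝ (Set.range b) :=
          Submodule.subset_span (Set.mem_range_self _)
        rw [hzz]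
        apply Submodule.add_mem _ _ (Submodule.smul_mem _ _ hbm)
        by_cases h0 : z' = 0
        · rw [h0]; exact Submodule.zero_mem _
        · obtain ⟨k, hk⟩ := exists_isLead z' h0
          apply ih k _ z' h1 hk
          have hkj : k ≤ j := by
            by_contra hlt
            push Not at hlt
            have h2 : z k = 0 := by
              by_contra h; exact absurd (hzj.2 k h) (not_le.mpr hlt)
            have h3 : b ⟨j, hj⟩ k = 0 := by
              by_contra h; exact absurd ((hbl ⟨j, hj⟩).2 k h) (not_le.mpr hlt)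
            apply hk.1
            rw [hz']
            simp [h2, h3]
          apply lt_of_le_of_ne hkj
          rintro rfl
          apply hk.1
          rw [hz']
          have h4 := (hbl ⟨k, hj⟩).1
          simp only [Pi.sub_apply, Pi.smul_apply, smul_eq_mul]
          field_simp
          ring
      intro z hz
      by_cases h0 : z = 0
      · rw [h0]; exact Submodule.zero_mem _
      · obtain ⟨j, hj⟩ := exists_isLead z h0
        exact key j z hz hj
    · rw [Submodule.span_le]
      rintro _ ⟨j, rfl⟩
      exact Submodule.subset_span (hbG j)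
  rw [hspan, finrank_span_eq_card hli, Fintype.card_subtype]

theorem ioo_of_interval (I : Set ℝ) (ho : IsOpen I) (hc : OrdConnected I)
    (hb : Bornology.IsBounded I) : I = Ioo (sInf I) (sSup I) := by
  rcases I.eq_empty_or_nonempty with h | h
  · rw [h]; simp
  · apply Subset.antisymm
    · intro t ht
      obtain ⟨ε, hε, hball⟩ := Metric.isOpen_iff.mp ho t ht
      have h1 : t - ε / 2 ∈ I := hball (by
        rw [Metric.mem_ball, Real.dist_eq]
        rw [show t - ε / 2 - t = -(ε / 2) by ring, abs_neg, abs_of_pos (by linarith)]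
        linarith)
      have h2 : t + ε / 2 ∈ I := hball (by
        rw [Metric.mem_ball, Real.dist_eq]
        rw [show t + ε / 2 - t = ε / 2 by ring, abs_of_pos (by linarith)]
        linarith)
      constructor
      · have := csInf_le hb.bddBelow h1
        linarith
      · have := le_csSup hb.bddAbove h2
        linarith
    · rintro t ⟨h1, h2⟩
      obtain ⟨a, ha, hat⟩ := exists_lt_of_csInf_lt h h1
      obtain ⟨b, hb', hbt⟩ := exists_lt_of_lt_csSup h h2
      exact hc.out ha hb' ⟨hat.le, hbt.le⟩

/-- For intervals `I j` of the line and a linear subspace `W` of `ℝ^e`: the integral over `t` of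
the dimension of the space of elements of `W` supported in `{j : t ∈ I j}` is the integral over
`x > 0` of the dimension of the span of the elements `z` of `W` such that the intervals of the
support of `z` have a common part longer than `x`. -/
theorem IIL {e : Type} [Fintype e] (W : Submodule ℝ (e → ℝ)) (I : e → Set ℝ)
    (hopen : ∀ j, IsOpen (I j)) (hconn : ∀ j, OrdConnected (I j))
    (hbdd : ∀ j, Bornology.IsBounded (I j)) :
    ∫⁻ t : ℝ, (finrank ℝ (W ⊓ suppIn {j | t ∈ I j} : Submodule ℝ (e → ℝ)) : ℝ≥0∞) =
      ∫⁻ x in Ioi (0 : ℝ), (finrank ℝ (Submodule.span ℝ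
        {z : e → ℝ | z ∈ W ∧ ENNReal.ofReal x < volume (⋂ j ∈ {j | z j ≠ 0}, I j)}) : ℝ≥0∞) := by
  classical
  set l : e → ℝ := fun j => sInf (I j) with hl
  set r : e → ℝ := fun j => sSup (I j) with hr
  have hI : ∀ j, I j = Ioo (l j) (r j) := fun j => ioo_of_interval _ (hopen j) (hconn j) (hbdd j)
  let key : e → ℝ ×ₗ Fin (Fintype.card e) := fun j => toLex (l j, Fintype.equivFin e j)
  have hkey : Function.Injective key := by
    intro a b hab
    have h1 := congrArg (fun q => (ofLex q).2) hab
    exact (Fintype.equivFin e).injective h1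
  let _ : LinearOrder e := LinearOrder.lift' key hkey
  have hle : ∀ j k : e, j ≤ k → l j ≤ l k := by
    intro j k hjk
    have h1 : key j ≤ key k := hjk
    rw [Prod.Lex.le_iff] at h1
    rcases h1 with h1 | h1
    · exact h1.le
    · exact h1.1.le
  -- the basic predicate
  let P : e → ℝ → Prop := fun j t => ∃ z ∈ W, IsLead z j ∧ ∀ k, z k ≠ 0 → t < r k
  have hPopen : ∀ j, IsOpen {t | P j t} := by
    intro j
    have : {t | P j t} = ⋃ z ∈ {z | z ∈ W ∧ IsLead z j}, {t | ∀ k, z k ≠ 0 → t < r k} := by
      ext t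
      simp only [mem_ofPred_eq, mem_iUnion, exists_prop, P]
      constructor
      · rintro ⟨z, h1, h2, h3⟩; exact ⟨z, ⟨h1, h2⟩, h3⟩
      · rintro ⟨z, ⟨h1, h2⟩, h3⟩; exact ⟨z, h1, h2, h3⟩
    rw [this]
    apply isOpen_biUnion
    intro z _
    have : {t | ∀ k, z k ≠ 0 → t < r k} = ⋂ k, {t | z k ≠ 0 → t < r k} := by
      ext t; simp
    rw [this]
    apply isOpen_iInter_of_finite
    intro k
    by_cases hk : z k = 0
    · simp [hk]
    · simp only [ne_eq, hk, not_false_eq_true, forall_const]
      exact isOpen_Iio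
  -- common parts of the intervals of a support
  have hcap : ∀ (s : Finset e) (j : e), j ∈ s → (∀ k ∈ s, k ≤ j) →
      ∃ k₀ ∈ s, (⋂ k ∈ s, I k) = Ioo (l j) (r k₀) ∧ ∀ k ∈ s, r k₀ ≤ r k := by
    intro s j hj hs
    obtain ⟨k₀, hk₀, hmin⟩ := Finset.exists_min_image s r ⟨j, hj⟩
    refine ⟨k₀, hk₀, ?_, hmin⟩
    ext t
    simp only [mem_iInter, hI, mem_Ioo]
    constructor
    · intro h
      exact ⟨(h j hj).1, (h k₀ hk₀).2⟩
    · rintro ⟨h1, h2⟩ k hk
      exact ⟨lt_of_le_of_lt (hle k j (hs k hk)) h1, lt_of_lt_of_le h2 (hmin k hk)⟩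
  have hvol : ∀ (z : e → ℝ) (j : e) (x : ℝ), 0 < x → IsLead z j →
      (ENNReal.ofReal x < volume (⋂ k ∈ {k | z k ≠ 0}, I k) ↔
        ∀ k, z k ≠ 0 → l j + x < r k) := by
    intro z j x hx hz
    obtain ⟨k₀, hk₀, h1, h2⟩ := hcap (Finset.univ.filter (fun k => z k ≠ 0)) j
      (by simpa using hz.1) (by intro k hk; exact hz.2 k (by simpa using hk))
    have h3 : (⋂ k ∈ {k | z k ≠ 0}, I k) = Ioo (l j) (r k₀) := by
      rw [← h1]
      ext t; simp
    rw [h3, Real.volume_Ioo, ENNReal.ofReal_lt_ofReal_iff_of_nonneg hx.le]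
    constructor
    · intro h k hk
      have := h2 k (by simpa using hk)
      linarith
    · intro h
      have := h k₀ (by simpa using hk₀)
      linarith
  -- left-hand side
  have hL : ∀ t : ℝ, (finrank ℝ (W ⊓ suppIn {j | t ∈ I j} : Submodule ℝ (e → ℝ)) : ℝ≥0∞) =
      ∑ j, {t | l j < t ∧ P j t}.indicator (fun _ => (1 : ℝ≥0∞)) t := by
    intro t
    have h1 := finrank_span_lead (((W ⊓ suppIn {j | t ∈ I j} : Submodule ℝ (e → ℝ))) : Set (e → ℝ))
      (by
        intro z hz z' hz' j _ _
        exact Submodule.sub_mem _ hz (Submodule.smul_mem _ _ hz'))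
    rw [Submodule.span_eq] at h1
    rw [h1, Finset.card_filter]
    push_cast
    apply Finset.sum_congr rfl
    intro j _
    rw [indicator_apply]
    congr 1
    apply propext
    constructor
    · rintro ⟨z, hz, hzj⟩
      have hz1 : z ∈ W := hz.1
      have hz2 : ∀ k, z k ≠ 0 → t ∈ I k := hz.2
      refine ⟨?_, z, hz1, hzj, ?_⟩
      · have := hz2 j hzj.1
        rw [hI] at this
        exact this.1
      · intro k hk
        have := hz2 k hk
        rw [hI] at this
        exact this.2
    · rintro ⟨h2, z, hz, hzj, h3⟩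
      refine ⟨z, ⟨hz, ?_⟩, hzj⟩
      intro k hk
      show t ∈ I k
      rw [hI]
      exact ⟨lt_of_le_of_lt (hle k j (hzj.2 k hk)) h2, h3 k hk⟩
  -- right-hand side
  have hR : ∀ x ∈ Ioi (0 : ℝ), (finrank ℝ (Submodule.span ℝ
        {z : e → ℝ | z ∈ W ∧ ENNReal.ofReal x < volume (⋂ j ∈ {j | z j ≠ 0}, I j)}) : ℝ≥0∞) =
      ∑ j, {x | P j (l j + x)}.indicator (fun _ => (1 : ℝ≥0∞)) x := by
    intro x hx
    have h1 := finrank_span_lead
      {z : e → ℝ | z ∈ W ∧ ENNReal.ofReal x < volume (⋂ j ∈ {j | z j ≠ 0}, I j)}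
      (by
        rintro z ⟨hz, hz2⟩ z' ⟨hz', hz2'⟩ j hj hj'
        refine ⟨Submodule.sub_mem _ hz (Submodule.smul_mem _ _ hz'), ?_⟩
        rw [hvol z j x hx hj] at hz2
        rw [hvol z' j x hx hj'] at hz2'
        obtain ⟨k₀, hk₀, h1, h2⟩ := hcap (Finset.univ.filter (fun k => z k ≠ 0 ∨ z' k ≠ 0)) j
          (by simpa using Or.inl hj.1) (by
            intro k hk
            rcases (by simpa using hk : z k ≠ 0 ∨ z' k ≠ 0) with h | h
            · exact hj.2 k h
            · exact hj'.2 k h)
        have h4 : l j + x < r k₀ := by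
          rcases (by simpa using hk₀ : z k₀ ≠ 0 ∨ z' k₀ ≠ 0) with h | h
          · exact hz2 k₀ h
          · exact hz2' k₀ h
        have h5 : Ioo (l j) (r k₀) ⊆
            ⋂ k ∈ {k | (z - (z j / z' j) • z') k ≠ 0}, I k := by
          rw [← h1]
          intro t ht
          simp only [mem_iInter] at ht ⊢
          intro k hk
          apply ht k
          simp only [Finset.mem_filter, Finset.mem_univ, true_and]
          by_contra hcon
          push Not at hcon
          apply hk
          simp [hcon.1, hcon.2]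
        refine lt_of_lt_of_le ?_ (measure_mono h5)
        rw [Real.volume_Ioo, ENNReal.ofReal_lt_ofReal_iff_of_nonneg (le_of_lt hx)]
        linarith)
    rw [h1, Finset.card_filter]
    push_cast
    apply Finset.sum_congr rfl
    intro j _
    rw [indicator_apply]
    congr 1
    apply propext
    constructor
    · rintro ⟨z, ⟨hz1, hz2⟩, hzj⟩
      exact ⟨z, hz1, hzj, (hvol z j x hx hzj).mp hz2⟩
    · rintro ⟨z, hz, hzj, h3⟩
      exact ⟨z, ⟨hz, (hvol z j x hx hzj).mpr h3⟩, hzj⟩
  simp_rw [hL]
  rw [setLIntegral_congr_fun measurableSet_Ioi hR]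
  have hm1 : ∀ j, MeasurableSet {t | l j < t ∧ P j t} := by
    intro j
    exact ((isOpen_Ioi (a := l j)).inter (hPopen j)).measurableSet
  have hm2 : ∀ j, MeasurableSet {x | P j (l j + x)} := by
    intro j
    exact ((hPopen j).preimage (continuous_const.add continuous_id)).measurableSet
  rw [lintegral_finsetSum _ (fun j _ => measurable_const.indicator (hm1 j)),
    lintegral_finsetSum _ (fun j _ => measurable_const.indicator (hm2 j))]
  apply Finset.sum_congr rfl
  intro j _
  rw [lintegral_indicator (hm1 j), lintegral_indicator (hm2 j)]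
  simp only [lintegral_const, Measure.restrict_apply MeasurableSet.univ, univ_inter, one_mul]
  rw [Measure.restrict_apply (hm2 j)]
  rw [← measure_preimage_add volume (l j) {t | l j < t ∧ P j t}]
  congr 1
  ext x
  simp only [mem_preimage, mem_ofPred_eq, mem_inter_iff, mem_Ioi]
  constructor
  · rintro ⟨h1, h2⟩
    exact ⟨h2, by linarith⟩
  · rintro ⟨h1, h2⟩
    exact ⟨by linarith, h1⟩

end StarIB
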