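import Pool.Agent.StarIB.SymS

/-! # Module D: the kernel of `R²` and its Hölder continuity -/

open MeasureTheory Set Metric Module
open scoped ENNReal RealInnerProductSpace

namespace StarIB

/-- radial cut-off `k(r) = r 1_{[1,2]}(r)` -/
noncomputable def kk (r : ℝ) : ℝ≥0∞ := (Icc (1 : ℝ) 2).indicator (fun r => ENNReal.ofReal r) r

variable {E : Type*} [NormedAddCommGroup E] [InnerProductSpace ℝ E] [FiniteDimensional ℝ E]
  [MeasurableSpace E] [BorelSpace E]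

/-- `Rk f (w) = ∫_{w^⊥} f(x) k(|x|) dx` -/
noncomputable def Rk (f : E → ℝ≥0∞) (w : E) : ℝ≥0∞ := ∫⁻ x : (ℝ ∙ w)ᗮ, f x * kk ‖(x : E)‖

theorem measurable_kk : Measurable kk :=
  (ENNReal.measurable_ofReal).indicator measurableSet_Icc

theorem kk_of_mem {r : ℝ} (h : r ∈ Icc (1 : ℝ) 2) : kk r = ENNReal.ofReal r :=
  indicator_of_mem h _

theorem kk_of_notMem {r : ℝ} (h : r ∉ Icc (1 : ℝ) 2) : kk r = 0 :=
  indicator_of_notMem h _

theorem kk_le (r : ℝ) : kk r ≤ 2 := by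
  by_cases h : r ∈ Icc (1 : ℝ) 2
  · rw [kk_of_mem h]
    have : ENNReal.ofReal r ≤ ENNReal.ofReal 2 := ENNReal.ofReal_le_ofReal h.2
    simpa using this
  · rw [kk_of_notMem h]
    exact zero_le

theorem one_le_kk {r : ℝ} (h : r ∈ Icc (1 : ℝ) 2) : 1 ≤ kk r := by
  rw [kk_of_mem h]
  have : ENNReal.ofReal 1 ≤ ENNReal.ofReal r := ENNReal.ofReal_le_ofReal h.1
  simpa using this

theorem inv_mul_kk (r : ℝ) : ENNReal.ofReal r⁻¹ * (ENNReal.ofReal r * kk r) = kk r := by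
  by_cases h : r ∈ Icc (1 : ℝ) 2
  · have hr : 0 < r := lt_of_lt_of_le one_pos h.1
    rw [← mul_assoc, ← ENNReal.ofReal_mul (inv_nonneg.mpr hr.le), inv_mul_cancel₀ hr.ne']
    simp
  · rw [kk_of_notMem h]
    simp

theorem radial_const (m : ℕ) (k : ℝ → ℝ≥0∞) (h1 : ∀ r ∈ Icc (1 : ℝ) 2, 1 ≤ k r)
    (h2 : ∀ r, k r ≤ (Icc (1 : ℝ) 2).indicator (fun _ => 4) r) :
    ∃ c : ℝ, 0 < c ∧ ∫⁻ r in Ioi (0 : ℝ), ENNReal.ofReal (r ^ m) * k r = ENNReal.ofReal c := by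
  set I := ∫⁻ r in Ioi (0 : ℝ), ENNReal.ofReal (r ^ m) * k r with hI
  have hlow : 1 ≤ I := by
    have hsub : Icc (1 : ℝ) 2 ⊆ Ioi 0 := fun r hr => lt_of_lt_of_le one_pos hr.1
    calc (1 : ℝ≥0∞) = ∫⁻ r in Icc (1 : ℝ) 2, 1 := by
          rw [setLIntegral_one, Real.volume_Icc]
          norm_num
      _ ≤ ∫⁻ r in Icc (1 : ℝ) 2, ENNReal.ofReal (r ^ m) * k r := by
          apply setLIntegral_mono' measurableSet_Icc
          intro r hr
          have e1 : 1 ≤ ENNReal.ofReal (r ^ m) := by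
            have : ENNReal.ofReal 1 ≤ ENNReal.ofReal (r ^ m) :=
              ENNReal.ofReal_le_ofReal (one_le_pow₀ hr.1)
            simpa using this
          calc (1 : ℝ≥0∞) = 1 * 1 := by simp
            _ ≤ _ := mul_le_mul' e1 (h1 r hr)
      _ ≤ I := lintegral_mono_set hsub
  have hup : I < ∞ := by
    calc I ≤ ∫⁻ r, ENNReal.ofReal (r ^ m) * k r := setLIntegral_le_lintegral _ _
      _ ≤ ∫⁻ r, (Icc (1 : ℝ) 2).indicator (fun _ => ENNReal.ofReal (2 ^ m) * 4) r := by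
          apply lintegral_mono
          intro r
          by_cases hr : r ∈ Icc (1 : ℝ) 2
          · simp only [indicator_of_mem hr]
            have e1 := h2 r
            rw [indicator_of_mem hr] at e1
            refine mul_le_mul' (ENNReal.ofReal_le_ofReal ?_) e1
            exact pow_le_pow_left₀ (by linarith [hr.1]) hr.2 m
          · have e1 := h2 r
            rw [indicator_of_notMem hr] at e1
            simp only [indicator_of_notMem hr]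
            rw [le_zero_iff.mp e1, mul_zero]
      _ = ENNReal.ofReal (2 ^ m) * 4 * volume (Icc (1 : ℝ) 2) := by
          rw [lintegral_indicator measurableSet_Icc, setLIntegral_const]
      _ < ∞ := by
          rw [Real.volume_Icc]
          exact ENNReal.mul_lt_top (ENNReal.mul_lt_top ENNReal.ofReal_lt_top (by simp))
            ENNReal.ofReal_lt_top
  refine ⟨I.toReal, ENNReal.toReal_pos (by
    intro h
    rw [h] at hlow
    simp at hlow) hup.ne, (ENNReal.ofReal_toReal hup.ne).symm⟩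

section
variable {E' : Type*} [NormedAddCommGroup E'] [InnerProductSpace ℝ E'] [FiniteDimensional ℝ E']
  [MeasurableSpace E'] [BorelSpace E']

theorem Rk_map' (Φ : E ≃ₗᵢ[ℝ] E') (f : E' → ℝ≥0∞) (w : E) :
    Rk f (Φ w) = Rk (fun x => f (Φ x)) w := by
  rw [Rk, lintegral_orth_map Φ w (fun x => f x * kk ‖x‖)]
  simp only [Φ.norm_map]
  rfl

end

/-- `Rk` commutes with linear isometries -/
theorem Rk_map (Φ : E ≃ₗᵢ[ℝ] E) (f : E → ℝ≥0∞) (w : E) :
    Rk f (Φ w) = Rk (fun x => f (Φ x)) w := Rk_map' Φ f w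

/-- `Rk f = κ R f` for `f` homogeneous of degree zero -/
theorem Rk_eq (hE : 2 ≤ finrank ℝ E) :
    ∃ κ : ℝ, 0 < κ ∧ ∀ f : E → ℝ≥0∞, Measurable f →
      (∀ x : E, x ≠ 0 → ∀ s : ℝ, 0 < s → f (s • x) = f x) →
      ∀ w : E, w ≠ 0 → Rk f w = ENNReal.ofReal κ * lsph f w := by
  obtain ⟨κ, hκ, hc⟩ := radial_const (finrank ℝ E - 2) kk (fun r hr => one_le_kk hr) (by
    intro r
    by_cases h : r ∈ Icc (1 : ℝ) 2
    · rw [indicator_of_mem h]
      exact (kk_le r).trans (by norm_num)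
    · rw [kk_of_notMem h]
      exact zero_le)
  refine ⟨κ, hκ, fun f hf hom w hw => ?_⟩
  rw [Rk, lintegral_orth_polar hE w hw f hf hom kk measurable_kk, hc, mul_comm]

omit [InnerProductSpace ℝ E] [FiniteDimensional ℝ E] [MeasurableSpace E] [BorelSpace E] in
theorem annulus_eq (x : E) : (x ∈ {x : E | 1 ≤ ‖x‖ ∧ ‖x‖ ≤ 2}) ↔ ‖x‖ ∈ Icc (1 : ℝ) 2 := Iff.rfl

omit [InnerProductSpace ℝ E] [FiniteDimensional ℝ E] in
theorem measurableSet_annulus : MeasurableSet {x : E | 1 ≤ ‖x‖ ∧ ‖x‖ ≤ 2} :=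
  (measurableSet_le measurable_const measurable_norm).inter
    (measurableSet_le measurable_norm measurable_const)

/-- symmetry of `Rk` on the annulus `1 ≤ |x| ≤ 2` -/
theorem Rk_symm (hE : 2 ≤ finrank ℝ E) (f h : E → ℝ≥0∞) (hf : Measurable f)
    (hh : Measurable h) :
    ∫⁻ x in {x : E | 1 ≤ ‖x‖ ∧ ‖x‖ ≤ 2}, f x * Rk h x =
      ∫⁻ x in {x : E | 1 ≤ ‖x‖ ∧ ‖x‖ ≤ 2}, h x * Rk f x := by
  have key : ∀ f h : E → ℝ≥0∞, Measurable f → Measurable h →
      ∫⁻ x in {x : E | 1 ≤ ‖x‖ ∧ ‖x‖ ≤ 2}, f x * Rk h x =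
        ∫⁻ w : E, ENNReal.ofReal (‖w‖⁻¹) *
          ∫⁻ x : (ℝ ∙ w)ᗮ, (f w * kk ‖w‖) * (h x * kk ‖(x : E)‖) := by
    intro f h hf hh
    rw [← lintegral_indicator measurableSet_annulus]
    refine lintegral_congr fun w => ?_
    have hhm : Measurable (fun x : ↥(ℝ ∙ w)ᗮ => h x * kk ‖(x : E)‖) :=
      (hh.comp measurable_subtype_coe).mul
        (measurable_kk.comp (measurable_norm.comp measurable_subtype_coe))
    rw [lintegral_const_mul _ hhm]
    by_cases hw : w ∈ {x : E | 1 ≤ ‖x‖ ∧ ‖x‖ ≤ 2}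
    · rw [indicator_of_mem hw]
      have hw' : ‖w‖ ∈ Icc (1 : ℝ) 2 := hw
      have hw0 : 0 < ‖w‖ := lt_of_lt_of_le one_pos hw'.1
      rw [kk_of_mem hw']
      have e1 : ENNReal.ofReal ‖w‖⁻¹ * ENNReal.ofReal ‖w‖ = 1 := by
        rw [← ENNReal.ofReal_mul (inv_nonneg.mpr hw0.le), inv_mul_cancel₀ hw0.ne']
        simp
      calc f w * Rk h w = (ENNReal.ofReal ‖w‖⁻¹ * ENNReal.ofReal ‖w‖) * (f w * Rk h w) := by
            rw [e1, one_mul]
        _ = _ := by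
            rw [Rk]
            ring
    · rw [indicator_of_notMem hw]
      have hw' : ‖w‖ ∉ Icc (1 : ℝ) 2 := hw
      rw [kk_of_notMem hw']
      simp
  have hΘ : Measurable (Function.uncurry
      (fun w x : E => (f w * kk ‖w‖) * (h x * kk ‖x‖))) := by
    have hk1 : Measurable (fun p : E × E => kk ‖p.1‖) :=
      measurable_kk.comp (measurable_norm.comp measurable_fst)
    have hk2 : Measurable (fun p : E × E => kk ‖p.2‖) :=
      measurable_kk.comp (measurable_norm.comp measurable_snd)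
    exact ((hf.comp measurable_fst).mul hk1).mul ((hh.comp measurable_snd).mul hk2)
  rw [key f h hf hh, orth_symm hE _ hΘ, key h f hh hf]
  refine lintegral_congr fun w => ?_
  congr 1
  refine lintegral_congr fun x => ?_
  ring

section coord
variable {F : Type*} [NormedAddCommGroup F] [InnerProductSpace ℝ F] [FiniteDimensional ℝ F]
  [MeasurableSpace F] [BorelSpace F]

omit [InnerProductSpace ℝ F] [FiniteDimensional ℝ F] [MeasurableSpace F] [BorelSpace F] in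
theorem norm_toLp_zero (z : F) : ‖(WithLp.toLp 2 (z, (0 : ℝ)) : WithLp 2 (F × ℝ))‖ = ‖z‖ := by
  have h : ‖(WithLp.toLp 2 (z, (0 : ℝ)) : WithLp 2 (F × ℝ))‖ ^ 2 = ‖z‖ ^ 2 := by
    rw [WithLp.prod_norm_sq_eq_of_L2]
    simp
  exact (pow_left_inj₀ (norm_nonneg _) (norm_nonneg _) two_ne_zero).mp h

theorem Rk_Rk_coord (hF : 2 ≤ finrank ℝ F) :
    ∃ κ : ℝ, 0 < κ ∧ ∀ h : WithLp 2 (F × ℝ) → ℝ≥0∞, Measurable h →
      Rk (Rk h) (WithLp.toLp 2 ((0 : F), (1 : ℝ))) = ENNReal.ofReal κ *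
        ∫⁻ z : WithLp 2 (F × ℝ), h z * kk ‖z‖ * ENNReal.ofReal (‖z.fst‖⁻¹) := by
  have hnt : Nontrivial F := by
    apply Module.nontrivial_of_finrank_pos (R := ℝ)
    omega
  obtain ⟨c1, hc1, hc1'⟩ := lsph_one_const (E := F) hF
  obtain ⟨c2, hc2, hc2'⟩ := radial_const (finrank ℝ F - 2) (fun r => ENNReal.ofReal r * kk r) (by
    intro r hr
    have h1 := one_le_kk hr
    have h2 : 1 ≤ ENNReal.ofReal r := by rw [← kk_of_mem hr]; exact h1
    calc (1 : ℝ≥0∞) = 1 * 1 := by simp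
      _ ≤ _ := mul_le_mul' h2 h1) (by
    intro r
    by_cases h : r ∈ Icc (1 : ℝ) 2
    · rw [indicator_of_mem h]
      have h1 := kk_le r
      have h2 : ENNReal.ofReal r ≤ 2 := by rw [← kk_of_mem h]; exact h1
      calc ENNReal.ofReal r * kk r ≤ 2 * 2 := mul_le_mul' h2 h1
        _ = 4 := by norm_num
    · simp only [kk_of_notMem h, mul_zero]
      exact zero_le)
  refine ⟨c1 * c2, mul_pos hc1 hc2, fun h hh => ?_⟩
  set H : F → ℝ≥0∞ := fun y => ∫⁻ t : ℝ, h (WithLp.toLp 2 (y, t)) *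
    kk ‖(WithLp.toLp 2 (y, t) : WithLp 2 (F × ℝ))‖ with hH
  have htoLp : Measurable (fun p : F × ℝ => (WithLp.toLp 2 p : WithLp 2 (F × ℝ))) :=
    (WithLp.volume_preserving_toLp F ℝ).measurable
  have hhk : Measurable (fun z : WithLp 2 (F × ℝ) => h z * kk ‖z‖) :=
    hh.mul (measurable_kk.comp measurable_norm)
  have hHm : Measurable H := by
    apply Measurable.lintegral_prod_right' (f := fun p : F × ℝ => h (WithLp.toLp 2 p) *
      kk ‖(WithLp.toLp 2 p : WithLp 2 (F × ℝ))‖)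
    exact hhk.comp htoLp
  -- step 1
  have step1 : Rk (Rk h) (WithLp.toLp 2 ((0 : F), (1 : ℝ))) =
      ∫⁻ z : F, kk ‖z‖ * ∫⁻ y : (ℝ ∙ z)ᗮ, H y := by
    rw [Rk, lintegral_orth_prod' (0 : F) 1 one_ne_zero
      (fun x : WithLp 2 (F × ℝ) => Rk h x * kk ‖x‖)]
    have e1 : ENNReal.ofReal (√(‖(0 : F)‖ ^ 2 + 1 ^ 2) / |1|) = 1 := by simp
    rw [e1, one_mul]
    refine lintegral_congr fun z => ?_
    have e2 : -⟪(0 : F), z⟫ / (1 : ℝ) = 0 := by simp
    rw [e2, norm_toLp_zero, mul_comm]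
    congr 1
    rw [Rk, lintegral_orth_prod_zero z _ hhk]
  -- step 2
  have step2 : ∫⁻ z : F, kk ‖z‖ * ∫⁻ y : (ℝ ∙ z)ᗮ, H y =
      ∫⁻ z : F, ENNReal.ofReal (‖z‖⁻¹) *
        ∫⁻ y : (ℝ ∙ z)ᗮ, (ENNReal.ofReal ‖z‖ * kk ‖z‖) * H y := by
    refine lintegral_congr fun z => ?_
    have hHm' : Measurable (fun y : ↥(ℝ ∙ z)ᗮ => H y) := hHm.comp measurable_subtype_coe
    rw [lintegral_const_mul _ hHm', ← mul_assoc, inv_mul_kk]
  have hΘ : Measurable (Function.uncurry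
      (fun z y : F => (ENNReal.ofReal ‖z‖ * kk ‖z‖) * H y)) := by
    have hk1 : Measurable (fun p : F × F => ENNReal.ofReal ‖p.1‖ * kk ‖p.1‖) :=
      (ENNReal.measurable_ofReal.comp (measurable_norm.comp measurable_fst)).mul
        (measurable_kk.comp (measurable_norm.comp measurable_fst))
    exact hk1.mul (hHm.comp measurable_snd)
  have step3 := orth_symm hF _ hΘ
  -- step 4
  have hrad : ∀ w : F, w ≠ 0 → ∫⁻ x : (ℝ ∙ w)ᗮ, (ENNReal.ofReal ‖(x : F)‖ * kk ‖(x : F)‖) * H w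
      = ENNReal.ofReal (c1 * c2) * H w := by
    intro w hw
    rw [lintegral_mul_const _ (by
      exact (ENNReal.measurable_ofReal.comp (measurable_norm.comp measurable_subtype_coe)).mul
        (measurable_kk.comp (measurable_norm.comp measurable_subtype_coe)))]
    congr 1
    have h1 := lintegral_orth_polar hF w hw (fun _ => 1) measurable_const (fun _ _ _ _ => rfl)
      (fun r => ENNReal.ofReal r * kk r) (ENNReal.measurable_ofReal.mul measurable_kk)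
    simp only [one_mul] at h1
    rw [h1, hc1' w hw, hc2', ← ENNReal.ofReal_mul hc1.le]
  have hae : ∀ᵐ w : F, w ≠ 0 := by
    rw [ae_iff]
    simp
  have step4 : ∫⁻ w : F, ENNReal.ofReal (‖w‖⁻¹) *
        ∫⁻ x : (ℝ ∙ w)ᗮ, (ENNReal.ofReal ‖(x : F)‖ * kk ‖(x : F)‖) * H w =
      ∫⁻ w : F, ENNReal.ofReal (‖w‖⁻¹) * (ENNReal.ofReal (c1 * c2) * H w) := by
    apply lintegral_congr_ae
    filter_upwards [hae] with w hw
    rw [hrad w hw]
  have hinvm : Measurable (fun w : F => ENNReal.ofReal (‖w‖⁻¹)) :=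
    ENNReal.measurable_ofReal.comp measurable_norm.inv
  rw [step1, step2, step3, step4]
  have step5 : ∫⁻ z : WithLp 2 (F × ℝ), h z * kk ‖z‖ * ENNReal.ofReal (‖z.fst‖⁻¹)
      = ∫⁻ w : F, ENNReal.ofReal (‖w‖⁻¹) * H w := by
    rw [lintegral_prodLp]
    · refine lintegral_congr fun w => ?_
      rw [hH]
      simp only
      have hm1 : Measurable (fun t : ℝ => h (WithLp.toLp 2 (w, t)) *
          kk ‖(WithLp.toLp 2 (w, t) : WithLp 2 (F × ℝ))‖) :=
        (hhk.comp htoLp).comp measurable_prodMk_left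
      rw [← lintegral_const_mul _ hm1]
      refine lintegral_congr fun t => ?_
      simp only [WithLp.toLp_fst]
      ring
    · refine hhk.mul (hinvm.comp ?_)
      exact measurable_fst.comp (WithLp.volume_preserving_ofLp F ℝ).measurable
  have hm2 : Measurable (fun w : F => ENNReal.ofReal (‖w‖⁻¹) * H w) := hinvm.mul hHm
  rw [step5, ← lintegral_const_mul _ hm2]
  refine lintegral_congr fun w => ?_
  ring

end coord

/-- distance to the line spanned by `x` -/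
noncomputable def dl (x z : E) : ℝ := √(‖z‖ ^ 2 - ⟪z, x⟫ ^ 2)

omit [FiniteDimensional ℝ E] [MeasurableSpace E] [BorelSpace E] in
theorem dl_coord {F : Type*} [NormedAddCommGroup F] [InnerProductSpace ℝ F]
    (Φ : E ≃ₗᵢ[ℝ] WithLp 2 (F × ℝ)) (x : E) (hx : Φ x = WithLp.toLp 2 ((0 : F), (1 : ℝ)))
    (z : E) : ‖(Φ z).fst‖ = dl x z := by
  have h1 : ⟪z, x⟫ = (Φ z).snd := by
    rw [← Φ.inner_map_map, hx, WithLp.prod_inner_apply]
    simp
  have h2 : ‖z‖ ^ 2 = ‖(Φ z).fst‖ ^ 2 + ‖(Φ z).snd‖ ^ 2 := by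
    rw [← Φ.norm_map z]
    exact WithLp.prod_norm_sq_eq_of_L2 _
  rw [dl, h1, h2, Real.norm_eq_abs, sq_abs, add_sub_cancel_right, Real.sqrt_sq (norm_nonneg _)]

/-- the kernel of `Rk²` (dim `≥ 3`) -/
theorem Rk_Rk (hE : 3 ≤ finrank ℝ E) :
    ∃ κ : ℝ, 0 < κ ∧ ∀ h : E → ℝ≥0∞, Measurable h → ∀ x : E, ‖x‖ = 1 →
      Rk (Rk h) x = ENNReal.ofReal κ *
        ∫⁻ z : E, h z * kk ‖z‖ * ENNReal.ofReal ((√(‖z‖ ^ 2 - ⟪z, x⟫ ^ 2))⁻¹) := by
  obtain ⟨d, hd⟩ : ∃ d, finrank ℝ E = d + 1 := ⟨finrank ℝ E - 1, by omega⟩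
  obtain ⟨κ, hκ, hc⟩ := Rk_Rk_coord (F := EuclideanSpace ℝ (Fin d)) (by
    rw [finrank_euclideanSpace_fin]
    omega)
  refine ⟨κ, hκ, fun h hh x hx => ?_⟩
  obtain ⟨Φ, hΦ⟩ := exists_isometry d hd x hx
  set h' : WithLp 2 (EuclideanSpace ℝ (Fin d) × ℝ) → ℝ≥0∞ := fun z => h (Φ.symm z) with hh'
  have e1 : ∀ w, Rk h w = Rk h' (Φ w) := by
    intro w
    rw [Rk_map' Φ h' w]
    simp only [hh', Φ.symm_apply_apply]
  have e2 : Rk (Rk h) x = Rk (Rk h') (Φ x) := by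
    rw [Rk_map' Φ (Rk h') x]
    congr 1
    ext w
    exact e1 w
  rw [e2, hΦ, hc h' (hh.comp Φ.symm.continuous.measurable),
    ← Φ.measurePreserving.lintegral_comp_emb Φ.toHomeomorph.measurableEmbedding]
  congr 1
  refine lintegral_congr fun z => ?_
  rw [dl_coord Φ x hΦ z, Φ.norm_map]
  simp only [hh', Φ.symm_apply_apply]
  rfl

omit [FiniteDimensional ℝ E] [MeasurableSpace E] [BorelSpace E] in
theorem continuous_dl (x : E) : Continuous (dl x) := by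
  unfold dl
  fun_prop

/-- finiteness of the moments of the distance to a line -/
theorem dl_moment (hE : 3 ≤ finrank ℝ E) (q : ℝ) (hq : q < 2) :
    ∃ C : ℝ, 0 < C ∧ ∀ x : E, ‖x‖ = 1 →
      ∫⁻ z : E, kk ‖z‖ * ENNReal.ofReal (dl x z ^ (-q)) ≤ ENNReal.ofReal C := by
  obtain ⟨d, hd⟩ : ∃ d, finrank ℝ E = d + 1 := ⟨finrank ℝ E - 1, by omega⟩
  set F := EuclideanSpace ℝ (Fin d) with hF
  have hfinF : finrank ℝ F = d := finrank_euclideanSpace_fin
  have hnt : Nontrivial F := by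
    apply Module.nontrivial_of_finrank_pos (R := ℝ)
    omega
  have hint : IntegrableOn (fun y : F => ‖y‖ ^ (-q)) (ball 0 3) volume := by
    rw [integrableOn_fun_norm_addHaar volume (f := fun r : ℝ => r ^ (-q)), hfinF]
    have h1 : IntegrableOn (fun r : ℝ => r ^ (((d - 1 : ℕ) : ℝ) - q)) (Ioo (0 : ℝ) 3) := by
      rw [intervalIntegral.integrableOn_Ioo_rpow_iff (by norm_num)]
      have : (1 : ℝ) ≤ ((d - 1 : ℕ) : ℝ) := by
        exact_mod_cast (by omega : 1 ≤ d - 1)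
      linarith
    refine h1.congr_fun ?_ measurableSet_Ioo
    intro r hr
    simp only [smul_eq_mul]
    rw [sub_eq_add_neg, Real.rpow_add hr.1, Real.rpow_natCast]
  have hfin : ∫⁻ y in ball (0 : F) 3, ENNReal.ofReal (‖y‖ ^ (-q)) < ∞ := hint.lintegral_lt_top
  set J := ∫⁻ y in ball (0 : F) 3, ENNReal.ofReal (‖y‖ ^ (-q)) with hJ
  refine ⟨8 * J.toReal + 1, by positivity, fun x hx => ?_⟩
  obtain ⟨Φ, hΦ⟩ := exists_isometry d hd x hx
  have hm1 : Measurable (fun z : WithLp 2 (F × ℝ) => ENNReal.ofReal (‖z.fst‖ ^ (-q))) := by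
    have : Measurable (fun z : WithLp 2 (F × ℝ) => z.fst) :=
      measurable_fst.comp (WithLp.volume_preserving_ofLp F ℝ).measurable
    fun_prop
  have hm : Measurable (fun z : WithLp 2 (F × ℝ) => kk ‖z‖ * ENNReal.ofReal (‖z.fst‖ ^ (-q))) :=
    (measurable_kk.comp measurable_norm).mul hm1
  have e1 : ∫⁻ z : E, kk ‖z‖ * ENNReal.ofReal (dl x z ^ (-q))
      = ∫⁻ z : WithLp 2 (F × ℝ), kk ‖z‖ * ENNReal.ofReal (‖z.fst‖ ^ (-q)) := by
    rw [← Φ.measurePreserving.lintegral_comp_emb Φ.toHomeomorph.measurableEmbedding]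
    refine lintegral_congr fun z => ?_
    rw [dl_coord Φ x hΦ z, Φ.norm_map]
  rw [e1, lintegral_prodLp _ hm]
  have e2 : ∀ (y : F) (t : ℝ), kk ‖(WithLp.toLp 2 (y, t) : WithLp 2 (F × ℝ))‖ *
      ENNReal.ofReal (‖(WithLp.toLp 2 (y, t) : WithLp 2 (F × ℝ)).fst‖ ^ (-q)) ≤
      (ball (0 : F) 3).indicator (fun y => ENNReal.ofReal (‖y‖ ^ (-q))) y *
        (Icc (-2 : ℝ) 2).indicator (fun _ => 2) t := by
    intro y t
    by_cases hyt : ‖(WithLp.toLp 2 (y, t) : WithLp 2 (F × ℝ))‖ ∈ Icc (1 : ℝ) 2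
    · have hn : ‖(WithLp.toLp 2 (y, t) : WithLp 2 (F × ℝ))‖ ^ 2 = ‖y‖ ^ 2 + t ^ 2 := by
        rw [WithLp.prod_norm_sq_eq_of_L2]
        simp
      have h4 : ‖(WithLp.toLp 2 (y, t) : WithLp 2 (F × ℝ))‖ ^ 2 ≤ 4 := by
        have h0 := norm_nonneg (WithLp.toLp 2 (y, t) : WithLp 2 (F × ℝ))
        nlinarith [hyt.2]
      have hy : y ∈ ball (0 : F) 3 := by
        rw [mem_ball_zero_iff]
        nlinarith [norm_nonneg y, sq_nonneg t]
      have ht : t ∈ Icc (-2 : ℝ) 2 := by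
        have : t ^ 2 ≤ 4 := by nlinarith [sq_nonneg ‖y‖]
        constructor <;> nlinarith
      rw [indicator_of_mem hy, indicator_of_mem ht, mul_comm]
      simp only [WithLp.toLp_fst]
      gcongr
      exact kk_le _
    · rw [kk_of_notMem hyt, zero_mul]
      exact zero_le
  calc ∫⁻ y : F, ∫⁻ t : ℝ, kk ‖(WithLp.toLp 2 (y, t) : WithLp 2 (F × ℝ))‖ *
      ENNReal.ofReal (‖(WithLp.toLp 2 (y, t) : WithLp 2 (F × ℝ)).fst‖ ^ (-q))
      ≤ ∫⁻ y : F, ∫⁻ t : ℝ, (ball (0 : F) 3).indicator (fun y => ENNReal.ofReal (‖y‖ ^ (-q))) y *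
        (Icc (-2 : ℝ) 2).indicator (fun _ => 2) t :=
        lintegral_mono fun y => lintegral_mono fun t => e2 y t
    _ = ∫⁻ y : F, (ball (0 : F) 3).indicator (fun y => ENNReal.ofReal (‖y‖ ^ (-q))) y * 8 := by
        refine lintegral_congr fun y => ?_
        rw [lintegral_const_mul _ (measurable_const.indicator measurableSet_Icc),
          lintegral_indicator measurableSet_Icc, setLIntegral_const, Real.volume_Icc]
        congr 1
        rw [show (2 : ℝ) - -2 = 4 by norm_num]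
        have : ENNReal.ofReal 4 = 4 := by simp
        rw [this]
        norm_num
    _ = J * 8 := by
        rw [lintegral_mul_const' _ _ (by simp), lintegral_indicator measurableSet_ball]
    _ ≤ ENNReal.ofReal (8 * J.toReal + 1) := by
        rw [← ENNReal.ofReal_toReal hfin.ne, mul_comm]
        have : (8 : ℝ≥0∞) = ENNReal.ofReal 8 := by simp
        rw [this, ← ENNReal.ofReal_mul (by norm_num)]
        apply ENNReal.ofReal_le_ofReal
        rw [ENNReal.toReal_ofReal ENNReal.toReal_nonneg]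
        linarith

theorem inv_holder (a b : ℝ) (ha : 0 ≤ a) (hb : 0 ≤ b) :
    a⁻¹ ≤ b⁻¹ + |a - b| ^ (3 / 4 : ℝ) * (a ^ (-(7 / 4) : ℝ) + b ^ (-(7 / 4) : ℝ)) := by
  rcases ha.eq_or_lt with h | ha
  · rw [← h, inv_zero]
    positivity
  rcases hb.eq_or_lt with h | hb
  · rw [← h, inv_zero, sub_zero, abs_of_pos ha, Real.zero_rpow (by norm_num), add_zero, zero_add,
      ← Real.rpow_add ha]
    norm_num
    rw [Real.rpow_neg_one]
  rcases le_or_gt b a with hab | hab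
  · have h1 : a⁻¹ ≤ b⁻¹ := by gcongr
    have : 0 ≤ |a - b| ^ (3 / 4 : ℝ) * (a ^ (-(7 / 4) : ℝ) + b ^ (-(7 / 4) : ℝ)) := by positivity
    linarith
  · have hba : 0 < b - a := by linarith
    have habs : |a - b| = b - a := by rw [abs_sub_comm, abs_of_pos hba]
    rw [habs]
    have h1 : a⁻¹ = b⁻¹ + (b - a) * (a⁻¹ * b⁻¹) := by
      field_simp
      ring
    have h2 : (b - a) * (a⁻¹ * b⁻¹) ≤ (b - a) ^ (3 / 4 : ℝ) * a ^ (-(7 / 4) : ℝ) := by
      have e1 : b - a = (b - a) ^ (3 / 4 : ℝ) * (b - a) ^ (1 / 4 : ℝ) := by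
        rw [← Real.rpow_add hba]
        norm_num
      have e2 : (b - a) ^ (1 / 4 : ℝ) ≤ b ^ (1 / 4 : ℝ) := by
        apply Real.rpow_le_rpow hba.le (by linarith) (by norm_num)
      have e3 : b ^ (1 / 4 : ℝ) * b⁻¹ = b ^ (-(3 / 4) : ℝ) := by
        rw [← Real.rpow_neg_one, ← Real.rpow_add hb]
        norm_num
      have e4 : b ^ (-(3 / 4) : ℝ) ≤ a ^ (-(3 / 4) : ℝ) :=
        Real.rpow_le_rpow_of_nonpos ha hab.le (by norm_num)
      have e5 : a⁻¹ * a ^ (-(3 / 4) : ℝ) = a ^ (-(7 / 4) : ℝ) := by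
        rw [← Real.rpow_neg_one, ← Real.rpow_add ha]
        norm_num
      calc (b - a) * (a⁻¹ * b⁻¹)
          = (b - a) ^ (3 / 4 : ℝ) * (b - a) ^ (1 / 4 : ℝ) * (a⁻¹ * b⁻¹) := by rw [← e1]
        _ ≤ (b - a) ^ (3 / 4 : ℝ) * b ^ (1 / 4 : ℝ) * (a⁻¹ * b⁻¹) := by gcongr
        _ = (b - a) ^ (3 / 4 : ℝ) * (a⁻¹ * (b ^ (1 / 4 : ℝ) * b⁻¹)) := by ring
        _ = (b - a) ^ (3 / 4 : ℝ) * (a⁻¹ * b ^ (-(3 / 4) : ℝ)) := by rw [e3]
        _ ≤ (b - a) ^ (3 / 4 : ℝ) * (a⁻¹ * a ^ (-(3 / 4) : ℝ)) := by gcongr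
        _ = _ := by rw [e5]
    have h3 : 0 ≤ (b - a) ^ (3 / 4 : ℝ) * b ^ (-(7 / 4) : ℝ) := by positivity
    rw [mul_add]
    linarith

omit [FiniteDimensional ℝ E] [MeasurableSpace E] [BorelSpace E] in
theorem dl_eq (x z : E) (hx : ‖x‖ = 1) : dl x z = ‖z - ⟪z, x⟫ • x‖ := by
  have h : ‖z - ⟪z, x⟫ • x‖ ^ 2 = ‖z‖ ^ 2 - ⟪z, x⟫ ^ 2 := by
    rw [norm_sub_sq_real, real_inner_smul_right, norm_smul, hx, mul_one, Real.norm_eq_abs, sq_abs]
    ring
  rw [dl, ← h, Real.sqrt_sq (norm_nonneg _)]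

omit [FiniteDimensional ℝ E] [MeasurableSpace E] [BorelSpace E] in
theorem dl_le (x z : E) (hx : ‖x‖ = 1) (s : ℝ) : dl x z ≤ ‖z - s • x‖ := by
  rw [dl]
  apply Real.sqrt_le_iff.mpr
  refine ⟨norm_nonneg _, ?_⟩
  rw [norm_sub_sq_real, real_inner_smul_right, norm_smul, hx, mul_one, Real.norm_eq_abs, sq_abs]
  nlinarith [sq_nonneg (s - ⟪z, x⟫)]

omit [FiniteDimensional ℝ E] [MeasurableSpace E] [BorelSpace E] in
theorem dl_lip (x y z : E) (hx : ‖x‖ = 1) (hy : ‖y‖ = 1) :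
    |dl x z - dl y z| ≤ ‖z‖ * ‖x - y‖ := by
  have key : ∀ x y : E, ‖x‖ = 1 → ‖y‖ = 1 → dl y z ≤ dl x z + ‖z‖ * ‖x - y‖ := by
    intro x y hx hy
    refine (dl_le y z hy ⟪z, x⟫).trans ?_
    have e1 : z - ⟪z, x⟫ • y = (z - ⟪z, x⟫ • x) + ⟪z, x⟫ • (x - y) := by
      rw [smul_sub]
      abel
    rw [e1, dl_eq x z hx]
    refine (norm_add_le _ _).trans ?_
    have e2 : |⟪z, x⟫| ≤ ‖z‖ := by
      have := abs_real_inner_le_norm z x
      rwa [hx, mul_one] at this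
    rw [norm_smul, Real.norm_eq_abs]
    gcongr
  have h1 := key x y hx hy
  have h2 := key y x hy hx
  rw [norm_sub_rev y x] at h2
  rw [abs_le]
  constructor <;> linarith

/-- Hölder continuity of `Rk² h` with exponent `3/4`, for bounded `h` -/
theorem Rk_Rk_holder (hE : 3 ≤ finrank ℝ E) :
    ∃ C : ℝ, 0 < C ∧ ∀ (M : ℝ) (h : E → ℝ≥0∞), Measurable h →
      (∀ z, h z ≤ ENNReal.ofReal M) → ∀ x y : E, ‖x‖ = 1 → ‖y‖ = 1 →
      Rk (Rk h) x ≤ Rk (Rk h) y + ENNReal.ofReal (C * M * ‖x - y‖ ^ (3 / 4 : ℝ)) := by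
  obtain ⟨κ, hκ, hk⟩ := Rk_Rk hE
  obtain ⟨C, hC, hJ⟩ := dl_moment hE (7 / 4) (by norm_num)
  refine ⟨κ * (2 ^ (3 / 4 : ℝ) * (2 * C)), by positivity, fun M h hh hM x y hx hy => ?_⟩
  have hx' := hk h hh x hx
  have hy' := hk h hh y hy
  rw [hx', hy']
  set δ := ‖x - y‖ with hδ
  have hkm : Measurable (fun z : E => kk ‖z‖) := measurable_kk.comp measurable_norm
  have hdm : ∀ x : E, Measurable (fun z : E => ENNReal.ofReal (dl x z ^ (-(7 / 4) : ℝ))) := by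
    intro x
    have := (continuous_dl x).measurable
    fun_prop
  have hpt : ∀ z : E, h z * kk ‖z‖ * ENNReal.ofReal ((dl x z)⁻¹) ≤
      h z * kk ‖z‖ * ENNReal.ofReal ((dl y z)⁻¹) +
        ENNReal.ofReal M * ENNReal.ofReal ((2 * δ) ^ (3 / 4 : ℝ)) *
          (kk ‖z‖ * ENNReal.ofReal (dl x z ^ (-(7 / 4) : ℝ)) +
            kk ‖z‖ * ENNReal.ofReal (dl y z ^ (-(7 / 4) : ℝ))) := by
    intro z
    by_cases hz : ‖z‖ ∈ Icc (1 : ℝ) 2
    · have h1 := inv_holder (dl x z) (dl y z) (Real.sqrt_nonneg _) (Real.sqrt_nonneg _)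
      have h2 : |dl x z - dl y z| ≤ 2 * δ := by
        refine (dl_lip x y z hx hy).trans ?_
        gcongr
        exact hz.2
      have hdx : 0 ≤ dl x z := Real.sqrt_nonneg _
      have hdy : 0 ≤ dl y z := Real.sqrt_nonneg _
      have h3 : (dl x z)⁻¹ ≤ (dl y z)⁻¹ + (2 * δ) ^ (3 / 4 : ℝ) *
          (dl x z ^ (-(7 / 4) : ℝ) + dl y z ^ (-(7 / 4) : ℝ)) := by
        refine h1.trans ?_
        gcongr
      have hδ0 : 0 ≤ δ := norm_nonneg _
      calc h z * kk ‖z‖ * ENNReal.ofReal ((dl x z)⁻¹)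
          ≤ h z * kk ‖z‖ * ENNReal.ofReal ((dl y z)⁻¹ + (2 * δ) ^ (3 / 4 : ℝ) *
            (dl x z ^ (-(7 / 4) : ℝ) + dl y z ^ (-(7 / 4) : ℝ))) := by gcongr
        _ = h z * kk ‖z‖ * ENNReal.ofReal ((dl y z)⁻¹) + h z * ENNReal.ofReal ((2 * δ) ^ (3 / 4 : ℝ)) *
            (kk ‖z‖ * ENNReal.ofReal (dl x z ^ (-(7 / 4) : ℝ)) +
            kk ‖z‖ * ENNReal.ofReal (dl y z ^ (-(7 / 4) : ℝ))) := by
            rw [ENNReal.ofReal_add (by positivity) (by positivity),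
              ENNReal.ofReal_mul (by positivity), ENNReal.ofReal_add (by positivity) (by positivity)]
            ring
        _ ≤ _ := by
            gcongr
            exact hM z
    · rw [kk_of_notMem hz]
      simp
  have hint : ∫⁻ z : E, h z * kk ‖z‖ * ENNReal.ofReal ((dl x z)⁻¹) ≤
      (∫⁻ z : E, h z * kk ‖z‖ * ENNReal.ofReal ((dl y z)⁻¹)) +
        ENNReal.ofReal M * ENNReal.ofReal ((2 * δ) ^ (3 / 4 : ℝ)) *
          (ENNReal.ofReal C + ENNReal.ofReal C) := by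
    refine (lintegral_mono hpt).trans ?_
    have hm1 : Measurable (fun z : E => kk ‖z‖ * ENNReal.ofReal (dl x z ^ (-(7 / 4) : ℝ))) :=
      hkm.mul (hdm x)
    have hm2 : Measurable (fun z : E => kk ‖z‖ * ENNReal.ofReal (dl y z ^ (-(7 / 4) : ℝ))) :=
      hkm.mul (hdm y)
    have hm3 : Measurable (fun z : E => kk ‖z‖ * ENNReal.ofReal (dl x z ^ (-(7 / 4) : ℝ)) +
      kk ‖z‖ * ENNReal.ofReal (dl y z ^ (-(7 / 4) : ℝ))) := hm1.add hm2
    rw [lintegral_add_right _ (hm3.const_mul _), lintegral_const_mul _ hm3,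
      lintegral_add_left hm1]
    gcongr
    · exact hJ x hx
    · exact hJ y hy
  have hδ0 : 0 ≤ δ := norm_nonneg _
  have hfinal : ENNReal.ofReal κ * (ENNReal.ofReal M * ENNReal.ofReal ((2 * δ) ^ (3 / 4 : ℝ)) *
      (ENNReal.ofReal C + ENNReal.ofReal C)) =
      ENNReal.ofReal (κ * (2 ^ (3 / 4 : ℝ) * (2 * C)) * M * δ ^ (3 / 4 : ℝ)) := by
    have e1 : κ * (2 ^ (3 / 4 : ℝ) * (2 * C)) * M * δ ^ (3 / 4 : ℝ)
        = (κ * ((2 * δ) ^ (3 / 4 : ℝ) * (C + C))) * M := by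
      rw [Real.mul_rpow (by norm_num) hδ0]
      ring
    rw [e1, ENNReal.ofReal_mul (by positivity), ENNReal.ofReal_mul hκ.le,
      ENNReal.ofReal_mul (by positivity), ENNReal.ofReal_add hC.le hC.le]
    ring
  calc ENNReal.ofReal κ * ∫⁻ z : E, h z * kk ‖z‖ * ENNReal.ofReal ((√(‖z‖ ^ 2 - ⟪z, x⟫ ^ 2))⁻¹)
      ≤ ENNReal.ofReal κ * ((∫⁻ z : E, h z * kk ‖z‖ * ENNReal.ofReal ((dl y z)⁻¹)) +
        ENNReal.ofReal M * ENNReal.ofReal ((2 * δ) ^ (3 / 4 : ℝ)) *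
          (ENNReal.ofReal C + ENNReal.ofReal C)) := mul_le_mul_right hint _
    _ = _ := by
        rw [mul_add, hfinal]
        rfl

/-- `Rk²` maps `L³` of the annulus to `L^∞` -/
theorem Rk_Rk_L3 (hE : 3 ≤ finrank ℝ E) :
    ∃ C : ℝ, 0 < C ∧ ∀ (h : E → ℝ≥0∞), Measurable h → ∀ x : E, ‖x‖ = 1 →
      Rk (Rk h) x ≤ ENNReal.ofReal C *
        (∫⁻ z in {z : E | 1 ≤ ‖z‖ ∧ ‖z‖ ≤ 2}, (h z) ^ 3) ^ (1 / 3 : ℝ) := by
  obtain ⟨κ, hκ, hk⟩ := Rk_Rk hE
  obtain ⟨C, hC, hJ⟩ := dl_moment hE (3 / 2) (by norm_num)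
  refine ⟨κ * (2 * C ^ (2 / 3 : ℝ)), by positivity, fun h hh x hx => ?_⟩
  rw [hk h hh x hx]
  set A := {z : E | 1 ≤ ‖z‖ ∧ ‖z‖ ≤ 2} with hA
  have hAm : MeasurableSet A := measurableSet_annulus
  have hdm : Measurable (fun z : E => ENNReal.ofReal ((dl x z)⁻¹)) := by
    have := (continuous_dl x).measurable
    fun_prop
  have h1 : ∫⁻ z : E, h z * kk ‖z‖ * ENNReal.ofReal ((√(‖z‖ ^ 2 - ⟪z, x⟫ ^ 2))⁻¹) ≤
      2 * ∫⁻ z in A, (h * fun z => ENNReal.ofReal ((dl x z)⁻¹)) z := by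
    rw [← lintegral_indicator hAm, ← lintegral_const_mul _ ((hh.mul hdm).indicator hAm)]
    apply lintegral_mono
    intro z
    by_cases hz : z ∈ A
    · simp only [indicator_of_mem hz, Pi.mul_apply]
      calc h z * kk ‖z‖ * ENNReal.ofReal ((dl x z)⁻¹)
          ≤ h z * 2 * ENNReal.ofReal ((dl x z)⁻¹) := by
            gcongr
            exact kk_le _
        _ = _ := by ring
    · have hz' : ‖z‖ ∉ Icc (1 : ℝ) 2 := hz
      simp only [kk_of_notMem hz', mul_zero, zero_mul]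
      exact zero_le
  have hpq : (3 : ℝ).HolderConjugate (3 / 2) := by
    rw [Real.holderConjugate_iff]
    norm_num
  have h2 := ENNReal.lintegral_mul_le_Lp_mul_Lq (volume.restrict A) hpq hh.aemeasurable
    hdm.aemeasurable
  have h3 : ∫⁻ z in A, h z ^ (3 : ℝ) = ∫⁻ z in A, h z ^ 3 := by
    refine lintegral_congr fun z => ?_
    exact_mod_cast ENNReal.rpow_natCast (h z) 3
  have h4 : ∫⁻ z in A, (ENNReal.ofReal ((dl x z)⁻¹)) ^ (3 / 2 : ℝ) ≤ ENNReal.ofReal C := by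
    refine le_trans ?_ (hJ x hx)
    rw [← lintegral_indicator hAm]
    apply lintegral_mono
    intro z
    by_cases hz : z ∈ A
    · have hz' : ‖z‖ ∈ Icc (1 : ℝ) 2 := hz
      simp only [indicator_of_mem hz]
      have hd0 : 0 ≤ dl x z := Real.sqrt_nonneg _
      rw [ENNReal.ofReal_rpow_of_nonneg (by positivity) (by norm_num), Real.inv_rpow hd0,
        ← Real.rpow_neg hd0]
      calc ENNReal.ofReal (dl x z ^ (-(3 / 2) : ℝ))
          = 1 * ENNReal.ofReal (dl x z ^ (-(3 / 2) : ℝ)) := (one_mul _).symm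
        _ ≤ _ := by
            gcongr
            exact one_le_kk hz'
    · simp only [indicator_of_notMem hz]
      exact zero_le
  rw [h3] at h2
  calc ENNReal.ofReal κ * ∫⁻ z : E, h z * kk ‖z‖ * ENNReal.ofReal ((√(‖z‖ ^ 2 - ⟪z, x⟫ ^ 2))⁻¹)
      ≤ ENNReal.ofReal κ * (2 * ((∫⁻ z in A, h z ^ 3) ^ (1 / (3 : ℝ)) *
        (ENNReal.ofReal C) ^ (1 / (3 / 2 : ℝ)))) := by
        gcongr
        refine h1.trans ?_
        gcongr
        refine h2.trans ?_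
        gcongr
    _ = _ := by
        rw [ENNReal.ofReal_mul hκ.le, ENNReal.ofReal_mul (by norm_num : (0 : ℝ) ≤ 2),
          ← ENNReal.ofReal_rpow_of_nonneg hC.le (by norm_num)]
        have e1 : ENNReal.ofReal 2 = 2 := by simp
        have e2 : (1 / (3 / 2) : ℝ) = 2 / 3 := by norm_num
        rw [e1, e2]
        ring

end StarIB
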