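import Pool.Agent.StarIB.MeshDef

/-! # Module L: cells, runs and the moved sets -/

open MeasureTheory Set Metric Module
open scoped ENNReal RealInnerProductSpace

namespace StarIB

variable {d : ℕ}

/-- the closed cell number `j` above `z` is contained in `K` -/
def act (K : Set (EuclideanSpace ℝ (Fin d) × ℝ)) (η : ℝ) (z : EuclideanSpace ℝ (Fin d))
    (j : ℤ) : Prop := ∀ t ∈ Icc ((j : ℝ) * η) (((j : ℝ) + 1) * η), (z, t) ∈ K

theorem isOpen_act {K : Set (EuclideanSpace ℝ (Fin d) × ℝ)} (hK : IsOpen K) (η : ℝ) (j : ℤ) :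
    IsOpen {z | act K η z j} := by
  rw [isOpen_iff_eventually]
  intro z hz
  apply IsCompact.eventually_forall_of_forall_eventually isCompact_Icc
  intro t ht
  exact hK.eventually_mem (hz t ht)

/-- `(j,l)` is a run above `z`: cells `j, …, l-1` are active, cells `j-1` and `l` are not. -/
def run (K : Set (EuclideanSpace ℝ (Fin d) × ℝ)) (η : ℝ) (z : EuclideanSpace ℝ (Fin d))
    (q : ℤ × ℤ) : Prop :=
  q.1 < q.2 ∧ (∀ m, q.1 ≤ m → m < q.2 → act K η z m) ∧ ¬ act K η z (q.1 - 1) ∧ ¬ act K η z q.2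

theorem measurableSet_run {K : Set (EuclideanSpace ℝ (Fin d) × ℝ)} (hK : IsOpen K) (η : ℝ)
    (q : ℤ × ℤ) : MeasurableSet {z | run K η z q} := by
  have hm : ∀ j, MeasurableSet {z | act K η z j} := fun j => (isOpen_act hK η j).measurableSet
  have h1 : MeasurableSet {z | ∀ m, q.1 ≤ m → m < q.2 → act K η z m} := by
    have : {z | ∀ m, q.1 ≤ m → m < q.2 → act K η z m} =
        ⋂ m : ℤ, ⋂ _ : q.1 ≤ m, ⋂ _ : m < q.2, {z | act K η z m} := by
      ext z; simp
    rw [this]
    exact MeasurableSet.iInter fun m => MeasurableSet.iInter fun _ =>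
      MeasurableSet.iInter fun _ => hm m
  unfold run
  exact MeasurableSet.inter (MeasurableSet.const _) (h1.inter ((hm _).compl.inter (hm _).compl))

/-- center and half-length of a run -/
noncomputable def cen (η : ℝ) (q : ℤ × ℤ) : ℝ := ((q.1 : ℝ) + q.2) * η / 2

noncomputable def hw (η : ℝ) (q : ℤ × ℤ) : ℝ := ((q.2 : ℝ) - q.1) * η / 2

section runs
variable {K : Set (EuclideanSpace ℝ (Fin d) × ℝ)} {η R : ℝ} {z : EuclideanSpace ℝ (Fin d)}

theorem run_subset (hη : 0 < η) {q : ℤ × ℤ} (hq : run K η z q) {t : ℝ}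
    (h1 : (q.1 : ℝ) * η ≤ t) (h2 : t ≤ (q.2 : ℝ) * η) : (z, t) ∈ K := by
  obtain ⟨hlt, hact, -, -⟩ := hq
  by_cases ht : t = (q.2 : ℝ) * η
  · refine hact (q.2 - 1) (by omega) (by omega) t ⟨?_, ?_⟩
    · push_cast; nlinarith
    · push_cast; nlinarith
  · have h2' : t < (q.2 : ℝ) * η := lt_of_le_of_ne h2 ht
    refine hact ⌊t / η⌋ ?_ ?_ t ⟨?_, ?_⟩
    · rw [Int.le_floor, le_div_iff₀ hη]; exact h1
    · rw [Int.floor_lt, div_lt_iff₀ hη]; exact h2'
    · have := Int.floor_le (t / η)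
      rwa [le_div_iff₀ hη] at this
    · have := (Int.lt_floor_add_one (t / η)).le
      rwa [div_le_iff₀ hη] at this

theorem run_sep {q q' : ℤ × ℤ} (hq : run K η z q) (hq' : run K η z q') (hne : q ≠ q') :
    q.2 < q'.1 ∨ q'.2 < q.1 := by
  obtain ⟨h1, h2, h3, h4⟩ := hq
  obtain ⟨h1', h2', h3', h4'⟩ := hq'
  by_contra hcon
  push Not at hcon
  obtain ⟨hc1, hc2⟩ := hcon
  rcases lt_trichotomy q.1 q'.1 with h | h | h
  · exact h3' (h2 (q'.1 - 1) (by omega) (by omega))
  · rcases lt_trichotomy q.2 q'.2 with g | g | g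
    · exact h4 (h2' q.2 (by omega) g)
    · exact hne (Prod.ext h g)
    · exact h4' (h2 q'.2 (by omega) g)
  · exact h3 (h2' (q.1 - 1) (by omega) (by omega))

variable (hη : 0 < η) (hb : ∀ x ∈ K, ‖x.1‖ < R ∧ |x.2| < R)
include hη hb

theorem act_bound {j : ℤ} (hj : act K η z j) : |(j : ℝ)| * η < R ∧ |((j : ℝ) + 1)| * η < R := by
  have h1 := (hb _ (hj ((j : ℝ) * η) ⟨le_refl _, by nlinarith⟩)).2
  have h2 := (hb _ (hj (((j : ℝ) + 1) * η) ⟨by nlinarith, le_refl _⟩)).2
  simp only [abs_mul, abs_of_pos hη] at h1 h2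
  exact ⟨h1, h2⟩

theorem run_bound {q : ℤ × ℤ} (hq : run K η z q) :
    ‖z‖ < R ∧ |(q.1 : ℝ) * η| < R ∧ |(q.2 : ℝ) * η| < R := by
  have hlt : (q.1 : ℝ) < q.2 := by exact_mod_cast hq.1
  have h1 := hb _ (run_subset hη hq (le_refl ((q.1 : ℝ) * η)) (by nlinarith))
  have h2 := hb _ (run_subset hη hq (t := (q.2 : ℝ) * η) (by nlinarith) (le_refl _))
  exact ⟨h1.1, h1.2, h2.2⟩

theorem cen_bound {q : ℤ × ℤ} (hq : run K η z q) : |cen η q| < R := by
  obtain ⟨-, h1, h2⟩ := run_bound hη hb hq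
  rw [abs_lt] at h1 h2 ⊢
  unfold cen
  constructor <;> linarith [h1.1, h1.2, h2.1, h2.2]

/-- every active cell belongs to a run -/
theorem exists_run {m : ℤ} (hm : act K η z m) : ∃ q, run K η z q ∧ q.1 ≤ m ∧ m < q.2 := by
  classical
  -- a bound for active cells
  have hbd : ∀ j, act K η z j → |j| ≤ ⌈R / η⌉ := by
    intro j hj
    have h := (act_bound hη hb hj).1
    have h2 : |(j : ℝ)| < R / η := by rwa [lt_div_iff₀ hη]
    have h3 : ((|j| : ℤ) : ℝ) ≤ (⌈R / η⌉ : ℝ) := by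
      push_cast
      exact h2.le.trans (Int.le_ceil _)
    exact_mod_cast h3
  obtain ⟨l, ⟨hl1, hl2⟩, hl3⟩ := Int.exists_least_of_bdd (P := fun l => m < l ∧ ¬ act K η z l)
    ⟨m, fun l hl => hl.1.le⟩ ⟨max (m + 1) (⌈R / η⌉ + 1), by
      constructor
      · exact lt_of_lt_of_le (by omega) (le_max_left _ _)
      · intro hact
        have h1 := hbd _ hact
        have h2 := le_abs_self (max (m + 1) (⌈R / η⌉ + 1))
        have h3 := le_max_right (m + 1) (⌈R / η⌉ + 1)
        omega⟩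
  obtain ⟨j, ⟨hj1, hj2⟩, hj3⟩ := Int.exists_greatest_of_bdd (P := fun l => l < m ∧ ¬ act K η z l)
    ⟨m, fun l hl => hl.1.le⟩ ⟨min (m - 1) (-⌈R / η⌉ - 1), by
      constructor
      · exact lt_of_le_of_lt (min_le_left _ _) (by omega)
      · intro hact
        have h1 := hbd _ hact
        have h2 := neg_le_abs (min (m - 1) (-⌈R / η⌉ - 1))
        have h3 := min_le_right (m - 1) (-⌈R / η⌉ - 1)
        omega⟩
  refine ⟨(j + 1, l), ⟨by simp only; omega, ?_, by simpa using hj2, hl2⟩, by simp only; omega, hl1⟩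
  intro k hk1 hk2
  simp only at hk1 hk2
  by_contra hk
  rcases lt_trichotomy k m with h | h | h
  · have := hj3 k ⟨h, hk⟩; omega
  · exact hk (h ▸ hm)
  · have := hl3 k ⟨h, hk⟩; omega

end runs

/-- index set of possible runs -/
noncomputable def bx (M : ℕ) : Finset (ℤ × ℤ) := Finset.Icc (-(M : ℤ)) M ×ˢ Finset.Icc (-(M : ℤ)) M

/-- `x` lies in a moved run -/
def MovP (K : Set (EuclideanSpace ℝ (Fin d) × ℝ)) (η lam : ℝ)
    (x : EuclideanSpace ℝ (Fin d) × ℝ) : Prop :=
  ∃ q, run K η x.1 q ∧ |x.2 - lam * cen η q| < hw η q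

/-- the moved set, as a function -/
noncomputable def Fl (K : Set (EuclideanSpace ℝ (Fin d) × ℝ)) (η : ℝ) (M : ℕ) (lam : ℝ)
    (x : EuclideanSpace ℝ (Fin d) × ℝ) : ℝ≥0∞ :=
  ∑ q ∈ bx M, {x : EuclideanSpace ℝ (Fin d) × ℝ |
    run K η x.1 q ∧ |x.2 - lam * cen η q| < hw η q}.indicator 1 x

theorem measurableSet_moved {K : Set (EuclideanSpace ℝ (Fin d) × ℝ)} (hK : IsOpen K) (η lam : ℝ)
    (q : ℤ × ℤ) : MeasurableSet {x : EuclideanSpace ℝ (Fin d) × ℝ |
    run K η x.1 q ∧ |x.2 - lam * cen η q| < hw η q} := by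
  apply MeasurableSet.inter
  · exact measurable_fst (measurableSet_run hK η q)
  · have hm : Measurable (fun x : EuclideanSpace ℝ (Fin d) × ℝ => |x.2 - lam * cen η q|) :=
      (measurable_snd.sub_const _).abs
    exact measurableSet_lt hm measurable_const

theorem measurable_Fl {K : Set (EuclideanSpace ℝ (Fin d) × ℝ)} (hK : IsOpen K) (η : ℝ) (M : ℕ)
    (lam : ℝ) : Measurable (Fl K η M lam) := by
  unfold Fl
  apply Finset.measurable_sum
  intro q _
  exact Measurable.indicator measurable_one (measurableSet_moved hK η lam q)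

section facts
variable {p κ : ℝ} {K : Set (EuclideanSpace ℝ (Fin d) × ℝ)}
  {U : EuclideanSpace ℝ (Fin d) × ℝ → ℝ} {Sh : ℝ → Set (EuclideanSpace ℝ (Fin d) × ℝ)}
  {R η₀ C C' : ℝ} (h : MeshHyp d p κ K U Sh R η₀ C C') {η : ℝ} (hη : 0 < η) (hη' : η < η₀)
  {M : ℕ} (hM : R ≤ M * η) {lam : ℝ} (hl : 1 - η / (8 * R) ≤ lam) (hl1 : lam ≤ 1)

include h hη hM in
theorem mem_bx {z : EuclideanSpace ℝ (Fin d)} {q : ℤ × ℤ} (hq : run K η z q) : q ∈ bx M := by
  obtain ⟨-, h1, h2⟩ := run_bound hη h.K_bdd hq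
  have key : ∀ k : ℤ, |(k : ℝ) * η| < R → -(M : ℤ) ≤ k ∧ k ≤ M := by
    intro k hk
    rw [abs_mul, abs_of_pos hη] at hk
    have : |(k : ℝ)| < M := by
      by_contra hcon
      push Not at hcon
      nlinarith
    rw [abs_lt] at this
    constructor
    · have := this.1.le; exact_mod_cast this
    · have := this.2.le; exact_mod_cast this
  unfold bx
  rw [Finset.mem_product, Finset.mem_Icc, Finset.mem_Icc]
  exact ⟨key _ h1, key _ h2⟩

include h hη hl hl1 in
theorem shift_bound {z : EuclideanSpace ℝ (Fin d)} {q : ℤ × ℤ} (hq : run K η z q) :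
    |(1 - lam) * cen η q| ≤ η / 8 := by
  have h1 := cen_bound hη h.K_bdd hq
  have hR := h.hR
  rw [abs_mul, abs_of_nonneg (by linarith)]
  have h2 : 1 - lam ≤ η / (8 * R) := by linarith
  calc (1 - lam) * |cen η q| ≤ η / (8 * R) * R := by
        apply mul_le_mul h2 h1.le (abs_nonneg _) (by positivity)
    _ = η / 8 := by field_simp

include h hη hl hl1 in
theorem moved_disjoint {z : EuclideanSpace ℝ (Fin d)} {q q' : ℤ × ℤ} (hq : run K η z q)
    (hq' : run K η z q') (hne : q ≠ q') {t : ℝ} (h1 : |t - lam * cen η q| < hw η q)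
    (h2 : |t - lam * cen η q'| < hw η q') : False := by
  have s1 := shift_bound h hη hl hl1 hq
  have s2 := shift_bound h hη hl hl1 hq'
  rw [abs_le] at s1 s2
  rw [abs_lt] at h1 h2
  rcases run_sep hq hq' hne with g | g
  · have g' : (q.2 : ℝ) + 1 ≤ q'.1 := by exact_mod_cast g
    have : (cen η q' - hw η q') - (cen η q + hw η q) ≥ η := by
      unfold cen hw; nlinarith
    nlinarith
  · have g' : (q'.2 : ℝ) + 1 ≤ q.1 := by exact_mod_cast g
    have : (cen η q - hw η q) - (cen η q' + hw η q') ≥ η := by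
      unfold cen hw; nlinarith
    nlinarith

include h hη hM hl hl1 in
theorem Fl_of_PP {x : EuclideanSpace ℝ (Fin d) × ℝ} (hx : MovP K η lam x) : Fl K η M lam x = 1 := by
  obtain ⟨q, hq, hqt⟩ := hx
  unfold Fl
  rw [Finset.sum_eq_single q]
  · rw [indicator_of_mem (by exact ⟨hq, hqt⟩)]; rfl
  · intro q' _ hne
    rw [indicator_of_notMem]
    rintro ⟨hq', hqt'⟩
    exact moved_disjoint h hη hl hl1 hq hq' (Ne.symm hne) hqt hqt'
  · intro hcon
    exact absurd (mem_bx h hη hM hq) hcon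

theorem Fl_of_not_PP {x : EuclideanSpace ℝ (Fin d) × ℝ} (hx : ¬ MovP K η lam x) :
    Fl K η M lam x = 0 := by
  unfold Fl
  apply Finset.sum_eq_zero
  intro q _
  rw [indicator_of_notMem]
  rintro hq
  exact hx ⟨q, hq⟩

theorem left_end (η : ℝ) (q : ℤ × ℤ) : cen η q - hw η q = q.1 * η := by unfold cen hw; ring
theorem right_end (η : ℝ) (q : ℤ × ℤ) : cen η q + hw η q = q.2 * η := by unfold cen hw; ring

include h hη hη' hl hl1 in
/-- (a) moved points outside `K` are in the shell -/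
theorem shell_a {x : EuclideanSpace ℝ (Fin d) × ℝ} (hx : MovP K η lam x) (hxK : x ∉ K) :
    x ∈ Sh η := by
  obtain ⟨z, t⟩ := x
  obtain ⟨q, hq, hqt⟩ := hx
  simp only at hq hqt
  have s1 := shift_bound h hη hl hl1 hq
  rw [abs_lt] at hqt
  have e1 := left_end η q
  have e2 := right_end η q
  have hin : (z, t + (1 - lam) * cen η q) ∈ K := by
    apply run_subset hη hq
    · nlinarith [hqt.1]
    · nlinarith [hqt.2]
  have := h.Sh_straddle η hη hη' z (t + (1 - lam) * cen η q) t (by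
    rw [show t + (1 - lam) * cen η q - t = (1 - lam) * cen η q by ring]
    linarith) hin hxK
  exact this.2

include h hη hη' hl hl1 in
/-- (b) points of `K` outside the moved set are in the shell -/
theorem shell_b {x : EuclideanSpace ℝ (Fin d) × ℝ} (hx : ¬ MovP K η lam x) (hxK : x ∈ K) :
    x ∈ Sh η := by
  obtain ⟨z, t⟩ := x
  have c1 : (⌊t / η⌋ : ℝ) * η ≤ t := by
    have := Int.floor_le (t / η)
    rwa [le_div_iff₀ hη] at this
  have c2 : t ≤ ((⌊t / η⌋ : ℝ) + 1) * η := by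
    have := (Int.lt_floor_add_one (t / η)).le
    rwa [div_le_iff₀ hη] at this
  by_cases hact : act K η z ⌊t / η⌋
  · obtain ⟨q, hq, hq1, hq2⟩ := exists_run hη h.K_bdd hact
    have s1 := shift_bound h hη hl hl1 hq
    have e1 := left_end η q
    have e2 := right_end η q
    have hnot : ¬ |t - lam * cen η q| < hw η q := fun hc => hx ⟨q, hq, hc⟩
    rw [abs_lt, not_and_or] at hnot
    have hq1' : (q.1 : ℝ) ≤ (⌊t / η⌋ : ℝ) := by exact_mod_cast hq1
    have hq2' : (⌊t / η⌋ : ℝ) + 1 ≤ (q.2 : ℝ) := by exact_mod_cast hq2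
    rw [abs_le] at s1
    rcases hnot with hn | hn
    · -- t close to the left end
      have hina := hq.2.2.1
      unfold act at hina
      push Not at hina
      obtain ⟨t', ht', htK⟩ := hina
      push_cast at ht'
      refine (h.Sh_straddle η hη hη' z t t' ?_ hxK htK).1
      rw [abs_le]
      constructor
      · nlinarith [ht'.1, ht'.2]
      · nlinarith [ht'.1, ht'.2]
    · have hina := hq.2.2.2
      unfold act at hina
      push Not at hina
      obtain ⟨t', ht', htK⟩ := hina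
      refine (h.Sh_straddle η hη hη' z t t' ?_ hxK htK).1
      rw [abs_le]
      constructor
      · nlinarith [ht'.1, ht'.2]
      · nlinarith [ht'.1, ht'.2]
  · unfold act at hact
    push Not at hact
    obtain ⟨t', ht', htK⟩ := hact
    refine (h.Sh_straddle η hη hη' z t t' ?_ hxK htK).1
    rw [abs_le]
    constructor
    · nlinarith [ht'.1, ht'.2]
    · nlinarith [ht'.1, ht'.2]

include hη in
theorem PP_one_subset {x : EuclideanSpace ℝ (Fin d) × ℝ} (hx : MovP K η 1 x) : x ∈ K := by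
  obtain ⟨z, t⟩ := x
  obtain ⟨q, hq, hqt⟩ := hx
  simp only [one_mul] at hqt
  rw [abs_lt] at hqt
  have e1 := left_end η q
  have e2 := right_end η q
  apply run_subset hη hq
  · nlinarith [hqt.1]
  · nlinarith [hqt.2]

end facts

end StarIB
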