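import Pool.Agent.StarIB.MeshA

/-! # Module M1: counting runs, use of the rearrangement inequality, pointwise inequality -/

open MeasureTheory Set Metric Module
open scoped ENNReal RealInnerProductSpace

namespace StarIB

/-! ## real inequalities -/

/-- tangent line inequality for `x ↦ x^p` -/
theorem rpow_tangent {p a b : ℝ} (hp : 1 < p) (ha : 0 ≤ a) (hb : 0 ≤ b) :
    a ^ p + p * a ^ (p - 1) * (b - a) ≤ b ^ p := by
  rcases ha.eq_or_lt with rfl | ha
  · rw [Real.zero_rpow (by linarith), Real.zero_rpow (by linarith)]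
    simp; positivity
  · have h1 := one_add_mul_self_le_rpow_one_add (s := b / a - 1) (p := p)
      (by have : 0 ≤ b / a := by positivity
          linarith) hp.le
    have h2 : (1 + (b / a - 1)) ^ p = b ^ p / a ^ p := by
      rw [show 1 + (b / a - 1) = b / a by ring, Real.div_rpow hb ha.le]
    rw [h2, le_div_iff₀ (by positivity)] at h1
    have h3 : a ^ p = a ^ (p - 1) * a := by
      rw [← Real.rpow_add_one ha.ne']; ring_nf
    calc a ^ p + p * a ^ (p - 1) * (b - a) = (1 + p * (b / a - 1)) * a ^ p := by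
          rw [h3]; field_simp
      _ ≤ b ^ p := h1

theorem rpow_diff {q a g B : ℝ} (hq : 1 < q) (ha : 0 ≤ a) (hg : 0 ≤ g) (haB : a ≤ B)
    (hgB : g ≤ B) : |a ^ q - g ^ q| ≤ q * B ^ (q - 1) * |a - g| := by
  have h1 := rpow_tangent hq ha hg
  have h2 := rpow_tangent hq hg ha
  have hB : a ^ (q - 1) ≤ B ^ (q - 1) := Real.rpow_le_rpow ha haB (by linarith)
  have hB' : g ^ (q - 1) ≤ B ^ (q - 1) := Real.rpow_le_rpow hg hgB (by linarith)
  have p1 : 0 ≤ a ^ (q - 1) := by positivity
  have p2 : 0 ≤ g ^ (q - 1) := by positivity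
  have hab := abs_nonneg (a - g)
  rw [abs_le]
  constructor
  · -- g^q - a^q ≤ q g^(q-1) (g-a)
    have : g ^ q - a ^ q ≤ q * g ^ (q - 1) * (g - a) := by linarith
    have h3 : q * g ^ (q - 1) * (g - a) ≤ q * B ^ (q - 1) * |a - g| := by
      have : g - a ≤ |a - g| := by rw [abs_sub_comm]; exact le_abs_self _
      calc q * g ^ (q - 1) * (g - a) ≤ q * g ^ (q - 1) * |a - g| := by gcongr
        _ ≤ q * B ^ (q - 1) * |a - g| := by gcongr
    linarith
  · have : a ^ q - g ^ q ≤ q * a ^ (q - 1) * (a - g) := by linarith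
    have h3 : q * a ^ (q - 1) * (a - g) ≤ q * B ^ (q - 1) * |a - g| := by
      have : a - g ≤ |a - g| := le_abs_self _
      calc q * a ^ (q - 1) * (a - g) ≤ q * a ^ (q - 1) * |a - g| := by gcongr
        _ ≤ q * B ^ (q - 1) * |a - g| := by gcongr
    linarith

theorem pw {p a b g B s t : ℝ} (hp : 2 < p) (ha : 0 ≤ a) (hb : 0 ≤ b) (hg : 0 ≤ g)
    (haB : a ≤ B) (hgB : g ≤ B) (hs : |a - g| ≤ s) (ht : |a - b| ≤ t) :
    a ^ p + p * g ^ (p - 1) * b ≤ b ^ p + p * g ^ (p - 1) * a +
      p * (p - 1) * B ^ (p - 2) * s * t := by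
  have h1 := rpow_tangent (by linarith : 1 < p) ha hb
  have h2 := rpow_diff (by linarith : 1 < p - 1) ha hg haB hgB
  rw [show p - 1 - 1 = p - 2 by ring] at h2
  have hB : 0 ≤ B := ha.trans haB
  have h3 : (a ^ (p - 1) - g ^ (p - 1)) * (a - b) ≤ (p - 1) * B ^ (p - 2) * s * t := by
    calc (a ^ (p - 1) - g ^ (p - 1)) * (a - b) ≤ |(a ^ (p - 1) - g ^ (p - 1)) * (a - b)| :=
          le_abs_self _
      _ = |a ^ (p - 1) - g ^ (p - 1)| * |a - b| := abs_mul _ _
      _ ≤ ((p - 1) * B ^ (p - 2) * |a - g|) * t := by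
          apply mul_le_mul h2 ht (abs_nonneg _)
          have : 0 ≤ B ^ (p - 2) := by positivity
          have : 0 ≤ p - 1 := by linarith
          positivity
      _ ≤ ((p - 1) * B ^ (p - 2) * s) * t := by
          have : 0 ≤ B ^ (p - 2) := by positivity
          have : 0 ≤ p - 1 := by linarith
          have : 0 ≤ t := (abs_nonneg _).trans ht
          gcongr
  have h4 : a ^ p - b ^ p ≤ p * a ^ (p - 1) * (a - b) := by linarith
  have h5 : p * ((a ^ (p - 1) - g ^ (p - 1)) * (a - b)) ≤ p * ((p - 1) * B ^ (p - 2) * s * t) := by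
    apply mul_le_mul_of_nonneg_left h3 (by linarith)
  nlinarith

variable {d : ℕ}

/-! ## basic properties of `sec`, `tot` -/

theorem measurable_secmap (y : EuclideanSpace ℝ (Fin d)) :
    Measurable (fun z : EuclideanSpace ℝ (Fin d) => (z, (⟪z, y⟫ : ℝ))) := by
  fun_prop

theorem sec_mono {φ ψ : EuclideanSpace ℝ (Fin d) × ℝ → ℝ≥0∞} (h : ∀ x, φ x ≤ ψ x)
    (y : EuclideanSpace ℝ (Fin d)) : sec φ y ≤ sec ψ y :=
  lintegral_mono fun _ => h _

theorem sec_add {φ ψ : EuclideanSpace ℝ (Fin d) × ℝ → ℝ≥0∞} (hφ : Measurable φ)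
    (y : EuclideanSpace ℝ (Fin d)) : sec (fun x => φ x + ψ x) y = sec φ y + sec ψ y := by
  exact lintegral_add_left (hφ.comp (measurable_secmap y)) _

theorem measurable_sec {φ : EuclideanSpace ℝ (Fin d) × ℝ → ℝ≥0∞} (hφ : Measurable φ) :
    Measurable (sec φ) := by
  unfold sec
  apply Measurable.lintegral_prod_right' (f := fun q : EuclideanSpace ℝ (Fin d) × EuclideanSpace ℝ (Fin d) => φ (q.2, (⟪q.2, q.1⟫ : ℝ)))
  apply hφ.comp
  fun_prop

theorem tot_mono {φ ψ : EuclideanSpace ℝ (Fin d) × ℝ → ℝ≥0∞} (h : ∀ x, φ x ≤ ψ x) :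
    tot φ ≤ tot ψ := lintegral_mono fun _ => lintegral_mono fun _ => h _

theorem tot_add {φ ψ : EuclideanSpace ℝ (Fin d) × ℝ → ℝ≥0∞} (hφ : Measurable φ) :
    tot (fun x => φ x + ψ x) = tot φ + tot ψ := by
  unfold tot
  rw [← lintegral_add_left]
  · congr 1; ext z
    exact lintegral_add_left (hφ.comp measurable_prodMk_left) _
  · exact hφ.lintegral_prod_right'

theorem tot_const_mul {φ : EuclideanSpace ℝ (Fin d) × ℝ → ℝ≥0∞} (hφ : Measurable φ) (c : ℝ≥0∞) :
    tot (fun x => c * φ x) = c * tot φ := by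
  unfold tot
  rw [← lintegral_const_mul]
  · congr 1; ext z
    exact lintegral_const_mul _ (hφ.comp measurable_prodMk_left)
  · exact hφ.lintegral_prod_right'

theorem tot_indicator {A : Set (EuclideanSpace ℝ (Fin d) × ℝ)} (hA : MeasurableSet A) :
    tot (A.indicator 1) = ∫⁻ z, volume {t : ℝ | (z, t) ∈ A} := by
  unfold tot
  congr 1; ext z
  have : (fun t : ℝ => A.indicator (1 : EuclideanSpace ℝ (Fin d) × ℝ → ℝ≥0∞) (z, t)) =
      {t : ℝ | (z, t) ∈ A}.indicator 1 := by
    ext t; rfl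
  rw [this, lintegral_indicator_one]
  exact measurable_prodMk_left hA

/-! ## the set where the moved set and the original set differ -/

theorem measurableSet_PP {K : Set (EuclideanSpace ℝ (Fin d) × ℝ)} (hK : IsOpen K) (η lam : ℝ) :
    MeasurableSet {x | MovP K η lam x} := by
  have : {x | MovP K η lam x} = ⋃ q : ℤ × ℤ, {x : EuclideanSpace ℝ (Fin d) × ℝ |
    run K η x.1 q ∧ |x.2 - lam * cen η q| < hw η q} := by
    ext x; simp [MovP]
  rw [this]
  exact MeasurableSet.iUnion fun q => measurableSet_moved hK η lam q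

/-- points where exactly one of the two sets is present -/
def DD (K : Set (EuclideanSpace ℝ (Fin d) × ℝ)) (η lam : ℝ) :
    Set (EuclideanSpace ℝ (Fin d) × ℝ) :=
  {x | (MovP K η 1 x ∧ ¬ MovP K η lam x) ∨ (MovP K η lam x ∧ ¬ MovP K η 1 x)}

theorem measurableSet_DD {K : Set (EuclideanSpace ℝ (Fin d) × ℝ)} (hK : IsOpen K) (η lam : ℝ) :
    MeasurableSet (DD K η lam) := by
  have h1 := measurableSet_PP hK η 1
  have h2 := measurableSet_PP hK η lam
  exact (h1.inter h2.compl).union (h2.inter h1.compl)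

theorem vol_xor (c c' w : ℝ) :
    volume {t : ℝ | (|t - c| < w ∧ ¬ |t - c'| < w) ∨ (|t - c'| < w ∧ ¬ |t - c| < w)} ≤
      ENNReal.ofReal (2 * |c - c'|) := by
  have hsub : {t : ℝ | (|t - c| < w ∧ ¬ |t - c'| < w) ∨ (|t - c'| < w ∧ ¬ |t - c| < w)} ⊆
      uIcc (c + w) (c' + w) ∪ uIcc (c - w) (c' - w) := by
    intro t ht
    simp only [mem_ofPred_eq, abs_lt, not_and_or, not_lt] at ht
    rw [mem_union, mem_uIcc, mem_uIcc]
    rcases ht with ⟨⟨h1, h2⟩, h3 | h3⟩ | ⟨⟨h1, h2⟩, h3 | h3⟩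
    · right; left; constructor <;> linarith
    · left; right; constructor <;> linarith
    · right; right; constructor <;> linarith
    · left; left; constructor <;> linarith
  refine (measure_mono hsub).trans ((measure_union_le _ _).trans ?_)
  rw [Real.volume_interval, Real.volume_interval, ← ENNReal.ofReal_add (abs_nonneg _) (abs_nonneg _)]
  apply ENNReal.ofReal_le_ofReal
  have e1 : c' + w - (c + w) = c' - c := by ring
  have e2 : c' - w - (c - w) = c' - c := by ring
  rw [e1, e2, abs_sub_comm c c']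
  linarith

section facts
variable {p κ : ℝ} {K : Set (EuclideanSpace ℝ (Fin d) × ℝ)}
  {U : EuclideanSpace ℝ (Fin d) × ℝ → ℝ} {Sh : ℝ → Set (EuclideanSpace ℝ (Fin d) × ℝ)}
  {R η₀ C C' : ℝ} (h : MeshHyp d p κ K U Sh R η₀ C C') {η : ℝ} (hη : 0 < η) (hη' : η < η₀)
  {M : ℕ} (hM : R ≤ M * η) {lam : ℝ} (hl : 1 - η / (8 * R) ≤ lam) (hl1 : lam ≤ 1)

include h hη hη' hl hl1 in
theorem DD_subset_Sh : DD K η lam ⊆ Sh η := by
  have hR := h.hR
  have h1l : 1 - η / (8 * R) ≤ 1 := by have : 0 < η / (8 * R) := by positivity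
                                       linarith
  intro x hx
  rcases hx with ⟨h1, h2⟩ | ⟨h1, h2⟩
  · exact shell_b h hη hη' hl hl1 h2 (PP_one_subset hη h1)
  · by_cases hxK : x ∈ K
    · exact shell_b h hη hη' h1l le_rfl h2 hxK
    · exact shell_a h hη hη' hl hl1 h1 hxK

include h hη hη' in
/-- number of runs above `z` times `η` is at most the length of the fibre of the shell -/
theorem count_runs (z : EuclideanSpace ℝ (Fin d)) :
    ∑ q ∈ bx M, {z | run K η z q}.indicator (fun _ => ENNReal.ofReal η) z ≤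
      volume {t : ℝ | (z, t) ∈ Sh η} := by
  classical
  have e1 : ∑ q ∈ bx M, {z | run K η z q}.indicator (fun _ => ENNReal.ofReal η) z =
      ∑ q ∈ (bx M).filter (fun q => run K η z q),
        volume (Ico ((q.1 : ℝ) * η) (((q.1 : ℝ) + 1) * η)) := by
    rw [Finset.sum_filter]
    apply Finset.sum_congr rfl
    intro q _
    rw [Real.volume_Ico, show ((q.1 : ℝ) + 1) * η - (q.1 : ℝ) * η = η by ring]
    by_cases hq : run K η z q
    · rw [if_pos hq, indicator_of_mem (by exact hq)]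
    · rw [if_neg hq, indicator_of_notMem (by exact hq)]
  rw [e1, ← measure_biUnion_finset]
  · apply measure_mono
    intro t ht
    rw [mem_iUnion₂] at ht
    obtain ⟨q, hq, ht1, ht2⟩ := ht
    rw [Finset.mem_filter] at hq
    have hina := hq.2.2.2.1
    unfold act at hina
    push Not at hina
    obtain ⟨t', ht', htK⟩ := hina
    push_cast at ht'
    have hlt : (q.1 : ℝ) + 1 ≤ q.2 := by exact_mod_cast hq.2.1
    refine (h.Sh_straddle η hη hη' z t t' ?_ (run_subset hη hq.2 ht1 ?_) htK).1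
    · rw [abs_le]; constructor <;> nlinarith [ht'.1, ht'.2]
    · nlinarith
  · intro q hq q' hq' hne
    rw [Finset.mem_coe, Finset.mem_filter] at hq hq'
    have hne1 : q.1 ≠ q'.1 := by
      intro he
      rcases run_sep hq.2 hq'.2 hne with g | g
      · have := hq.2.1; omega
      · have := hq'.2.1; omega
    rw [Function.onFun, Set.disjoint_left]
    rintro t ⟨ht1, ht2⟩ ⟨ht3, ht4⟩
    rcases lt_or_gt_of_ne hne1 with g | g
    · have g' : (q.1 : ℝ) + 1 ≤ q'.1 := by exact_mod_cast g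
      nlinarith
    · have g' : (q'.1 : ℝ) + 1 ≤ q.1 := by exact_mod_cast g
      nlinarith
  · intro q _
    exact measurableSet_Ico

include h hη hη' hM hl hl1 in
theorem tot_DD : tot ((DD K η lam).indicator 1) ≤ ENNReal.ofReal (C * η ^ (3 / 4 : ℝ)) := by
  refine le_trans ?_ (h.Sh_vol η hη hη')
  rw [tot_indicator (measurableSet_DD h.K_open η lam), tot_indicator (h.Sh_meas η hη hη')]
  apply lintegral_mono
  intro z
  refine le_trans ?_ (count_runs (M := M) h hη hη' z)
  have hsub : {t : ℝ | (z, t) ∈ DD K η lam} ⊆ ⋃ q ∈ bx M, {t : ℝ | run K η z q ∧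
      ((|t - cen η q| < hw η q ∧ ¬ |t - lam * cen η q| < hw η q) ∨
      (|t - lam * cen η q| < hw η q ∧ ¬ |t - cen η q| < hw η q))} := by
    intro t ht
    rw [mem_iUnion₂]
    rcases ht with ⟨⟨q, hq, hqt⟩, h2⟩ | ⟨⟨q, hq, hqt⟩, h2⟩
    · rw [one_mul] at hqt
      refine ⟨q, mem_bx h hη hM hq, hq, Or.inl ⟨hqt, fun hc => h2 ⟨q, hq, hc⟩⟩⟩
    · refine ⟨q, mem_bx h hη hM hq, hq, Or.inr ⟨hqt, fun hc => h2 ⟨q, hq, by rwa [one_mul]⟩⟩⟩
  refine (measure_mono hsub).trans ((measure_biUnion_finset_le _ _).trans ?_)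
  apply Finset.sum_le_sum
  intro q _
  by_cases hq : run K η z q
  · rw [indicator_of_mem (by exact hq)]
    refine (measure_mono (fun t ht => ht.2)).trans ((vol_xor (cen η q) (lam * cen η q) (hw η q)).trans ?_)
    apply ENNReal.ofReal_le_ofReal
    have := shift_bound h hη hl hl1 hq
    rw [show cen η q - lam * cen η q = (1 - lam) * cen η q by ring]
    linarith
  · have : {t : ℝ | run K η z q ∧
      ((|t - cen η q| < hw η q ∧ ¬ |t - lam * cen η q| < hw η q) ∨
      (|t - lam * cen η q| < hw η q ∧ ¬ |t - cen η q| < hw η q))} = ∅ := by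
      ext t; simp [hq]
    rw [this]; simp

end facts

/-! ## application of the rearrangement inequality -/

/-- the measure on (base point, run) -/
noncomputable def runMeas (K : Set (EuclideanSpace ℝ (Fin d) × ℝ)) (η : ℝ) (M : ℕ) :
    Measure (EuclideanSpace ℝ (Fin d) × (ℤ × ℤ)) :=
  ∑ q ∈ bx M, (volume.restrict {z | run K η z q}).map (fun z => (z, q))

theorem runMeas_apply {K : Set (EuclideanSpace ℝ (Fin d) × ℝ)} (hK : IsOpen K) (η : ℝ) (M : ℕ)
    (lam : ℝ) (y : EuclideanSpace ℝ (Fin d)) :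
    runMeas K η M {ω | |⟪ω.1, y⟫ - lam * cen η ω.2| < hw η ω.2} = sec (Fl K η M lam) y := by
  have hms : MeasurableSet {ω : EuclideanSpace ℝ (Fin d) × (ℤ × ℤ) |
      |⟪ω.1, y⟫ - lam * cen η ω.2| < hw η ω.2} := by
    have h1 : Measurable (fun ω : EuclideanSpace ℝ (Fin d) × (ℤ × ℤ) => cen η ω.2) :=
      (measurable_of_countable (cen η)).comp measurable_snd
    have h2 : Measurable (fun ω : EuclideanSpace ℝ (Fin d) × (ℤ × ℤ) => hw η ω.2) :=
      (measurable_of_countable (hw η)).comp measurable_snd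
    have h3 : Measurable (fun ω : EuclideanSpace ℝ (Fin d) × (ℤ × ℤ) => (⟪ω.1, y⟫ : ℝ)) := by
      fun_prop
    exact measurableSet_lt ((h3.sub (h1.const_mul lam)).abs) h2
  unfold runMeas
  rw [Measure.finsetSum_apply]
  unfold sec Fl
  rw [lintegral_finsetSum]
  · apply Finset.sum_congr rfl
    intro q _
    have hmq : Measurable (fun z : EuclideanSpace ℝ (Fin d) => (z, q)) := measurable_prodMk_right
    rw [Measure.map_apply hmq hms, Measure.restrict_apply (hmq hms)]
    have e : (fun z : EuclideanSpace ℝ (Fin d) => {x : EuclideanSpace ℝ (Fin d) × ℝ |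
        run K η x.1 q ∧ |x.2 - lam * cen η q| < hw η q}.indicator
          (1 : EuclideanSpace ℝ (Fin d) × ℝ → ℝ≥0∞) (z, (⟪z, y⟫ : ℝ))) =
        {z | run K η z q ∧ |⟪z, y⟫ - lam * cen η q| < hw η q}.indicator 1 := by
      ext z; rfl
    rw [e, lintegral_indicator_one]
    · congr 1
      ext z
      simp only [mem_inter_iff, mem_preimage, mem_ofPred_eq]
      tauto
    · exact (measurable_secmap y) (measurableSet_moved hK η lam q)
  · intro q _
    exact (Measurable.indicator measurable_one (measurableSet_moved hK η lam q)).comp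
      (measurable_secmap y)

section facts2
variable {p κ : ℝ} {K : Set (EuclideanSpace ℝ (Fin d) × ℝ)}
  {U : EuclideanSpace ℝ (Fin d) × ℝ → ℝ} {Sh : ℝ → Set (EuclideanSpace ℝ (Fin d) × ℝ)}
  {R η₀ C C' : ℝ} (h : MeshHyp d p κ K U Sh R η₀ C C') {η : ℝ} (hη : 0 < η) (hη' : η < η₀)
  {M : ℕ} (hM : R ≤ M * η) {lam : ℝ} (hl : 1 - η / (8 * R) ≤ lam) (hl1 : lam ≤ 1)

include h hη in
theorem runMeas_finite : IsFiniteMeasure (runMeas K η M) := by
  constructor
  unfold runMeas
  rw [Measure.finsetSum_apply]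
  apply ENNReal.sum_lt_top.2
  intro q _
  have hmq : Measurable (fun z : EuclideanSpace ℝ (Fin d) => (z, q)) := measurable_prodMk_right
  rw [Measure.map_apply hmq MeasurableSet.univ, preimage_univ, Measure.restrict_apply_univ]
  refine lt_of_le_of_lt (measure_mono (t := ball 0 R) ?_) measure_ball_lt_top
  intro z hz
  rw [mem_ball_zero_iff]
  exact (run_bound hη h.K_bdd hz).1

include h hη in
theorem RI_app (hRI : RI d p) (s : ℝ) (hs : 0 < s) (h0 : 0 ≤ lam) (hl1 : lam ≤ 1) :
    ∫⁻ y, (sec (Fl K η M 1) y) ^ p * Wt d s y ≤ ∫⁻ y, (sec (Fl K η M lam) y) ^ p * Wt d s y := by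
  have := runMeas_finite (M := M) h hη
  have h1 : Measurable (fun ω : EuclideanSpace ℝ (Fin d) × (ℤ × ℤ) => cen η ω.2) :=
      (measurable_of_countable (cen η)).comp measurable_snd
  have h2 : Measurable (fun ω : EuclideanSpace ℝ (Fin d) × (ℤ × ℤ) => hw η ω.2) :=
      (measurable_of_countable (hw η)).comp measurable_snd
  have key := hRI s hs (EuclideanSpace ℝ (Fin d) × (ℤ × ℤ)) (runMeas K η M) Prod.fst
    (fun ω => cen η ω.2) (fun ω => hw η ω.2) measurable_fst h1 h2 lam h0 hl1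
  have e1 : ∀ y, runMeas K η M {ω | |⟪ω.1, y⟫ - cen η ω.2| < hw η ω.2} =
      sec (Fl K η M 1) y := by
    intro y
    have := runMeas_apply h.K_open η M 1 y
    simpa using this
  have e2 := runMeas_apply h.K_open η M lam
  simpa [e1, e2] using key

end facts2

end StarIB
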