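import Pool.Agent.StarIB.MeshB

/-! # Module M2: the gain -/

open MeasureTheory Set Metric Module
open scoped ENNReal RealInnerProductSpace

namespace StarIB

/-- the integral over the moved interval -/
noncomputable def II (f : ℝ → ℝ) (c w lam : ℝ) : ℝ := ∫ t in (lam * c - w)..(lam * c + w), f t

theorem II_gain {f : ℝ → ℝ} (hf : Continuous f) {c w lam k : ℝ} (hc : 0 ≤ c)
    (hl1 : lam ≤ 1)
    (hk : ∀ t ∈ Icc (lam * c + w) (c + w), k ≤ f t - f (t - 2 * w)) :
    II f c w lam + k * ((1 - lam) * c) ≤ II f c w 1 := by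
  unfold II
  rw [one_mul]
  have hi : ∀ a b, IntervalIntegrable f volume a b := fun a b => hf.intervalIntegrable a b
  have e1 : (∫ t in (c - w)..(c + w), f t) - ∫ t in (lam * c - w)..(lam * c + w), f t =
      (∫ t in (lam * c + w)..(c + w), f t) - ∫ t in (lam * c - w)..(c - w), f t := by
    have a1 := intervalIntegral.integral_add_adjacent_intervals (hi (lam * c - w) (c - w))
      (hi (c - w) (c + w))
    have a2 := intervalIntegral.integral_add_adjacent_intervals (hi (lam * c - w) (lam * c + w))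
      (hi (lam * c + w) (c + w))
    linarith
  have e2 : ∫ t in (lam * c - w)..(c - w), f t = ∫ t in (lam * c + w)..(c + w), f (t - 2 * w) := by
    rw [intervalIntegral.integral_comp_sub_right]
    congr 1 <;> ring
  have hle : lam * c + w ≤ c + w := by nlinarith
  have e3 : ∫ _ in (lam * c + w)..(c + w), k = k * ((1 - lam) * c) := by
    rw [intervalIntegral.integral_const, smul_eq_mul]; ring
  have hf2 : Continuous (fun t => f (t - 2 * w)) := hf.comp (continuous_id.sub continuous_const)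
  have e4 : k * ((1 - lam) * c) ≤
      (∫ t in (lam * c + w)..(c + w), f t) - ∫ t in (lam * c + w)..(c + w), f (t - 2 * w) := by
    rw [← e3, ← intervalIntegral.integral_sub (hi _ _) (hf2.intervalIntegrable _ _)]
    exact intervalIntegral.integral_mono_on hle (continuous_const.intervalIntegrable _ _)
      ((hf.sub hf2).intervalIntegrable _ _) hk
  linarith [e1, e2, e4]

theorem II_mono {f : ℝ → ℝ} (hf : Continuous f) (hfm : ∀ s t, |s| ≤ |t| → f s ≤ f t)
    {c w lam : ℝ} (hw : 0 ≤ w) (hl0 : 0 ≤ lam) (hl1 : lam ≤ 1) :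
    II f c w lam ≤ II f c w 1 := by
  have key : ∀ c : ℝ, 0 ≤ c → II f c w lam ≤ II f c w 1 := by
    intro c hc
    have := II_gain (k := 0) (w := w) hf hc hl1 (by
      intro t ht
      have h1 : |t - 2 * w| ≤ |t| := by
        have : w ≤ t := by nlinarith [ht.1, mul_nonneg hl0 hc]
        rw [abs_of_nonneg (by linarith : 0 ≤ t), abs_le]
        constructor <;> linarith
      linarith [hfm _ _ h1])
    simpa using this
  rcases le_total 0 c with hc | hc
  · exact key c hc
  · have hev : ∀ t, f (-t) = f t := fun t => le_antisymm (hfm _ _ (by simp)) (hfm _ _ (by simp))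
    have e : ∀ l, II f c w l = II f (-c) w l := by
      intro l
      unfold II
      have := intervalIntegral.integral_comp_neg (f := f) (a := l * c - w) (b := l * c + w)
      simp only [hev] at this
      rw [this]
      congr 1 <;> ring
    rw [e, e]
    exact key (-c) (by linarith)

theorem lintegral_II {f : ℝ → ℝ} (hf : Continuous f) (hf0 : ∀ t, 0 ≤ f t) {c w lam : ℝ}
    (hw : 0 ≤ w) :
    ∫⁻ t, {t : ℝ | |t - lam * c| < w}.indicator (fun _ => (1 : ℝ≥0∞)) t * ENNReal.ofReal (f t) =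
      ENNReal.ofReal (II f c w lam) := by
  have e1 : {t : ℝ | |t - lam * c| < w} = Ioo (lam * c - w) (lam * c + w) := by
    ext t; rw [mem_ofPred_eq, abs_lt, mem_Ioo]; constructor <;> rintro ⟨h1, h2⟩ <;> constructor <;> linarith
  have e2 : (fun t => {t : ℝ | |t - lam * c| < w}.indicator (fun _ => (1 : ℝ≥0∞)) t *
      ENNReal.ofReal (f t)) = (Ioo (lam * c - w) (lam * c + w)).indicator
        (fun t => ENNReal.ofReal (f t)) := by
    rw [e1]
    ext t
    by_cases ht : t ∈ Ioo (lam * c - w) (lam * c + w)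
    · simp [ht]
    · simp [ht]
  rw [e2, lintegral_indicator measurableSet_Ioo]
  unfold II
  rw [intervalIntegral.integral_of_le (by linarith), integral_Ioc_eq_integral_Ioo,
    ofReal_integral_eq_lintegral_ofReal]
  · exact (hf.integrableOn_Icc (a := lam * c - w) (b := lam * c + w)).mono_set Ioo_subset_Icc_self
  · exact ae_of_all _ hf0

/-- the function `ψ(z,·)` -/
noncomputable def ps (κ ρ t : ℝ) : ℝ := (ρ ^ 2 + t ^ 2) ^ κ

theorem ps_cont {κ : ℝ} (hκ : 0 < κ) (ρ : ℝ) : Continuous (ps κ ρ) := by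
  unfold ps
  apply Continuous.rpow_const (by fun_prop)
  intro t; right; exact hκ.le

theorem ps_nonneg (κ ρ t : ℝ) : 0 ≤ ps κ ρ t := by unfold ps; positivity

theorem ps_mono {κ : ℝ} (hκ : 0 < κ) (ρ : ℝ) : ∀ s t, |s| ≤ |t| → ps κ ρ s ≤ ps κ ρ t := by
  intro s t hst
  unfold ps
  apply Real.rpow_le_rpow (by positivity) _ hκ.le
  have := sq_le_sq.2 hst
  linarith

/-- uniform gain -/
theorem ps_gap {κ : ℝ} (hκ : 0 < κ) {R t₀ δ₀ : ℝ} (hR : 0 < R) (hδ₀ : 0 < δ₀) (hδt : δ₀ ≤ t₀) :
    ∃ k : ℝ, 0 < k ∧ ∀ ρ, 0 ≤ ρ → ρ ≤ R → k ≤ ps κ ρ (t₀ + δ₀ / 2) - ps κ ρ (t₀ - δ₀ / 2) := by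
  have hc : ContinuousOn (fun ρ => ps κ ρ (t₀ + δ₀ / 2) - ps κ ρ (t₀ - δ₀ / 2)) (Icc 0 R) := by
    apply Continuous.continuousOn
    unfold ps
    apply Continuous.sub
    · apply Continuous.rpow_const (by fun_prop)
      intro t; right; exact hκ.le
    · apply Continuous.rpow_const (by fun_prop)
      intro t; right; exact hκ.le
  obtain ⟨ρ₀, hρ₀, hmin⟩ := isCompact_Icc.exists_isMinOn (nonempty_Icc.2 hR.le) hc
  refine ⟨_, ?_, fun ρ h1 h2 => hmin ⟨h1, h2⟩⟩
  unfold ps
  have : (ρ₀ ^ 2 + (t₀ - δ₀ / 2) ^ 2) ^ κ < (ρ₀ ^ 2 + (t₀ + δ₀ / 2) ^ 2) ^ κ := by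
    apply Real.rpow_lt_rpow (by positivity) _ hκ
    nlinarith
  linarith

variable {d : ℕ}

section facts
variable {p κ : ℝ} {K : Set (EuclideanSpace ℝ (Fin d) × ℝ)}
  {U : EuclideanSpace ℝ (Fin d) × ℝ → ℝ} {Sh : ℝ → Set (EuclideanSpace ℝ (Fin d) × ℝ)}
  {R η₀ C C' : ℝ} (h : MeshHyp d p κ K U Sh R η₀ C C') {η : ℝ} (hη : 0 < η) (hη' : η < η₀)
  {M : ℕ} (hM : R ≤ M * η) {lam : ℝ} (hl : 1 - η / (8 * R) ≤ lam) (hl1 : lam ≤ 1)

theorem hw_pos (hη : 0 < η) {z : EuclideanSpace ℝ (Fin d)} {q : ℤ × ℤ} (hq : run K η z q) :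
    0 < hw η q := by
  have : (q.1 : ℝ) < q.2 := by exact_mod_cast hq.1
  unfold hw
  have : 0 < (q.2 : ℝ) - q.1 := by linarith
  positivity

theorem fiber_int (hη : 0 < η) (hκ : 0 < κ) (z : EuclideanSpace ℝ (Fin d)) (lam : ℝ) :
    ∫⁻ t, Fl K η M lam (z, t) * ENNReal.ofReal ((‖z‖ ^ 2 + t ^ 2) ^ κ) =
      ∑ q ∈ bx M, {z | run K η z q}.indicator
        (fun z => ENNReal.ofReal (II (ps κ ‖z‖) (cen η q) (hw η q) lam)) z := by
  classical
  have e1 : ∀ t, Fl K η M lam (z, t) * ENNReal.ofReal ((‖z‖ ^ 2 + t ^ 2) ^ κ) =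
      ∑ q ∈ bx M, (if run K η z q then {t : ℝ | |t - lam * cen η q| < hw η q}.indicator
        (fun _ => (1 : ℝ≥0∞)) t * ENNReal.ofReal (ps κ ‖z‖ t) else 0) := by
    intro t
    unfold Fl
    rw [Finset.sum_mul]
    apply Finset.sum_congr rfl
    intro q _
    by_cases hq : run K η z q
    · rw [if_pos hq]
      congr 1
      by_cases ht : |t - lam * cen η q| < hw η q
      · rw [indicator_of_mem (by exact ⟨hq, ht⟩), indicator_of_mem (by exact ht)]; rfl
      · rw [indicator_of_notMem (fun hc => ht hc.2), indicator_of_notMem (by exact ht)]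
    · rw [if_neg hq, indicator_of_notMem (fun hc => hq hc.1), zero_mul]
  simp_rw [e1]
  rw [lintegral_finsetSum]
  · apply Finset.sum_congr rfl
    intro q _
    by_cases hq : run K η z q
    · simp only [if_pos hq]
      rw [lintegral_II (ps_cont hκ _) (ps_nonneg κ _) (hw_pos hη hq).le,
        indicator_of_mem (by exact hq)]
    · simp only [if_neg hq]
      rw [indicator_of_notMem (by exact hq), lintegral_zero]
  · intro q _
    by_cases hq : run K η z q
    · simp only [if_pos hq]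
      apply Measurable.mul
      · apply Measurable.indicator measurable_const
        exact measurableSet_lt (by fun_prop) measurable_const
      · exact ENNReal.measurable_ofReal.comp (ps_cont hκ _).measurable
    · simp only [if_neg hq]
      exact measurable_const

include h hη in
theorem good_run {z : EuclideanSpace ℝ (Fin d)} {t₀ δ₀ : ℝ} (hδt : δ₀ ≤ t₀)
    (hηδ : η ≤ δ₀ / 4)
    (hbox : ∀ t ∈ Ioo (t₀ - δ₀) (t₀ + δ₀), (z, t) ∈ K ∧ (z, -t) ∉ K) :
    ∃ q, run K η z q ∧ -(t₀ - δ₀) ≤ q.1 * η ∧ q.1 * η ≤ t₀ - 3 / 4 * δ₀ ∧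
      t₀ + 3 / 4 * δ₀ ≤ q.2 * η := by
  have c1 : (⌊t₀ / η⌋ : ℝ) * η ≤ t₀ := by
    have := Int.floor_le (t₀ / η)
    rwa [le_div_iff₀ hη] at this
  have c2 : t₀ < ((⌊t₀ / η⌋ : ℝ) + 1) * η := by
    have := (Int.lt_floor_add_one (t₀ / η))
    rwa [div_lt_iff₀ hη] at this
  have hact : act K η z ⌊t₀ / η⌋ := by
    intro t ht
    apply (hbox t _).1
    constructor
    · nlinarith [ht.1]
    · nlinarith [ht.2]
  obtain ⟨q, hq, hq1, hq2⟩ := exists_run hη h.K_bdd hact
  have hq1' : (q.1 : ℝ) ≤ (⌊t₀ / η⌋ : ℝ) := by exact_mod_cast hq1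
  have hq2' : (⌊t₀ / η⌋ : ℝ) + 1 ≤ (q.2 : ℝ) := by exact_mod_cast hq2
  refine ⟨q, hq, ?_, ?_, ?_⟩
  · by_contra hcon
    push Not at hcon
    have hlt : (q.1 : ℝ) * η < q.2 * η := by
      have : (q.1 : ℝ) < q.2 := by exact_mod_cast hq.1
      nlinarith
    have hq2t : t₀ < q.2 * η := lt_of_lt_of_le c2 (by nlinarith)
    have hin : (z, max ((q.1 : ℝ) * η) (-t₀)) ∈ K := by
      apply run_subset hη hq (le_max_left _ _)
      apply max_le hlt.le
      linarith
    have hout := (hbox (-(max ((q.1 : ℝ) * η) (-t₀))) ⟨by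
      have : max ((q.1 : ℝ) * η) (-t₀) < -(t₀ - δ₀) := max_lt hcon (by linarith)
      linarith, by
      have := le_max_right ((q.1 : ℝ) * η) (-t₀)
      linarith⟩).2
    rw [neg_neg] at hout
    exact hout hin
  · have hina := hq.2.2.1
    unfold act at hina
    push Not at hina
    obtain ⟨t', ht', htK⟩ := hina
    push_cast at ht'
    by_contra hcon
    push Not at hcon
    apply htK
    apply (hbox t' _).1
    constructor
    · nlinarith [ht'.1]
    · nlinarith [ht'.2]
  · have hina := hq.2.2.2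
    unfold act at hina
    push Not at hina
    obtain ⟨t', ht', htK⟩ := hina
    by_contra hcon
    push Not at hcon
    apply htK
    apply (hbox t' _).1
    constructor
    · nlinarith [ht'.1]
    · nlinarith [ht'.2]

include h hη hM hl hl1 in
theorem gain {z₀ : EuclideanSpace ℝ (Fin d)} {t₀ δ₀ k : ℝ} (hδ₀ : 0 < δ₀) (hδt : δ₀ ≤ t₀)
    (hηδ : η ≤ δ₀ / 4) (hk0 : 0 < k) (hl0 : 0 ≤ lam)
    (hk : ∀ ρ, 0 ≤ ρ → ρ ≤ R → k ≤ ps κ ρ (t₀ + δ₀ / 2) - ps κ ρ (t₀ - δ₀ / 2))
    (hbox : ∀ z ∈ ball z₀ δ₀, ∀ t ∈ Ioo (t₀ - δ₀) (t₀ + δ₀), (z, t) ∈ K ∧ (z, -t) ∉ K) :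
    tot (fun x => Fl K η M lam x * ENNReal.ofReal ((‖x.1‖ ^ 2 + x.2 ^ 2) ^ κ)) +
      ENNReal.ofReal (k * ((1 - lam) * (δ₀ / 2))) * volume (ball z₀ δ₀) ≤
    tot (fun x => Fl K η M 1 x * ENNReal.ofReal ((‖x.1‖ ^ 2 + x.2 ^ 2) ^ κ)) := by
  classical
  have hκ := h.hκ
  rw [mul_comm (ENNReal.ofReal _) (volume _), mul_comm (volume _), ← setLIntegral_const,
    ← lintegral_indicator measurableSet_ball]
  unfold tot
  rw [← lintegral_add_right _ (measurable_const.indicator measurableSet_ball)]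
  apply lintegral_mono
  intro z
  simp only
  rw [fiber_int hη hκ z lam, fiber_int hη hκ z 1]
  have hterm : ∀ q ∈ bx M, {z | run K η z q}.indicator
        (fun z => ENNReal.ofReal (II (ps κ ‖z‖) (cen η q) (hw η q) lam)) z ≤
      {z | run K η z q}.indicator
        (fun z => ENNReal.ofReal (II (ps κ ‖z‖) (cen η q) (hw η q) 1)) z := by
    intro q _
    by_cases hq : run K η z q
    · rw [indicator_of_mem (by exact hq), indicator_of_mem (by exact hq)]
      exact ENNReal.ofReal_le_ofReal (II_mono (ps_cont hκ _) (ps_mono hκ _) (hw_pos hη hq).le hl0 hl1)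
    · rw [indicator_of_notMem (by exact hq), indicator_of_notMem (by exact hq)]
  by_cases hz : z ∈ ball z₀ δ₀
  · rw [indicator_of_mem hz]
    obtain ⟨q, hq, g1, g2, g3⟩ := good_run h hη hδt hηδ (hbox z hz)
    have hqb := mem_bx h hη hM hq
    rw [← Finset.sum_erase_add _ _ hqb, ← Finset.sum_erase_add _ _ hqb, add_assoc]
    apply add_le_add
    · apply Finset.sum_le_sum
      intro q' hq'
      exact hterm q' (Finset.mem_of_mem_erase hq')
    · rw [indicator_of_mem (by exact hq), indicator_of_mem (by exact hq)]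
      have e1 := left_end η q
      have e2 := right_end η q
      have s1 := shift_bound h hη hl hl1 hq
      rw [abs_le] at s1
      have hc : δ₀ / 2 ≤ cen η q := by linarith
      have hII0 : 0 ≤ II (ps κ ‖z‖) (cen η q) (hw η q) lam := by
        unfold II
        apply intervalIntegral.integral_nonneg
        · have := hw_pos hη hq; linarith
        · intro t _; exact ps_nonneg _ _ _
      rw [← ENNReal.ofReal_add hII0 (by
        have : 0 ≤ 1 - lam := by linarith
        positivity)]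
      apply ENNReal.ofReal_le_ofReal
      have hzR : ‖z‖ ≤ R := (run_bound hη h.K_bdd hq).1.le
      have main := II_gain (f := ps κ ‖z‖) (c := cen η q) (w := hw η q) (lam := lam) (k := k)
        (ps_cont hκ _) (by linarith) hl1 (by
          intro t ht
          have b1 : ps κ ‖z‖ (t₀ + δ₀ / 2) ≤ ps κ ‖z‖ t := by
            apply ps_mono hκ
            rw [abs_of_nonneg (by linarith), abs_of_nonneg (by nlinarith [ht.1])]
            nlinarith [ht.1]
          have b2 : ps κ ‖z‖ (t - 2 * hw η q) ≤ ps κ ‖z‖ (t₀ - δ₀ / 2) := by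
            apply ps_mono hκ
            rw [abs_of_nonneg (by linarith : 0 ≤ t₀ - δ₀ / 2), abs_le]
            constructor
            · nlinarith [ht.1]
            · nlinarith [ht.2]
          have := hk ‖z‖ (norm_nonneg _) hzR
          linarith)
      have : k * ((1 - lam) * (δ₀ / 2)) ≤ k * ((1 - lam) * cen η q) := by
        have : 0 ≤ 1 - lam := by linarith
        gcongr
      linarith
  · rw [indicator_of_notMem hz, add_zero]
    exact Finset.sum_le_sum hterm

end facts

end StarIB
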