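import Pool.Agent.StarIB.RegFam
import Pool.Agent.StarIB.IIL

/-! # Module J: the slab inequality in the plane -/

open MeasureTheory Set Metric Module
open scoped ENNReal

namespace StarIB

open Classical in
theorem finrank_suppIn {e : Type} [Fintype e] (A : Set e) :
    finrank ℝ (suppIn A) = (Finset.univ.filter (fun j => j ∈ A)).card := by
  let _ : LinearOrder e := LinearOrder.lift' (Fintype.equivFin e) (Fintype.equivFin e).injective
  have h := finrank_span_lead (e := e) ((suppIn A : Submodule ℝ (e → ℝ)) : Set (e → ℝ)) (by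
    intro z hz z' hz' j _ _
    exact Submodule.sub_mem _ hz (Submodule.smul_mem _ _ hz'))
  rw [Submodule.span_eq] at h
  rw [h]
  congr 1
  ext j
  simp only [Finset.mem_filter, Finset.mem_univ, true_and]
  constructor
  · rintro ⟨z, hz, hzj⟩
    exact hz j hzj.1
  · intro hj
    refine ⟨Pi.single j 1, ?_, ?_, ?_⟩
    · intro k hk
      by_cases hkj : k = j
      · rw [hkj]; exact hj
      · simp [Pi.single_eq_of_ne hkj] at hk
    · simp
    · intro k hk
      by_cases hkj : k = j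
      · rw [hkj]
      · simp [Pi.single_eq_of_ne hkj] at hk

theorem finrank_ker_inf {V V' : Type*} [AddCommGroup V] [Module ℝ V] [FiniteDimensional ℝ V]
    [AddCommGroup V'] [Module ℝ V'] (L : V →ₗ[ℝ] V') (S : Submodule ℝ V) :
    finrank ℝ (Submodule.map L S) + finrank ℝ (LinearMap.ker L ⊓ S : Submodule ℝ V) =
      finrank ℝ S := by
  have h := LinearMap.finrank_range_add_finrank_ker (L.domRestrict S)
  have h1 : LinearMap.range (L.domRestrict S) = Submodule.map L S := by
    ext x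
    simp [LinearMap.mem_range, Submodule.mem_map]
  have h2 : finrank ℝ (LinearMap.ker (L.domRestrict S)) =
      finrank ℝ (LinearMap.ker L ⊓ S : Submodule ℝ V) := by
    rw [← Submodule.finrank_map_subtype_eq]
    have : (Submodule.map S.subtype (LinearMap.ker (L.domRestrict S))) = LinearMap.ker L ⊓ S := by
      ext x
      simp only [Submodule.mem_map, LinearMap.mem_ker, Submodule.mem_inf]
      constructor
      · rintro ⟨y, hy, rfl⟩
        exact ⟨hy, y.2⟩
      · rintro ⟨hx, hxS⟩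
        exact ⟨⟨x, hxS⟩, hx, rfl⟩
    rw [this]
  rw [h1, h2] at h
  exact h

/-- pairs of vertices -/
abbrev PP (k : ℕ) := {p : Fin k × Fin k // p.1 < p.2}

/-- `e_j - e_k` -/
noncomputable def dv {k : ℕ} (p : PP k) : Fin k → ℝ := Pi.single p.1.1 1 - Pi.single p.1.2 1

/-- boundary map -/
noncomputable def bd (k : ℕ) : (PP k → ℝ) →ₗ[ℝ] (Fin k → ℝ) := Fintype.linearCombination ℝ dv

/-- sum map -/
noncomputable def sm (k : ℕ) : (Fin k → ℝ) →ₗ[ℝ] ℝ := Fintype.linearCombination ℝ (fun _ => (1:ℝ))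

theorem map_bd_suppIn {k : ℕ} (G : Set (PP k)) :
    Submodule.map (bd k) (suppIn G) = Submodule.span ℝ (dv '' G) := by
  classical
  apply le_antisymm
  · rintro _ ⟨z, hz, rfl⟩
    rw [bd, Fintype.linearCombination_apply]
    apply Submodule.sum_mem
    intro p _
    by_cases hp : z p = 0
    · simp [hp]
    · exact Submodule.smul_mem _ _ (Submodule.subset_span ⟨p, hz p hp, rfl⟩)
  · rw [Submodule.span_le]
    rintro _ ⟨p, hp, rfl⟩
    refine ⟨Pi.single p 1, ?_, ?_⟩
    · intro q hq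
      by_cases hqp : q = p
      · rw [hqp]; exact hp
      · simp [Pi.single_eq_of_ne hqp] at hq
    · rw [bd, Fintype.linearCombination_apply_single]
      simp

open Classical in
theorem finrank_cycle {k : ℕ} (G : Set (PP k)) :
    finrank ℝ (Submodule.span ℝ (dv '' G)) +
      finrank ℝ (LinearMap.ker (bd k) ⊓ suppIn G : Submodule ℝ (PP k → ℝ)) =
      (Finset.univ.filter (fun p => p ∈ G)).card := by
  rw [← map_bd_suppIn, finrank_ker_inf, finrank_suppIn]

open Classical in
theorem finrank_sum {k : ℕ} (A : Set (Fin k)) :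
    finrank ℝ (LinearMap.ker (sm k) ⊓ suppIn A : Submodule ℝ (Fin k → ℝ)) =
      (Finset.univ.filter (fun j => j ∈ A)).card - 1 := by
  have h := finrank_ker_inf (sm k) (suppIn A)
  rw [finrank_suppIn] at h
  rcases A.eq_empty_or_nonempty with hA | ⟨j, hj⟩
  · have h3 : (Finset.univ.filter (fun j : Fin k => j ∈ A)).card = 0 := by
      rw [Finset.card_eq_zero, Finset.filter_eq_empty_iff]
      intro j _
      rw [hA]
      simp
    rw [h3] at h ⊢
    omega
  · have h1 : Submodule.map (sm k) (suppIn A) = ⊤ := by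
      rw [eq_top_iff]
      intro c _
      refine ⟨Pi.single j c, ?_, ?_⟩
      · intro q hq
        by_cases hqp : q = j
        · rw [hqp]; exact hj
        · simp [Pi.single_eq_of_ne hqp] at hq
      · rw [sm, Fintype.linearCombination_apply_single]
        simp
    rw [h1, finrank_top, finrank_self] at h
    omega

open Classical in
/-- number of pairs in a set of `N` elements -/
theorem card_pairs {k : ℕ} (A : Set (Fin k)) :
    (Finset.univ.filter (fun p : PP k => p.1.1 ∈ A ∧ p.1.2 ∈ A)).card =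
      (Finset.univ.filter (fun j => j ∈ A)).card.choose 2 := by
  set B : Finset (Fin k) := Finset.univ.filter (fun j => j ∈ A) with hB
  have h1 : (Finset.univ.filter (fun p : PP k => p.1.1 ∈ A ∧ p.1.2 ∈ A)).card =
      (B.offDiag.filter (fun p => p.1 < p.2)).card := by
    apply Finset.card_bij (fun p _ => p.1)
    · intro p hp
      have := p.2
      simp only [Finset.mem_filter, Finset.mem_univ, true_and] at hp
      simp [hB, hp.1, hp.2, p.2, ne_of_lt p.2]
    · intro p _ q _ h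
      exact Subtype.ext h
    · rintro ⟨a, b⟩ hp
      simp only [Finset.mem_filter, Finset.mem_offDiag, hB, Finset.mem_univ, true_and] at hp
      exact ⟨⟨(a, b), hp.2⟩, by simp [hp.1.1, hp.1.2.1], rfl⟩
  have h2 : (B.offDiag.filter (fun p => p.1 < p.2)).card =
      (B.offDiag.filter (fun p => ¬ p.1 < p.2)).card := by
    apply Finset.card_bij (fun p _ => p.swap)
    · rintro ⟨a, b⟩ hp
      simp only [Finset.mem_filter, Finset.mem_offDiag, Prod.swap_prod_mk] at hp ⊢
      exact ⟨⟨hp.1.2.1, hp.1.1, hp.1.2.2.symm⟩, not_lt.mpr hp.2.le⟩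
    · intro p _ q _ h
      exact Prod.swap_injective h
    · rintro ⟨a, b⟩ hp
      simp only [Finset.mem_filter, Finset.mem_offDiag] at hp
      refine ⟨(b, a), ?_, rfl⟩
      simp only [Finset.mem_filter, Finset.mem_offDiag]
      exact ⟨⟨hp.1.2.1, hp.1.1, hp.1.2.2.symm⟩, lt_of_le_of_ne (not_lt.mp hp.2) hp.1.2.2.symm⟩
  have h3 := Finset.card_filter_add_card_filter_not (s := B.offDiag) (fun p => p.1 < p.2)
  rw [← h2, Finset.offDiag_card] at h3
  rw [h1, Nat.choose_two_right]
  have h4 : B.card * (B.card - 1) = B.card * B.card - B.card := by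
    rw [Nat.mul_sub_one]
  rw [h4]
  omega

theorem choose_aux (n : ℕ) : (n - 1).choose 2 + (n - 1) = n.choose 2 := by
  rcases n with _ | n
  · simp
  · have := Nat.choose_succ_succ n 1
    simp only [Nat.add_sub_cancel]
    rw [show (2:ℕ) = 1 + 1 from rfl, Nat.choose_succ_succ n 1]
    simp
    omega

theorem meas_of_sets {X : Type*} [MeasurableSpace X] {ι : Type*} [Finite ι] (S : ι → Set X)
    (hS : ∀ i, MeasurableSet (S i)) (f : Set ι → ℝ≥0∞) :
    Measurable (fun x => f {i | x ∈ S i}) := by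
  have h1 : Measurable (fun x => {i | x ∈ S i}) := by
    rw [measurable_set_iff]
    intro i
    exact measurableSet_setOfPred.mp (hS i)
  have h2 : Measurable f := measurable_of_countable f
  exact h2.comp h1

theorem lintegral_layer (c : ℝ≥0∞) :
    ∫⁻ x in Ioi (0 : ℝ), {x : ℝ | ENNReal.ofReal x < c}.indicator (fun _ => (1 : ℝ≥0∞)) x = c := by
  have hm : MeasurableSet {x : ℝ | ENNReal.ofReal x < c} :=
    measurableSet_lt ENNReal.measurable_ofReal measurable_const
  rw [lintegral_indicator hm]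
  simp only [lintegral_const, Measure.restrict_apply MeasurableSet.univ, univ_inter, one_mul]
  rw [Measure.restrict_apply hm]
  rcases eq_or_ne c ∞ with hc | hc
  · have : {x : ℝ | ENNReal.ofReal x < c} ∩ Ioi 0 = Ioi 0 := by
      ext x; simp [hc]
    rw [this, hc, Real.volume_Ioi]
  · have : {x : ℝ | ENNReal.ofReal x < c} ∩ Ioi 0 = Ioo 0 c.toReal := by
      ext x
      simp only [mem_inter_iff, mem_ofPred_eq, mem_Ioi, mem_Ioo]
      constructor
      · rintro ⟨h1, h2⟩
        exact ⟨h2, (ENNReal.ofReal_lt_iff_lt_toReal h2.le hc).mp h1⟩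
      · rintro ⟨h1, h2⟩
        exact ⟨(ENNReal.ofReal_lt_iff_lt_toReal h1.le hc).mpr h2, h1⟩
    rw [this, Real.volume_Ioo, sub_zero, ENNReal.ofReal_toReal hc]

theorem span_W0 {k : ℕ} (I : Fin k → Set ℝ) (x : ℝ) :
    Submodule.span ℝ {z : Fin k → ℝ | z ∈ LinearMap.ker (sm k) ∧
       ENNReal.ofReal x < volume (⋂ j ∈ {j | z j ≠ 0}, I j)} =
    Submodule.span ℝ (dv '' {p : PP k | ENNReal.ofReal x < volume (I p.1.1 ∩ I p.1.2)}) := by
  classical
  apply le_antisymm
  · rw [Submodule.span_le]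
    rintro z ⟨hz, hcap⟩
    by_cases h0 : z = 0
    · rw [h0]; exact Submodule.zero_mem _
    · obtain ⟨j₀, hj₀⟩ : ∃ j, z j ≠ 0 := by
        by_contra hcon
        push Not at hcon
        exact h0 (funext hcon)
      have hsum : ∑ j, z j = 0 := by
        have : sm k z = 0 := hz
        rw [sm, Fintype.linearCombination_apply] at this
        simpa using this
      have hzz : z = ∑ j, z j • ((Pi.single j (1:ℝ) : Fin k → ℝ) - Pi.single j₀ 1) := by
        have h1 : ∑ j, z j • ((Pi.single j (1:ℝ) : Fin k → ℝ) - Pi.single j₀ 1) =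
            ∑ j, z j • (Pi.single j (1:ℝ) : Fin k → ℝ) - (∑ j, z j) • (Pi.single j₀ 1) := by
          rw [Finset.sum_smul, ← Finset.sum_sub_distrib]
          apply Finset.sum_congr rfl
          intro j _
          rw [smul_sub]
        rw [h1, hsum, zero_smul, sub_zero]
        ext i
        rw [Finset.sum_apply]
        simp [Pi.single_apply]
      have hpair : ∀ j, z j ≠ 0 → j ≠ j₀ → ENNReal.ofReal x < volume (I j ∩ I j₀) := by
        intro j hj _
        refine lt_of_lt_of_le hcap (measure_mono ?_)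
        intro t ht
        simp only [mem_iInter] at ht
        exact ⟨ht j hj, ht j₀ hj₀⟩
      rw [hzz]
      apply Submodule.sum_mem
      intro j _
      by_cases hj : z j = 0
      · simp [hj]
      by_cases hjj : j = j₀
      · simp [hjj]
      apply Submodule.smul_mem
      rcases lt_or_gt_of_ne hjj with hlt | hlt
      · apply Submodule.subset_span
        exact ⟨⟨(j, j₀), hlt⟩, hpair j hj hjj, rfl⟩
      · have : (Pi.single j (1:ℝ) : Fin k → ℝ) - Pi.single j₀ 1 =
            - dv (⟨(j₀, j), hlt⟩ : PP k) := by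
          simp [dv]
        rw [this]
        apply Submodule.neg_mem
        apply Submodule.subset_span
        refine ⟨⟨(j₀, j), hlt⟩, ?_, rfl⟩
        show ENNReal.ofReal x < volume (I j₀ ∩ I j)
        rw [inter_comm]
        exact hpair j hj hjj
  · rw [Submodule.span_le]
    rintro _ ⟨p, hp, rfl⟩
    apply Submodule.subset_span
    refine ⟨?_, ?_⟩
    · rw [LinearMap.mem_ker, sm, dv, map_sub]
      rw [Fintype.linearCombination_apply_single, Fintype.linearCombination_apply_single]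
      simp
    · refine lt_of_lt_of_le hp (measure_mono ?_)
      rintro t ⟨h1, h2⟩
      simp only [mem_iInter]
      intro j hj
      by_cases hj1 : j = p.1.1
      · rw [hj1]; exact h1
      by_cases hj2 : j = p.1.2
      · rw [hj2]; exact h2
      exfalso
      apply hj
      simp [dv, Pi.single_eq_of_ne hj1, Pi.single_eq_of_ne hj2]

open Classical in
theorem J1 {k : ℕ} (I : Fin k → Set ℝ)
    (hopen : ∀ j, IsOpen (I j)) (hconn : ∀ j, OrdConnected (I j))
    (hbdd : ∀ j, Bornology.IsBounded (I j)) :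
    ∫⁻ t : ℝ, (((Finset.univ.filter (fun j => t ∈ I j)).card - 1).choose 2 : ℝ≥0∞) =
      ∫⁻ x in Ioi (0 : ℝ), (finrank ℝ (LinearMap.ker (bd k) ⊓
        suppIn {p : PP k | ENNReal.ofReal x < volume (I p.1.1 ∩ I p.1.2)} :
          Submodule ℝ (PP k → ℝ)) : ℝ≥0∞) := by
  set N : ℝ → ℕ := fun t => (Finset.univ.filter (fun j => t ∈ I j)).card with hN
  set G : ℝ → Set (PP k) := fun x => {p : PP k | ENNReal.ofReal x < volume (I p.1.1 ∩ I p.1.2)}
    with hG
  have hImeas : ∀ j, MeasurableSet (I j) := fun j => (hopen j).measurableSet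
  -- (a)
  have ha : ∫⁻ t : ℝ, ((N t).choose 2 : ℝ≥0∞) =
      ∫⁻ x in Ioi (0 : ℝ), ((Finset.univ.filter (fun p => p ∈ G x)).card : ℝ≥0∞) := by
    have h1 : ∀ t, ((N t).choose 2 : ℝ≥0∞) =
        ∑ p : PP k, (I p.1.1 ∩ I p.1.2).indicator (fun _ => (1 : ℝ≥0∞)) t := by
      intro t
      rw [hN]
      have := card_pairs (k := k) {j | t ∈ I j}
      simp only [mem_ofPred_eq] at this
      rw [← this, Finset.card_filter]
      push_cast
      apply Finset.sum_congr rfl
      intro p _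
      rw [indicator_apply]
      rfl
    have h2 : ∀ x, ((Finset.univ.filter (fun p => p ∈ G x)).card : ℝ≥0∞) =
        ∑ p : PP k, {x : ℝ | ENNReal.ofReal x < volume (I p.1.1 ∩ I p.1.2)}.indicator
          (fun _ => (1 : ℝ≥0∞)) x := by
      intro x
      rw [Finset.card_filter]
      push_cast
      apply Finset.sum_congr rfl
      intro p _
      rw [indicator_apply]
      rfl
    simp_rw [h1, h2]
    rw [lintegral_finsetSum _ (fun p _ => measurable_const.indicator
      ((hImeas p.1.1).inter (hImeas p.1.2))), lintegral_finsetSum _ (fun p _ =>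
        measurable_const.indicator (measurableSet_lt ENNReal.measurable_ofReal measurable_const))]
    apply Finset.sum_congr rfl
    intro p _
    rw [lintegral_layer, lintegral_indicator ((hImeas p.1.1).inter (hImeas p.1.2))]
    simp
  -- (b)
  have hb : ∫⁻ t : ℝ, ((N t - 1 : ℕ) : ℝ≥0∞) =
      ∫⁻ x in Ioi (0 : ℝ), (finrank ℝ (Submodule.span ℝ (dv '' G x)) : ℝ≥0∞) := by
    have h1 := IIL (LinearMap.ker (sm k)) I hopen hconn hbdd
    have h2 : ∀ t : ℝ, (finrank ℝ (LinearMap.ker (sm k) ⊓ suppIn {j | t ∈ I j} :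
        Submodule ℝ (Fin k → ℝ)) : ℝ≥0∞) = ((N t - 1 : ℕ) : ℝ≥0∞) := by
      intro t
      rw [finrank_sum]
      rfl
    have h3 : ∀ x : ℝ, (finrank ℝ (Submodule.span ℝ {z : Fin k → ℝ | z ∈ LinearMap.ker (sm k) ∧
       ENNReal.ofReal x < volume (⋂ j ∈ {j | z j ≠ 0}, I j)}) : ℝ≥0∞) =
       (finrank ℝ (Submodule.span ℝ (dv '' G x)) : ℝ≥0∞) := by
      intro x
      rw [span_W0]
    simp_rw [h2, h3] at h1
    exact h1
  have hfin : ∫⁻ t : ℝ, ((N t - 1 : ℕ) : ℝ≥0∞) ≠ ∞ := by
    have h1 : ∫⁻ t : ℝ, ((N t - 1 : ℕ) : ℝ≥0∞) ≤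
        ∫⁻ t : ℝ, ∑ j, (I j).indicator (fun _ => (1 : ℝ≥0∞)) t := by
      apply lintegral_mono
      intro t
      show ((N t - 1 : ℕ) : ℝ≥0∞) ≤ ∑ j, (I j).indicator (fun _ => (1 : ℝ≥0∞)) t
      have h2 : ∑ j, (I j).indicator (fun _ => (1 : ℝ≥0∞)) t = (N t : ℝ≥0∞) := by
        show _ = ((Finset.univ.filter (fun j => t ∈ I j)).card : ℝ≥0∞)
        rw [Finset.card_filter]
        push_cast
        apply Finset.sum_congr rfl
        intro j _
        rw [indicator_apply]
      rw [h2]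
      exact_mod_cast Nat.sub_le _ _
    apply ne_top_of_le_ne_top _ h1
    rw [lintegral_finsetSum _ (fun j _ => measurable_const.indicator (hImeas j))]
    rw [ENNReal.sum_ne_top]
    intro j _
    rw [lintegral_indicator (hImeas j)]
    simp only [lintegral_const, Measure.restrict_apply MeasurableSet.univ, univ_inter, one_mul]
    exact (hbdd j).measure_lt_top.ne
  -- (c)
  have hc1 : (∫⁻ t : ℝ, (((N t - 1).choose 2 : ℕ) : ℝ≥0∞)) +
      (∫⁻ t : ℝ, ((N t - 1 : ℕ) : ℝ≥0∞)) =
      ∫⁻ t : ℝ, ((N t).choose 2 : ℝ≥0∞) := by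
    rw [← lintegral_add_left]
    · apply lintegral_congr
      intro t
      exact_mod_cast choose_aux (N t)
    · exact meas_of_sets I hImeas
        (fun A => ((((Finset.univ.filter (fun j => j ∈ A)).card - 1).choose 2 : ℕ) : ℝ≥0∞))
  have hGm : ∀ p : PP k, MeasurableSet {x : ℝ | ENNReal.ofReal x < volume (I p.1.1 ∩ I p.1.2)} :=
    fun p => measurableSet_lt ENNReal.measurable_ofReal measurable_const
  have hc2 : (∫⁻ x in Ioi (0 : ℝ), (finrank ℝ (LinearMap.ker (bd k) ⊓
        suppIn (G x) : Submodule ℝ (PP k → ℝ)) : ℝ≥0∞)) +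
        (∫⁻ x in Ioi (0 : ℝ), (finrank ℝ (Submodule.span ℝ (dv '' G x)) : ℝ≥0∞)) =
      ∫⁻ x in Ioi (0 : ℝ), ((Finset.univ.filter (fun p => p ∈ G x)).card : ℝ≥0∞) := by
    rw [← lintegral_add_left]
    · apply lintegral_congr
      intro x
      have h5 := finrank_cycle (G x)
      rw [add_comm] at h5
      have h6 : finrank ℝ (LinearMap.ker (bd k) ⊓ suppIn (G x) : Submodule ℝ (PP k → ℝ)) +
          finrank ℝ (Submodule.span ℝ (dv '' G x)) =
          (Finset.univ.filter (fun p => p ∈ G x)).card := by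
        convert h5
      exact_mod_cast h6
    · exact meas_of_sets (fun p : PP k => {x : ℝ | ENNReal.ofReal x <
        volume (I p.1.1 ∩ I p.1.2)}) hGm
        (fun A => (finrank ℝ (LinearMap.ker (bd k) ⊓ suppIn A : Submodule ℝ (PP k → ℝ)) : ℝ≥0∞))
  rw [ha, ← hc2, ← hb] at hc1
  exact (ENNReal.add_left_inj hfin).mp hc1

/-- number of slabs containing `y` -/
noncomputable def cnt {k : ℕ} (α : Fin k → Fin 2 → ℝ) (γ h : Fin k → ℝ) (lam : ℝ)
    (y : Fin 2 → ℝ) : ℕ :=
  Nat.card {j : Fin k | |∑ l, α j l * y l - lam * γ j| < h j}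

theorem vp_funUnique : @MeasurePreserving (Fin 1 → ℝ) ℝ _ _ (MeasurableEquiv.funUnique (Fin 1) ℝ)
    (@volume (Fin 1 → ℝ) (@MeasureSpace.pi (Fin 1) (Fin.fintype 1) (fun _ => ℝ) _)) volume := by
  have h := volume_preserving_funUnique (Fin 1) ℝ
  have e : (Unique.fintype : Fintype (Fin 1)) = Fin.fintype 1 := Subsingleton.elim _ _
  rw [e] at h
  exact h

theorem lintegral_fin_two (F : (Fin 2 → ℝ) → ℝ≥0∞) (hF : Measurable F) :
    ∫⁻ y, F y = ∫⁻ s : ℝ, ∫⁻ t : ℝ, F (Fin.cons t (fun _ => s)) := by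
  have h1 := (volume_preserving_piFinSuccAbove (fun _ : Fin 2 => ℝ) 0).symm
  rw [← h1.lintegral_comp hF]
  have h0 := lintegral_prod_symm (μ := (volume : Measure ℝ)) (ν := (volume : Measure (Fin 1 → ℝ)))
    (fun q => F ((MeasurableEquiv.piFinSuccAbove (fun _ : Fin 2 => ℝ) 0).symm q))
    (hF.comp (MeasurableEquiv.measurable _)).aemeasurable
  rw [Measure.volume_eq_prod]
  refine h0.trans ?_
  have h2 := vp_funUnique.symm
  have h3 : ∀ (t : ℝ) (τ : Fin 1 → ℝ),
      (MeasurableEquiv.piFinSuccAbove (fun _ : Fin 2 => ℝ) 0).symm (t, τ) = Fin.cons t τ := by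
    intro t τ
    simp [MeasurableEquiv.piFinSuccAbove, Fin.insertNthEquiv, Fin.insertNth_zero']
  simp_rw [h3]
  have h5 := h2.lintegral_comp_emb (MeasurableEquiv.measurableEmbedding _)
    (fun τ : Fin 1 → ℝ => ∫⁻ t : ℝ, F (Fin.cons t τ))
  exact h5.symm

section Main
variable {k : ℕ} (α : Fin k → Fin 2 → ℝ) (γ h : Fin k → ℝ) (r : Fin 2 → ℝ)

/-- slab `j` in the box -/
def RR (j : Fin k) (lam : ℝ) : Set (Fin 2 → ℝ) :=
  {y | |∑ l, α j l * y l - lam * γ j| < h j} ∩ {y | ∀ l, |y l| < r l}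

theorem RR_reg (j : Fin k) : IsReg 2 (fun lam => RR α γ h r j lam) :=
  (IsReg.single 2 (α j) (γ j) (h j)).inter (IsReg.box 2 r)

/-- fibre -/
def FI (lam : ℝ) (s : Fin 1 → ℝ) (j : Fin k) : Set ℝ := {t | Fin.cons t s ∈ RR α γ h r j lam}

theorem FI_open (lam : ℝ) (s : Fin 1 → ℝ) (j : Fin k) : IsOpen (FI α γ h r lam s j) :=
  (RR_reg α γ h r j).fiber_isOpen lam s

theorem FI_conn (lam : ℝ) (s : Fin 1 → ℝ) (j : Fin k) : OrdConnected (FI α γ h r lam s j) :=
  (RR_reg α γ h r j).fiber_ordConnected lam s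

theorem FI_bdd (lam : ℝ) (s : Fin 1 → ℝ) (j : Fin k) :
    Bornology.IsBounded (FI α γ h r lam s j) := by
  apply (Metric.isBounded_ball (x := (0 : ℝ)) (r := r 0)).subset
  rintro t ⟨_, ht⟩
  have := ht 0
  rw [mem_ball_zero_iff, Real.norm_eq_abs]
  exact this

/-- the set of `s` for which the intervals of the pair `p` have a common part longer than `x` -/
def EP (lam x : ℝ) (p : PP k) : Set (Fin 1 → ℝ) :=
  {s | ENNReal.ofReal x < volume (FI α γ h r lam s p.1.1 ∩ FI α γ h r lam s p.1.2)}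

theorem EP_reg (x : ℝ) (hx : 0 ≤ x) (p : PP k) : IsReg 1 (fun lam => EP α γ h r lam x p) :=
  IsReg.erode ((RR_reg α γ h r p.1.1).inter (RR_reg α γ h r p.1.2)) x hx

/-- the same set in `ℝ` -/
def EI (lam x : ℝ) (p : PP k) : Set ℝ := {s | (fun _ => s) ∈ EP α γ h r lam x p}

theorem EI_open (lam x : ℝ) (hx : 0 ≤ x) (p : PP k) : IsOpen (EI α γ h r lam x p) :=
  ((EP_reg α γ h r x hx p).isOpen lam).preimage (continuous_pi fun _ => continuous_id)

theorem EI_conn (lam x : ℝ) (hx : 0 ≤ x) (p : PP k) : OrdConnected (EI α γ h r lam x p) := by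
  obtain ⟨ι, _, α', γ', h', H⟩ := EP_reg α γ h r x hx p
  have H1 := H lam
  simp only [] at H1
  constructor
  intro a ha b hb c hc
  have ha' : (fun _ => a) ∈ EP α γ h r lam x p := ha
  have hb' : (fun _ => b) ∈ EP α γ h r lam x p := hb
  show (fun _ => c) ∈ EP α γ h r lam x p
  rw [H1] at ha' hb' ⊢
  intro j
  have h1 := ha' j
  have h2 := hb' j
  simp only [Finset.univ_unique, Fin.default_eq_zero, Fin.isValue, Finset.sum_singleton] at h1 h2 ⊢
  rw [abs_lt] at h1 h2 ⊢
  rcases le_total 0 (α' j 0) with hα | hα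
  · have h3 := mul_le_mul_of_nonneg_left hc.1 hα
    have h4 := mul_le_mul_of_nonneg_left hc.2 hα
    constructor <;> linarith
  · have h3 := mul_le_mul_of_nonpos_left hc.1 hα
    have h4 := mul_le_mul_of_nonpos_left hc.2 hα
    constructor <;> linarith

theorem EI_bdd (lam x : ℝ) (p : PP k) : Bornology.IsBounded (EI α γ h r lam x p) := by
  apply (Metric.isBounded_ball (x := (0 : ℝ)) (r := r 1)).subset
  intro s hs
  have hs' : ENNReal.ofReal x < volume (FI α γ h r lam (fun _ => s) p.1.1 ∩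
    FI α γ h r lam (fun _ => s) p.1.2) := hs
  have hne : (FI α γ h r lam (fun _ => s) p.1.1 ∩ FI α γ h r lam (fun _ => s) p.1.2).Nonempty := by
    by_contra hcon
    rw [Set.not_nonempty_iff_eq_empty] at hcon
    rw [hcon] at hs'
    simp at hs'
  obtain ⟨t, ⟨_, ht⟩, _⟩ := hne
  have := ht 1
  rw [mem_ball_zero_iff, Real.norm_eq_abs]
  exact this

theorem EI_vol_anti {lam lam' : ℝ} (h0 : 0 ≤ lam) (hl : lam ≤ lam') (x : ℝ) (hx : 0 ≤ x)
    (z : PP k → ℝ) :
    volume (⋂ p ∈ {p | z p ≠ 0}, EI α γ h r lam' x p) ≤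
      volume (⋂ p ∈ {p | z p ≠ 0}, EI α γ h r lam x p) := by
  have h1 : IsReg 1 (fun lam => ⋂ p : {p : PP k // z p ≠ 0}, EP α γ h r lam x p.1) :=
    IsReg.iInter (fun p => EP_reg α γ h r x hx p.1)
  have h2 := h1.volume_anti h0 hl
  have h3 : ∀ lam, volume (⋂ p ∈ {p | z p ≠ 0}, EI α γ h r lam x p) =
      volume (⋂ p : {p : PP k // z p ≠ 0}, EP α γ h r lam x p.1) := by
    intro lam
    have h4 := vp_funUnique.symm
    have h5 : volume ((MeasurableEquiv.funUnique (Fin 1) ℝ).symm ⁻¹'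
        (⋂ p : {p : PP k // z p ≠ 0}, EP α γ h r lam x p.1)) =
        volume (⋂ p : {p : PP k // z p ≠ 0}, EP α γ h r lam x p.1) :=
      h4.measure_preimage_emb (MeasurableEquiv.measurableEmbedding _)
        (⋂ p : {p : PP k // z p ≠ 0}, EP α γ h r lam x p.1)
    rw [← h5]
    congr 1
    ext s
    simp only [mem_iInter, mem_preimage, Subtype.forall]
    rfl
  rw [h3, h3]
  exact h2

end Main

theorem cnt_meas {k : ℕ} (α : Fin k → Fin 2 → ℝ) (γ h : Fin k → ℝ) (r : Fin 2 → ℝ) (lam : ℝ) :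
    ∀ j, MeasurableSet (RR α γ h r j lam) := fun j => ((RR_reg α γ h r j).isOpen lam).measurableSet

open Classical in
theorem slab_eq {k : ℕ} (α : Fin k → Fin 2 → ℝ) (γ h : Fin k → ℝ) (r : Fin 2 → ℝ) (lam : ℝ) :
    ∫⁻ y in {y : Fin 2 → ℝ | ∀ l, |y l| < r l}, ((cnt α γ h lam y - 1).choose 2 : ℝ≥0∞) =
    ∫⁻ x in Ioi (0 : ℝ), ∫⁻ x' in Ioi (0 : ℝ), (finrank ℝ (Submodule.span ℝ
        {z : PP k → ℝ | z ∈ LinearMap.ker (bd k) ∧
          ENNReal.ofReal x' < volume (⋂ p ∈ {p | z p ≠ 0}, EI α γ h r lam x p)}) : ℝ≥0∞) := by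
  have hbox : MeasurableSet {y : Fin 2 → ℝ | ∀ l, |y l| < r l} :=
    ((IsReg.box 2 r).isOpen 0).measurableSet
  rw [← lintegral_indicator hbox]
  have h1 : ∀ y, {y : Fin 2 → ℝ | ∀ l, |y l| < r l}.indicator
      (fun y => ((cnt α γ h lam y - 1).choose 2 : ℝ≥0∞)) y =
      (((Finset.univ.filter (fun j => y ∈ RR α γ h r j lam)).card - 1).choose 2 : ℝ≥0∞) := by
    intro y
    rw [indicator_apply]
    split_ifs with hy
    · congr 4
      rw [cnt, Nat.card_eq_card_toFinset]
      congr 1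
      ext j
      simp only [mem_toFinset, mem_ofPred_eq, Finset.mem_filter, Finset.mem_univ, true_and, RR,
        mem_inter_iff]
      constructor
      · intro hj; exact ⟨hj, hy⟩
      · intro hj; exact hj.1
    · have : (Finset.univ.filter (fun j => y ∈ RR α γ h r j lam)).card = 0 := by
        rw [Finset.card_eq_zero, Finset.filter_eq_empty_iff]
        intro j _ hj
        exact hy hj.2
      rw [this]
      simp
  simp_rw [h1]
  have hmeas : Measurable (fun y : Fin 2 → ℝ =>
      (((Finset.univ.filter (fun j => y ∈ RR α γ h r j lam)).card - 1).choose 2 : ℝ≥0∞)) :=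
    meas_of_sets (fun j => RR α γ h r j lam) (cnt_meas α γ h r lam)
      (fun A => ((((Finset.univ.filter (fun j => j ∈ A)).card - 1).choose 2 : ℕ) : ℝ≥0∞))
  rw [lintegral_fin_two _ hmeas]
  have h2 : ∀ s : ℝ, ∫⁻ t : ℝ, (((Finset.univ.filter (fun j =>
      (Fin.cons t (fun _ => s) : Fin 2 → ℝ) ∈ RR α γ h r j lam)).card - 1).choose 2 : ℝ≥0∞) =
      ∫⁻ x in Ioi (0 : ℝ), (finrank ℝ (LinearMap.ker (bd k) ⊓
        suppIn {p : PP k | s ∈ EI α γ h r lam x p} : Submodule ℝ (PP k → ℝ)) : ℝ≥0∞) := by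
    intro s
    exact J1 (FI α γ h r lam (fun _ => s)) (FI_open α γ h r lam _) (FI_conn α γ h r lam _)
      (FI_bdd α γ h r lam _)
  simp_rw [h2]
  rw [lintegral_lintegral_swap]
  · apply setLIntegral_congr_fun measurableSet_Ioi
    intro x hx
    exact IIL (LinearMap.ker (bd k)) (EI α γ h r lam x) (EI_open α γ h r lam x (le_of_lt hx))
      (EI_conn α γ h r lam x (le_of_lt hx)) (EI_bdd α γ h r lam x)
  · apply Measurable.aemeasurable
    have hV : ∀ p : PP k, Measurable (fun s : ℝ => volume (FI α γ h r lam (fun _ => s) p.1.1 ∩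
        FI α γ h r lam (fun _ => s) p.1.2)) := by
      intro p
      have hset : MeasurableSet {q : ℝ × ℝ | (Fin.cons q.2 (fun _ => q.1) : Fin 2 → ℝ) ∈
          RR α γ h r p.1.1 lam ∩ RR α γ h r p.1.2 lam} := by
        apply ((cnt_meas α γ h r lam p.1.1).inter (cnt_meas α γ h r lam p.1.2)).preimage
        rw [measurable_pi_iff]
        intro l
        refine Fin.cases ?_ (fun l => ?_) l
        · simpa using measurable_snd
        · simpa using measurable_fst
      exact measurable_measure_prodMk_left hset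
    exact meas_of_sets (fun p : PP k => {q : ℝ × ℝ | ENNReal.ofReal q.2 <
        volume (FI α γ h r lam (fun _ => q.1) p.1.1 ∩ FI α γ h r lam (fun _ => q.1) p.1.2)})
        (fun p => measurableSet_lt (ENNReal.measurable_ofReal.comp measurable_snd)
          ((hV p).comp measurable_fst))
        (fun A => (finrank ℝ (LinearMap.ker (bd k) ⊓ suppIn A : Submodule ℝ (PP k → ℝ)) : ℝ≥0∞))

theorem slab_ineq {k : ℕ} (α : Fin k → Fin 2 → ℝ) (γ h : Fin k → ℝ) (r : Fin 2 → ℝ)
    {lam lam' : ℝ} (h0 : 0 ≤ lam) (hl : lam ≤ lam') :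
    ∫⁻ y in {y : Fin 2 → ℝ | ∀ l, |y l| < r l}, ((cnt α γ h lam' y - 1).choose 2 : ℝ≥0∞) ≤
      ∫⁻ y in {y : Fin 2 → ℝ | ∀ l, |y l| < r l}, ((cnt α γ h lam y - 1).choose 2 : ℝ≥0∞) := by
  rw [slab_eq, slab_eq]
  apply setLIntegral_mono' measurableSet_Ioi
  intro x hx
  apply lintegral_mono
  intro x'
  have : finrank ℝ (Submodule.span ℝ
        {z : PP k → ℝ | z ∈ LinearMap.ker (bd k) ∧
          ENNReal.ofReal x' < volume (⋂ p ∈ {p | z p ≠ 0}, EI α γ h r lam' x p)}) ≤
      finrank ℝ (Submodule.span ℝ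
        {z : PP k → ℝ | z ∈ LinearMap.ker (bd k) ∧
          ENNReal.ofReal x' < volume (⋂ p ∈ {p | z p ≠ 0}, EI α γ h r lam x p)}) := by
    apply Submodule.finrank_mono
    apply Submodule.span_mono
    rintro z ⟨hz, hz2⟩
    exact ⟨hz, lt_of_lt_of_le hz2 (EI_vol_anti α γ h r h0 hl x (le_of_lt hx) z)⟩
  exact Nat.cast_le.mpr this

end StarIB
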