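import Pool.Agent.StarIB.Def

/-! # Module G: families of intersections of moving slabs -/

open MeasureTheory Set Metric Module
open scoped ENNReal RealInnerProductSpace

namespace StarIB

theorem IsReg.single (m : ℕ) (α : Fin m → ℝ) (γ h : ℝ) :
    IsReg m (fun lam => {y | |∑ k, α k * y k - lam * γ| < h}) :=
  ⟨Unit, inferInstance, fun _ => α, fun _ => γ, fun _ => h, fun lam => by
    ext y; simp⟩

theorem IsReg.iInter {m : ℕ} {κ : Type} [Finite κ] {R : κ → ℝ → Set (Fin m → ℝ)}
    (hR : ∀ k, IsReg m (R k)) : IsReg m (fun lam => ⋂ k, R k lam) := by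
  have : Fintype κ := Fintype.ofFinite κ
  choose ι hι α γ h H using hR
  refine ⟨Σ k, ι k, inferInstance, fun j => α j.1 j.2, fun j => γ j.1 j.2, fun j => h j.1 j.2, ?_⟩
  intro lam
  ext y
  simp only [Set.mem_iInter, H, Set.mem_ofPred_eq]
  constructor
  · rintro h1 ⟨k, j⟩
    exact h1 k j
  · intro h1 k j
    exact h1 ⟨k, j⟩

theorem IsReg.inter {m : ℕ} {R R' : ℝ → Set (Fin m → ℝ)} (h : IsReg m R) (h' : IsReg m R') :
    IsReg m (fun lam => R lam ∩ R' lam) := by
  have h1 : IsReg m (fun lam => ⋂ b : Bool, (Bool.rec (R lam) (R' lam) b : Set (Fin m → ℝ))) := by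
    apply IsReg.iInter (κ := Bool) (R := fun b lam => (Bool.rec (R lam) (R' lam) b))
    rintro (_ | _)
    · exact h
    · exact h'
  obtain ⟨ι, hι, α, γ, h0, H⟩ := h1
  refine ⟨ι, hι, α, γ, h0, fun lam => ?_⟩
  rw [← H lam]
  ext y
  simp only [Set.mem_inter_iff, Set.mem_iInter, Bool.forall_bool]

/-- static boxes -/
theorem IsReg.box (m : ℕ) (r : Fin m → ℝ) : IsReg m (fun _ => {y | ∀ k, |y k| < r k}) := by
  classical
  refine ⟨Fin m, inferInstance, fun j k => if k = j then 1 else 0, fun _ => 0, r, fun lam => ?_⟩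
  ext y
  simp

theorem IsReg.isOpen {m : ℕ} {R : ℝ → Set (Fin m → ℝ)} (h : IsReg m R) (lam : ℝ) :
    IsOpen (R lam) := by
  obtain ⟨ι, hι, α, γ, h0, H⟩ := h
  rw [H lam]
  have : {y : Fin m → ℝ | ∀ j, |∑ k, α j k * y k - lam * γ j| < h0 j} =
      ⋂ j, {y : Fin m → ℝ | |∑ k, α j k * y k - lam * γ j| < h0 j} := by
    ext y; simp
  rw [this]
  refine isOpen_iInter_of_finite fun j => ?_
  exact isOpen_lt (by fun_prop) continuous_const

theorem continuous_cons {m : ℕ} (y : Fin m → ℝ) :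
    Continuous (fun t : ℝ => (Fin.cons t y : Fin (m + 1) → ℝ)) := by
  refine continuous_pi fun k => ?_
  refine Fin.cases ?_ (fun k => ?_) k
  · exact continuous_id
  · exact continuous_const

/-- fibres in the first variable are open intervals -/
theorem IsReg.fiber_isOpen {m : ℕ} {R : ℝ → Set (Fin (m + 1) → ℝ)} (h : IsReg (m + 1) R)
    (lam : ℝ) (y : Fin m → ℝ) : IsOpen {t : ℝ | Fin.cons t y ∈ R lam} :=
  (h.isOpen lam).preimage (continuous_cons y)

theorem slab_cons {m : ℕ} (α : Fin (m + 1) → ℝ) (g : ℝ) (t : ℝ) (y : Fin m → ℝ) :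
    ∑ k, α k * (Fin.cons t y : Fin (m + 1) → ℝ) k - g =
      α 0 * t + (∑ k : Fin m, α k.succ * y k - g) := by
  rw [Fin.sum_univ_succ]
  simp only [Fin.cons_zero, Fin.cons_succ]
  ring

theorem IsReg.fiber_ordConnected {m : ℕ} {R : ℝ → Set (Fin (m + 1) → ℝ)} (h : IsReg (m + 1) R)
    (lam : ℝ) (y : Fin m → ℝ) : OrdConnected {t : ℝ | Fin.cons t y ∈ R lam} := by
  obtain ⟨ι, hι, α, γ, h0, H⟩ := h
  constructor
  intro t1 ht1 t2 ht2 t ht
  simp only [H, Set.mem_ofPred_eq, slab_cons] at ht1 ht2 ⊢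
  intro j
  have a1 := abs_lt.1 (ht1 j)
  have a2 := abs_lt.1 (ht2 j)
  rw [abs_lt]
  rcases le_total 0 (α j 0) with h1 | h1
  · have b1 := mul_le_mul_of_nonneg_left ht.1 h1
    have b2 := mul_le_mul_of_nonneg_left ht.2 h1
    constructor <;> linarith [a1.1, a2.2]
  · have b1 := mul_le_mul_of_nonpos_left ht.1 h1
    have b2 := mul_le_mul_of_nonpos_left ht.2 h1
    constructor <;> linarith [a1.2, a2.1]

/-- Helly's theorem in dimension one, quantitative form. -/
theorem helly_one {ι : Type} [Fintype ι] (a c h : ι → ℝ) (x : ℝ) (hx : 0 ≤ x) :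
    ENNReal.ofReal x < volume {t : ℝ | ∀ j, |a j * t + c j| < h j} ↔
      (∀ j, a j = 0 → |c j| < h j) ∧
      ∀ j k, a j ≠ 0 → a k ≠ 0 → |c j / a j - c k / a k| < h j / |a j| + h k / |a k| - x := by
  classical
  by_cases h0 : ∀ j, a j = 0 → |c j| < h j
  swap
  · push Not at h0
    obtain ⟨j, hj, hj'⟩ := h0
    have : {t : ℝ | ∀ j, |a j * t + c j| < h j} = ∅ := by
      ext t
      simp only [Set.mem_ofPred_eq, Set.mem_empty_iff_false, iff_false]
      intro ht
      have := ht j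
      rw [hj, zero_mul, zero_add] at this
      linarith
    rw [this, measure_empty]
    simp only [not_lt_zero, false_iff, not_and]
    intro h1
    exact absurd (h1 j hj) (not_lt.2 hj')
  rw [and_iff_right h0]
  have hequiv : ∀ j, a j ≠ 0 → ∀ t : ℝ, (|a j * t + c j| < h j ↔
      -(c j / a j) - h j / |a j| < t ∧ t < -(c j / a j) + h j / |a j|) := by
    intro j hj t
    have h1 : a j * t + c j = a j * (t + c j / a j) := by field_simp
    have h2 : 0 < |a j| := abs_pos.2 hj
    rw [h1, abs_mul, ← lt_div_iff₀' h2, abs_lt]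
    constructor <;> rintro ⟨h3, h4⟩ <;> constructor <;> linarith
  set J := Finset.univ.filter (fun j => a j ≠ 0) with hJ
  by_cases hne : J.Nonempty
  swap
  · have hall : ∀ j, a j = 0 := by
      intro j
      by_contra hj
      exact hne ⟨j, by simp [hJ, hj]⟩
    have : {t : ℝ | ∀ j, |a j * t + c j| < h j} = Set.univ := by
      ext t
      simp only [Set.mem_ofPred_eq, Set.mem_univ, iff_true]
      intro j
      rw [hall j, zero_mul, zero_add]
      exact h0 j (hall j)
    rw [this, Real.volume_univ]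
    simp only [ENNReal.ofReal_lt_top, true_iff]
    intro j k hj
    exact absurd (hall j) hj
  set Lo := J.sup' hne (fun j => -(c j / a j) - h j / |a j|) with hLo
  set Up := J.inf' hne (fun j => -(c j / a j) + h j / |a j|) with hUp
  have hF : {t : ℝ | ∀ j, |a j * t + c j| < h j} = Set.Ioo Lo Up := by
    ext t
    simp only [Set.mem_ofPred_eq, Set.mem_Ioo]
    rw [hLo, hUp, Finset.sup'_lt_iff, Finset.lt_inf'_iff]
    constructor
    · intro ht
      exact ⟨fun j hj => ((hequiv j (by simpa [hJ] using hj) t).1 (ht j)).1,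
        fun j hj => ((hequiv j (by simpa [hJ] using hj) t).1 (ht j)).2⟩
    · rintro ⟨h1, h2⟩ j
      by_cases hj : a j = 0
      · rw [hj, zero_mul, zero_add]
        exact h0 j hj
      · have hjJ : j ∈ J := by simp [hJ, hj]
        exact (hequiv j hj t).2 ⟨h1 j hjJ, h2 j hjJ⟩
  rw [hF, Real.volume_Ioo, ENNReal.ofReal_lt_ofReal_iff_of_nonneg hx]
  have h1 : x < Up - Lo ↔ Lo + x < Up := by constructor <;> intro h <;> linarith
  rw [h1, hUp, Finset.lt_inf'_iff]
  constructor
  · intro h2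
    have key : ∀ j k, a j ≠ 0 → a k ≠ 0 →
        c j / a j - c k / a k < h j / |a j| + h k / |a k| - x := by
      intro j k hj hk
      have hjJ : j ∈ J := by simp [hJ, hj]
      have hkJ : k ∈ J := by simp [hJ, hk]
      have h3 := h2 j hjJ
      have h4 : -(c k / a k) - h k / |a k| ≤ Lo :=
        Finset.le_sup' (fun j => -(c j / a j) - h j / |a j|) hkJ
      linarith
    intro j k hj hk
    rw [abs_lt]
    have := key j k hj hk
    have := key k j hk hj
    constructor <;> linarith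
  · intro h2 j hjJ
    have hj : a j ≠ 0 := by simpa [hJ] using hjJ
    have h3 : Lo < -(c j / a j) + h j / |a j| - x := by
      rw [hLo, Finset.sup'_lt_iff]
      intro k hkJ
      have hk : a k ≠ 0 := by simpa [hJ] using hkJ
      have := (abs_lt.1 (h2 j k hj hk)).2
      linarith
    linarith

/-- Helly in dimension one: the set of `y` for which the fibre over `y` is longer than `x` is
again an intersection of moving slabs. -/
theorem IsReg.erode {m : ℕ} {R : ℝ → Set (Fin (m + 1) → ℝ)} (h : IsReg (m + 1) R)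
    (x : ℝ) (hx : 0 ≤ x) :
    IsReg m (fun lam =>
      {y | ENNReal.ofReal x < volume {t : ℝ | (Fin.cons t y : Fin (m + 1) → ℝ) ∈ R lam}}) := by
  classical
  obtain ⟨ι, hι, α, γ, h0, H⟩ := h
  refine ⟨{j // α j 0 = 0} ⊕ ({j // α j 0 ≠ 0} × {j // α j 0 ≠ 0}), inferInstance,
    Sum.elim (fun j k => α j.1 k.succ)
      (fun p k => α p.1.1 k.succ / α p.1.1 0 - α p.2.1 k.succ / α p.2.1 0),
    Sum.elim (fun j => γ j.1) (fun p => γ p.1.1 / α p.1.1 0 - γ p.2.1 / α p.2.1 0),
    Sum.elim (fun j => h0 j.1) (fun p => h0 p.1.1 / |α p.1.1 0| + h0 p.2.1 / |α p.2.1 0| - x), ?_⟩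
  intro lam
  ext y
  simp only [Set.mem_ofPred_eq]
  have e1 : {t : ℝ | (Fin.cons t y : Fin (m + 1) → ℝ) ∈ R lam} =
      {t : ℝ | ∀ j, |α j 0 * t + (∑ k : Fin m, α j k.succ * y k - lam * γ j)| < h0 j} := by
    ext t
    simp only [H, Set.mem_ofPred_eq, slab_cons]
  rw [e1, helly_one (fun j => α j 0) (fun j => ∑ k : Fin m, α j k.succ * y k - lam * γ j) h0 x hx]
  rw [Sum.forall]
  simp only [Sum.elim_inl, Sum.elim_inr]
  constructor
  · rintro ⟨h1, h2⟩
    refine ⟨fun j => h1 j.1 j.2, fun p => ?_⟩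
    have h3 := h2 p.1.1 p.2.1 p.1.2 p.2.2
    have e2 : ∑ k : Fin m, (α p.1.1 k.succ / α p.1.1 0 - α p.2.1 k.succ / α p.2.1 0) * y k -
        lam * (γ p.1.1 / α p.1.1 0 - γ p.2.1 / α p.2.1 0) =
        (∑ k : Fin m, α p.1.1 k.succ * y k - lam * γ p.1.1) / α p.1.1 0 -
        (∑ k : Fin m, α p.2.1 k.succ * y k - lam * γ p.2.1) / α p.2.1 0 := by
      rw [sub_div, sub_div, Finset.sum_div, Finset.sum_div]
      have : ∀ k : Fin m, (α p.1.1 k.succ / α p.1.1 0 - α p.2.1 k.succ / α p.2.1 0) * y k =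
          α p.1.1 k.succ * y k / α p.1.1 0 - α p.2.1 k.succ * y k / α p.2.1 0 := by
        intro k; ring
      rw [Finset.sum_congr rfl fun k _ => this k, Finset.sum_sub_distrib]
      ring
    rw [e2]
    exact h3
  · rintro ⟨h1, h2⟩
    refine ⟨fun j hj => h1 ⟨j, hj⟩, fun j k hj hk => ?_⟩
    have h3 := h2 (⟨j, hj⟩, ⟨k, hk⟩)
    simp only [] at h3
    have e2 : ∑ i : Fin m, (α j i.succ / α j 0 - α k i.succ / α k 0) * y i -
        lam * (γ j / α j 0 - γ k / α k 0) =
        (∑ i : Fin m, α j i.succ * y i - lam * γ j) / α j 0 -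
        (∑ i : Fin m, α k i.succ * y i - lam * γ k) / α k 0 := by
      rw [sub_div, sub_div, Finset.sum_div, Finset.sum_div]
      have : ∀ i : Fin m, (α j i.succ / α j 0 - α k i.succ / α k 0) * y i =
          α j i.succ * y i / α j 0 - α k i.succ * y i / α k 0 := by
        intro i; ring
      rw [Finset.sum_congr rfl fun i _ => this i, Finset.sum_sub_distrib]
      ring
    rw [e2] at h3
    exact h3

theorem volume_levels (v : ℝ≥0∞) : volume {x : ℝ | 0 < x ∧ ENNReal.ofReal x < v} = v := by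
  by_cases hv : v = ⊤
  · have : {x : ℝ | 0 < x ∧ ENNReal.ofReal x < v} = Set.Ioi 0 := by
      ext x; simp [hv]
    rw [this, Real.volume_Ioi, hv]
  · have : {x : ℝ | 0 < x ∧ ENNReal.ofReal x < v} = Set.Ioo 0 v.toReal := by
      ext x
      simp only [Set.mem_ofPred_eq, Set.mem_Ioo]
      constructor
      · rintro ⟨h1, h2⟩
        exact ⟨h1, (ENNReal.ofReal_lt_iff_lt_toReal h1.le hv).1 h2⟩
      · rintro ⟨h1, h2⟩
        exact ⟨h1, (ENNReal.ofReal_lt_iff_lt_toReal h1.le hv).2 h2⟩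
    rw [this, Real.volume_Ioo, sub_zero, ENNReal.ofReal_toReal hv]

/-- Layer cake over the fibres. -/
theorem volume_eq_lintegral_levels {m : ℕ} {S : Set (Fin (m + 1) → ℝ)} (hS : MeasurableSet S) :
    volume S = ∫⁻ x : ℝ, volume {y : Fin m → ℝ | 0 < x ∧
      ENNReal.ofReal x < volume {t : ℝ | (Fin.cons t y : Fin (m + 1) → ℝ) ∈ S}} := by
  have mp := (volume_preserving_piFinSuccAbove (fun _ : Fin (m + 1) => ℝ) 0).symm
  set e := MeasurableEquiv.piFinSuccAbove (fun _ : Fin (m + 1) => ℝ) 0 with he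
  have hm : MeasurableSet (e.symm ⁻¹' S) := e.symm.measurable hS
  have hcons : ∀ (t : ℝ) (y : Fin m → ℝ), e.symm (t, y) = (Fin.cons t y : Fin (m + 1) → ℝ) := by
    intro t y
    rw [he, MeasurableEquiv.piFinSuccAbove_symm_apply]
    simp [Fin.insertNthEquiv]
  have h1 : volume S = ∫⁻ y : Fin m → ℝ, volume {t : ℝ | (Fin.cons t y : Fin (m + 1) → ℝ) ∈ S} := by
    rw [← mp.measure_preimage hS.nullMeasurableSet]
    rw [Measure.volume_eq_prod, Measure.prod_apply_symm hm]
    refine lintegral_congr fun y => ?_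
    congr 1
    ext t
    simp only [Set.mem_preimage, Set.mem_ofPred_eq, hcons]
  have hg : Measurable fun y : Fin m → ℝ =>
      volume {t : ℝ | (Fin.cons t y : Fin (m + 1) → ℝ) ∈ S} := by
    have h2 := measurable_measure_prodMk_right (μ := (volume : Measure ℝ)) hm
    have h5 : (fun y : Fin m → ℝ => volume {t : ℝ | (Fin.cons t y : Fin (m + 1) → ℝ) ∈ S}) =
        fun y : Fin m → ℝ => volume ((fun x : ℝ => (x, y)) ⁻¹' (e.symm ⁻¹' S)) := by
      funext y
      congr 1
      ext t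
      simp only [Set.mem_preimage, Set.mem_ofPred_eq, hcons]
    rw [h5]
    exact h2
  rw [h1]
  have hT : MeasurableSet {p : (Fin m → ℝ) × ℝ | 0 < p.2 ∧ ENNReal.ofReal p.2 <
      volume {t : ℝ | (Fin.cons t p.1 : Fin (m + 1) → ℝ) ∈ S}} := by
    refine (measurableSet_lt measurable_const measurable_snd).inter ?_
    exact measurableSet_lt (ENNReal.measurable_ofReal.comp measurable_snd) (hg.comp measurable_fst)
  have h3 := Measure.prod_apply (μ := (volume : Measure (Fin m → ℝ)))
    (ν := (volume : Measure ℝ)) hT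
  have h4 := Measure.prod_apply_symm (μ := (volume : Measure (Fin m → ℝ)))
    (ν := (volume : Measure ℝ)) hT
  rw [h3] at h4
  calc ∫⁻ y : Fin m → ℝ, volume {t : ℝ | (Fin.cons t y : Fin (m + 1) → ℝ) ∈ S}
      = ∫⁻ y : Fin m → ℝ, volume (Prod.mk y ⁻¹' {p : (Fin m → ℝ) × ℝ | 0 < p.2 ∧
          ENNReal.ofReal p.2 < volume {t : ℝ | (Fin.cons t p.1 : Fin (m + 1) → ℝ) ∈ S}}) := by
        refine lintegral_congr fun y => ?_
        exact (volume_levels _).symm
    _ = _ := h4

/-- the volume is a nonincreasing function of `λ ≥ 0` -/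
theorem IsReg.volume_anti {m : ℕ} {R : ℝ → Set (Fin m → ℝ)} (h : IsReg m R)
    {lam lam' : ℝ} (h0 : 0 ≤ lam) (hl : lam ≤ lam') : volume (R lam') ≤ volume (R lam) := by
  induction m with
  | zero =>
    apply measure_mono
    obtain ⟨ι, hι, α, γ, h1, H⟩ := h
    intro y hy
    rw [H] at hy ⊢
    intro j
    refine lt_of_le_of_lt ?_ (hy j)
    simp only [Finset.univ_eq_empty, Finset.sum_empty, zero_sub, abs_neg, abs_mul]
    rw [abs_of_nonneg h0, abs_of_nonneg (h0.trans hl)]
    exact mul_le_mul_of_nonneg_right hl (abs_nonneg _)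
  | succ m ih =>
    rw [volume_eq_lintegral_levels (h.isOpen lam').measurableSet,
      volume_eq_lintegral_levels (h.isOpen lam).measurableSet]
    refine lintegral_mono fun x => ?_
    by_cases hx : 0 < x
    · have := ih (h.erode x hx.le)
      simpa only [hx, true_and] using this
    · simp [hx]

end StarIB
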