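import Pool.Agent.StarIB.SymS

/-! # Module F1: the duality identity (★) in the chart `y ↦ {(z,⟨z,y⟩)}` of hyperplanes -/

open MeasureTheory Set Metric Module
open scoped ENNReal RealInnerProductSpace

namespace StarIB

namespace StarAux

/-- the cut-off `1_{[1,2]}` -/
noncomputable def kap (r : ℝ) : ℝ≥0∞ := (Icc (1 : ℝ) 2).indicator (fun _ => 1) r

lemma measurable_kap : Measurable kap := measurable_const.indicator measurableSet_Icc

/-- the constant -/
noncomputable def KK (d : ℕ) : ℝ≥0∞ := ∫⁻ r in Ioi (0 : ℝ), ENNReal.ofReal (r ^ (d - 1)) * kap r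

lemma lintegral_kap : ∫⁻ r in Ioi (0 : ℝ), kap r = 1 := by
  unfold kap
  rw [lintegral_indicator measurableSet_Icc, Measure.restrict_restrict measurableSet_Icc]
  have : Icc (1 : ℝ) 2 ∩ Ioi 0 = Icc 1 2 := by
    apply inter_eq_left.2
    intro x hx
    exact lt_of_lt_of_le one_pos hx.1
  rw [this]
  simp
  norm_num

lemma KK_ne_zero (d : ℕ) : KK d ≠ 0 := by
  have h : (1 : ℝ≥0∞) ≤ KK d := by
    rw [← lintegral_kap]
    unfold KK
    apply lintegral_mono
    intro r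
    by_cases hr : r ∈ Icc (1 : ℝ) 2
    · have : (1 : ℝ≥0∞) ≤ ENNReal.ofReal (r ^ (d - 1)) := by
        rw [← ENNReal.ofReal_one]
        exact ENNReal.ofReal_le_ofReal (one_le_pow₀ hr.1)
      calc kap r = 1 * kap r := (one_mul _).symm
        _ ≤ ENNReal.ofReal (r ^ (d - 1)) * kap r := by gcongr
    · simp [kap, hr]
  intro h0
  rw [h0] at h
  simp at h

lemma KK_ne_top (d : ℕ) : KK d ≠ ∞ := by
  have h : KK d ≤ ENNReal.ofReal (2 ^ (d - 1)) := by
    calc KK d ≤ ∫⁻ r in Ioi (0 : ℝ), ENNReal.ofReal (2 ^ (d - 1)) * kap r := by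
          unfold KK
          apply lintegral_mono
          intro r
          by_cases hr : r ∈ Icc (1 : ℝ) 2
          · dsimp only
            gcongr
            · linarith [hr.1]
            · exact hr.2
          · simp [kap, hr]
      _ = ENNReal.ofReal (2 ^ (d - 1)) := by
          rw [lintegral_const_mul _ measurable_kap, lintegral_kap, mul_one]
  exact ne_top_of_le_ne_top ENNReal.ofReal_ne_top h

section scaling

variable {E : Type*} [NormedAddCommGroup E] [InnerProductSpace ℝ E] [FiniteDimensional ℝ E]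
  [MeasurableSpace E] [BorelSpace E]

lemma lintegral_smul' (f : E → ℝ≥0∞) (hf : Measurable f) {R : ℝ} (hR : R ≠ 0) :
    ∫⁻ x : E, f (R • x) = ENNReal.ofReal |(R ^ finrank ℝ E)⁻¹| * ∫⁻ x : E, f x := by
  rw [← lintegral_map hf (measurable_const_smul R), Measure.map_addHaar_smul volume hR,
    lintegral_smul_measure, smul_eq_mul]

lemma lintegral_subst (f : E → ℝ≥0∞) (hf : Measurable f) {R : ℝ} (hR : R ≠ 0) :
    ∫⁻ x : E, f x = ENNReal.ofReal (|R| ^ finrank ℝ E) * ∫⁻ x : E, f (R • x) := by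
  rw [lintegral_smul' f hf hR, ← mul_assoc, ← ENNReal.ofReal_mul (by positivity), abs_inv, abs_pow,
    mul_inv_cancel₀ (by positivity), ENNReal.ofReal_one, one_mul]

end scaling

lemma line (d : ℕ) : ∫⁻ s : ℝ, ENNReal.ofReal (|s| ^ (d - 1)) * kap |s| = 2 * KK d := by
  set g : ℝ → ℝ≥0∞ := (Ioi (0 : ℝ)).indicator (fun s => ENNReal.ofReal (s ^ (d - 1)) * kap s)
    with hg
  have hgm : Measurable g := by
    apply Measurable.indicator _ measurableSet_Ioi
    exact (by fun_prop : Measurable fun s : ℝ => ENNReal.ofReal (s ^ (d - 1))).mul measurable_kap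
  have hgi : ∫⁻ s, g s = KK d := by
    rw [hg, lintegral_indicator measurableSet_Ioi, KK]
  have h1 : ∀ᵐ s : ℝ, ENNReal.ofReal (|s| ^ (d - 1)) * kap |s| = g s + g (-s) := by
    have h0 : ∀ᵐ s : ℝ, s ≠ 0 := by
      simp [ae_iff]
    filter_upwards [h0] with s hs
    rcases lt_or_gt_of_ne hs with h | h
    · rw [abs_of_neg h, hg, indicator_of_notMem (by simp [h.le]), indicator_of_mem (by simp [h]),
        zero_add]
    · rw [abs_of_pos h, hg, indicator_of_mem (by simpa using h), indicator_of_notMem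
        (by simp [h.le]), add_zero]
  rw [lintegral_congr_ae h1, lintegral_add_left hgm,
    (Measure.measurePreserving_neg (volume : Measure ℝ)).lintegral_comp hgm, hgi, two_mul]

lemma line_scaled (d : ℕ) (hd : 1 ≤ d) {ρ : ℝ} (hρ : 0 < ρ) :
    ∫⁻ s : ℝ, ENNReal.ofReal (|s| ^ (d - 1)) * kap (|s| * ρ) =
      ENNReal.ofReal ((ρ ^ d)⁻¹) * (2 * KK d) := by
  have hm : Measurable fun s : ℝ => ENNReal.ofReal (|s| ^ (d - 1)) * kap |s| :=
    (by fun_prop : Measurable fun s : ℝ => ENNReal.ofReal (|s| ^ (d - 1))).mul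
      (measurable_kap.comp (by fun_prop))
  have h := lintegral_smul' (fun s : ℝ => ENNReal.ofReal (|s| ^ (d - 1)) * kap |s|) hm hρ.ne'
  rw [line] at h
  have h2 : ∀ s : ℝ, ENNReal.ofReal (|s| ^ (d - 1)) * kap (|s| * ρ) =
      ENNReal.ofReal ((ρ ^ (d - 1))⁻¹) *
        (ENNReal.ofReal (|ρ • s| ^ (d - 1)) * kap |ρ • s|) := by
    intro s
    have e : |ρ • s| = |s| * ρ := by rw [smul_eq_mul, abs_mul, abs_of_pos hρ, mul_comm]
    rw [e, ← mul_assoc, ← ENNReal.ofReal_mul (by positivity), mul_pow]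
    congr 2
    field_simp
  simp_rw [h2]
  have hm2 : Measurable fun s : ℝ => ENNReal.ofReal (|ρ • s| ^ (d - 1)) * kap |ρ • s| :=
    (by fun_prop : Measurable fun s : ℝ => ENNReal.ofReal (|ρ • s| ^ (d - 1))).mul
      (measurable_kap.comp (by fun_prop))
  rw [lintegral_const_mul _ hm2, h, ← mul_assoc, ← ENNReal.ofReal_mul (by positivity)]
  congr 2
  rw [finrank_self, pow_one, abs_of_pos (by positivity : (0 : ℝ) < ρ⁻¹), ← mul_inv,
    ← pow_succ, Nat.sub_add_cancel hd]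

end StarAux

open StarAux

variable {F : Type*} [NormedAddCommGroup F] [InnerProductSpace ℝ F] [FiniteDimensional ℝ F]
  [MeasurableSpace F] [BorelSpace F]

/-- (★) -/
theorem star_identity (hF : 1 ≤ finrank ℝ F) (a : WithLp 2 (F × ℝ) → ℝ≥0∞) (ha : Measurable a)
    (hom : ∀ x, x ≠ 0 → ∀ s : ℝ, s ≠ 0 → a (s • x) = a x)
    (φ : F × ℝ → ℝ≥0∞) (hφ : Measurable φ) :
    ∫⁻ y : F, ENNReal.ofReal ((1 + ‖y‖ ^ 2) ^ (-(finrank ℝ F : ℝ) / 2)) *
        a (WithLp.toLp 2 (y, -1)) * ∫⁻ z : F, φ (z, ⟪z, y⟫) =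
      2⁻¹ * ∫⁻ z : F, ∫⁻ t : ℝ, φ (z, t) *
        (ENNReal.ofReal ((√(‖z‖ ^ 2 + t ^ 2))⁻¹) * lsph a (WithLp.toLp 2 (z, t))) := by
  set d := finrank ℝ F with hd
  have hfr : finrank ℝ (WithLp 2 (F × ℝ)) = d + 1 := by
    rw [LinearEquiv.finrank_eq (WithLp.linearEquiv 2 ℝ (F × ℝ)), finrank_prod, finrank_self]
  have hE : 2 ≤ finrank ℝ (WithLp 2 (F × ℝ)) := by omega
  have hmto : Measurable (WithLp.toLp 2 : F × ℝ → WithLp 2 (F × ℝ)) :=
    (WithLp.volume_preserving_toLp F ℝ).measurable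
  have hmof : Measurable (WithLp.ofLp : WithLp 2 (F × ℝ) → F × ℝ) :=
    (WithLp.volume_preserving_ofLp F ℝ).measurable
  have hnorm : ∀ (z : F) (t : ℝ), ‖(WithLp.toLp 2 (z, t) : WithLp 2 (F × ℝ))‖ =
      √(‖z‖ ^ 2 + t ^ 2) := by
    intro z t
    rw [WithLp.prod_norm_eq_of_L2]
    simp
  -- the kernel
  set Θ : WithLp 2 (F × ℝ) → WithLp 2 (F × ℝ) → ℝ≥0∞ :=
    fun w x => a w * kap ‖w‖ * φ (WithLp.ofLp x) with hΘ
  have hΘm : Measurable (Function.uncurry Θ) := by
    apply Measurable.mul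
    · exact (ha.comp measurable_fst).mul (measurable_kap.comp (measurable_norm.comp measurable_fst))
    · exact hφ.comp (hmof.comp measurable_snd)
  have hsymm := orth_symm hE Θ hΘm
  -- G
  set G : F → ℝ≥0∞ := fun y => ∫⁻ z : F, φ (z, ⟪z, y⟫) with hG
  have hGm : Measurable G := by
    apply Measurable.lintegral_prod_right
    apply hφ.comp
    apply Measurable.prodMk measurable_snd
    exact Measurable.inner measurable_snd measurable_fst
  -- LHS
  set M : F × ℝ → ℝ≥0∞ := fun p => ENNReal.ofReal (|p.2|⁻¹) *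
    (a (WithLp.toLp 2 p) * kap (√(‖p.1‖ ^ 2 + p.2 ^ 2)) * G (-(p.2)⁻¹ • p.1)) with hM
  have hMm : Measurable M := by
    apply Measurable.mul
    · fun_prop
    · apply Measurable.mul
      · apply Measurable.mul
        · exact ha.comp hmto
        · exact measurable_kap.comp (by fun_prop)
      · exact hGm.comp (by fun_prop)
  have hL : ∫⁻ w : WithLp 2 (F × ℝ), ENNReal.ofReal (‖w‖⁻¹) * ∫⁻ x : (ℝ ∙ w)ᗮ, Θ w x =
      2 * KK d * ∫⁻ y : F, ENNReal.ofReal ((1 + ‖y‖ ^ 2) ^ (-(d : ℝ) / 2)) *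
        a (WithLp.toLp 2 (y, -1)) * G y := by
    have h1 : ∫⁻ w : WithLp 2 (F × ℝ), ENNReal.ofReal (‖w‖⁻¹) * ∫⁻ x : (ℝ ∙ w)ᗮ, Θ w x =
        ∫⁻ p : F × ℝ, ENNReal.ofReal (‖(WithLp.toLp 2 p : WithLp 2 (F × ℝ))‖⁻¹) *
          ∫⁻ x : (ℝ ∙ (WithLp.toLp 2 p : WithLp 2 (F × ℝ)))ᗮ, Θ (WithLp.toLp 2 p) x :=
      (WithLp.volume_preserving_symm_measurableEquiv_toLp_prod F ℝ).symm.lintegral_map_equiv
        (fun w => ENNReal.ofReal (‖w‖⁻¹) * ∫⁻ x : (ℝ ∙ w)ᗮ, Θ w x)
        (MeasurableEquiv.toLp 2 (F × ℝ))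
    have hae : ∀ᵐ p : F × ℝ, p.2 ≠ 0 := by
      have h0 : ∀ᵐ s : ℝ, s ≠ 0 := by simp [ae_iff]
      rw [Measure.volume_eq_prod]
      exact (Measure.quasiMeasurePreserving_snd (μ := (volume : Measure F))
        (ν := (volume : Measure ℝ))).ae h0
    have h2 : ∀ᵐ p : F × ℝ, ENNReal.ofReal (‖(WithLp.toLp 2 p : WithLp 2 (F × ℝ))‖⁻¹) *
          ∫⁻ x : (ℝ ∙ (WithLp.toLp 2 p : WithLp 2 (F × ℝ)))ᗮ, Θ (WithLp.toLp 2 p) x = M p := by
      filter_upwards [hae] with p hp
      obtain ⟨w', s⟩ := p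
      have hs : s ≠ 0 := hp
      have hpos : 0 < √(‖w'‖ ^ 2 + s ^ 2) := Real.sqrt_pos.2 (by positivity)
      rw [lintegral_orth_prod w' s hs (fun x => Θ (WithLp.toLp 2 (w', s)) x)
        (hΘm.comp measurable_prodMk_left)]
      have e1 : ∀ z : F, Θ (WithLp.toLp 2 (w', s)) (WithLp.toLp 2 (z, -⟪w', z⟫ / s)) =
          (a (WithLp.toLp 2 (w', s)) * kap (√(‖w'‖ ^ 2 + s ^ 2))) *
            φ (z, ⟪z, -(s)⁻¹ • w'⟫) := by
        intro z
        simp only [hΘ]
        rw [hnorm, inner_smul_right, real_inner_comm]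
        congr 3
        field_simp
      simp_rw [e1]
      have hmφ : Measurable fun z : F => φ (z, ⟪z, -(s)⁻¹ • w'⟫) := by
        apply hφ.comp
        exact Measurable.prodMk measurable_id (Measurable.inner measurable_id measurable_const)
      rw [lintegral_const_mul _ hmφ, hnorm, ← mul_assoc,
        ← ENNReal.ofReal_mul (by positivity)]
      simp only [hM, hG]
      congr 2
      field_simp
    rw [h1, lintegral_congr_ae h2, Measure.volume_eq_prod, lintegral_prod_symm' _ hMm]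
    have h3 : ∀ᵐ s : ℝ, ∫⁻ w' : F, M (w', s) = ∫⁻ y : F, ENNReal.ofReal (|s| ^ (d - 1)) *
        kap (|s| * √(1 + ‖y‖ ^ 2)) * (a (WithLp.toLp 2 (y, -1)) * G y) := by
      have h0 : ∀ᵐ s : ℝ, s ≠ 0 := by simp [ae_iff]
      filter_upwards [h0] with s hs
      rw [lintegral_subst (fun w' : F => M (w', s)) (hMm.comp measurable_prodMk_right)
        (neg_ne_zero.2 hs), ← lintegral_const_mul]
      · apply lintegral_congr
        intro y
        simp only [hM]
        have e1 : (WithLp.toLp 2 (-s • y, s) : WithLp 2 (F × ℝ)) =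
            (-s) • (WithLp.toLp 2 (y, (-1 : ℝ)) : WithLp 2 (F × ℝ)) := by
          rw [← WithLp.toLp_smul]
          simp
        have e2 : (WithLp.toLp 2 (y, (-1 : ℝ)) : WithLp 2 (F × ℝ)) ≠ 0 := by
          intro h
          have := congrArg WithLp.snd h
          simp at this
        have e3 : √(‖-s • y‖ ^ 2 + s ^ 2) = |s| * √(1 + ‖y‖ ^ 2) := by
          rw [norm_smul, norm_neg, Real.norm_eq_abs, mul_pow, sq_abs,
            show s ^ 2 * ‖y‖ ^ 2 + s ^ 2 = s ^ 2 * (1 + ‖y‖ ^ 2) by ring,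
            Real.sqrt_mul (sq_nonneg s), Real.sqrt_sq_eq_abs]
        have e4 : -s⁻¹ • (-s • y) = y := by
          rw [smul_smul]
          have : -s⁻¹ * -s = 1 := by field_simp
          rw [this, one_smul]
        rw [e1, hom _ e2 _ (neg_ne_zero.2 hs), e3, e4, abs_neg, ← mul_assoc,
          ← ENNReal.ofReal_mul (by positivity)]
        have e5 : |s| ^ d * |s|⁻¹ = |s| ^ (d - 1) := by
          have : d = (d - 1) + 1 := (Nat.sub_add_cancel hF).symm
          rw [this, pow_succ]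
          have : |s| ≠ 0 := abs_ne_zero.2 hs
          simp only [Nat.add_sub_cancel]
          field_simp
        rw [e5]
        ring
      · exact hMm.comp (by fun_prop : Measurable fun y : F => ((-s) • y, s))
    rw [lintegral_congr_ae h3, lintegral_lintegral_swap]
    · have h4 : ∀ y : F, ∫⁻ s : ℝ, ENNReal.ofReal (|s| ^ (d - 1)) *
          kap (|s| * √(1 + ‖y‖ ^ 2)) * (a (WithLp.toLp 2 (y, -1)) * G y) =
          2 * KK d * (ENNReal.ofReal ((1 + ‖y‖ ^ 2) ^ (-(d : ℝ) / 2)) *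
            a (WithLp.toLp 2 (y, -1)) * G y) := by
        intro y
        have hρ : 0 < √(1 + ‖y‖ ^ 2) := Real.sqrt_pos.2 (by positivity)
        rw [lintegral_mul_const, line_scaled d hF hρ]
        · have e6 : (√(1 + ‖y‖ ^ 2) ^ d)⁻¹ = (1 + ‖y‖ ^ 2) ^ (-(d : ℝ) / 2) := by
            rw [Real.sqrt_eq_rpow, ← Real.rpow_natCast, ← Real.rpow_mul (by positivity),
              ← Real.rpow_neg (by positivity)]
            congr 1
            ring
          rw [e6]
          ring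
        · exact (by fun_prop : Measurable fun s : ℝ => ENNReal.ofReal (|s| ^ (d - 1))).mul
            (measurable_kap.comp (by fun_prop))
      simp_rw [h4]
      rw [lintegral_const_mul]
      apply Measurable.mul
      · exact (by fun_prop : Measurable fun y : F =>
          ENNReal.ofReal ((1 + ‖y‖ ^ 2) ^ (-(d : ℝ) / 2))).mul (ha.comp (hmto.comp (by fun_prop)))
      · exact hGm
    · apply Measurable.aemeasurable
      apply Measurable.mul
      · apply Measurable.mul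
        · fun_prop
        · exact measurable_kap.comp
            (by fun_prop : Measurable fun p : ℝ × F => |p.1| * √(1 + ‖p.2‖ ^ 2))
      · exact ((ha.comp (hmto.comp (by fun_prop : Measurable fun y : F => (y, (-1 : ℝ))))).mul
          hGm).comp measurable_snd
  -- RHS
  have hR : ∫⁻ w : WithLp 2 (F × ℝ), ENNReal.ofReal (‖w‖⁻¹) * ∫⁻ x : (ℝ ∙ w)ᗮ, Θ x w =
      KK d * ∫⁻ z : F, ∫⁻ t : ℝ, φ (z, t) *
        (ENNReal.ofReal ((√(‖z‖ ^ 2 + t ^ 2))⁻¹) * lsph a (WithLp.toLp 2 (z, t))) := by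
    have hΨ : AEMeasurable (fun w : WithLp 2 (F × ℝ) => ∫⁻ x : (ℝ ∙ w)ᗮ, Θ x w) := by
      apply aemeasurable_orth hE (fun w x => Θ x w)
      exact hΘm.comp measurable_swap
    have hN : AEMeasurable (fun w : WithLp 2 (F × ℝ) =>
        ENNReal.ofReal (‖w‖⁻¹) * ∫⁻ x : (ℝ ∙ w)ᗮ, Θ x w) := by
      exact (Measurable.aemeasurable (by fun_prop)).mul hΨ
    have h1 : ∫⁻ w : WithLp 2 (F × ℝ), ENNReal.ofReal (‖w‖⁻¹) * ∫⁻ x : (ℝ ∙ w)ᗮ, Θ x w =
        ∫⁻ p : F × ℝ, ENNReal.ofReal (‖(WithLp.toLp 2 p : WithLp 2 (F × ℝ))‖⁻¹) *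
          ∫⁻ x : (ℝ ∙ (WithLp.toLp 2 p : WithLp 2 (F × ℝ)))ᗮ, Θ x (WithLp.toLp 2 p) :=
      (WithLp.volume_preserving_symm_measurableEquiv_toLp_prod F ℝ).symm.lintegral_map_equiv
        (fun w => ENNReal.ofReal (‖w‖⁻¹) * ∫⁻ x : (ℝ ∙ w)ᗮ, Θ x w)
        (MeasurableEquiv.toLp 2 (F × ℝ))
    have hN' : AEMeasurable (fun p : F × ℝ =>
        ENNReal.ofReal (‖(WithLp.toLp 2 p : WithLp 2 (F × ℝ))‖⁻¹) *
          ∫⁻ x : (ℝ ∙ (WithLp.toLp 2 p : WithLp 2 (F × ℝ)))ᗮ, Θ x (WithLp.toLp 2 p))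
        ((volume : Measure F).prod (volume : Measure ℝ)) := by
      rw [← Measure.volume_eq_prod]
      exact hN.comp_quasiMeasurePreserving
        (WithLp.volume_preserving_toLp F ℝ).quasiMeasurePreserving
    rw [h1, Measure.volume_eq_prod, lintegral_prod _ hN', ← lintegral_const_mul' _ _ (KK_ne_top d)]
    apply lintegral_congr_ae
    have : Nontrivial F := nontrivial_of_finrank_pos (R := ℝ) (by omega)
    have h0 : ∀ᵐ z : F, z ≠ 0 := by
      simp [ae_iff]
    filter_upwards [h0] with z hz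
    rw [← lintegral_const_mul' _ _ (KK_ne_top d)]
    apply lintegral_congr
    intro t
    have hw : (WithLp.toLp 2 (z, t) : WithLp 2 (F × ℝ)) ≠ 0 := by
      intro h
      have := congrArg WithLp.fst h
      exact hz (by simpa using this)
    have e1 : ∫⁻ x : (ℝ ∙ (WithLp.toLp 2 (z, t) : WithLp 2 (F × ℝ)))ᗮ, Θ x (WithLp.toLp 2 (z, t)) =
        (lsph a (WithLp.toLp 2 (z, t)) * KK d) * φ (z, t) := by
      have e2 : ∀ x : (ℝ ∙ (WithLp.toLp 2 (z, t) : WithLp 2 (F × ℝ)))ᗮ,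
          Θ x (WithLp.toLp 2 (z, t)) =
          (a (x : WithLp 2 (F × ℝ)) * kap ‖(x : WithLp 2 (F × ℝ))‖) * φ (z, t) := fun x => rfl
      simp_rw [e2]
      rw [lintegral_mul_const, lintegral_orth_polar hE _ hw a ha (fun x hx s hs => hom x hx s hs.ne')
        kap measurable_kap]
      · have : finrank ℝ (WithLp 2 (F × ℝ)) - 2 = d - 1 := by omega
        rw [this, KK]
      · exact (ha.comp measurable_subtype_coe).mul
          (measurable_kap.comp (measurable_norm.comp measurable_subtype_coe))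
    rw [e1, hnorm]
    ring
  rw [hL, hR] at hsymm
  have hK0 := KK_ne_zero d
  have hKt := KK_ne_top d
  rw [mul_comm (2 : ℝ≥0∞), mul_assoc] at hsymm
  have h5 := (ENNReal.mul_right_inj hK0 hKt).1 hsymm
  rw [← h5, ← mul_assoc, ENNReal.inv_mul_cancel (by norm_num) (by norm_num), one_mul]

end StarIB
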