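import Pool.Agent.StarIB.VF

/-! # Module C: the symmetric identity (S) -/

open MeasureTheory Set Metric Module
open scoped ENNReal RealInnerProductSpace

namespace StarIB

section SymH

variable {F : Type*} [NormedAddCommGroup F] [InnerProductSpace ℝ F] [FiniteDimensional ℝ F]
  [MeasurableSpace F] [BorelSpace F]

/-- one-dimensional substitution `s = -k/t` -/
theorem lintegral_subst_negdiv (k : ℝ) (hk : k ≠ 0) (G : ℝ → ℝ≥0∞) :
    ∫⁻ b : ℝ, ENNReal.ofReal (|b|⁻¹) * G b =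
      ∫⁻ t : ℝ, ENNReal.ofReal (|t|⁻¹) * G (-k / t) := by
  have h0 : ∀ g : ℝ → ℝ≥0∞, ∫⁻ x in ({0}ᶜ : Set ℝ), g x = ∫⁻ x, g x := by
    intro g
    rw [Measure.restrict_congr_set (t := univ), Measure.restrict_univ]
    exact (MeasureTheory.ae_eq_univ.mpr (by simp))
  have himg : (fun t : ℝ => -k / t) '' ({0}ᶜ : Set ℝ) = ({0}ᶜ : Set ℝ) := by
    ext x
    simp only [mem_image, mem_compl_iff, mem_singleton_iff]
    constructor
    · rintro ⟨t, ht, rfl⟩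
      exact div_ne_zero (neg_ne_zero.mpr hk) ht
    · intro hx
      refine ⟨-k / x, div_ne_zero (neg_ne_zero.mpr hk) hx, ?_⟩
      field_simp
  have hinj : InjOn (fun t : ℝ => -k / t) ({0}ᶜ : Set ℝ) := by
    intro x hx y hy hxy
    simp only [mem_compl_iff, mem_singleton_iff] at hx hy
    simp only at hxy
    rw [div_eq_div_iff hx hy] at hxy
    have : -k * y = -k * x := hxy
    exact (mul_left_cancel₀ (neg_ne_zero.mpr hk) this).symm
  have hder : ∀ x ∈ ({0}ᶜ : Set ℝ), HasDerivWithinAt (fun t : ℝ => -k / t) (k / x ^ 2)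
      ({0}ᶜ : Set ℝ) x := by
    intro x hx
    have hx' : x ≠ 0 := hx
    have h1 : HasDerivAt (fun t : ℝ => -k * t⁻¹) (-k * (-(x ^ 2)⁻¹)) x :=
      (hasDerivAt_inv hx').const_mul (-k)
    have h2 : HasDerivAt (fun t : ℝ => -k / t) (k / x ^ 2) x := by
      have e : -k * (-(x ^ 2)⁻¹) = k / x ^ 2 := by
        rw [div_eq_mul_inv]
        ring
      rw [← e]
      simpa only [div_eq_mul_inv] using h1
    exact h2.hasDerivWithinAt
  have hmain := lintegral_image_eq_lintegral_abs_deriv_mul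
    (measurableSet_singleton (0 : ℝ)).compl hder hinj (fun b => ENNReal.ofReal (|b|⁻¹) * G b)
  rw [himg, h0] at hmain
  rw [hmain, ← h0 (fun t => ENNReal.ofReal (|t|⁻¹) * G (-k / t))]
  refine setLIntegral_congr_fun (measurableSet_singleton (0 : ℝ)).compl ?_
  intro t ht
  have ht' : t ≠ 0 := ht
  have ht0 : |t| ≠ 0 := abs_ne_zero.mpr ht'
  have hk0 : |k| ≠ 0 := abs_ne_zero.mpr hk
  simp only
  rw [← mul_assoc, ← ENNReal.ofReal_mul (abs_nonneg _)]
  congr 2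
  rw [abs_div, abs_div, abs_neg, abs_pow]
  field_simp

theorem measurable_toLp2 : Measurable (fun p : F × ℝ => (WithLp.toLp 2 p : WithLp 2 (F × ℝ))) :=
  (WithLp.volume_preserving_toLp F ℝ).measurable

omit [InnerProductSpace ℝ F] [FiniteDimensional ℝ F] in
theorem measurable_fst2 : Measurable (fun w : WithLp 2 (F × ℝ) => w.fst) := by
  have : Continuous (fun w : WithLp 2 (F × ℝ) => w.fst) := by fun_prop
  exact this.measurable

omit [InnerProductSpace ℝ F] [FiniteDimensional ℝ F] in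
theorem measurable_snd2 : Measurable (fun w : WithLp 2 (F × ℝ) => w.snd) := by
  have : Continuous (fun w : WithLp 2 (F × ℝ) => w.snd) := by fun_prop
  exact this.measurable

theorem ae_snd_ne_zero : ∀ᵐ w : WithLp 2 (F × ℝ), w.snd ≠ 0 := by
  have hms : MeasurableSet {w : WithLp 2 (F × ℝ) | w.snd = 0} :=
    measurable_snd2 (measurableSet_singleton (0 : ℝ))
  rw [ae_iff]
  simp only [ne_eq, not_not]
  rw [← lintegral_indicator_one hms, lintegral_prodLp _ (measurable_one.indicator hms)]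
  have : ∀ z : F, ∫⁻ t : ℝ, ({w : WithLp 2 (F × ℝ) | w.snd = 0}).indicator
      (1 : WithLp 2 (F × ℝ) → ℝ≥0∞)
      (WithLp.toLp 2 (z, t)) = 0 := by
    intro z
    have : (fun t : ℝ => ({w : WithLp 2 (F × ℝ) | w.snd = 0}).indicator
      (1 : WithLp 2 (F × ℝ) → ℝ≥0∞)
      (WithLp.toLp 2 (z, t))) = ({0} : Set ℝ).indicator 1 := by
      ext t
      simp only [indicator, mem_ofPred_eq, mem_singleton_iff, Pi.one_apply]
      rfl
    rw [this, lintegral_indicator_one (measurableSet_singleton (0 : ℝ))]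
    simp
  simp [this]

theorem measurable_kernel (Θ : WithLp 2 (F × ℝ) → WithLp 2 (F × ℝ) → ℝ≥0∞)
    (hΘ : Measurable (Function.uncurry Θ)) :
    Measurable (fun q : (F × F) × ℝ =>
      Θ (WithLp.toLp 2 (q.1.1, q.2)) (WithLp.toLp 2 (q.1.2, -⟪q.1.1, q.1.2⟫ / q.2))) := by
  have h1 : Measurable (fun q : (F × F) × ℝ => (WithLp.toLp 2 (q.1.1, q.2) : WithLp 2 (F × ℝ))) :=
    measurable_toLp2.comp (by fun_prop)
  have h2 : Measurable (fun q : (F × F) × ℝ =>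
      (WithLp.toLp 2 (q.1.2, -⟪q.1.1, q.1.2⟫ / q.2) : WithLp 2 (F × ℝ))) := by
    refine measurable_toLp2.comp ?_
    refine Measurable.prodMk (by fun_prop) ?_
    refine Measurable.div ?_ (by fun_prop)
    refine Measurable.neg ?_
    exact Measurable.inner (by fun_prop) (by fun_prop)
  exact hΘ.comp (h1.prodMk h2)

theorem measurable_kernel' (Θ : WithLp 2 (F × ℝ) → WithLp 2 (F × ℝ) → ℝ≥0∞)
    (hΘ : Measurable (Function.uncurry Θ)) :
    Measurable (fun w : WithLp 2 (F × ℝ) => ∫⁻ z : F, Θ w (WithLp.toLp 2 (z, -⟪w.fst, z⟫ / w.snd)))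
    := by
  have h := measurable_kernel Θ hΘ
  have h2 : Measurable (Function.uncurry (fun (w : WithLp 2 (F × ℝ)) (z : F) =>
      Θ w (WithLp.toLp 2 (z, -⟪w.fst, z⟫ / w.snd)))) := by
    have h3 : Measurable (fun p : WithLp 2 (F × ℝ) × F => (((p.1.fst, p.2), p.1.snd) :
        (F × F) × ℝ)) :=
      ((measurable_fst2.comp measurable_fst).prodMk measurable_snd).prodMk
        (measurable_snd2.comp measurable_fst)
    exact h.comp h3
  exact h2.lintegral_prod_right'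

/-- the inner integral in coordinates -/
theorem inner_eq (Θ : WithLp 2 (F × ℝ) → WithLp 2 (F × ℝ) → ℝ≥0∞)
    (hΘ : Measurable (Function.uncurry Θ)) (w : WithLp 2 (F × ℝ)) (hw : w.snd ≠ 0) :
    ∫⁻ x : (ℝ ∙ w)ᗮ, Θ w x = ENNReal.ofReal (‖w‖ / |w.snd|) *
      ∫⁻ z : F, Θ w (WithLp.toLp 2 (z, -⟪w.fst, z⟫ / w.snd)) := by
  have h := lintegral_orth_prod w.fst w.snd hw (Θ w) (hΘ.comp (measurable_const.prodMk measurable_id))
  have hn : √(‖w.fst‖ ^ 2 + w.snd ^ 2) = ‖w‖ := by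
    rw [WithLp.prod_norm_eq_of_L2]
    simp [Real.norm_eq_abs, sq_abs]
  rw [hn] at h
  exact h

theorem aemeasurable_orthH (Θ : WithLp 2 (F × ℝ) → WithLp 2 (F × ℝ) → ℝ≥0∞)
    (hΘ : Measurable (Function.uncurry Θ)) :
    AEMeasurable (fun w : WithLp 2 (F × ℝ) => ∫⁻ x : (ℝ ∙ w)ᗮ, Θ w x) := by
  refine AEMeasurable.congr (f := fun w : WithLp 2 (F × ℝ) => ENNReal.ofReal (‖w‖ / |w.snd|) *
      ∫⁻ z : F, Θ w (WithLp.toLp 2 (z, -⟪w.fst, z⟫ / w.snd))) ?_ ?_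
  · refine (Measurable.mul ?_ (measurable_kernel' Θ hΘ)).aemeasurable
    refine ENNReal.measurable_ofReal.comp ?_
    exact measurable_norm.div (continuous_abs.measurable.comp measurable_snd2)
  · filter_upwards [ae_snd_ne_zero] with w hw
    exact (inner_eq Θ hΘ w hw).symm

/-- the iterated integral in coordinates -/
theorem symH_coord (Θ : WithLp 2 (F × ℝ) → WithLp 2 (F × ℝ) → ℝ≥0∞)
    (hΘ : Measurable (Function.uncurry Θ)) :
    ∫⁻ w : WithLp 2 (F × ℝ), ENNReal.ofReal (‖w‖⁻¹) * ∫⁻ x : (ℝ ∙ w)ᗮ, Θ w x =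
      ∫⁻ a : F, ∫⁻ z : F, ∫⁻ b : ℝ, ENNReal.ofReal (|b|⁻¹) *
        Θ (WithLp.toLp 2 (a, b)) (WithLp.toLp 2 (z, -⟪a, z⟫ / b)) := by
  have hK := measurable_kernel Θ hΘ
  have h1 : ∫⁻ w : WithLp 2 (F × ℝ), ENNReal.ofReal (‖w‖⁻¹) * ∫⁻ x : (ℝ ∙ w)ᗮ, Θ w x =
      ∫⁻ w : WithLp 2 (F × ℝ), ENNReal.ofReal (|w.snd|⁻¹) *
        ∫⁻ z : F, Θ w (WithLp.toLp 2 (z, -⟪w.fst, z⟫ / w.snd)) := by
    refine lintegral_congr_ae ?_
    filter_upwards [ae_snd_ne_zero] with w hw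
    rw [inner_eq Θ hΘ w hw, ← mul_assoc, ← ENNReal.ofReal_mul (by positivity)]
    congr 2
    have hw0 : w ≠ 0 := by
      rintro rfl
      exact hw rfl
    have : ‖w‖ ≠ 0 := norm_ne_zero_iff.mpr hw0
    field_simp
  rw [h1, lintegral_prodLp]
  · refine lintegral_congr fun a => ?_
    have hsw : ∀ b : ℝ, ENNReal.ofReal (|b|⁻¹) * ∫⁻ z : F, Θ (WithLp.toLp 2 (a, b))
          (WithLp.toLp 2 (z, -⟪a, z⟫ / b)) =
        ∫⁻ z : F, ENNReal.ofReal (|b|⁻¹) * Θ (WithLp.toLp 2 (a, b))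
          (WithLp.toLp 2 (z, -⟪a, z⟫ / b)) := by
      intro b
      rw [lintegral_const_mul]
      have h3 : Measurable (fun z : F => (((a, z), b) : (F × F) × ℝ)) := by fun_prop
      exact hK.comp h3
    have h4 : (fun b : ℝ => ENNReal.ofReal (|(WithLp.toLp 2 (a, b) : WithLp 2 (F × ℝ)).snd|⁻¹) *
        ∫⁻ z : F, Θ (WithLp.toLp 2 (a, b)) (WithLp.toLp 2
          (z, -⟪(WithLp.toLp 2 (a, b) : WithLp 2 (F × ℝ)).fst, z⟫ /
            (WithLp.toLp 2 (a, b) : WithLp 2 (F × ℝ)).snd))) =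
        fun b : ℝ => ∫⁻ z : F, ENNReal.ofReal (|b|⁻¹) * Θ (WithLp.toLp 2 (a, b))
          (WithLp.toLp 2 (z, -⟪a, z⟫ / b)) := by
      ext b
      exact hsw b
    rw [h4, lintegral_lintegral_swap]
    refine Measurable.aemeasurable ?_
    have h5 : Measurable (fun p : ℝ × F => (((a, p.2), p.1) : (F × F) × ℝ)) := by fun_prop
    have h6 : Measurable (fun p : ℝ × F => ENNReal.ofReal (|p.1|⁻¹)) := by fun_prop
    exact h6.mul (hK.comp h5)
  · refine Measurable.mul ?_ (measurable_kernel' Θ hΘ)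
    refine ENNReal.measurable_ofReal.comp ?_
    exact (continuous_abs.measurable.comp measurable_snd2).inv

theorem ae_inner_ne_zero (a : F) (ha : a ≠ 0) : ∀ᵐ z : F, ⟪a, z⟫ ≠ 0 := by
  rw [ae_iff]
  simp only [ne_eq, not_not]
  have h : {z : F | ⟪a, z⟫ = 0} = ((ℝ ∙ a)ᗮ : Submodule ℝ F) := by
    ext z
    rw [SetLike.mem_coe, Submodule.mem_orthogonal_singleton_iff_inner_right]
    rfl
  rw [h]
  refine Measure.addHaar_submodule _ _ ?_
  intro htop
  have : a ∈ (ℝ ∙ a)ᗮ := by rw [htop]; trivial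
  rw [Submodule.mem_orthogonal_singleton_iff_inner_right] at this
  exact ha (inner_self_eq_zero.mp this)

theorem orth_symmH (hF : 1 ≤ finrank ℝ F) (Θ : WithLp 2 (F × ℝ) → WithLp 2 (F × ℝ) → ℝ≥0∞)
    (hΘ : Measurable (Function.uncurry Θ)) :
    ∫⁻ w : WithLp 2 (F × ℝ), ENNReal.ofReal (‖w‖⁻¹) * ∫⁻ x : (ℝ ∙ w)ᗮ, Θ w x =
      ∫⁻ w : WithLp 2 (F × ℝ), ENNReal.ofReal (‖w‖⁻¹) * ∫⁻ x : (ℝ ∙ w)ᗮ, Θ x w := by
  have hΘ' : Measurable (Function.uncurry (fun x w => Θ w x)) := hΘ.comp measurable_swap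
  rw [symH_coord Θ hΘ, symH_coord (fun x w => Θ w x) hΘ']
  have hK := measurable_kernel Θ hΘ
  have hK' := measurable_kernel (fun x w => Θ w x) hΘ'
  have : Nontrivial F := Module.nontrivial_of_finrank_pos (R := ℝ) (by omega)
  rw [lintegral_lintegral_swap (f := fun a z : F => ∫⁻ b : ℝ, ENNReal.ofReal (|b|⁻¹) *
        Θ (WithLp.toLp 2 (z, -⟪a, z⟫ / b)) (WithLp.toLp 2 (a, b)))]
  · refine lintegral_congr_ae ?_
    have hne : ∀ᵐ a : F, a ≠ 0 := by
      rw [ae_iff]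
      simp
    filter_upwards [hne] with a ha
    refine lintegral_congr_ae ?_
    filter_upwards [ae_inner_ne_zero a ha] with z hz
    rw [lintegral_subst_negdiv ⟪a, z⟫ hz (fun b => Θ (WithLp.toLp 2 (a, b))
      (WithLp.toLp 2 (z, -⟪a, z⟫ / b)))]
    refine lintegral_congr_ae ?_
    have hne : ∀ᵐ t : ℝ, t ≠ 0 := by
      rw [ae_iff]
      simp
    filter_upwards [hne] with t ht
    have e1 : -⟪a, z⟫ / (-⟪a, z⟫ / t) = t := by
      field_simp
    simp only [e1]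
    rw [real_inner_comm z a]
  · refine Measurable.aemeasurable ?_
    have h7 : Measurable (fun q : (F × F) × ℝ => ENNReal.ofReal (|q.2|⁻¹) *
        Θ (WithLp.toLp 2 (q.1.2, -⟪q.1.1, q.1.2⟫ / q.2)) (WithLp.toLp 2 (q.1.1, q.2))) := by
      have h6 : Measurable (fun q : (F × F) × ℝ => ENNReal.ofReal (|q.2|⁻¹)) := by fun_prop
      exact h6.mul hK'
    exact h7.lintegral_prod_right'

end SymH

variable {E : Type*} [NormedAddCommGroup E] [InnerProductSpace ℝ E] [FiniteDimensional ℝ E]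
  [MeasurableSpace E] [BorelSpace E]

omit [MeasurableSpace E] [BorelSpace E] in
/-- an isometry onto a product `F × ℝ` with `dim F ≥ 1` -/
theorem exists_isometry' (hE : 2 ≤ finrank ℝ E) :
    ∃ d : ℕ, 1 ≤ d ∧ Nonempty (E ≃ₗᵢ[ℝ] WithLp 2 (EuclideanSpace ℝ (Fin d) × ℝ)) := by
  have : Nontrivial E := Module.nontrivial_of_finrank_pos (R := ℝ) (by omega)
  obtain ⟨e, he⟩ := exists_norm_eq E (zero_le_one' ℝ)
  obtain ⟨d, hd⟩ : ∃ d, finrank ℝ E = d + 1 := ⟨finrank ℝ E - 1, by omega⟩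
  obtain ⟨Φ, -⟩ := exists_isometry d hd e he
  exact ⟨d, by omega, ⟨Φ⟩⟩

/-- measurability of `w ↦ ∫_{w^⊥} Θ(w,x) dx` -/
theorem aemeasurable_orth (hE : 2 ≤ finrank ℝ E) (Θ : E → E → ℝ≥0∞)
    (hΘ : Measurable (Function.uncurry Θ)) :
    AEMeasurable (fun w : E => ∫⁻ x : (ℝ ∙ w)ᗮ, Θ w x) := by
  obtain ⟨d, -, ⟨Φ⟩⟩ := exists_isometry' hE
  have hs : Measurable Φ.symm := Φ.symm.continuous.measurable
  have h := aemeasurable_orthH (F := EuclideanSpace ℝ (Fin d))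
    (fun w x => Θ (Φ.symm w) (Φ.symm x))
    (hΘ.comp ((hs.comp measurable_fst).prodMk (hs.comp measurable_snd)))
  have h2 := AEMeasurable.comp_quasiMeasurePreserving h Φ.measurePreserving.quasiMeasurePreserving
  refine h2.congr (Filter.Eventually.of_forall fun w => ?_)
  simp only [Function.comp_apply, Φ.symm_apply_apply]
  rw [lintegral_orth_map Φ w (fun x => Θ w (Φ.symm x))]
  simp

theorem symm_aux (Θ : E → E → ℝ≥0∞) {E' : Type*} [NormedAddCommGroup E'] [InnerProductSpace ℝ E']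
    [FiniteDimensional ℝ E'] [MeasurableSpace E'] [BorelSpace E'] (Φ : E ≃ₗᵢ[ℝ] E') :
    ∫⁻ w : E, ENNReal.ofReal (‖w‖⁻¹) * ∫⁻ x : (ℝ ∙ w)ᗮ, Θ w x =
      ∫⁻ w : E', ENNReal.ofReal (‖w‖⁻¹) * ∫⁻ x : (ℝ ∙ w)ᗮ, Θ (Φ.symm w) (Φ.symm x) := by
  rw [← Φ.measurePreserving.lintegral_comp_emb Φ.toHomeomorph.measurableEmbedding]
  refine lintegral_congr fun w => ?_
  rw [lintegral_orth_map Φ w (fun x => Θ (Φ.symm (Φ w)) (Φ.symm x)), Φ.norm_map]
  simp

/-- (S): `∫∫ Θ(w,x) δ(⟨w,x⟩) dw dx` is symmetric. -/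
theorem orth_symm (hE : 2 ≤ finrank ℝ E) (Θ : E → E → ℝ≥0∞)
    (hΘ : Measurable (Function.uncurry Θ)) :
    ∫⁻ w : E, ENNReal.ofReal (‖w‖⁻¹) * ∫⁻ x : (ℝ ∙ w)ᗮ, Θ w x =
      ∫⁻ w : E, ENNReal.ofReal (‖w‖⁻¹) * ∫⁻ x : (ℝ ∙ w)ᗮ, Θ x w := by
  obtain ⟨d, hd, ⟨Φ⟩⟩ := exists_isometry' hE
  have hs : Measurable Φ.symm := Φ.symm.continuous.measurable
  rw [symm_aux Θ Φ, symm_aux (fun w x => Θ x w) Φ]
  exact orth_symmH (F := EuclideanSpace ℝ (Fin d)) (by simpa using hd)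
    (fun w x => Θ (Φ.symm w) (Φ.symm x))
    (hΘ.comp ((hs.comp measurable_fst).prodMk (hs.comp measurable_snd)))

end StarIB
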