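import Pool.Agent.StarIB.Def

/-! # Module B: integrals over hyperplanes `w^⊥` (volume factor, transfer by isometries, polar
coordinates) -/

open MeasureTheory Set Metric Module
open scoped ENNReal RealInnerProductSpace

namespace StarIB

section VF
variable {F : Type*} [NormedAddCommGroup F] [InnerProductSpace ℝ F] [FiniteDimensional ℝ F]
  [MeasurableSpace F] [BorelSpace F]

/-- integral over `F × ℝ` as an iterated integral -/
theorem lintegral_prodLp (f : WithLp 2 (F × ℝ) → ℝ≥0∞) (hf : Measurable f) :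
    ∫⁻ x, f x = ∫⁻ z : F, ∫⁻ t : ℝ, f (WithLp.toLp 2 (z, t)) := by
  rw [← (WithLp.volume_preserving_toLp F ℝ).lintegral_comp hf, Measure.volume_eq_prod,
    lintegral_prod]
  exact (hf.comp (WithLp.volume_preserving_toLp F ℝ).measurable).aemeasurable

omit [FiniteDimensional ℝ F] [MeasurableSpace F] [BorelSpace F] in
theorem mem_orth_prod (a : F) (b : ℝ) (x : WithLp 2 (F × ℝ)) :
    x ∈ (ℝ ∙ (WithLp.toLp 2 (a, b) : WithLp 2 (F × ℝ)))ᗮ ↔ ⟪a, x.fst⟫ + b * x.snd = 0 := by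
  rw [Submodule.mem_orthogonal_singleton_iff_inner_right, WithLp.prod_inner_apply]
  simp [mul_comm]

/-- parametrisation of `(a,0)^⊥` -/
noncomputable def orthZero (a : F) : WithLp 2 (↥(ℝ ∙ a)ᗮ × ℝ) ≃ₗᵢ[ℝ]
    ↥(ℝ ∙ (WithLp.toLp 2 (a, (0 : ℝ)) : WithLp 2 (F × ℝ)))ᗮ where
  toFun p := ⟨WithLp.toLp 2 ((p.fst : F), p.snd), by
    rw [mem_orth_prod]
    have := (Submodule.mem_orthogonal_singleton_iff_inner_right (𝕜 := ℝ)).mp p.fst.2
    simp [this]⟩
  invFun x := WithLp.toLp 2 (⟨(x : WithLp 2 (F × ℝ)).fst, by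
    have := (mem_orth_prod a 0 _).mp x.2
    rw [Submodule.mem_orthogonal_singleton_iff_inner_right]
    simpa using this⟩, (x : WithLp 2 (F × ℝ)).snd)
  left_inv p := by
    rfl
  right_inv x := by
    rfl
  map_add' p q := by
    rfl
  map_smul' c p := by
    rfl
  norm_map' p := by
    have h1 : ‖p‖ ^ 2 = ‖p.fst‖ ^ 2 + ‖p.snd‖ ^ 2 := WithLp.prod_norm_sq_eq_of_L2 p
    have h2 : ‖(WithLp.toLp 2 ((p.fst : F), p.snd) : WithLp 2 (F × ℝ))‖ ^ 2
      = ‖(p.fst : F)‖ ^ 2 + ‖p.snd‖ ^ 2 := WithLp.prod_norm_sq_eq_of_L2 _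
    have h3 : ‖(WithLp.toLp 2 ((p.fst : F), p.snd) : WithLp 2 (F × ℝ))‖ ^ 2 = ‖p‖ ^ 2 := by
      rw [h2, h1]
      rfl
    exact (pow_left_inj₀ (norm_nonneg _) (norm_nonneg _) two_ne_zero).mp h3

/-- The hyperplane orthogonal to `(a,0)`, `a ≠ 0`, is `a^⊥ × ℝ`. -/
theorem lintegral_orth_prod_zero (a : F) (f : WithLp 2 (F × ℝ) → ℝ≥0∞)
    (hf : Measurable f) :
    ∫⁻ x : (ℝ ∙ (WithLp.toLp 2 (a, (0 : ℝ)) : WithLp 2 (F × ℝ)))ᗮ, f x =
      ∫⁻ y : (ℝ ∙ a)ᗮ, ∫⁻ t : ℝ, f (WithLp.toLp 2 ((y : F), t)) := by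
  have hm : Measurable (fun x : ↥(ℝ ∙ (WithLp.toLp 2 (a, (0 : ℝ)) : WithLp 2 (F × ℝ)))ᗮ =>
      f (x : WithLp 2 (F × ℝ))) := hf.comp measurable_subtype_coe
  rw [← (orthZero a).measurePreserving.lintegral_comp hm,
    lintegral_prodLp (fun p => f ((orthZero a p : ↥(ℝ ∙ (WithLp.toLp 2 (a, (0 : ℝ)) :
      WithLp 2 (F × ℝ)))ᗮ) : WithLp 2 (F × ℝ)))]
  · rfl
  · exact hm.comp (orthZero a).continuous.measurable

/-- parametrisation of `(a,b)^⊥` -/
noncomputable def orthT (a : F) (b : ℝ) (hb : b ≠ 0) : F ≃ₗ[ℝ]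
    ↥(ℝ ∙ (WithLp.toLp 2 (a, b) : WithLp 2 (F × ℝ)))ᗮ where
  toFun z := ⟨WithLp.toLp 2 (z, -⟪a, z⟫ / b), by
    rw [mem_orth_prod]
    simp only [WithLp.toLp_fst, WithLp.toLp_snd]
    field_simp
    ring⟩
  invFun x := (x : WithLp 2 (F × ℝ)).fst
  left_inv z := by rfl
  right_inv x := by
    have := (mem_orth_prod a b _).mp x.2
    apply Subtype.ext
    apply WithLp.ofLp_injective
    refine Prod.ext rfl ?_
    have h : -⟪a, (x : WithLp 2 (F × ℝ)).fst⟫ / b = (x : WithLp 2 (F × ℝ)).snd := by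
      rw [div_eq_iff hb]
      linarith
    exact h
  map_add' p q := by
    apply Subtype.ext
    apply WithLp.ofLp_injective
    refine Prod.ext rfl ?_
    have h : -⟪a, p + q⟫ / b = -⟪a, p⟫ / b + -⟪a, q⟫ / b := by
      rw [inner_add_right]
      ring
    exact h
  map_smul' c p := by
    apply Subtype.ext
    apply WithLp.ofLp_injective
    refine Prod.ext rfl ?_
    have h : -⟪a, c • p⟫ / b = c * (-⟪a, p⟫ / b) := by
      rw [inner_smul_right]
      ring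
    exact h

omit [FiniteDimensional ℝ F] [MeasurableSpace F] [BorelSpace F] in
theorem orthT_inner (a : F) (b : ℝ) (hb : b ≠ 0) (x y : F) :
    ⟪orthT a b hb x, orthT a b hb y⟫ = ⟪x, y⟫ + ⟪a, x⟫ * ⟪a, y⟫ / b ^ 2 := by
  have h : ⟪orthT a b hb x, orthT a b hb y⟫
      = ⟪(WithLp.toLp 2 (x, -⟪a, x⟫ / b) : WithLp 2 (F × ℝ)), WithLp.toLp 2 (y, -⟪a, y⟫ / b)⟫ := rfl
  rw [h, WithLp.prod_inner_apply]
  simp only [RCLike.inner_apply, conj_trivial]
  field_simp

/-- Volume factor: parametrisation of the hyperplane orthogonal to `(a,b)`, `b ≠ 0`, of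
`F × ℝ` by `F` (no measurability assumption). -/
theorem lintegral_orth_prod' (a : F) (b : ℝ) (hb : b ≠ 0) (f : WithLp 2 (F × ℝ) → ℝ≥0∞) :
    ∫⁻ x : (ℝ ∙ (WithLp.toLp 2 (a, b) : WithLp 2 (F × ℝ)))ᗮ, f x =
      ENNReal.ofReal (√(‖a‖ ^ 2 + b ^ 2) / |b|) *
        ∫⁻ z : F, f (WithLp.toLp 2 (z, -⟪a, z⟫ / b)) := by
  set W := (ℝ ∙ (WithLp.toLp 2 (a, b) : WithLp 2 (F × ℝ)))ᗮ with hW
  have hfin : finrank ℝ W = finrank ℝ F := (orthT a b hb).finrank_eq.symm
  set bW : OrthonormalBasis (Fin (finrank ℝ F)) ℝ W :=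
    (stdOrthonormalBasis ℝ W).reindex (finCongr hfin)
  set Ψ : F ≃ₗᵢ[ℝ] W := (stdOrthonormalBasis ℝ F).repr.trans bW.repr.symm with hΨ
  set S : F ≃ₗ[ℝ] F := (orthT a b hb).trans Ψ.symm.toLinearEquiv with hS
  have hSin : ∀ x y : F, ⟪S x, S y⟫ = ⟪x, y⟫ + ⟪a, x⟫ * ⟪a, y⟫ / b ^ 2 := by
    intro x y
    rw [← orthT_inner a b hb]
    exact Ψ.symm.inner_map_map _ _
  have hadj : (S : F →ₗ[ℝ] F).adjoint ∘ₗ (S : F →ₗ[ℝ] F) =
      LinearMap.transvection ((b ^ 2)⁻¹ • (innerₛₗ ℝ a)) a := by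
    apply LinearMap.ext
    intro x
    apply ext_inner_right ℝ
    intro y
    rw [LinearMap.comp_apply, LinearMap.adjoint_inner_left, LinearEquiv.coe_coe, hSin,
      LinearMap.transvection.apply]
    simp only [LinearMap.smul_apply, innerₛₗ_apply_apply, smul_eq_mul, inner_add_left,
      inner_smul_left, conj_trivial]
    ring
  have hdet2 : |LinearMap.det (S : F →ₗ[ℝ] F)| ^ 2 = 1 + ‖a‖ ^ 2 / b ^ 2 := by
    have h1 := LinearMap.normDet_sq (S : F →ₗ[ℝ] F)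
    rw [hadj, LinearMap.transvection.det] at h1
    rw [← Real.norm_eq_abs, ← LinearMap.normDet_eq_norm_det]
    have h2 : ((S : F →ₗ[ℝ] F).normDet ^ 2 : ℝ) = 1 + ((b ^ 2)⁻¹ • (innerₛₗ ℝ a)) a := by
      exact_mod_cast h1
    rw [h2]
    simp only [LinearMap.smul_apply, innerₛₗ_apply_apply, smul_eq_mul,
      real_inner_self_eq_norm_sq]
    ring
  have hdet : |LinearMap.det (S : F →ₗ[ℝ] F)| = √(‖a‖ ^ 2 + b ^ 2) / |b| := by
    rw [← Real.sqrt_sq (abs_nonneg (LinearMap.det (S : F →ₗ[ℝ] F))), hdet2,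
      ← Real.sqrt_sq_eq_abs, ← Real.sqrt_div (by positivity)]
    congr 1
    field_simp
    ring
  have hdet0 : LinearMap.det (S : F →ₗ[ℝ] F) ≠ 0 := by
    intro h0
    rw [h0] at hdet2
    have : 0 ≤ ‖a‖ ^ 2 / b ^ 2 := by positivity
    simp at hdet2
    linarith
  rw [← Ψ.measurePreserving.lintegral_comp_emb Ψ.toHomeomorph.measurableEmbedding]
  have hemb : MeasurableEmbedding (S : F → F) :=
    S.toContinuousLinearEquiv.toHomeomorph.measurableEmbedding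
  have h3 : ∫⁻ z : F, f (WithLp.toLp 2 (z, -⟪a, z⟫ / b))
      = ENNReal.ofReal |(LinearMap.det (S : F →ₗ[ℝ] F))⁻¹| *
        ∫⁻ z : F, f (Ψ z : WithLp 2 (F × ℝ)) := by
    have h4 : ∀ z : F, f (WithLp.toLp 2 (z, -⟪a, z⟫ / b))
        = (fun z : F => f (Ψ z : WithLp 2 (F × ℝ))) (S z) := by
      intro z
      have : Ψ (S z) = orthT a b hb z := by
        rw [hS]
        exact Ψ.apply_symm_apply _
      simp only [this]
      rfl
    have h5 : Measure.map (S : F → F) volume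
        = ENNReal.ofReal |(LinearMap.det (S : F →ₗ[ℝ] F))⁻¹| • (volume : Measure F) :=
      Measure.map_linearMap_addHaar_eq_smul_addHaar volume hdet0
    have h6 := hemb.lintegral_map (μ := volume) (fun z : F => f (Ψ z : WithLp 2 (F × ℝ)))
    rw [h5, lintegral_smul_measure, smul_eq_mul] at h6
    rw [h6]
    exact lintegral_congr h4
  rw [h3, ← hdet, ← mul_assoc, ← ENNReal.ofReal_mul (abs_nonneg _), ← abs_mul,
    mul_inv_cancel₀ hdet0]
  simp

/-- Volume factor: parametrisation of the hyperplane orthogonal to `(a,b)`, `b ≠ 0`, of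
`F × ℝ` by `F`. -/
theorem lintegral_orth_prod (a : F) (b : ℝ) (hb : b ≠ 0) (f : WithLp 2 (F × ℝ) → ℝ≥0∞)
    (hf : Measurable f) :
    ∫⁻ x : (ℝ ∙ (WithLp.toLp 2 (a, b) : WithLp 2 (F × ℝ)))ᗮ, f x =
      ENNReal.ofReal (√(‖a‖ ^ 2 + b ^ 2) / |b|) *
        ∫⁻ z : F, f (WithLp.toLp 2 (z, -⟪a, z⟫ / b)) :=
  lintegral_orth_prod' a b hb f

end VF

section Map
variable {E : Type*} [NormedAddCommGroup E] [InnerProductSpace ℝ E] [FiniteDimensional ℝ E]
  [MeasurableSpace E] [BorelSpace E]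
variable {E' : Type*} [NormedAddCommGroup E'] [InnerProductSpace ℝ E'] [FiniteDimensional ℝ E']
  [MeasurableSpace E'] [BorelSpace E']

/-- restriction of a linear isometry to a hyperplane -/
noncomputable def orthEquiv (Φ : E ≃ₗᵢ[ℝ] E') (w : E) : ↥(ℝ ∙ w)ᗮ ≃ₗᵢ[ℝ] ↥(ℝ ∙ (Φ w))ᗮ where
  toFun x := ⟨Φ x, by
    rw [Submodule.mem_orthogonal_singleton_iff_inner_right, Φ.inner_map_map]
    exact (Submodule.mem_orthogonal_singleton_iff_inner_right (𝕜 := ℝ)).mp x.2⟩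
  invFun y := ⟨Φ.symm y, by
    rw [Submodule.mem_orthogonal_singleton_iff_inner_right, ← Φ.inner_map_map,
      Φ.apply_symm_apply]
    exact (Submodule.mem_orthogonal_singleton_iff_inner_right (𝕜 := ℝ)).mp y.2⟩
  left_inv x := by
    apply Subtype.ext
    exact Φ.symm_apply_apply _
  right_inv x := by
    apply Subtype.ext
    exact Φ.apply_symm_apply _
  map_add' p q := by
    apply Subtype.ext
    exact map_add Φ _ _
  map_smul' c p := by
    apply Subtype.ext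
    exact map_smul Φ _ _
  norm_map' p := Φ.norm_map _

theorem lintegral_orth_map (Φ : E ≃ₗᵢ[ℝ] E') (w : E) (f : E' → ℝ≥0∞) :
    ∫⁻ x : (ℝ ∙ (Φ w))ᗮ, f x = ∫⁻ x : (ℝ ∙ w)ᗮ, f (Φ x) := by
  rw [← (orthEquiv Φ w).measurePreserving.lintegral_comp_emb
    (orthEquiv Φ w).toHomeomorph.measurableEmbedding]
  rfl

/-- action of a linear isometry on unit spheres -/
noncomputable def sphEquiv (Φ : E ≃ₗᵢ[ℝ] E') : sphere (0 : E) 1 ≃ₜ sphere (0 : E') 1 where
  toFun x := ⟨Φ x, by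
    have := x.2
    rw [mem_sphere_zero_iff_norm] at this ⊢
    rw [Φ.norm_map, this]⟩
  invFun y := ⟨Φ.symm y, by
    have := y.2
    rw [mem_sphere_zero_iff_norm] at this ⊢
    rw [Φ.symm.norm_map, this]⟩
  left_inv x := by
    apply Subtype.ext
    exact Φ.symm_apply_apply _
  right_inv x := by
    apply Subtype.ext
    exact Φ.apply_symm_apply _
  continuous_toFun := by
    apply Continuous.subtype_mk
    exact Φ.continuous.comp continuous_subtype_val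
  continuous_invFun := by
    apply Continuous.subtype_mk
    exact Φ.symm.continuous.comp continuous_subtype_val

open scoped Pointwise in
theorem toSphere_map (Φ : E ≃ₗᵢ[ℝ] E') :
    MeasurePreserving (sphEquiv Φ) (volume : Measure E).toSphere
      (volume : Measure E').toSphere := by
  refine ⟨(sphEquiv Φ).continuous.measurable, ?_⟩
  ext s hs
  rw [Measure.map_apply (sphEquiv Φ).continuous.measurable hs,
    Measure.toSphere_apply' _ ((sphEquiv Φ).continuous.measurable hs),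
    Measure.toSphere_apply' _ hs, Φ.toLinearEquiv.finrank_eq]
  congr 1
  have hset : (Ioo (0 : ℝ) 1 • ((↑) '' ((sphEquiv Φ) ⁻¹' s)) : Set E)
      = Φ ⁻¹' (Ioo (0 : ℝ) 1 • ((↑) '' s)) := by
    ext x
    simp only [Set.mem_smul, Set.mem_image, Set.mem_preimage]
    constructor
    · rintro ⟨r, hr, y, ⟨θ, hθ, rfl⟩, rfl⟩
      exact ⟨r, hr, _, ⟨sphEquiv Φ θ, hθ, rfl⟩, (map_smul Φ r (θ : E)).symm⟩
    · rintro ⟨r, hr, y, ⟨θ, hθ, rfl⟩, h⟩
      refine ⟨r, hr, _, ⟨(sphEquiv Φ).symm θ, ?_, rfl⟩, ?_⟩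
      · rwa [Homeomorph.apply_symm_apply]
      · apply Φ.injective
        rw [← h]
        exact (map_smul Φ r _).trans (by rw [show Φ ((sphEquiv Φ).symm θ : E) = (θ : E') from
          Φ.apply_symm_apply _])
  rw [hset]
  exact Φ.measurePreserving.measure_preimage_emb Φ.toHomeomorph.measurableEmbedding _

theorem lsph_map (Φ : E ≃ₗᵢ[ℝ] E') (w : E) (f : E' → ℝ≥0∞) :
    lsph f (Φ w) = lsph (fun x => f (Φ x)) w := by
  rw [lsph, lsph, ← (toSphere_map (orthEquiv Φ w)).lintegral_comp_emb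
    (sphEquiv (orthEquiv Φ w)).measurableEmbedding]
  rfl

theorem sphInt_map (Φ : E ≃ₗᵢ[ℝ] E') (w : E) (f : E' → ℝ) :
    sphInt f (Φ w) = sphInt (fun x => f (Φ x)) w := by
  rw [sphInt, sphInt, ← (toSphere_map (orthEquiv Φ w)).integral_comp
    (sphEquiv (orthEquiv Φ w)).measurableEmbedding]
  rfl

theorem sphInt_aux (f : E → ℝ) (U V : Submodule ℝ E) (h : U = V) :
    ∫ v : sphere (0 : ↥Uᗮ) 1, f ((v : ↥Uᗮ) : E) ∂((volume : Measure ↥Uᗮ).toSphere) =
      ∫ v : sphere (0 : ↥Vᗮ) 1, f ((v : ↥Vᗮ) : E) ∂((volume : Measure ↥Vᗮ).toSphere) := by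
  subst h
  rfl

theorem lsph_aux (f : E → ℝ≥0∞) (U V : Submodule ℝ E) (h : U = V) :
    ∫⁻ v : sphere (0 : ↥Uᗮ) 1, f ((v : ↥Uᗮ) : E) ∂((volume : Measure ↥Uᗮ).toSphere) =
      ∫⁻ v : sphere (0 : ↥Vᗮ) 1, f ((v : ↥Vᗮ) : E) ∂((volume : Measure ↥Vᗮ).toSphere) := by
  subst h
  rfl

/-- `R f` only depends on the line spanned by `u` -/
theorem sphInt_smul (f : E → ℝ) (u : E) (s : ℝ) (hs : s ≠ 0) :
    sphInt f (s • u) = sphInt f u :=
  sphInt_aux f _ _ (Submodule.span_singleton_smul_eq (IsUnit.mk0 s hs) u)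

theorem lsph_smul (f : E → ℝ≥0∞) (u : E) (s : ℝ) (hs : s ≠ 0) :
    lsph f (s • u) = lsph f u :=
  lsph_aux f _ _ (Submodule.span_singleton_smul_eq (IsUnit.mk0 s hs) u)

omit [MeasurableSpace E] [BorelSpace E] in
/-- Existence of coordinates: for a unit vector `e` of `E`, `dim E = d+1`, there is an isometry of
`E` with `EuclideanSpace ℝ (Fin d) × ℝ` mapping `e` to `(0,1)`. -/
theorem exists_isometry (d : ℕ) (hd : finrank ℝ E = d + 1) (e : E) (he : ‖e‖ = 1) :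
    ∃ Φ : E ≃ₗᵢ[ℝ] WithLp 2 (EuclideanSpace ℝ (Fin d) × ℝ),
      Φ e = WithLp.toLp 2 ((0 : EuclideanSpace ℝ (Fin d)), (1 : ℝ)) := by
  have h2 : finrank ℝ (WithLp 2 (EuclideanSpace ℝ (Fin d) × ℝ)) = d + 1 := by
    rw [(WithLp.linearEquiv 2 ℝ (EuclideanSpace ℝ (Fin d) × ℝ)).finrank_eq, finrank_prod]
    simp
  set Ψ : E ≃ₗᵢ[ℝ] WithLp 2 (EuclideanSpace ℝ (Fin d) × ℝ) :=
    ((stdOrthonormalBasis ℝ E).reindex (finCongr hd)).repr.trans
      ((stdOrthonormalBasis ℝ _).reindex (finCongr h2)).repr.symm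
  set e1 : WithLp 2 (EuclideanSpace ℝ (Fin d) × ℝ) :=
    WithLp.toLp 2 ((0 : EuclideanSpace ℝ (Fin d)), (1 : ℝ)) with he1
  have hn : ‖Ψ e‖ = ‖e1‖ := by
    rw [Ψ.norm_map, he]
    have h3 : ‖e1‖ ^ 2 = 1 := by
      rw [WithLp.prod_norm_sq_eq_of_L2]
      simp [he1]
    have h4 : ‖e1‖ = 1 := by
      rw [← Real.sqrt_sq (norm_nonneg e1), h3, Real.sqrt_one]
    exact h4.symm
  refine ⟨Ψ.trans (Submodule.reflection (ℝ ∙ (Ψ e - e1))ᗮ), ?_⟩
  exact Submodule.reflection_sub hn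

/-- Polar coordinates in `E`. -/
theorem lintegral_polar [Nontrivial E] (f : E → ℝ≥0∞) (hf : Measurable f) :
    ∫⁻ x : E, f x = ∫⁻ θ : sphere (0 : E) 1,
      (∫⁻ r in Ioi (0 : ℝ), ENNReal.ofReal (r ^ (finrank ℝ E - 1)) * f (r • (θ : E)))
        ∂((volume : Measure E).toSphere) := by
  have h1 : ∫⁻ x : E, f x = ∫⁻ x in ({(0 : E)}ᶜ : Set E), f x := by
    rw [restrict_compl_singleton]
  rw [h1, ← lintegral_subtype_comap (measurableSet_singleton _).compl]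
  have hmp := (volume : Measure E).measurePreserving_homeomorphUnitSphereProd
  have hg : Measurable (fun p : sphere (0 : E) 1 × Ioi (0 : ℝ) => f ((p.2 : ℝ) • (p.1 : E))) := by
    apply hf.comp
    exact ((measurable_subtype_coe.comp measurable_snd).smul
      (measurable_subtype_coe.comp measurable_fst))
  have h2 : ∀ x : ({(0 : E)}ᶜ : Set E), f x
      = (fun p : sphere (0 : E) 1 × Ioi (0 : ℝ) => f ((p.2 : ℝ) • (p.1 : E)))
        (homeomorphUnitSphereProd E x) := by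
    intro x
    have : ((homeomorphUnitSphereProd E).symm (homeomorphUnitSphereProd E x) : E) = x := by
      rw [Homeomorph.symm_apply_apply]
    conv_lhs => rw [← this]
    rfl
  simp_rw [h2]
  rw [hmp.lintegral_comp hg, lintegral_prod _ hg.aemeasurable]
  refine lintegral_congr fun θ => ?_
  rw [Measure.volumeIoiPow, lintegral_withDensity_eq_lintegral_mul _ (by fun_prop)
    (by exact hg.comp measurable_prodMk_left),
    ← lintegral_subtype_comap measurableSet_Ioi]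
  rfl

omit [FiniteDimensional ℝ E] [MeasurableSpace E] [BorelSpace E] in
theorem finrank_orth (w : E) (hw : w ≠ 0) (hE : 1 ≤ finrank ℝ E) :
    finrank ℝ ↥(ℝ ∙ w)ᗮ = finrank ℝ E - 1 := by
  have : Fact (finrank ℝ E = (finrank ℝ E - 1) + 1) := ⟨by omega⟩
  exact Submodule.finrank_orthogonal_span_singleton hw

/-- Polar coordinates in a hyperplane `w^⊥` for the product of a function homogeneous of degree
`0` and a radial function. -/
theorem lintegral_orth_polar (hE : 2 ≤ finrank ℝ E) (w : E) (hw : w ≠ 0) (f : E → ℝ≥0∞)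
    (hf : Measurable f) (hom : ∀ x : E, x ≠ 0 → ∀ s : ℝ, 0 < s → f (s • x) = f x)
    (k : ℝ → ℝ≥0∞) (hk : Measurable k) :
    ∫⁻ x : (ℝ ∙ w)ᗮ, f x * k ‖(x : E)‖ =
      lsph f w * ∫⁻ r in Ioi (0 : ℝ), ENNReal.ofReal (r ^ (finrank ℝ E - 2)) * k r := by
  have hfin := finrank_orth w hw (by omega)
  have : Nontrivial ↥(ℝ ∙ w)ᗮ := by
    apply Module.nontrivial_of_finrank_pos (R := ℝ)
    omega
  have hm : Measurable (fun x : ↥(ℝ ∙ w)ᗮ => f x) := hf.comp measurable_subtype_coe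
  rw [lintegral_polar (fun x : ↥(ℝ ∙ w)ᗮ => f x * k ‖(x : E)‖)
    (hm.mul (hk.comp (by fun_prop))), hfin, lsph]
  have hms : Measurable (fun v : sphere (0 : ↥(ℝ ∙ w)ᗮ) 1 => f ((v : ↥(ℝ ∙ w)ᗮ) : E)) :=
    hm.comp measurable_subtype_coe
  rw [← lintegral_mul_const _ hms]
  refine lintegral_congr fun θ => ?_
  have hθ : ‖((θ : ↥(ℝ ∙ w)ᗮ) : E)‖ = 1 := by
    have := θ.2
    rwa [mem_sphere_zero_iff_norm] at this
  have hθ0 : ((θ : ↥(ℝ ∙ w)ᗮ) : E) ≠ 0 := by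
    intro h
    rw [h, norm_zero] at hθ
    exact zero_ne_one hθ
  rw [← lintegral_const_mul _ (by fun_prop)]
  refine setLIntegral_congr_fun measurableSet_Ioi fun r hr => ?_
  have hr' : (0 : ℝ) < r := hr
  have h1 : f ((r • (θ : ↥(ℝ ∙ w)ᗮ) : ↥(ℝ ∙ w)ᗮ) : E) = f ((θ : ↥(ℝ ∙ w)ᗮ) : E) :=
    hom _ hθ0 r hr'
  have h2 : ‖((r • (θ : ↥(ℝ ∙ w)ᗮ) : ↥(ℝ ∙ w)ᗮ) : E)‖ = r := by
    rw [Submodule.coe_smul, norm_smul, hθ, mul_one, Real.norm_eq_abs, abs_of_pos hr']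
  have h3 : finrank ℝ E - 1 - 1 = finrank ℝ E - 2 := by omega
  simp only [h1, h2, h3]
  ring

/-- finiteness of the total mass of the subsphere -/
theorem lsph_one_lt_top (w : E) : lsph (fun _ : E => 1) w < ∞ := by
  rw [lsph, lintegral_one]
  exact measure_lt_top _ _

/-- the total mass of the subsphere is positive and does not depend on `w ≠ 0`, for `n ≥ 2` -/
theorem lsph_one_const (hE : 2 ≤ finrank ℝ E) :
    ∃ c : ℝ, 0 < c ∧ ∀ w : E, w ≠ 0 → lsph (fun _ : E => 1) w = ENNReal.ofReal c := by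
  set G := EuclideanSpace ℝ (Fin (finrank ℝ E - 1))
  have hfinG : finrank ℝ G = finrank ℝ E - 1 := finrank_euclideanSpace_fin
  have hG : Nontrivial G := by
    apply Module.nontrivial_of_finrank_pos (R := ℝ)
    omega
  refine ⟨((volume : Measure G).toSphere univ).toReal, ?_, fun w hw => ?_⟩
  · apply ENNReal.toReal_pos _ (measure_ne_top _ _)
    rw [Ne, Measure.measure_univ_eq_zero]
    exact Measure.toSphere_ne_zero _
  · rw [ENNReal.ofReal_toReal (measure_ne_top _ _), lsph, lintegral_one]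
    have hfin := finrank_orth w hw (by omega)
    have Ψ : ↥(ℝ ∙ w)ᗮ ≃ₗᵢ[ℝ] G := ((stdOrthonormalBasis ℝ ↥(ℝ ∙ w)ᗮ).reindex (finCongr hfin)).repr
    have := (toSphere_map Ψ).measure_preimage (s := univ) MeasurableSet.univ.nullMeasurableSet
    rw [preimage_univ] at this
    exact this

/-- relation between the Bochner and the Lebesgue integral, for continuous functions -/
theorem lsph_ofReal (f : E → ℝ) (w : E) (hf : ContinuousOn f {x : E | x ≠ 0})
    (h0 : ∀ x, x ≠ 0 → 0 ≤ f x) :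
    lsph (fun x => ENNReal.ofReal (f x)) w = ENNReal.ofReal (sphInt f w) := by
  have hne : ∀ v : sphere (0 : ↥(ℝ ∙ w)ᗮ) 1, ((v : ↥(ℝ ∙ w)ᗮ) : E) ≠ 0 := by
    intro v h
    have h1 := v.2
    rw [mem_sphere_zero_iff_norm, Submodule.coe_norm, h, norm_zero] at h1
    exact zero_ne_one h1
  rw [lsph, sphInt, ofReal_integral_eq_lintegral_ofReal]
  · have hc : Continuous (fun v : sphere (0 : ↥(ℝ ∙ w)ᗮ) 1 => f ((v : ↥(ℝ ∙ w)ᗮ) : E)) :=
      hf.comp_continuous (continuous_subtype_val.comp continuous_subtype_val) hne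
    exact hc.integrable_of_hasCompactSupport (HasCompactSupport.of_compactSpace _)
  · exact Filter.Eventually.of_forall fun v => h0 _ (hne v)

end Map

end StarIB
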